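import Pool.Agent.H19.Good.DStep2

/-!
Admissible functions for the capacity; extension from smooth to bounded functions; convexity.
-/

open MeasureTheory Set Filter Topology
open scoped Real ENNReal NNReal ContDiff Laplacian Pointwise

namespace Pool.Agent.H19.Good

noncomputable section

variable {N : ℕ}

variable {Ω U K : Set (EuclideanSpace ℝ (Fin N))} {r r' C C' : ℝ} {s s' : EuclideanSpace ℝ (Fin N) → ℝ}

/-- admissible smooth functions -/
structure Adm (K : Set (EuclideanSpace ℝ (Fin N))) (δ B : ℝ) (s : EuclideanSpace ℝ (Fin N) → ℝ) : Prop where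
  smooth : ContDiff ℝ ∞ s
  cpt : HasCompactSupport s
  nonneg : ∀ x, 0 ≤ s x
  mass : ∫ x, s x ≤ δ
  ge_one : ∀ x ∈ K, 1 ≤ pot s x
  le_B : ∀ x, pot s x ≤ B

/-! ### algebra of bounded functions -/

lemma Bd.mono (h : Bd r C s) (hr : r ≤ r') (hC : C ≤ C') : Bd r' C' s :=
  ⟨h.meas, fun x => (h.bdd x).trans hC, fun x hx => h.supp x (hr.trans hx)⟩

lemma Bd.comb (h : Bd r C s) (h' : Bd r C' s') (a b : ℝ) :
    Bd r (|a| * C + |b| * C') (fun x => a * s x + b * s' x) := by
  refine ⟨(h.meas.const_mul a).add (h'.meas.const_mul b), fun x => ?_, fun x hx => ?_⟩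
  · refine (abs_add_le _ _).trans ?_
    rw [abs_mul, abs_mul]
    gcongr
    · exact h.bdd x
    · exact h'.bdd x
  · simp only [h.supp x hx, h'.supp x hx]; ring

lemma Bd.const_mul (h : Bd r C s) (a : ℝ) : Bd r (|a| * C) (fun x => a * s x) := by
  refine ⟨h.meas.const_mul a, fun x => ?_, fun x hx => ?_⟩
  · rw [abs_mul]
    gcongr
    exact h.bdd x
  · simp only [h.supp x hx]; ring

lemma Bd.indicator (h : Bd r C s) (hU : MeasurableSet U) : Bd r C (U.indicator s) := by
  refine ⟨h.meas.indicator hU, fun x => ?_, fun x hx => ?_⟩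
  · by_cases hxU : x ∈ U
    · rw [indicator_of_mem hxU]; exact h.bdd x
    · rw [indicator_of_notMem hxU, abs_zero]; exact h.C_nonneg
  · by_cases hxU : x ∈ U
    · rw [indicator_of_mem hxU]; exact h.supp x hx
    · rw [indicator_of_notMem hxU]

lemma pot_comb (hN : 3 ≤ N) (h : Bd r C s) (h' : Bd r' C' s') (a b : ℝ) (x : EuclideanSpace ℝ (Fin N)) :
    pot (fun x => a * s x + b * s' x) x = a * pot s x + b * pot s' x := by
  unfold pot
  rw [← integral_const_mul, ← integral_const_mul, ← integral_add ((h.pot_integrand hN x).const_mul a)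
    ((h'.pot_integrand hN x).const_mul b)]
  refine integral_congr_ae (Eventually.of_forall fun t => ?_)
  simp only
  ring

lemma pot_const_mul (a : ℝ) (s : EuclideanSpace ℝ (Fin N) → ℝ) (x : EuclideanSpace ℝ (Fin N)) :
    pot (fun x => a * s x) x = a * pot s x := by
  unfold pot
  rw [← integral_const_mul]
  refine integral_congr_ae (Eventually.of_forall fun t => ?_)
  simp only
  ring

/-- mollification of bounded functions -/
lemma Bd.moll (h : Bd r C s) (n : ℕ) : Bd (r + 1) C (cv volume s (moll n)) := by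
  refine ⟨(cv_contDiff h.integrable.locallyIntegrable (moll_contDiff n) (moll_cpt n)).continuous.measurable,
    fun x => cv_moll_bound h.bdd x, fun x hx => ?_⟩
  unfold cv
  have : ∀ t, s t * Good.moll n (x - t) = 0 := by
    intro t
    by_cases ht : r ≤ ‖t‖
    · rw [h.supp t ht, zero_mul]
    · rw [moll_eq_zero n, mul_zero]
      have h2 := norm_sub_norm_le x t
      have h3 : 1 / ((n : ℝ) + 1) ≤ 1 := by
        rw [div_le_one (by positivity)]
        linarith [(Nat.cast_nonneg n : (0:ℝ) ≤ n)]
      linarith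
  simp_rw [this]
  exact integral_zero _ _

lemma Bd.moll_cpt (h : Bd r C s) (n : ℕ) : HasCompactSupport (cv volume s (Good.moll n)) := by
  refine HasCompactSupport.of_support_subset_isCompact
    (isCompact_closedBall (0 : EuclideanSpace ℝ (Fin N)) (r + 1)) fun x hx => ?_
  by_contra hx'
  apply hx
  refine (h.moll n).supp x ?_
  have : r + 1 < ‖x‖ := by simpa using hx'
  exact this.le

lemma Bd.moll_pot (h : Bd r C s) (hN : 3 ≤ N) {ε : ℝ} (hε : 0 < ε) :
    ∃ n0, ∀ n ≥ n0, ∀ x, |pot (cv volume s (Good.moll n)) x - pot s x| ≤ ε := by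
  have hC := h.C_nonneg
  have hk := kap_pos hN
  have h1 := (AA_lim hN).const_mul (2 * C)
  rw [mul_zero] at h1
  obtain ⟨i, hi⟩ := (h1.eventually (gt_mem_nhds (show 0 < ε / 2 by positivity))).exists
  set δ : ℝ := 1 / ((i : ℝ) + 1) with hδ
  have hδ0 : 0 < δ := by positivity
  have h2 := (cv_moll_L1 h.integrable).const_mul (kap N / δ ^ (N - 2))
  rw [mul_zero] at h2
  obtain ⟨n0, hn0⟩ := eventually_atTop.1 (h2.eventually (gt_mem_nhds (show 0 < ε / 2 by positivity)))
  refine ⟨n0, fun n hn x => ?_⟩
  have hb : Bd (r + 1) (2 * C) (fun x => 1 * cv volume s (Good.moll n) x + (-1) * s x) := by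
    have := (h.moll n).comb (h.mono (r' := r + 1) (by linarith) le_rfl) 1 (-1)
    refine this.mono le_rfl ?_
    rw [abs_one, abs_neg, abs_one]; linarith
  have h3 := hb.pot_bound hN hδ0 x
  rw [pot_comb hN (h.moll n) h] at h3
  have e1 : 1 * pot (cv volume s (Good.moll n)) x + -1 * pot s x =
    pot (cv volume s (Good.moll n)) x - pot s x := by ring
  have e2 : ∀ x, |1 * cv volume s (Good.moll n) x + -1 * s x| = |cv volume s (Good.moll n) x - s x| := by
    intro x; congr 1; ring
  rw [e1] at h3
  simp_rw [e2] at h3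
  have h4 := hn0 n hn
  linarith

lemma Bd.moll_cost (h : Bd r C s) (c : ℝ) :
    Tendsto (fun n => cost (fun x => c * cv volume s (Good.moll n) x)) atTop
      (𝓝 (cost (fun x => c * s x))) := by
  unfold cost
  have hC := h.C_nonneg
  have hi : Integrable ((Metric.ball (0 : EuclideanSpace ℝ (Fin N)) (r + 1)).indicator
      (fun _ => |c| * C * Real.posLog (|c| * C))) := by
    rw [integrable_indicator_iff measurableSet_ball]
    exact integrableOn_const measure_ball_lt_top.ne
  refine tendsto_integral_of_dominated_convergence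
    ((Metric.ball (0 : EuclideanSpace ℝ (Fin N)) (r + 1)).indicator
      (fun _ => |c| * C * Real.posLog (|c| * C))) (fun n => ?_) hi (fun n => ?_) ?_
  · have h1 := ((h.moll n).const_mul c).meas
    exact (h1.mul (Real.continuous_posLog.measurable.comp h1)).aestronglyMeasurable
  · refine Eventually.of_forall fun x => ?_
    have hb := (h.moll n).const_mul c
    by_cases hx : x ∈ Metric.ball (0 : EuclideanSpace ℝ (Fin N)) (r + 1)
    · rw [indicator_of_mem hx, norm_mul, Real.norm_eq_abs, Real.norm_of_nonneg Real.posLog_nonneg]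
      refine mul_le_mul (hb.bdd x) ?_ Real.posLog_nonneg (by positivity)
      rw [← Real.posLog_abs]
      exact Real.posLog_le_posLog (abs_nonneg _) (hb.bdd x)
    · have h0 := hb.supp x (by simpa using hx)
      simp only at h0 ⊢
      rw [indicator_of_notMem hx, h0, zero_mul, norm_zero]
  · filter_upwards [cv_moll_ae h.integrable.locallyIntegrable] with x hx
    have h1 := hx.const_mul c
    exact h1.mul ((Real.continuous_posLog.tendsto _).comp h1)

lemma cost_scale (h : Bd r C s) (hs : ∀ x, 0 ≤ s x) {c : ℝ} (hc : 0 ≤ c) :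
    cost (fun x => c * s x) ≤ c * cost s + c * Real.posLog c * ∫ x, s x := by
  unfold cost
  rw [← integral_const_mul, ← integral_const_mul, ← integral_add (h.cost_integrable.const_mul c)
    (h.integrable.const_mul _)]
  refine integral_mono (h.const_mul c).cost_integrable ((h.cost_integrable.const_mul c).add
    (h.integrable.const_mul _)) fun x => ?_
  simp only
  have h1 := Real.posLog_mul (x := c) (y := s x)
  have h2 : 0 ≤ c * s x := mul_nonneg hc (hs x)
  calc c * s x * Real.posLog (c * s x) ≤ c * s x * (Real.posLog c + Real.posLog (s x)) := by gcongr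
    _ = _ := by ring

lemma cost_nonneg (hs : ∀ x, 0 ≤ s x) : 0 ≤ cost s :=
  integral_nonneg fun x => mul_nonneg (hs x) Real.posLog_nonneg

lemma integral_cv_moll (h : Bd r C s) (n : ℕ) : ∫ x, cv volume s (Good.moll n) x = ∫ x, s x := by
  rw [integral_cv h.integrable (moll_integrable n), moll_integral, mul_one]

/-- from smooth to bounded admissible functions -/
lemma cap_bd (hN : 3 ≤ N) {δ B y : ℝ} (hadm : ∀ s, Adm K δ (2 * B + 2) s → y ≤ cost s)
    (h : Bd r C s) (hs : ∀ x, 0 ≤ s x) (hmass : ∫ x, s x ≤ δ / 2)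
    (hge : ∀ x ∈ K, 1 ≤ pot s x) (hle : ∀ x, pot s x ≤ B) (hB : 0 ≤ B) : y ≤ cost s := by
  have hint0 : 0 ≤ ∫ x, s x := integral_nonneg hs
  have key : ∀ ε : ℝ, 0 < ε → ε ≤ 1 → y ≤ (1 + ε) * cost s + (1 + ε) * Real.posLog (1 + ε) * ∫ x, s x := by
    intro ε hε hε1
    refine le_trans ?_ (cost_scale h hs (c := 1 + ε) (by linarith))
    refine ge_of_tendsto (h.moll_cost (1 + ε)) ?_
    obtain ⟨n0, hn0⟩ := h.moll_pot hN (ε := ε / 2) (by positivity)
    filter_upwards [eventually_ge_atTop n0] with n hn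
    refine hadm _ ?_
    have hcn : ∀ x, 0 ≤ cv volume s (Good.moll n) x := fun x => cv_nonneg hs (moll_nonneg n) x
    refine ⟨contDiff_const.mul (cv_contDiff h.integrable.locallyIntegrable (moll_contDiff n) (Good.moll_cpt n)),
      (h.moll_cpt n).mul_left, fun x => mul_nonneg (by linarith) (hcn x), ?_, ?_, ?_⟩
    · rw [integral_const_mul, integral_cv_moll h]
      nlinarith
    · intro x hx
      rw [pot_const_mul]
      have h1 := hn0 n hn x
      have h2 := hge x hx
      rw [abs_le] at h1
      nlinarith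
    · intro x
      rw [pot_const_mul]
      have h1 := hn0 n hn x
      have h2 := hle x
      rw [abs_le] at h1
      have h3 : pot (cv volume s (Good.moll n)) x ≤ B + 1 := by linarith
      nlinarith
  have hl : Tendsto (fun ε : ℝ => (1 + ε) * cost s + (1 + ε) * Real.posLog (1 + ε) * ∫ x, s x) (𝓝[>] 0)
      (𝓝 (cost s)) := by
    have hc : Continuous (fun ε : ℝ => (1 + ε) * cost s + (1 + ε) * Real.posLog (1 + ε) * ∫ x, s x) := by
      have := Real.continuous_posLog
      fun_prop
    have := (hc.tendsto 0).mono_left (nhdsWithin_le_nhds (s := Ioi 0))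
    simpa using this
  refine ge_of_tendsto hl ?_
  have h1 : Ioc (0:ℝ) 1 ∈ 𝓝[>] (0:ℝ) := Ioc_mem_nhdsGT one_pos
  filter_upwards [h1] with ε hε
  exact key ε hε.1 hε.2

/-! ### convexity -/

lemma mul_posLog_eq {t : ℝ} (ht : 0 ≤ t) : t * Real.posLog t = max 0 (t * Real.log t) := by
  rw [Real.posLog_apply]
  rcases le_total (Real.log t) 0 with h | h
  · rw [max_eq_left h, mul_zero, max_eq_left (mul_nonpos_of_nonneg_of_nonpos ht h)]
  · rw [max_eq_right h, max_eq_right (mul_nonneg ht h)]

lemma posLog_midpoint {a b : ℝ} (ha : 0 ≤ a) (hb : 0 ≤ b) :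
    (1 / 2 * a + 1 / 2 * b) * Real.posLog (1 / 2 * a + 1 / 2 * b) ≤
      1 / 2 * (a * Real.posLog a) + 1 / 2 * (b * Real.posLog b) := by
  have h1 := Real.convexOn_mul_log.2 (show a ∈ Ici (0:ℝ) from ha) (show b ∈ Ici (0:ℝ) from hb)
    (by norm_num : (0:ℝ) ≤ 1 / 2) (by norm_num : (0:ℝ) ≤ 1 / 2) (by norm_num)
  simp only [smul_eq_mul] at h1
  rw [mul_posLog_eq (by positivity), mul_posLog_eq ha, mul_posLog_eq hb]
  refine max_le ?_ ?_
  · have := le_max_left 0 (a * Real.log a)
    have := le_max_left 0 (b * Real.log b)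
    linarith
  · have := le_max_right 0 (a * Real.log a)
    have := le_max_right 0 (b * Real.log b)
    linarith

lemma cost_midpoint (h : Bd r C s) (h' : Bd r C' s') (hs : ∀ x, 0 ≤ s x) (hs' : ∀ x, 0 ≤ s' x) :
    cost (fun x => 1 / 2 * s x + 1 / 2 * s' x) ≤ 1 / 2 * cost s + 1 / 2 * cost s' := by
  unfold cost
  rw [← integral_const_mul, ← integral_const_mul, ← integral_add (h.cost_integrable.const_mul _)
    (h'.cost_integrable.const_mul _)]
  exact integral_mono (h.comb h' _ _).cost_integrable ((h.cost_integrable.const_mul _).add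
    (h'.cost_integrable.const_mul _)) fun x => posLog_midpoint (hs x) (hs' x)

end

end Pool.Agent.H19.Good
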