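import Pool.Agent.H19.Good.Exist

/-!
Basic properties of weak solutions, and the comparison principle with smooth functions.
-/

open MeasureTheory Set Filter Topology
open scoped Real ENNReal NNReal ContDiff Laplacian Pointwise

namespace Pool.Agent.H19.Good

noncomputable section

variable {N : ℕ}

variable {Ω : Set (EuclideanSpace ℝ (Fin N))} {ζ η ξ φ ψ u w W : EuclideanSpace ℝ (Fin N) → ℝ}

/-! ### elementary properties -/

lemma lap_test_memLp (hη : IsTest Ω η) : MemLp (fun x => - Laplacian.laplacian η x) 2 := by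
  refine Continuous.memLp_of_hasCompactSupport (laplacian_continuous hη.c2).neg ?_
  exact (laplacian_hasCompactSupport hη.c2 hη.cpt).neg

lemma Weak.ae_zero (h : Weak Ω φ u) (hΩ : MeasurableSet Ω) : ∀ᵐ x, x ∉ Ω → u x = 0 := by
  obtain ⟨ζ, hζ, hl, -⟩ := h.appr
  have h1 : ∫ x in Ωᶜ, u x ^ 2 ≤ 0 := by
    refine ge_of_tendsto' hl fun n => ?_
    have e : ∫ x in Ωᶜ, u x ^ 2 = ∫ x in Ωᶜ, (ζ n x - u x) ^ 2 := by
      refine setIntegral_congr_fun hΩ.compl fun x hx => ?_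
      rw [(hζ n).eq_zero hx]; ring
    rw [e]
    exact setIntegral_le_integral ((((hζ n).memLp 2).sub h.memu).integrable_sq)
      (Eventually.of_forall fun x => sq_nonneg _)
  have h2 : ∫ x in Ωᶜ, u x ^ 2 = 0 := le_antisymm h1 (integral_nonneg fun x => sq_nonneg _)
  rw [setIntegral_eq_zero_iff_of_nonneg_ae (Eventually.of_forall fun x => sq_nonneg _)
    h.memu.integrable_sq.integrableOn] at h2
  rw [Filter.EventuallyEq, ae_restrict_iff' hΩ.compl] at h2
  filter_upwards [h2] with x hx hx'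
  simpa using hx hx'

lemma tendsto_L2_comb {f g : ℕ → EuclideanSpace ℝ (Fin N) → ℝ} {u w : EuclideanSpace ℝ (Fin N) → ℝ}
    (hf : ∀ n, MemLp (f n) 2) (hg : ∀ n, MemLp (g n) 2) (hu : MemLp u 2) (hw : MemLp w 2)
    (h1 : Tendsto (fun n => ∫ x, (f n x - u x) ^ 2) atTop (𝓝 0))
    (h2 : Tendsto (fun n => ∫ x, (g n x - w x) ^ 2) atTop (𝓝 0)) (a b : ℝ) :
    Tendsto (fun n => ∫ x, ((a * f n x + b * g n x) - (a * u x + b * w x)) ^ 2) atTop (𝓝 0) := by
  have h3 : Tendsto (fun n => 2 * a ^ 2 * (∫ x, (f n x - u x) ^ 2) +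
      2 * b ^ 2 * ∫ x, (g n x - w x) ^ 2) atTop (𝓝 0) := by
    simpa using (h1.const_mul (2 * a ^ 2)).add (h2.const_mul (2 * b ^ 2))
  refine squeeze_zero (fun n => integral_nonneg fun x => sq_nonneg _) (fun n => ?_) h3
  have i1 : Integrable (fun x => (f n x - u x) ^ 2) := ((hf n).sub hu).integrable_sq
  have i2 : Integrable (fun x => (g n x - w x) ^ 2) := ((hg n).sub hw).integrable_sq
  rw [← integral_const_mul, ← integral_const_mul, ← integral_add (i1.const_mul _) (i2.const_mul _)]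
  refine integral_mono ?_ ((i1.const_mul _).add (i2.const_mul _)) fun x => ?_
  · exact ((((hf n).const_mul a).add ((hg n).const_mul b)).sub
      ((hu.const_mul a).add (hw.const_mul b))).integrable_sq
  · simp only
    nlinarith [sq_nonneg (a * (f n x - u x) - b * (g n x - w x))]

lemma Weak.comb (hu : Weak Ω φ u) (hw : Weak Ω ψ w) (a b : ℝ) :
    Weak Ω (fun x => a * φ x + b * ψ x) (fun x => a * u x + b * w x) := by
  refine ⟨(hu.memf.const_mul a).add (hw.memf.const_mul b),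
    (hu.memu.const_mul a).add (hw.memu.const_mul b), ?_, ?_⟩
  · obtain ⟨ζ, hζ, hl, hc⟩ := hu.appr
    obtain ⟨η, hη, hl', hc'⟩ := hw.appr
    refine ⟨fun n x => a * ζ n x + b * η n x, fun n => (hζ n).comb (hη n) a b, ?_, ?_⟩
    · exact tendsto_L2_comb (fun n => (hζ n).memLp 2) (fun n => (hη n).memLp 2) hu.memu hw.memu
        hl hl' a b
    · intro ε hε
      obtain ⟨n1, h1⟩ := hc (ε / (4 * (a ^ 2 + 1))) (by positivity)
      obtain ⟨n2, h2⟩ := hc' (ε / (4 * (b ^ 2 + 1))) (by positivity)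
      refine ⟨max n1 n2, fun n hn m hm => ?_⟩
      have h3 := h1 n (le_of_max_le_left hn) m (le_of_max_le_left hm)
      have h4 := h2 n (le_of_max_le_right hn) m (le_of_max_le_right hm)
      have e : (fun x => (a * ζ n x + b * η n x) - (a * ζ m x + b * η m x)) =
          fun x => a * (ζ n x - ζ m x) + b * (η n x - η m x) := by ext x; ring
      simp only
      rw [e, En_comb_comb ((hζ n).sub (hζ m)) ((hη n).sub (hη m))]
      have h5 := En_self_nonneg (fun x => a * (ζ n x - ζ m x) + (-b) * (η n x - η m x))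
      rw [En_comb_comb ((hζ n).sub (hζ m)) ((hη n).sub (hη m))] at h5
      set P := En (fun x => ζ n x - ζ m x) (fun x => ζ n x - ζ m x)
      set Q := En (fun x => η n x - η m x) (fun x => η n x - η m x)
      have hP : 0 ≤ P := En_self_nonneg _
      have hQ : 0 ≤ Q := En_self_nonneg _
      have h6 : (a ^ 2 + 1) * P ≤ ε / 4 := by
        calc (a ^ 2 + 1) * P ≤ (a ^ 2 + 1) * (ε / (4 * (a ^ 2 + 1))) := by gcongr
          _ = ε / 4 := by field_simp
      have h7 : (b ^ 2 + 1) * Q ≤ ε / 4 := by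
        calc (b ^ 2 + 1) * Q ≤ (b ^ 2 + 1) * (ε / (4 * (b ^ 2 + 1))) := by gcongr
          _ = ε / 4 := by field_simp
      nlinarith
  · intro η hη
    have e1 : ∀ x, (a * u x + b * w x) * (- Laplacian.laplacian η x) =
        a * (u x * (- Laplacian.laplacian η x)) + b * (w x * (- Laplacian.laplacian η x)) := by
      intro x; ring
    have e2 : ∀ x, (a * φ x + b * ψ x) * η x = a * (φ x * η x) + b * (ψ x * η x) := by
      intro x; ring
    simp_rw [e1, e2]
    rw [integral_add, integral_add, integral_const_mul, integral_const_mul, integral_const_mul,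
      integral_const_mul, hu.eq η hη, hw.eq η hη]
    · exact (mul_integrable hu.memf (hη.memLp 2)).const_mul a
    · exact (mul_integrable hw.memf (hη.memLp 2)).const_mul b
    · exact (mul_integrable hu.memu (lap_test_memLp hη)).const_mul a
    · exact (mul_integrable hw.memu (lap_test_memLp hη)).const_mul b

lemma Weak.sub (hu : Weak Ω φ u) (hw : Weak Ω ψ w) :
    Weak Ω (fun x => φ x - ψ x) (fun x => u x - w x) := by
  have := hu.comb hw 1 (-1)
  simpa [sub_eq_add_neg] using this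

lemma Weak.congr {φ' : EuclideanSpace ℝ (Fin N) → ℝ} {u' : EuclideanSpace ℝ (Fin N) → ℝ}
    (hu : Weak Ω φ u) (hφ : φ =ᵐ[volume] φ') (hu' : u =ᵐ[volume] u') : Weak Ω φ' u' := by
  refine ⟨hu.memf.ae_eq hφ, hu.memu.ae_eq hu', ?_, ?_⟩
  · obtain ⟨ζ, hζ, hl, hc⟩ := hu.appr
    refine ⟨ζ, hζ, hl.congr fun n => ?_, hc⟩
    refine integral_congr_ae ?_
    filter_upwards [hu'] with x hx
    rw [hx]
  · intro η hη
    have h := hu.eq η hη
    have e1 : ∫ x, u' x * (- Laplacian.laplacian η x) = ∫ x, u x * (- Laplacian.laplacian η x) := by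
      refine integral_congr_ae ?_
      filter_upwards [hu'] with x hx
      rw [hx]
    have e2 : ∫ x, φ' x * η x = ∫ x, φ x * η x := by
      refine integral_congr_ae ?_
      filter_upwards [hφ] with x hx
      rw [hx]
    rw [e1, e2, h]

/-- key uniform estimate -/
lemma Weak.unif (hu : Weak Ω φ u) {ζ : ℕ → EuclideanSpace ℝ (Fin N) → ℝ} (hζ : ∀ n, IsTest Ω (ζ n))
    (hl : Tendsto (fun n => ∫ x, (ζ n x - u x) ^ 2) atTop (𝓝 0))
    (hc : ∀ ε > 0, ∃ n0, ∀ n ≥ n0, ∀ m ≥ n0,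
      En (fun x => ζ n x - ζ m x) (fun x => ζ n x - ζ m x) ≤ ε) {ε : ℝ} (hε : 0 < ε) :
    ∃ n0, ∀ n ≥ n0, ∀ η, IsTest Ω η → |En (ζ n) η - ∫ x, φ x * η x| ≤ ε * √(En η η) := by
  obtain ⟨n0, h0⟩ := hc (ε ^ 2) (by positivity)
  refine ⟨n0, fun n hn η hη => ?_⟩
  have h1 : ∀ m ≥ n0, |En (ζ n) η - En (ζ m) η| ≤ ε * √(En η η) := by
    intro m hm
    have e : En (ζ n) η - En (ζ m) η = En (fun x => ζ n x - ζ m x) η := by
      rw [sub_eq_comb, En_comm _ η, En_comm _ η, En_comm _ η,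
        En_comb_right hη.c1 (hζ n) (hζ m)]
      ring
    rw [e]
    refine (En_cs ((hζ n).sub (hζ m)) hη).trans ?_
    have : √(En (fun x => ζ n x - ζ m x) (fun x => ζ n x - ζ m x)) ≤ ε := by
      calc _ ≤ √(ε ^ 2) := Real.sqrt_le_sqrt (h0 n hn m hm)
        _ = ε := Real.sqrt_sq hε.le
    gcongr
  have h2 : Tendsto (fun m => En (ζ m) η) atTop (𝓝 (∫ x, φ x * η x)) := by
    rw [← hu.eq η hη]
    have := tendsto_integral_mul_L2 (fun n => (hζ n).memLp 2) hu.memu (lap_test_memLp hη) hl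
    refine this.congr fun m => ?_
    rw [En_eq_laplacian (hζ m).c1 hη]
  have h3 : Tendsto (fun m => |En (ζ n) η - En (ζ m) η|) atTop
      (𝓝 |En (ζ n) η - ∫ x, φ x * η x|) := (tendsto_const_nhds.sub h2).abs
  exact le_of_tendsto h3 (eventually_atTop.2 ⟨n0, h1⟩)

lemma En_bounded {ζ : ℕ → EuclideanSpace ℝ (Fin N) → ℝ} (hζ : ∀ n, IsTest Ω (ζ n))
    (hc : ∀ ε > 0, ∃ n0, ∀ n ≥ n0, ∀ m ≥ n0,
      En (fun x => ζ n x - ζ m x) (fun x => ζ n x - ζ m x) ≤ ε) :
    ∃ C, 0 ≤ C ∧ ∃ n0, ∀ n ≥ n0, √(En (ζ n) (ζ n)) ≤ C := by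
  obtain ⟨n0, h0⟩ := hc 1 one_pos
  refine ⟨√(2 * En (ζ n0) (ζ n0) + 2), Real.sqrt_nonneg _, n0, fun n hn => Real.sqrt_le_sqrt ?_⟩
  have h1 := h0 n hn n0 le_rfl
  rw [En_sub (hζ n) (hζ n0)] at h1
  have h2 := En_self_nonneg (fun x => 1 * ζ n x + (-2) * ζ n0 x)
  rw [En_comb_comb (hζ n) (hζ n0)] at h2
  nlinarith

/-- symmetry of the solution operator -/
theorem Weak.symm (hu : Weak Ω φ u) (hw : Weak Ω ψ w) : ∫ x, u x * ψ x = ∫ x, φ x * w x := by
  obtain ⟨ζ, hζ, hl, hc⟩ := id hu.appr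
  obtain ⟨η, hη, hl', hc'⟩ := id hw.appr
  obtain ⟨C, hC0, n1, hC⟩ := En_bounded hζ hc
  obtain ⟨C', hC'0, n2, hC'⟩ := En_bounded hη hc'
  have l1 : Tendsto (fun n => ∫ x, ζ n x * ψ x) atTop (𝓝 (∫ x, u x * ψ x)) :=
    tendsto_integral_mul_L2 (fun n => (hζ n).memLp 2) hu.memu hw.memf hl
  have l2 : Tendsto (fun n => ∫ x, η n x * φ x) atTop (𝓝 (∫ x, w x * φ x)) :=
    tendsto_integral_mul_L2 (fun n => (hη n).memLp 2) hw.memu hu.memf hl'
  have l3 : Tendsto (fun n => (∫ x, ζ n x * ψ x) - ∫ x, η n x * φ x) atTop (𝓝 0) := by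
    rw [Metric.tendsto_atTop]
    intro ε hε
    obtain ⟨n3, h3⟩ := hu.unif hζ hl hc (ε := ε / (4 * (C' + 1))) (by positivity)
    obtain ⟨n4, h4⟩ := hw.unif hη hl' hc' (ε := ε / (4 * (C + 1))) (by positivity)
    refine ⟨max (max n1 n2) (max n3 n4), fun n hn => ?_⟩
    simp only [ge_iff_le, max_le_iff] at hn
    have h5 := h3 n hn.2.1 (η n) (hη n)
    have h6 := h4 n hn.2.2 (ζ n) (hζ n)
    have h7 := hC n hn.1.1
    have h8 := hC' n hn.1.2
    rw [En_comm] at h6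
    have h9 : ε / (4 * (C' + 1)) * √(En (η n) (η n)) ≤ ε / 4 := by
      calc ε / (4 * (C' + 1)) * √(En (η n) (η n)) ≤ ε / (4 * (C' + 1)) * (C' + 1) := by
            gcongr; linarith
        _ = ε / 4 := by field_simp
    have h10 : ε / (4 * (C + 1)) * √(En (ζ n) (ζ n)) ≤ ε / 4 := by
      calc ε / (4 * (C + 1)) * √(En (ζ n) (ζ n)) ≤ ε / (4 * (C + 1)) * (C + 1) := by
            gcongr; linarith
        _ = ε / 4 := by field_simp
    have e1 : ∫ x, ζ n x * ψ x = ∫ x, ψ x * ζ n x := by simp_rw [mul_comm]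
    have e2 : ∫ x, η n x * φ x = ∫ x, φ x * η n x := by simp_rw [mul_comm]
    rw [Real.dist_eq, sub_zero, e1, e2]
    rw [abs_le] at h5 h6
    rw [abs_lt]
    constructor <;> linarith
  have l4 := tendsto_nhds_unique l3 (l1.sub l2)
  have e3 : ∫ x, w x * φ x = ∫ x, φ x * w x := by simp_rw [mul_comm]
  rw [e3] at l4
  linarith

end

end Pool.Agent.H19.Good
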