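import Pool.Agent.H19.Good.Comp

/-!
The comparison principle between weak solutions and smooth functions.
-/

open MeasureTheory Set Filter Topology
open scoped Real ENNReal NNReal ContDiff Laplacian Pointwise

namespace Pool.Agent.H19.Good

noncomputable section

variable {N : ℕ}

variable {Ω : Set (EuclideanSpace ℝ (Fin N))} {ζ η ξ φ ψ u w W : EuclideanSpace ℝ (Fin N) → ℝ}

/-- admissible smooth approximations of `t⁺` or of `1_{t>0}` -/
structure PH (p : ℝ → ℝ) (L : ℝ) : Prop where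
  smooth : ContDiff ℝ ∞ p
  zero : ∀ t ≤ 0, p t = 0
  dnn : ∀ t, 0 ≤ deriv p t
  dle : ∀ t, deriv p t ≤ L

variable {p : ℝ → ℝ} {L : ℝ}

lemma PH.diff (h : PH p L) : Differentiable ℝ p := h.smooth.differentiable (by simp)

lemma PH.mono (h : PH p L) : Monotone p := monotone_of_deriv_nonneg h.diff h.dnn

lemma PH.nonneg (h : PH p L) (t : ℝ) : 0 ≤ p t := by
  rcases le_total t 0 with ht | ht
  · rw [h.zero t ht]
  · rw [← h.zero 0 le_rfl]; exact h.mono ht

lemma PH.L_nonneg (h : PH p L) : 0 ≤ L := (h.dnn 0).trans (h.dle 0)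

lemma PH.lip (h : PH p L) (s t : ℝ) : |p s - p t| ≤ L * |s - t| := by
  have := Convex.norm_image_sub_le_of_norm_deriv_le (f := p) (C := L) (s := univ) (x := t) (y := s)
    (fun x _ => h.diff x) (fun x _ => by
      rw [Real.norm_eq_abs, abs_of_nonneg (h.dnn x)]; exact h.dle x) convex_univ (mem_univ _)
      (mem_univ _)
  simpa using this

lemma PH.shift (h : PH p L) {a : ℝ} (ha : 0 ≤ a) : PH (fun t => p (t - a)) L := by
  have hd : ∀ t, deriv (fun t => p (t - a)) t = deriv p (t - a) := fun t => by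
    rw [deriv_comp_sub_const]
  refine ⟨h.smooth.comp (contDiff_id.sub contDiff_const), fun t ht => h.zero _ (by linarith), ?_, ?_⟩
  · intro t; rw [hd]; exact h.dnn _
  · intro t; rw [hd]; exact h.dle _

lemma isTest_indicator {f : EuclideanSpace ℝ (Fin N) → ℝ} (hf : ContDiff ℝ ∞ f) (hΩ : IsOpen Ω)
    {K : Set (EuclideanSpace ℝ (Fin N))} (hK : IsCompact K) (hKΩ : K ⊆ Ω)
    (h0 : ∀ x ∈ Ω, x ∉ K → f x = 0) : IsTest Ω (Ω.indicator f) := by
  have hsupp : Function.support (Ω.indicator f) ⊆ K := by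
    intro x hx
    rw [Function.mem_support] at hx
    by_contra hxK
    apply hx
    by_cases hxΩ : x ∈ Ω
    · rw [indicator_of_mem hxΩ, h0 x hxΩ hxK]
    · rw [indicator_of_notMem hxΩ]
  have hts : tsupport (Ω.indicator f) ⊆ K := closure_minimal hsupp hK.isClosed
  refine ⟨?_, hK.of_isClosed_subset (isClosed_tsupport _) hts, hts.trans hKΩ⟩
  rw [contDiff_iff_contDiffAt]
  intro x
  by_cases hxΩ : x ∈ Ω
  · refine (hf.contDiffAt).congr_of_eventuallyEq ?_
    filter_upwards [hΩ.mem_nhds hxΩ] with y hy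
    rw [indicator_of_mem hy]
  · have hxK : x ∈ Kᶜ := fun h => hxΩ (hKΩ h)
    refine (contDiffAt_const (c := (0:ℝ))).congr_of_eventuallyEq ?_
    filter_upwards [hK.isClosed.isOpen_compl.mem_nhds hxK] with y hy
    by_contra h
    exact hy (hsupp h)

lemma pd_indicator {f : EuclideanSpace ℝ (Fin N) → ℝ} (hΩ : IsOpen Ω) {x : EuclideanSpace ℝ (Fin N)}
    (hx : x ∈ Ω) (i : Fin N) : pd i (Ω.indicator f) x = pd i f x := by
  unfold pd
  have : Ω.indicator f =ᶠ[𝓝 x] f := by
    filter_upwards [hΩ.mem_nhds hx] with y hy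
    rw [indicator_of_mem hy]
  rw [this.fderiv_eq]

lemma IsTest.pd_eq_zero (h : IsTest Ω ζ) {x : EuclideanSpace ℝ (Fin N)} (hx : x ∉ Ω) (i : Fin N) :
    pd i ζ x = 0 :=
  image_eq_zero_of_notMem_tsupport fun hx' => hx (h.supp (tsupport_pd_subset i hx'))

lemma pd_comp_sub {p : ℝ → ℝ} (hp : Differentiable ℝ p) (hζ : Differentiable ℝ ζ) (hW : Differentiable ℝ W)
    (x : EuclideanSpace ℝ (Fin N)) (i : Fin N) :
    pd i (fun x => p (ζ x - W x)) x = deriv p (ζ x - W x) * (pd i ζ x - pd i W x) := by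
  unfold pd
  have h1 : HasFDerivAt (fun x => ζ x - W x) (fderiv ℝ ζ x - fderiv ℝ W x) x :=
    (hζ x).hasFDerivAt.sub (hW x).hasFDerivAt
  have h2 := (hp (ζ x - W x)).hasDerivAt.comp_hasFDerivAt x h1
  have h3 : (fun x => p (ζ x - W x)) = p ∘ (fun x => ζ x - W x) := rfl
  rw [h3, h2.fderiv]
  simp

lemma energy_step (hΩo : IsOpen Ω) (hΩb : Bornology.IsBounded Ω) (hζ : IsTest Ω ζ)
    (hW : ContDiff ℝ ∞ W) (hWf : ∀ x ∈ frontier Ω, 0 ≤ W x) (hp : PH p L) {a : ℝ} (ha : 0 < a)
    (hpa : ∀ t ≤ a, p t = 0) :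
    IsTest Ω (Ω.indicator (fun x => p (ζ x - W x))) ∧
    En (Ω.indicator (fun x => p (ζ x - W x))) (Ω.indicator (fun x => p (ζ x - W x))) ≤
      L * (En ζ (Ω.indicator (fun x => p (ζ x - W x))) +
        ∫ x, Laplacian.laplacian W x * (Ω.indicator (fun x => p (ζ x - W x))) x) := by
  have hW1 : ContDiff ℝ 1 W := hW.of_le (by norm_cast)
  have hW2 : ContDiff ℝ 2 W := hW.of_le (by norm_cast)
  have hWd : Differentiable ℝ W := hW.differentiable (by simp)
  set η := Ω.indicator (fun x => p (ζ x - W x)) with hη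
  have hT : IsTest Ω η := by
    have hsm : ContDiff ℝ ∞ (fun x => p (ζ x - W x)) := hp.smooth.comp (hζ.smooth.sub hW)
    let K := closure Ω ∩ {x | a ≤ ζ x - W x}
    have hKc : IsClosed K := isClosed_closure.inter
      (isClosed_le continuous_const (hζ.continuous.sub hW.continuous))
    have hK : IsCompact K := Metric.isCompact_of_isClosed_isBounded hKc
      (hΩb.closure.subset inter_subset_left)
    refine isTest_indicator hsm hΩo hK ?_ ?_
    · rintro x ⟨hxc, hxa⟩
      by_contra hxΩ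
      have hxf : x ∈ frontier Ω := by
        rw [frontier, hΩo.interior_eq]; exact ⟨hxc, hxΩ⟩
      have h1 := hWf x hxf
      have h2 : a ≤ ζ x - W x := hxa
      rw [hζ.eq_zero hxΩ] at h2
      linarith
    · intro x hxΩ hxK
      have : ¬ (a ≤ ζ x - W x) := fun h => hxK ⟨subset_closure hxΩ, h⟩
      exact hpa _ (not_le.1 this).le
  refine ⟨hT, ?_⟩
  have e1 : En ζ η + ∫ x, Laplacian.laplacian W x * η x =
      ∫ x, ∑ i, (pd i ζ x - pd i W x) * pd i η x := by
    rw [integral_mul_laplacian' hW2 hT.c1 hT.cpt]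
    unfold En
    rw [← sub_eq_add_neg, ← integral_sub (en_integrand hζ.c1 hT.c1 hT.cpt)
      (en_integrand hW1 hT.c1 hT.cpt)]
    refine integral_congr_ae (Eventually.of_forall fun x => ?_)
    simp only
    rw [← Finset.sum_sub_distrib]
    exact Finset.sum_congr rfl fun i _ => by ring
  rw [e1, ← integral_const_mul]
  unfold En
  have i1 : Integrable (fun x => ∑ i, (pd i ζ x - pd i W x) * pd i η x) := by
    have := (en_integrand hζ.c1 hT.c1 hT.cpt).sub (en_integrand hW1 hT.c1 hT.cpt)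
    refine this.congr (Eventually.of_forall fun x => ?_)
    simp only [Pi.sub_apply]
    rw [← Finset.sum_sub_distrib]
    exact Finset.sum_congr rfl fun i _ => by ring
  refine integral_mono (en_integrand hT.c1 hT.c1 hT.cpt) (i1.const_mul L) fun x => ?_
  simp only
  rw [Finset.mul_sum]
  refine Finset.sum_le_sum fun i _ => ?_
  by_cases hx : x ∈ Ω
  · have h1 : pd i η x = deriv p (ζ x - W x) * (pd i ζ x - pd i W x) := by
      rw [hη, pd_indicator hΩo hx, pd_comp_sub hp.diff hζ.diff hWd]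
    rw [h1]
    have h2 := hp.dnn (ζ x - W x)
    have h3 := hp.dle (ζ x - W x)
    have h4 : 0 ≤ (pd i ζ x - pd i W x) ^ 2 := sq_nonneg _
    have h5 : 0 ≤ deriv p (ζ x - W x) * (pd i ζ x - pd i W x) ^ 2 := mul_nonneg h2 h4
    nlinarith
  · rw [hT.pd_eq_zero hx]; simp

lemma tendsto_sq_of_L2 {α : Type*} [MeasurableSpace α] {μ : Measure α} {f : ℕ → α → ℝ} {u : α → ℝ}
    (hf : ∀ n, MemLp (f n) 2 μ) (hu : MemLp u 2 μ)
    (hl : Tendsto (fun n => ∫ x, (f n x - u x) ^ 2 ∂μ) atTop (𝓝 0)) :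
    Tendsto (fun n => ∫ x, f n x ^ 2 ∂μ) atTop (𝓝 (∫ x, u x ^ 2 ∂μ)) := by
  have h1 := tendsto_integral_mul_L2 hf hu hu hl
  have h2 : ∀ n, ∫ x, f n x ^ 2 ∂μ = (∫ x, (f n x - u x) ^ 2 ∂μ) + 2 * (∫ x, f n x * u x ∂μ) -
      ∫ x, u x ^ 2 ∂μ := by
    intro n
    rw [← integral_const_mul, ← integral_add, ← integral_sub]
    · refine integral_congr_ae (Eventually.of_forall fun x => ?_)
      simp only
      ring
    · exact ((((hf n).sub hu).integrable_sq).add ((mul_integrable (hf n) hu).const_mul 2))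
    · exact hu.integrable_sq
    · exact ((hf n).sub hu).integrable_sq
    · exact (mul_integrable (hf n) hu).const_mul 2
  simp_rw [h2]
  have h3 := (hl.add (h1.const_mul 2)).sub_const (∫ x, u x ^ 2 ∂μ)
  refine h3.trans (le_of_eq ?_)
  congr 1
  have : ∫ x, u x * u x ∂μ = ∫ x, u x ^ 2 ∂μ := by simp_rw [sq]
  rw [this]; ring

lemma indicator_cont_memLp {f : EuclideanSpace ℝ (Fin N) → ℝ} (hf : Continuous f) (hΩo : MeasurableSet Ω)
    (hΩb : Bornology.IsBounded Ω) : MemLp (Ω.indicator f) 2 := by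
  obtain ⟨C, hC⟩ := (Metric.isCompact_of_isClosed_isBounded isClosed_closure
    hΩb.closure).exists_bound_of_continuousOn hf.continuousOn
  have hfin : volume Ω ≠ ⊤ := hΩb.measure_lt_top.ne
  have h1 : MemLp (Ω.indicator (fun _ : EuclideanSpace ℝ (Fin N) => C)) 2 :=
    memLp_indicator_const 2 hΩo C (Or.inr hfin)
  refine h1.mono' (hf.measurable.indicator hΩo).aestronglyMeasurable
    (Eventually.of_forall fun x => ?_)
  by_cases hx : x ∈ Ω
  · rw [indicator_of_mem hx, indicator_of_mem hx]; exact hC x (subset_closure hx)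
  · rw [indicator_of_notMem hx, indicator_of_notMem hx]; simp

lemma PH.ind_diff (hp : PH p L) (f g : EuclideanSpace ℝ (Fin N) → ℝ) (x : EuclideanSpace ℝ (Fin N)) :
    ((Ω.indicator (fun x => p (f x))) x - (Ω.indicator (fun x => p (g x))) x) ^ 2 ≤
      L ^ 2 * (f x - g x) ^ 2 := by
  by_cases hx : x ∈ Ω
  · rw [indicator_of_mem hx, indicator_of_mem hx, ← sq_abs, ← sq_abs (f x - g x), ← mul_pow]
    exact pow_le_pow_left₀ (abs_nonneg _) (hp.lip _ _) 2
  · rw [indicator_of_notMem hx, indicator_of_notMem hx]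
    have := sq_nonneg L
    simp only [sub_self, ne_eq, OfNat.ofNat_ne_zero, not_false_eq_true, zero_pow]
    positivity

lemma PH.ind_memLp (hp : PH p L) (hu : MemLp u 2) (hW : Continuous W) (hΩm : MeasurableSet Ω)
    (hΩb : Bornology.IsBounded Ω) : MemLp (Ω.indicator (fun x => p (u x - W x))) 2 := by
  have ha : MemLp (Ω.indicator (fun x => |u x|)) 2 := hu.abs.indicator hΩm
  have hb : MemLp (Ω.indicator (fun x => |W x|)) 2 := indicator_cont_memLp hW.abs hΩm hΩb
  have h1 : MemLp (fun x => L * (Ω.indicator (fun x => |u x|) x + Ω.indicator (fun x => |W x|) x)) 2 :=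
    (ha.add hb).const_mul L
  refine h1.mono' ?_ (Eventually.of_forall fun x => ?_)
  · refine AEStronglyMeasurable.indicator ?_ hΩm
    exact hp.smooth.continuous.comp_aestronglyMeasurable
      (hu.aestronglyMeasurable.sub hW.aestronglyMeasurable)
  · by_cases hx : x ∈ Ω
    · simp only [indicator_of_mem hx]
      have h2 := hp.lip (u x - W x) 0
      rw [hp.zero 0 le_rfl, sub_zero, sub_zero] at h2
      rw [Real.norm_eq_abs]
      refine h2.trans ?_
      have := hp.L_nonneg
      gcongr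
      exact abs_sub _ _
    · simp only [indicator_of_notMem hx]; simp

/-- comparison, preliminary form -/
theorem comp_a (hN : 0 < N) (hΩo : IsOpen Ω) {R : ℝ} (hR : 0 < R) (hΩ : Ω ⊆ Metric.ball 0 R)
    (hu : Weak Ω φ u) (hW : ContDiff ℝ ∞ W) (hWf : ∀ x ∈ frontier Ω, 0 ≤ W x)
    (hp : PH p L) {a : ℝ} (ha : 0 < a) (hpa : ∀ t ≤ a, p t = 0) :
    ∫ x, (Ω.indicator (fun x => p (u x - W x)) x) ^ 2 ≤
      4 * R ^ 2 * L * ∫ x, (φ x + Ω.indicator (Laplacian.laplacian W) x) *
        Ω.indicator (fun x => p (u x - W x)) x := by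
  have hΩb : Bornology.IsBounded Ω := Metric.isBounded_ball.subset hΩ
  have hΩm := hΩo.measurableSet
  obtain ⟨ζ, hζ, hl, hc⟩ := id hu.appr
  obtain ⟨C, hC0, n1, hC⟩ := En_bounded hζ hc
  have hstep := fun n => energy_step hΩo hΩb (hζ n) hW hWf hp ha hpa
  set η : ℕ → EuclideanSpace ℝ (Fin N) → ℝ := fun n => Ω.indicator (fun x => p (ζ n x - W x)) with hη
  set g := Ω.indicator (fun x => p (u x - W x)) with hg
  set F := Ω.indicator (Laplacian.laplacian W) with hF
  have hW2 : ContDiff ℝ 2 W := hW.of_le (by norm_cast)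
  have hF2 : MemLp F 2 := indicator_cont_memLp (laplacian_continuous hW2) hΩm hΩb
  have hηT : ∀ n, IsTest Ω (η n) := fun n => (hstep n).1
  have hg2 : MemLp g 2 := hp.ind_memLp hu.memu hW.continuous hΩm hΩb
  have hLnn := hp.L_nonneg
  have hFη : ∀ n, ∫ x, Laplacian.laplacian W x * η n x = ∫ x, η n x * F x := by
    intro n
    refine integral_congr_ae (Eventually.of_forall fun x => ?_)
    simp only [hη, hF]
    by_cases hx : x ∈ Ω
    · rw [indicator_of_mem hx, indicator_of_mem hx]; ring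
    · rw [indicator_of_notMem hx, indicator_of_notMem hx]; ring
  have hEn : ∀ n, En (η n) (η n) ≤ L * (En (ζ n) (η n) + ∫ x, η n x * F x) := by
    intro n
    rw [← hFη n]
    exact (hstep n).2
  set D : ℝ := L * (C + 2 * R * √(∫ x, F x ^ 2)) with hD
  have hD0 : 0 ≤ D := by positivity
  -- bounded energies
  have hEb : ∀ n ≥ n1, √(En (η n) (η n)) ≤ D := by
    intro n hn
    have h1 := hEn n
    have h2 := (le_abs_self _).trans (En_cs (hζ n) (hηT n))
    have h3 := (le_abs_self _).trans (cs ((hηT n).memLp 2) hF2)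
    have h4 : √(∫ x, η n x ^ 2) ≤ 2 * R * √(En (η n) (η n)) := by
      calc √(∫ x, η n x ^ 2) ≤ √(4 * R ^ 2 * En (η n) (η n)) :=
            Real.sqrt_le_sqrt (poincare hN hR hΩ (hηT n))
        _ = √((2 * R) ^ 2 * En (η n) (η n)) := by ring_nf
        _ = 2 * R * √(En (η n) (η n)) := by
            rw [Real.sqrt_mul (by positivity), Real.sqrt_sq (by positivity)]
    have h5 := hC n hn
    have h6 : √(En (η n) (η n)) ^ 2 = En (η n) (η n) := Real.sq_sqrt (En_self_nonneg _)
    set s := √(En (η n) (η n)) with hs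
    have hs0 : 0 ≤ s := Real.sqrt_nonneg _
    have h7 : s ^ 2 ≤ D * s := by
      rw [h6]
      calc En (η n) (η n) ≤ L * (En (ζ n) (η n) + ∫ x, η n x * F x) := h1
        _ ≤ L * (√(En (ζ n) (ζ n)) * s + √(∫ x, η n x ^ 2) * √(∫ x, F x ^ 2)) := by gcongr
        _ ≤ L * (C * s + (2 * R * s) * √(∫ x, F x ^ 2)) := by gcongr
        _ = D * s := by rw [hD]; ring
    rcases hs0.eq_or_lt with h8 | h8
    · rw [← h8]; exact hD0
    · nlinarith
  -- L² convergence of η n
  have hηl : Tendsto (fun n => ∫ x, (η n x - g x) ^ 2) atTop (𝓝 0) := by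
    have h1 : Tendsto (fun n => L ^ 2 * ∫ x, (ζ n x - u x) ^ 2) atTop (𝓝 0) := by
      simpa using hl.const_mul (L ^ 2)
    refine squeeze_zero (fun n => integral_nonneg fun x => sq_nonneg _) (fun n => ?_) h1
    rw [← integral_const_mul]
    refine integral_mono (((hηT n).memLp 2).sub hg2).integrable_sq
      ((((hζ n).memLp 2).sub hu.memu).integrable_sq.const_mul _) fun x => ?_
    have := hp.ind_diff (Ω := Ω) (fun x => ζ n x - W x) (fun x => u x - W x) x
    simp only at this ⊢
    calc _ ≤ _ := this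
      _ = _ := by ring
  have l1 := tendsto_sq_of_L2 (fun n => (hηT n).memLp 2) hg2 hηl
  have l2 := tendsto_integral_mul_L2 (fun n => (hηT n).memLp 2) hg2 hF2 hηl
  have l3 := tendsto_integral_mul_L2 (fun n => (hηT n).memLp 2) hg2 hu.memf hηl
  have l4 : Tendsto (fun n => En (ζ n) (η n) - ∫ x, φ x * η n x) atTop (𝓝 0) := by
    rw [Metric.tendsto_atTop]
    intro ε hε
    obtain ⟨n2, h2⟩ := hu.unif hζ hl hc (ε := ε / (2 * (D + 1))) (by positivity)
    refine ⟨max n1 n2, fun n hn => ?_⟩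
    have h3 := h2 n (le_of_max_le_right hn) (η n) (hηT n)
    have h4 := hEb n (le_of_max_le_left hn)
    rw [Real.dist_eq, sub_zero]
    calc _ ≤ ε / (2 * (D + 1)) * √(En (η n) (η n)) := h3
      _ ≤ ε / (2 * (D + 1)) * (D + 1) := by gcongr; linarith
      _ = ε / 2 := by field_simp
      _ < ε := by linarith
  have l5 : Tendsto (fun n => En (ζ n) (η n)) atTop (𝓝 (∫ x, g x * φ x)) := by
    have := l4.add l3
    simp only [zero_add] at this
    refine this.congr fun n => ?_
    have : ∫ x, η n x * φ x = ∫ x, φ x * η n x := by simp_rw [mul_comm]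
    rw [this]; ring
  have hfin : ∀ n, ∫ x, η n x ^ 2 ≤ 4 * R ^ 2 * L * (En (ζ n) (η n) + ∫ x, η n x * F x) := by
    intro n
    calc ∫ x, η n x ^ 2 ≤ 4 * R ^ 2 * En (η n) (η n) := poincare hN hR hΩ (hηT n)
      _ ≤ 4 * R ^ 2 * (L * (En (ζ n) (η n) + ∫ x, η n x * F x)) := by
          have := hEn n
          gcongr
      _ = _ := by ring
  have h9 := le_of_tendsto_of_tendsto' l1 ((l5.add l2).const_mul (4 * R ^ 2 * L)) hfin
  refine h9.trans (le_of_eq ?_)
  congr 1
  rw [← integral_add (mul_integrable hg2 hu.memf) (mul_integrable hg2 hF2)]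
  refine integral_congr_ae (Eventually.of_forall fun x => ?_)
  simp only
  ring

/-- **Comparison principle** between a weak solution and a smooth function. -/
theorem comp (hN : 0 < N) (hΩo : IsOpen Ω) {R : ℝ} (hR : 0 < R) (hΩ : Ω ⊆ Metric.ball 0 R)
    (hu : Weak Ω φ u) (hW : ContDiff ℝ ∞ W) (hWf : ∀ x ∈ frontier Ω, 0 ≤ W x)
    (hp : PH p L) :
    ∫ x, (Ω.indicator (fun x => p (u x - W x)) x) ^ 2 ≤
      4 * R ^ 2 * L * ∫ x, (φ x + Ω.indicator (Laplacian.laplacian W) x) *
        Ω.indicator (fun x => p (u x - W x)) x := by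
  have hΩb : Bornology.IsBounded Ω := Metric.isBounded_ball.subset hΩ
  have hΩm := hΩo.measurableSet
  have hW2 : ContDiff ℝ 2 W := hW.of_le (by norm_cast)
  have hF2 : MemLp (Ω.indicator (Laplacian.laplacian W)) 2 :=
    indicator_cont_memLp (laplacian_continuous hW2) hΩm hΩb
  have hg2 : MemLp (Ω.indicator (fun x => p (u x - W x))) 2 :=
    hp.ind_memLp hu.memu hW.continuous hΩm hΩb
  have hfin : volume Ω ≠ ⊤ := hΩb.measure_lt_top.ne
  let a : ℕ → ℝ := fun n => 1 / ((n : ℝ) + 1)
  have ha : ∀ n, 0 < a n := fun n => by simp only [a]; positivity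
  have hal : Tendsto a atTop (𝓝 0) := tendsto_one_div_add_atTop_nhds_zero_nat
  have hpn : ∀ n, PH (fun t => p (t - a n)) L := fun n => hp.shift (ha n).le
  have hgn2 : ∀ n, MemLp (Ω.indicator (fun x => p (u x - W x - a n))) 2 := fun n =>
    (hpn n).ind_memLp hu.memu hW.continuous hΩm hΩb
  have hn := fun n => comp_a hN hΩo hR hΩ hu hW hWf (hpn n) (ha n) (fun t ht => hp.zero _ (by linarith))
  have hl : Tendsto (fun n => ∫ x, (Ω.indicator (fun x => p (u x - W x - a n)) x -
      Ω.indicator (fun x => p (u x - W x)) x) ^ 2) atTop (𝓝 0) := by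
    have h1 : Tendsto (fun n => (L * a n) ^ 2 * ∫ x, Ω.indicator (fun _ => (1:ℝ)) x) atTop (𝓝 0) := by
      have := ((hal.const_mul L).pow 2).mul_const (∫ x, Ω.indicator (fun _ => (1:ℝ)) x)
      simpa using this
    refine squeeze_zero (fun n => integral_nonneg fun x => sq_nonneg _) (fun n => ?_) h1
    rw [← integral_const_mul]
    refine integral_mono ((hgn2 n).sub hg2).integrable_sq ?_ fun x => ?_
    · exact (((integrable_indicator_iff hΩm).2 (integrableOn_const hfin))).const_mul _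
    · simp only
      by_cases hx : x ∈ Ω
      · simp only [indicator_of_mem hx]
        have := hp.lip (u x - W x - a n) (u x - W x)
        have e : u x - W x - a n - (u x - W x) = - a n := by ring
        rw [e, abs_neg, abs_of_pos (ha n)] at this
        rw [mul_one, ← sq_abs]
        exact pow_le_pow_left₀ (abs_nonneg _) this 2
      · simp only [indicator_of_notMem hx]; simp
  have l1 := tendsto_sq_of_L2 hgn2 hg2 hl
  have l2 := tendsto_integral_mul_L2 hgn2 hg2 (hu.memf.add hF2) hl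
  have h3 := le_of_tendsto_of_tendsto' l1 (l2.const_mul (4 * R ^ 2 * L)) (fun n => (hn n).trans (le_of_eq ?_))
  · refine h3.trans (le_of_eq ?_)
    congr 1
    refine integral_congr_ae (Eventually.of_forall fun x => ?_)
    simp only [Pi.add_apply]
    ring
  · congr 1
    refine integral_congr_ae (Eventually.of_forall fun x => ?_)
    simp only [Pi.add_apply]
    ring

end

end Pool.Agent.H19.Good
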