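import Pool.Agent.H19.Good.Lap

/-!
Convolutions `x ↦ ∫ f t * g (x - t) ∂ν` with a smooth compactly supported `g`.
-/

open MeasureTheory Set Filter Topology
open scoped Real ENNReal NNReal ContDiff Laplacian Pointwise

namespace Pool.Agent.H19.Good

noncomputable section

variable {N : ℕ}

/-- `(f ν) ⋆ g` -/
def cv (ν : Measure (EuclideanSpace ℝ (Fin N))) (f g : EuclideanSpace ℝ (Fin N) → ℝ)
    (x : EuclideanSpace ℝ (Fin N)) : ℝ :=
  ∫ t, f t * g (x - t) ∂ν

lemma cv_eq (ν : Measure (EuclideanSpace ℝ (Fin N))) (f g : EuclideanSpace ℝ (Fin N) → ℝ) :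
    cv ν f g = convolution f g (ContinuousLinearMap.mul ℝ ℝ) ν := by
  ext x; simp [cv, convolution_def]

lemma cv_integrand_integrable {ν : Measure (EuclideanSpace ℝ (Fin N))}
    {f g : EuclideanSpace ℝ (Fin N) → ℝ} (hf : LocallyIntegrable f ν) (hg : Continuous g)
    (hc : HasCompactSupport g) (x : EuclideanSpace ℝ (Fin N)) :
    Integrable (fun t => f t * g (x - t)) ν := by
  have h := hc.convolutionExists_right (ContinuousLinearMap.mul ℝ ℝ) hf hg x
  simpa [ConvolutionExistsAt] using h

lemma cv_contDiff {ν : Measure (EuclideanSpace ℝ (Fin N))}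
    {f g : EuclideanSpace ℝ (Fin N) → ℝ} (hf : LocallyIntegrable f ν) (hg : ContDiff ℝ ∞ g)
    (hc : HasCompactSupport g) : ContDiff ℝ ∞ (cv ν f g) := by
  rw [cv_eq]
  exact hc.contDiff_convolution_right (ContinuousLinearMap.mul ℝ ℝ) hf hg

lemma pd_cv {ν : Measure (EuclideanSpace ℝ (Fin N))}
    {f g : EuclideanSpace ℝ (Fin N) → ℝ} (hf : LocallyIntegrable f ν) (hg : ContDiff ℝ ∞ g)
    (hc : HasCompactSupport g) (i : Fin N) : pd i (cv ν f g) = cv ν f (pd i g) := by
  ext x₀
  have hg1 : ContDiff ℝ 1 g := hg.of_le (by norm_cast)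
  have hfd : Continuous (fderiv ℝ g) := hg1.continuous_fderiv one_ne_zero
  obtain ⟨C, hC⟩ := (hc.fderiv (𝕜 := ℝ)).exists_bound_of_continuous hfd
  let K' : Set (EuclideanSpace ℝ (Fin N)) := -tsupport (fderiv ℝ g) + Metric.closedBall x₀ 1
  have hK' : IsCompact K' := (hc.fderiv ℝ).isCompact.neg.add (isCompact_closedBall x₀ 1)
  have key : HasFDerivAt (fun x => ∫ t, f t * g (x - t) ∂ν)
      (∫ t, (f t) • (fderiv ℝ g (x₀ - t)) ∂ν) x₀ := by
    have hb : Integrable (K'.indicator (fun t => ‖f t‖ * C)) ν := by
      rw [integrable_indicator_iff hK'.measurableSet]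
      exact (hf.integrableOn_isCompact hK').norm.mul_const _
    refine hasFDerivAt_integral_of_dominated_of_fderiv_le (F' := fun x t => (f t) • (fderiv ℝ g (x - t)))
      (Metric.ball_mem_nhds x₀ zero_lt_one) ?_ (cv_integrand_integrable hf hg.continuous hc x₀)
      ?_ ?_ hb ?_
    · refine Eventually.of_forall fun x => ?_
      exact (cv_integrand_integrable hf hg.continuous hc x).aestronglyMeasurable
    · exact hf.aestronglyMeasurable.smul
        (hfd.comp (continuous_const.sub continuous_id)).aestronglyMeasurable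
    · refine Eventually.of_forall fun t x hx => ?_
      by_cases ht : t ∈ K'
      · rw [indicator_of_mem ht, norm_smul]
        exact mul_le_mul_of_nonneg_left (hC _) (norm_nonneg _)
      · rw [indicator_of_notMem ht]
        have : x - t ∉ tsupport (fderiv ℝ g) := by
          intro h
          apply ht
          refine ⟨-(x - t), by simpa using h, x, Metric.ball_subset_closedBall hx, by simp⟩
        rw [image_eq_zero_of_notMem_tsupport this]
        simp
    · refine Eventually.of_forall fun t x _ => ?_
      have h1 : HasFDerivAt (fun x => x - t) (ContinuousLinearMap.id ℝ (EuclideanSpace ℝ (Fin N))) x :=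
        (hasFDerivAt_id x).sub_const t
      have h2 := ((hg1.differentiable one_ne_zero) (x - t)).hasFDerivAt.comp x h1
      have h3 := h2.const_mul (f t)
      simpa [Function.comp_def] using h3
  have h1 : fderiv ℝ (cv ν f g) x₀ = ∫ t, (f t) • (fderiv ℝ g (x₀ - t)) ∂ν := key.fderiv
  have hint : Integrable (fun t => (f t) • (fderiv ℝ g (x₀ - t))) ν := by
    have hb : Integrable (K'.indicator (fun t => ‖f t‖ * C)) ν := by
      rw [integrable_indicator_iff hK'.measurableSet]
      exact (hf.integrableOn_isCompact hK').norm.mul_const _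
    refine hb.mono' (hf.aestronglyMeasurable.smul
        (hfd.comp (continuous_const.sub continuous_id)).aestronglyMeasurable) ?_
    refine Eventually.of_forall fun t => ?_
    by_cases ht : t ∈ K'
    · rw [indicator_of_mem ht, norm_smul]
      exact mul_le_mul_of_nonneg_left (hC _) (norm_nonneg _)
    · rw [indicator_of_notMem ht]
      have : x₀ - t ∉ tsupport (fderiv ℝ g) := by
        intro h
        apply ht
        refine ⟨-(x₀ - t), by simpa using h, x₀, by simp, by simp⟩
      rw [image_eq_zero_of_notMem_tsupport this]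
      simp
  unfold pd
  rw [h1, ContinuousLinearMap.integral_apply hint]
  simp [cv]

lemma laplacian_cv {ν : Measure (EuclideanSpace ℝ (Fin N))}
    {f g : EuclideanSpace ℝ (Fin N) → ℝ} (hf : LocallyIntegrable f ν) (hg : ContDiff ℝ ∞ g)
    (hc : HasCompactSupport g) :
    Laplacian.laplacian (cv ν f g) = cv ν f (Laplacian.laplacian g) := by
  have h2 : ContDiff ℝ 2 (cv ν f g) := (cv_contDiff hf hg hc).of_le (by norm_cast)
  rw [laplacian_eq_sum' h2, laplacian_eq_sum' (hg.of_le (by norm_cast))]
  ext x
  simp_rw [pd_cv hf hg hc, pd_cv hf (pd_contDiff_top hg _) (pd_hasCompactSupport hc _)]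
  unfold cv
  rw [← integral_finsetSum]
  · simp_rw [Finset.mul_sum]
  · intro i _
    exact cv_integrand_integrable hf (pd_contDiff_top (pd_contDiff_top hg _) _).continuous
      (pd_hasCompactSupport (pd_hasCompactSupport hc _) _) x

end

end Pool.Agent.H19.Good
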