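import Pool.Agent.H19.Good.PotB

/-!
The concentration step: loss of mass yields cheap potentials.
-/

open MeasureTheory Set Filter Topology
open scoped Real ENNReal NNReal ContDiff Laplacian Pointwise

namespace Pool.Agent.H19.Good

noncomputable section

variable {N : ℕ}

variable {Ω O : Set (EuclideanSpace ℝ (Fin N))}

lemma laplacian_zero_fun (x : EuclideanSpace ℝ (Fin N)) (c : ℝ) :
    Laplacian.laplacian (fun _ : EuclideanSpace ℝ (Fin N) => c) x = 0 := by
  have e : ∀ i : Fin N, pd i (fun _ : EuclideanSpace ℝ (Fin N) => c) = fun _ => 0 := by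
    intro i; ext y; simp [pd]
  have e' : ∀ i : Fin N, pd i (fun _ : EuclideanSpace ℝ (Fin N) => (0:ℝ)) = fun _ => 0 := by
    intro i; ext y; simp [pd]
  rw [laplacian_eq_sum contDiff_const]
  simp_rw [e, e']
  simp

lemma st_abs_le (t : ℝ) : |Real.smoothTransition t| ≤ 1 := by
  rw [abs_of_nonneg (Real.smoothTransition.nonneg _)]; exact Real.smoothTransition.le_one _

section props

variable {m : Measure (EuclideanSpace ℝ (Fin N))} [IsFiniteMeasure m] {R : ℝ}
  {V : EuclideanSpace ℝ (Fin N) → ℝ} {v φ : ℕ → EuclideanSpace ℝ (Fin N) → ℝ} {n : ℕ → ℕ}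

lemma bdd_mul_int {f g : EuclideanSpace ℝ (Fin N) → ℝ} (hf : Integrable f)
    (hg : AEStronglyMeasurable g volume) {C : ℝ} (hC : ∀ x, |g x| ≤ C) :
    Integrable (fun x => f x * g x) := by
  have := hf.bdd_mul (c := C) hg (Eventually.of_forall fun x => by
    rw [Real.norm_eq_abs]; exact hC _)
  refine this.congr (Eventually.of_forall fun x => ?_)
  simp only; ring

/-- T3: mass bound -/
lemma trunc_mass (hN : 0 < N) (hΩm : MeasurableSet Ω) (hΩO : Ω ⊆ O) (hOo : IsOpen O) (hR : 0 < R)
    (hO : O ⊆ Metric.ball 0 R) (h : LV O m R V v φ n) {k : ℕ} {w : EuclideanSpace ℝ (Fin N) → ℝ}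
    (hwm : Measurable w) (hw : Weak O (fun x => - HH Ω k V w x) w) :
    ∫ x, HH Ω k V w x ≤ m.real univ := by
  obtain ⟨L, hL, hp0⟩ := PH_st
  have hOm := hOo.measurableSet
  have hOb : Bornology.IsBounded O := Metric.isBounded_ball.subset hO
  have hwi := weak_integrable hOm hOb hw
  have hvi : ∀ j, Integrable (v j) := fun j => weak_integrable hOm hOb (h.weak j)
  have hHi : Integrable (HH Ω k V w) := HH_integrable hΩm (hOb.subset hΩO) k h.measV hwm
  have hstep : ∀ δ > 0, ∫ x, HH Ω k V w x * Real.smoothTransition ((V x + w x) / δ) ≤ m.real univ := by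
    intro δ hδ
    have hp := hp0.scale hδ
    set q : ℝ → ℝ := fun t => Real.smoothTransition (t / δ) with hq
    have hqc : Continuous q := Real.smoothTransition.continuous.comp (continuous_id.div_const δ)
    have hq0 : ∀ t, 0 ≤ q t := fun t => Real.smoothTransition.nonneg _
    have hq1 : ∀ t, |q t| ≤ 1 := fun t => st_abs_le _
    have hj : ∀ j, ∫ x, HH Ω k V w x * q (v j x + w x) ≤ m.real univ := by
      intro j
      have h1 := comp_set hN hOo hR hO ((h.weak j).comb hw 1 1) (W := fun _ => 0) contDiff_const
        (fun _ _ => le_rfl) hp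
      have h2 : 0 ≤ ∫ x in O, q (1 * v j x + 1 * w x - 0) ^ 2 := integral_nonneg fun x => sq_nonneg _
      have h3 : 0 ≤ ∫ x in O, (1 * φ j x + 1 * -HH Ω k V w x +
          Laplacian.laplacian (fun _ : EuclideanSpace ℝ (Fin N) => (0:ℝ)) x) *
          q (1 * v j x + 1 * w x - 0) := by
        have h4 := h2.trans h1
        have h5 : 0 < 4 * R ^ 2 * (L / δ) := by positivity
        exact nonneg_of_mul_nonneg_right h4 h5
      have hqm : AEStronglyMeasurable (fun x => q (v j x + w x)) volume :=
        hqc.comp_aestronglyMeasurable ((h.measv j).add hwm).aestronglyMeasurable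
      have i1 : Integrable (fun x => φ j x * q (v j x + w x)) :=
        bdd_mul_int (h.φint j) hqm (fun x => hq1 _)
      have i2 : Integrable (fun x => HH Ω k V w x * q (v j x + w x)) :=
        bdd_mul_int hHi hqm (fun x => hq1 _)
      have e1 : ∫ x in O, (1 * φ j x + 1 * -HH Ω k V w x +
          Laplacian.laplacian (fun _ : EuclideanSpace ℝ (Fin N) => (0:ℝ)) x) *
          q (1 * v j x + 1 * w x - 0) =
          (∫ x in O, φ j x * q (v j x + w x)) - ∫ x in O, HH Ω k V w x * q (v j x + w x) := by
        rw [← integral_sub i1.integrableOn i2.integrableOn]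
        refine integral_congr_ae (Eventually.of_forall fun x => ?_)
        simp only
        rw [laplacian_zero_fun, one_mul, one_mul, sub_zero, one_mul]
        ring
      rw [e1] at h3
      have e2 : ∫ x in O, HH Ω k V w x * q (v j x + w x) = ∫ x, HH Ω k V w x * q (v j x + w x) := by
        refine setIntegral_eq_integral_of_forall_compl_eq_zero fun x hx => ?_
        rw [HH_zero k V w (fun h => hx (hΩO h)), zero_mul]
      have h6 : ∫ x in O, φ j x * q (v j x + w x) ≤ m.real univ := by
        calc ∫ x in O, φ j x * q (v j x + w x) ≤ ∫ x, φ j x * q (v j x + w x) :=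
              setIntegral_le_integral i1 (Eventually.of_forall fun x => mul_nonneg (h.φnn j x) (hq0 _))
          _ ≤ ∫ x, φ j x := by
              refine integral_mono i1 (h.φint j) fun x => ?_
              have := h.φnn j x
              have h7 := (le_abs_self _).trans (hq1 (v j x + w x))
              simp only
              nlinarith
          _ ≤ _ := h.φmass j
      rw [← e2]
      linarith
    have hlim := h.lim_add w
    have l1 := tendsto_bl (fun j => (hvi j).add hwi) (h.intV.add hwi) (H := fun _ => HH Ω k V w)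
      (fun _ => hHi) hHi (C := Real.exp k)
      (Eventually.of_forall fun x => by rw [abs_of_nonneg (HH_nonneg k V w x)]; exact HH_le k V w x)
      hqc hq1 hp.lip hlim (by simp)
    exact le_of_tendsto' l1 hj
  -- δ → 0
  have hl : Tendsto (fun i : ℕ => ∫ x, HH Ω k V w x *
      Real.smoothTransition ((V x + w x) / (1 / ((i : ℝ) + 1)))) atTop (𝓝 (∫ x, HH Ω k V w x)) := by
    refine tendsto_integral_of_dominated_convergence (fun x => HH Ω k V w x) (fun i => ?_) hHi
      (fun i => Eventually.of_forall fun x => ?_) (Eventually.of_forall fun x => ?_)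
    · exact hHi.aestronglyMeasurable.mul (Real.smoothTransition.continuous.comp_aestronglyMeasurable
        ((h.measV.add hwm).div_const _).aestronglyMeasurable)
    · rw [norm_mul, Real.norm_of_nonneg (HH_nonneg k V w x)]
      exact mul_le_of_le_one_right (HH_nonneg k V w x) (st_abs_le _)
    · rcases le_or_gt (V x + w x) 0 with h1 | h1
      · have : HH Ω k V w x = 0 := by unfold HH; rw [gp_zero k h1, mul_zero]
        simp [this]
      · refine tendsto_const_nhds.congr' ?_
        obtain ⟨i0, hi0⟩ := exists_nat_one_div_lt h1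
        filter_upwards [eventually_ge_atTop i0] with i hi
        rw [Real.smoothTransition.one_of_one_le, mul_one]
        rw [le_div_iff₀ (by positivity), one_mul]
        exact (one_div_le_one_div_of_le (by positivity) (by gcongr)).trans hi0.le
  exact le_of_tendsto' hl fun i => hstep _ (by positivity)

lemma continuous_le_of_ae {f : EuclideanSpace ℝ (Fin N) → ℝ} (hf : Continuous f) (hOo : IsOpen O) {c : ℝ}
    (h : ∀ᵐ x, x ∈ O → f x ≤ c) : ∀ x ∈ O, f x ≤ c := by
  intro x hx
  by_contra hlt
  push Not at hlt
  have ho : IsOpen (O ∩ {y | c < f y}) := hOo.inter (isOpen_lt continuous_const hf)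
  have hne : (O ∩ {y | c < f y}).Nonempty := ⟨x, hx, hlt⟩
  have hpos := ho.measure_pos (μ := volume) hne
  have hz : volume (O ∩ {y | c < f y}) = 0 := by
    rw [ae_iff] at h
    refine measure_mono_null ?_ h
    rintro y ⟨hy1, hy2⟩
    simp only [mem_ofPred_eq, Classical.not_imp, not_le]
    exact ⟨hy1, hy2⟩
  exact hpos.ne' hz

/-- the energy functional -/
def cost (s : EuclideanSpace ℝ (Fin N) → ℝ) : ℝ := ∫ x, s x * Real.posLog (s x)

end props

end

end Pool.Agent.H19.Good
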