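import Pool.Agent.H19.Good.DStep

/-!
The concentration step: loss of mass yields cheap potentials (main statement).
-/

open MeasureTheory Set Filter Topology
open scoped Real ENNReal NNReal ContDiff Laplacian Pointwise

namespace Pool.Agent.H19.Good

noncomputable section

variable {N : ℕ}

variable {Ω : Set (EuclideanSpace ℝ (Fin N))}

variable {m : Measure (EuclideanSpace ℝ (Fin N))} [IsFiniteMeasure m] {R : ℝ}
  {V : EuclideanSpace ℝ (Fin N) → ℝ} {v φ : ℕ → EuclideanSpace ℝ (Fin N) → ℝ} {n : ℕ → ℕ}

/-- cheap potentials for `m` -/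
structure Cheap (Ω : Set (EuclideanSpace ℝ (Fin N))) (m : Measure (EuclideanSpace ℝ (Fin N))) (R : ℝ)
    (δ η : ℝ) (s : EuclideanSpace ℝ (Fin N) → ℝ) : Prop where
  bd : ∃ C, Bd R C s
  nonneg : ∀ x, 0 ≤ s x
  zero : ∀ x, x ∉ Ω → s x = 0
  mass : ∫ x, s x ≤ δ
  pot_le : ∀ x, pot s x ≤ 2
  cost_le : cost s ≤ ∫ x, pot s x ∂m - η

lemma posLog_le_of_le_exp {a u : ℝ} (ha : 0 ≤ a) (hu : 0 ≤ u) (h : a ≤ Real.exp u) :
    Real.posLog a ≤ u := by
  rw [Real.posLog_apply]
  refine max_le hu ?_
  rcases ha.eq_or_lt with h0 | h0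
  · rw [← h0, Real.log_zero]; exact hu
  · exact (Real.log_le_iff_le_exp h0).2 h

lemma Bd.cost_integrable {r C : ℝ} {s : EuclideanSpace ℝ (Fin N) → ℝ} (h : Bd r C s) :
    Integrable (fun x => s x * Real.posLog (s x)) := by
  have hm : Measurable (fun x => Real.posLog (s x)) := Real.continuous_posLog.measurable.comp h.meas
  refine bdd_mul_int h.integrable hm.aestronglyMeasurable (C := Real.posLog C) fun x => ?_
  rw [abs_of_nonneg Real.posLog_nonneg, ← Real.posLog_abs]
  exact Real.posLog_le_posLog (abs_nonneg _) (h.bdd x)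

theorem dstep (hN : 3 ≤ N) (hΩm : MeasurableSet Ω) (hR : 0 < R) (hΩ : Ω ⊆ Metric.ball 0 R)
    (h : LV (Metric.ball 0 (R + 2)) m (R + 2) V v φ n)
    {w : ℕ → EuclideanSpace ℝ (Fin N) → ℝ} (hwm : ∀ k, Measurable (w k))
    (hw : ∀ k, Weak (Metric.ball 0 (R + 2)) (fun x => - HH Ω k V (w k) x) (w k))
    {Hi : EuclideanSpace ℝ (Fin N) → ℝ}
    (hae : ∀ᵐ x, Tendsto (fun k => HH Ω k V (w k) x) atTop (𝓝 (Hi x))) (hHi : Integrable Hi)
    {D : ℝ} (hD : 0 < D) (hfreq : ∃ᶠ k in atTop, (∫ x, Hi x) + D ≤ ∫ x, HH Ω k V (w k) x)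
    {δ : ℝ} (hδ : 0 < δ) : ∃ s, Cheap Ω m R δ (D / 2) s := by
  have hN0 : 0 < N := by omega
  set RO := R + 2 with hRO
  have hRO0 : 0 < RO := by positivity
  set O := Metric.ball (0 : EuclideanSpace ℝ (Fin N)) RO with hO
  have hOo : IsOpen O := Metric.isOpen_ball
  have hOm : MeasurableSet O := measurableSet_ball
  have hOO : O ⊆ Metric.ball 0 RO := by rw [hO]
  have hOb : Bornology.IsBounded O := Metric.isBounded_ball
  have hΩO : Ω ⊆ O := hΩ.trans (Metric.ball_subset_ball (by linarith))
  have hΩb : Bornology.IsBounded Ω := Metric.isBounded_ball.subset hΩ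
  have hmu : 0 ≤ m.real univ := measureReal_nonneg
  have hk := kap_pos hN
  obtain ⟨L, hL, hp⟩ := PH_st
  -- constants
  set M : ℝ := 1 + m.real univ / δ + kap N * m.real univ with hM
  have hM1 : 1 ≤ M := by
    have : 0 ≤ m.real univ / δ := by positivity
    have : 0 ≤ kap N * m.real univ := by positivity
    linarith
  have hM0 : 0 < M := by linarith
  have hmM : m.real univ / M ≤ δ := by
    rw [div_le_iff₀ hM0]
    have h1 : m.real univ = δ * (m.real univ / δ) := by field_simp
    have h2 : m.real univ / δ ≤ M := by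
      have : 0 ≤ kap N * m.real univ := by positivity
      linarith
    calc m.real univ = δ * (m.real univ / δ) := h1
      _ ≤ δ * M := by gcongr
  have hmM' : kap N * (m.real univ / M) ≤ 1 := by
    rw [← mul_div_assoc, div_le_one hM0]
    have : 0 ≤ m.real univ / δ := by positivity
    linarith
  set j0 : ℝ := 16 * M * m.real univ / D + 1 with hj0
  have hj0p : 0 < j0 := by positivity
  have hj0' : M / j0 * (2 * m.real univ) ≤ D / 8 := by
    rw [div_mul_eq_mul_div, div_le_iff₀ hj0p]
    have : D / 8 * (16 * M * m.real univ / D) = M * (2 * m.real univ) := by field_simp; ring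
    have h2 : D / 8 * j0 = D / 8 * (16 * M * m.real univ / D) + D / 8 := by rw [hj0]; ring
    rw [h2, this]
    linarith
  -- the set where V is small
  set A : Set (EuclideanSpace ℝ (Fin N)) := {x | V x ≤ j0} with hA
  have hAm : MeasurableSet A := measurableSet_le h.measV measurable_const
  have hHint : ∀ k, Integrable (HH Ω k V (w k)) := fun k => HH_integrable hΩm hΩb k h.measV (hwm k)
  have hwneg : ∀ k, ∀ᵐ x, w k x ≤ 0 := fun k => trunc_nonpos hN0 hOo hRO0 hOO (hw k)
  have hAl : Tendsto (fun k => ∫ x in A, HH Ω k V (w k) x) atTop (𝓝 (∫ x in A, Hi x)) := by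
    have hbi : Integrable (Ω.indicator (fun _ : EuclideanSpace ℝ (Fin N) => Real.exp j0)) := by
      rw [integrable_indicator_iff hΩm]; exact integrableOn_const hΩb.measure_lt_top.ne
    refine tendsto_integral_of_dominated_convergence
      (Ω.indicator (fun _ : EuclideanSpace ℝ (Fin N) => Real.exp j0)) (fun k => ?_) hbi.integrableOn
      (fun k => ?_) (ae_restrict_of_ae hae)
    · exact (hHint k).aestronglyMeasurable.restrict
    · rw [ae_restrict_iff' hAm]
      filter_upwards [hwneg k] with x hx hxA
      rw [Real.norm_of_nonneg (HH_nonneg k V (w k) x)]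
      by_cases hxΩ : x ∈ Ω
      · unfold HH
        rw [indicator_of_mem hxΩ, indicator_of_mem hxΩ, one_mul]
        have h1 : gp k (V x + w k x) ≤ gp k j0 := gp_mono k (by
          have : V x ≤ j0 := hxA
          linarith)
        exact h1.trans (gp_le_exp k hj0p.le)
      · rw [HH_zero k V (w k) hxΩ, indicator_of_notMem hxΩ]
  have hHinn : ∀ᵐ x, 0 ≤ Hi x := by
    filter_upwards [hae] with x hx
    exact ge_of_tendsto' hx fun k => HH_nonneg k V (w k) x
  have hAle : ∫ x in A, Hi x ≤ ∫ x, Hi x := setIntegral_le_integral hHi hHinn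
  have hev : ∀ᶠ k in atTop, ∫ x in A, HH Ω k V (w k) x < (∫ x, Hi x) + D / 8 :=
    hAl.eventually (gt_mem_nhds (by linarith))
  obtain ⟨k, hk1, hk2⟩ := (hfreq.and_eventually hev).exists
  set Hk := HH Ω k V (w k) with hHk
  have hHkm : Measurable Hk := HH_measurable hΩm k h.measV (hwm k)
  have hHk0 : ∀ x, 0 ≤ Hk x := HH_nonneg k V (w k)
  -- the auxiliary solution
  set β : ℝ → ℝ := fun t => Real.smoothTransition (4 * t - 3) with hβ
  have hβ0 : ∀ t, 0 ≤ β t := fun t => Real.smoothTransition.nonneg _
  have hβ1 : ∀ t, β t ≤ 1 := fun t => Real.smoothTransition.le_one _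
  have hβm : Monotone β := fun s t hst => Real.smoothTransition.monotone (by linarith)
  have hγ : GHyp RO (Real.exp k) (Real.exp k * (L * 4))
      (fun (x : EuclideanSpace ℝ (Fin N)) (t : ℝ) => - (Hk x / M * (1 - β t))) := by
    refine ⟨?_, ?_, ?_, ?_, ?_⟩
    · have h1 : Measurable (fun p : EuclideanSpace ℝ (Fin N) × ℝ => Hk p.1 / M) :=
        (hHkm.comp measurable_fst).div_const M
      have h2 : Measurable (fun p : EuclideanSpace ℝ (Fin N) × ℝ => 1 - β p.2) := by
        refine measurable_const.sub ?_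
        exact Real.smoothTransition.continuous.measurable.comp
          ((measurable_snd.const_mul 4).sub_const 3)
      exact (h1.mul h2).neg
    · intro x t
      rw [abs_neg, abs_mul, abs_of_nonneg (div_nonneg (hHk0 x) hM0.le),
        abs_of_nonneg (by linarith [hβ1 t] : 0 ≤ 1 - β t)]
      have h1 : Hk x / M ≤ Real.exp k := (div_le_self (hHk0 x) hM1).trans (HH_le k V (w k) x)
      calc Hk x / M * (1 - β t) ≤ Real.exp k * 1 := by
            gcongr
            · linarith [hβ1 t]
            · linarith [hβ0 t]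
        _ = _ := mul_one _
    · intro x s t hst
      have h1 := hβm hst
      have h2 : 0 ≤ Hk x / M := div_nonneg (hHk0 x) hM0.le
      simp only
      nlinarith
    · intro x s t
      have h1 : Hk x / M ≤ Real.exp k := (div_le_self (hHk0 x) hM1).trans (HH_le k V (w k) x)
      have h2 : 0 ≤ Hk x / M := div_nonneg (hHk0 x) hM0.le
      have e : -(Hk x / M * (1 - β s)) - -(Hk x / M * (1 - β t)) = Hk x / M * (β s - β t) := by ring
      rw [e, abs_mul, abs_of_nonneg h2]
      have h3 := hp.lip (4 * s - 3) (4 * t - 3)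
      have e2 : 4 * s - 3 - (4 * t - 3) = 4 * (s - t) := by ring
      rw [e2, abs_mul, abs_of_pos (by norm_num : (0:ℝ) < 4)] at h3
      calc Hk x / M * |β s - β t| ≤ Real.exp k * (L * (4 * |s - t|)) := by
            gcongr
        _ = _ := by ring
    · intro x hx t
      have : Hk x = 0 := HH_zero k V (w k) (fun h => hx (hOO (hΩO h)))
      rw [this]; simp
  obtain ⟨ζ, hζm, hζw⟩ := exists_weak (Ω := O) hN0 hRO0 hOO hγ
  simp only [neg_neg] at hζw
  set s : EuclideanSpace ℝ (Fin N) → ℝ := fun x => Hk x / M * (1 - β (ζ x)) with hs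
  have hs0 : ∀ x, 0 ≤ s x := fun x => mul_nonneg (div_nonneg (hHk0 x) hM0.le) (by linarith [hβ1 (ζ x)])
  have hsle : ∀ x, s x ≤ Hk x / M := fun x => by
    have h2 : 0 ≤ Hk x / M := div_nonneg (hHk0 x) hM0.le
    have := hβ0 (ζ x)
    simp only [hs]
    nlinarith
  have hsm : Measurable s := by
    refine (hHkm.div_const M).mul (measurable_const.sub ?_)
    exact Real.smoothTransition.continuous.measurable.comp ((hζm.const_mul 4).sub_const 3)
  have hsz : ∀ x, x ∉ Ω → s x = 0 := by
    intro x hx
    have : Hk x = 0 := HH_zero k V (w k) hx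
    simp only [hs, this, zero_div, zero_mul]
  have hBd : Bd R (Real.exp k) s := by
    refine ⟨hsm, fun x => ?_, fun x hx => ?_⟩
    · rw [abs_of_nonneg (hs0 x)]
      exact (hsle x).trans ((div_le_self (hHk0 x) hM1).trans (HH_le k V (w k) x))
    · refine hsz x fun h => ?_
      have : ‖x‖ < R := by simpa using hΩ h
      linarith
  -- 0 ≤ ζ ≤ 1
  have hζ0 : ∀ᵐ x, 0 ≤ ζ x := weak_nonneg hN0 hOo hRO0 hOO hζw (Eventually.of_forall fun x _ _ => hs0 x)
  have hζ1 : ∀ᵐ x, ζ x ≤ 1 := by
    have h1 := comp_le hN0 hOo hRO0 hOO hζw (W := fun _ => 1) contDiff_const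
      (fun _ _ => zero_le_one) (by
        refine Eventually.of_forall fun x _ hx => ?_
        rw [laplacian_zero_fun, add_zero]
        have : β (ζ x) = 1 := Real.smoothTransition.one_of_one_le (by linarith)
        simp only [hs, this]; simp)
    filter_upwards [h1, hζw.ae_zero hOm] with x hx hx'
    by_cases hxO : x ∈ O
    · exact hx hxO
    · rw [hx' hxO]; exact zero_le_one
  -- mass
  have hmass : ∫ x, s x ≤ m.real univ / M := by
    calc ∫ x, s x ≤ ∫ x, Hk x / M := integral_mono hBd.integrable ((hHint k).div_const M) hsle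
      _ = (∫ x, Hk x) / M := integral_div _ _
      _ ≤ _ := div_le_div_of_nonneg_right
          (trunc_mass hN0 hΩm hΩO hOo hRO0 hOO h (hwm k) (hw k)) hM0.le
  have hsint0 : 0 ≤ ∫ x, s x := integral_nonneg hs0
  have hks : kap N * ∫ x, s x ≤ 1 := (mul_le_mul_of_nonneg_left hmass hk.le).trans hmM'
  -- potential bound
  have hpc : Continuous (pot s) := hBd.pot_continuous hN
  have hpot : ∀ x, pot s x ≤ 2 := by
    have h1 := pot_le_weak hN hR hBd hs0 hζw
    have h2 : ∀ᵐ x, x ∈ O → pot s x ≤ 2 := by
      filter_upwards [h1, hζ1] with x hx hx1 hxO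
      have := hx hxO
      linarith
    have h3 := continuous_le_of_ae hpc hOo h2
    intro x
    by_cases hxO : x ∈ O
    · exact h3 x hxO
    · have hxn : RO ≤ ‖x‖ := by simpa [hO] using hxO
      have h4 := hBd.pot_far hN hs0 (δ := 2) (by norm_num) (x := x) (fun t ht => by
        have h5 : t ∈ Ω := by
          by_contra hc
          exact ht (hsz t hc)
        have h6 : ‖t‖ < R := by simpa using hΩ h5
        have h7 := norm_sub_norm_le x t
        linarith)
      have h8 : kap N / 2 ^ (N - 2) ≤ kap N := div_le_self hk.le (one_le_pow₀ (by norm_num))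
      have h9 : kap N / 2 ^ (N - 2) * ∫ t, s t ≤ kap N * ∫ t, s t := by gcongr
      linarith
  have hpot0 : ∀ x, 0 ≤ pot s x := pot_nonneg hN hs0
  have hpotm : Integrable (pot s) m :=
    (integrable_const (2:ℝ)).mono' hpc.aestronglyMeasurable (Eventually.of_forall fun x => by
      rw [Real.norm_of_nonneg (hpot0 x)]; exact hpot x)
  -- ∫ s V ≤ ∫ pot s dm
  have hsV : Integrable (fun x => V x * s x) :=
    bdd_mul_int h.intV hsm.aestronglyMeasurable hBd.bdd
  have hPT : Integrable (cv m (fun _ => 1) (PhiT (2 * RO))) :=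
    cv_integrable (integrable_const 1) (PhiT_integrable hN _)
  have hVpot : ∫ x, V x * s x ≤ ∫ x, pot s x ∂m := by
    calc ∫ x, V x * s x ≤ ∫ x, cv m (fun _ => 1) (PhiT (2 * RO)) x * s x := by
          refine integral_mono_ae hsV (bdd_mul_int hPT hsm.aestronglyMeasurable hBd.bdd) ?_
          filter_upwards [h.le_pot] with x hx
          by_cases hxΩ : x ∈ Ω
          · exact mul_le_mul_of_nonneg_right (hx (hΩO hxΩ)) (hs0 x)
          · simp only [hsz x hxΩ, mul_zero, le_refl]
      _ = ∫ t, 1 * (∫ x, s x * PhiT (2 * RO) (x - t)) ∂m :=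
          cv_dual (integrable_const 1) (PhiT_integrable hN _) hsm.aestronglyMeasurable hBd.bdd
      _ ≤ ∫ t, pot s t ∂m := by
          refine integral_mono_of_nonneg (Eventually.of_forall fun t => ?_) hpotm
            (Eventually.of_forall fun t => ?_)
          · simp only [Pi.zero_apply, one_mul]
            exact integral_nonneg fun x => mul_nonneg (hs0 x)
              (indicator_nonneg (fun _ _ => Phi_nonneg hN _) _)
          · simp only [one_mul]
            unfold pot
            refine integral_mono_of_nonneg (Eventually.of_forall fun x => mul_nonneg (hs0 x)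
              (indicator_nonneg (fun _ _ => Phi_nonneg hN _) _)) (hBd.pot_integrand hN t)
              (Eventually.of_forall fun x => ?_)
            simp only
            refine mul_le_mul_of_nonneg_left ?_ (hs0 x)
            rw [Phi_sub_comm t x]
            unfold PhiT
            by_cases hx : x - t ∈ Metric.ball (0 : EuclideanSpace ℝ (Fin N)) (2 * RO)
            · rw [indicator_of_mem hx]
            · rw [indicator_of_notMem hx]; exact Phi_nonneg hN _
  have hpm2 : ∫ x, pot s x ∂m ≤ 2 * m.real univ := by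
    calc ∫ x, pot s x ∂m ≤ ∫ _, (2:ℝ) ∂m := integral_mono hpotm (integrable_const 2) hpot
      _ = 2 * m.real univ := by simp [mul_comm]
  -- symmetry
  have hsym : ∫ x, w k x * s x = ∫ x, -Hk x * ζ x := (hw k).symm hζw
  have hwi : Integrable (w k) := weak_integrable hOm hOb (hw k)
  have hws : Integrable (fun x => w k x * s x) := bdd_mul_int hwi hsm.aestronglyMeasurable hBd.bdd
  have hζi : Integrable ζ := weak_integrable hOm hOb hζw
  have hHkb : ∀ x, |Hk x| ≤ Real.exp k := fun x => by
    rw [abs_of_nonneg (hHk0 x)]; exact HH_le k V (w k) x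
  have hζH : Integrable (fun x => ζ x * Hk x) := bdd_mul_int hζi hHkm.aestronglyMeasurable hHkb
  -- lower bound for ∫ ζ H
  set B : Set (EuclideanSpace ℝ (Fin N)) := {x | ζ x ≤ 3 / 4} with hB
  have hBm : MeasurableSet B := measurableSet_le hζm measurable_const
  have hBle : ∫ x in B, Hk x ≤ (∫ x in A, Hk x) + M / j0 * ∫ x, V x * s x := by
    rw [← integral_indicator hBm, ← integral_indicator hAm, ← integral_const_mul,
      ← integral_add ((hHint k).indicator hAm) (hsV.const_mul _)]
    refine integral_mono_ae ((hHint k).indicator hBm) (((hHint k).indicator hAm).add (hsV.const_mul _)) ?_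
    filter_upwards [h.nonneg] with x hx
    have h1 : 0 ≤ M / j0 * (V x * s x) := mul_nonneg (by positivity) (mul_nonneg hx (hs0 x))
    by_cases hxB : x ∈ B
    · rw [indicator_of_mem hxB]
      by_cases hxA : x ∈ A
      · rw [indicator_of_mem hxA]; linarith
      · rw [indicator_of_notMem hxA, zero_add]
        have hVj : j0 ≤ V x := le_of_lt (not_le.1 hxA)
        have hβz : β (ζ x) = 0 := Real.smoothTransition.zero_of_nonpos (by
          have : ζ x ≤ 3 / 4 := hxB
          linarith)
        have hsx : s x = Hk x / M := by simp only [hs, hβz, sub_zero, mul_one]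
        rw [hsx]
        have h2 : M / j0 * (V x * (Hk x / M)) = Hk x * (V x / j0) := by field_simp
        rw [h2]
        have h3 : 1 ≤ V x / j0 := by rw [le_div_iff₀ hj0p]; linarith
        have := hHk0 x
        nlinarith
    · rw [indicator_of_notMem hxB]
      have : 0 ≤ A.indicator Hk x := indicator_nonneg (fun y _ => hHk0 y) x
      linarith
  have hζlow : 3 / 4 * ((∫ x, Hk x) - ∫ x in B, Hk x) ≤ ∫ x, ζ x * Hk x := by
    rw [← integral_indicator hBm, ← integral_sub (hHint k) ((hHint k).indicator hBm),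
      ← integral_const_mul]
    refine integral_mono_ae (((hHint k).sub ((hHint k).indicator hBm)).const_mul _) hζH ?_
    filter_upwards [hζ0] with x hx
    have h0 := hHk0 x
    by_cases hxB : x ∈ B
    · rw [indicator_of_mem hxB]
      have := mul_nonneg hx h0
      linarith
    · rw [indicator_of_notMem hxB]
      have h1 : 3 / 4 < ζ x := not_le.1 hxB
      nlinarith
  -- cost
  have hUnn : ∀ᵐ x, 0 ≤ V x + w k x := trunc_nonneg hN0 hΩm hΩO hOo hRO0 hOO h (hwm k) (hw k)
  have hcost : cost s ≤ (∫ x, V x * s x) + ∫ x, w k x * s x := by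
    unfold cost
    rw [← integral_add hsV hws]
    refine integral_mono_ae hBd.cost_integrable (hsV.add hws) ?_
    filter_upwards [hUnn] with x hx
    have h1 : Real.posLog (s x) ≤ V x + w k x := by
      refine posLog_le_of_le_exp (hs0 x) hx ?_
      refine (hsle x).trans ((div_le_self (hHk0 x) hM1).trans ?_)
      simp only [hHk]
      unfold HH
      calc Ω.indicator (fun _ => (1:ℝ)) x * gp k (V x + w k x) ≤ 1 * Real.exp (V x + w k x) := by
            gcongr
            · exact gp_nonneg _ _
            · exact ind_le_one x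
            · exact gp_le_exp k hx
        _ = _ := one_mul _
    have := hs0 x
    nlinarith
  refine ⟨s, ⟨_, hBd⟩, hs0, hsz, hmass.trans hmM, hpot, ?_⟩
  have e1 : ∫ x, -Hk x * ζ x = - ∫ x, ζ x * Hk x := by
    rw [← integral_neg]
    refine integral_congr_ae (Eventually.of_forall fun x => ?_)
    simp only; ring
  rw [hsym, e1] at hcost
  have h10 : M / j0 * ∫ x, V x * s x ≤ D / 8 := by
    calc M / j0 * ∫ x, V x * s x ≤ M / j0 * (2 * m.real univ) := by
          gcongr
          exact hVpot.trans hpm2
      _ ≤ _ := hj0'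
  linarith

end

end Pool.Agent.H19.Good
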