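import Mathlib

/-!
Elementary tools for `L¹` and `L²` convergence, phrased with integrals.
-/

open MeasureTheory Set Filter Topology
open scoped Real ENNReal NNReal

namespace Pool.Agent.H19.Good

noncomputable section

variable {α : Type*} [MeasurableSpace α] {μ : Measure α}

lemma norm_toLp_sq {f : α → ℝ} (hf : MemLp f 2 μ) : ‖hf.toLp f‖ ^ 2 = ∫ x, f x ^ 2 ∂μ := by
  rw [← real_inner_self_eq_norm_sq (hf.toLp f), L2.inner_def]
  refine integral_congr_ae ?_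
  filter_upwards [hf.coeFn_toLp] with x hx
  simp [hx, sq]

/-- Cauchy–Schwarz -/
lemma cs {f g : α → ℝ} (hf : MemLp f 2 μ) (hg : MemLp g 2 μ) :
    |∫ x, f x * g x ∂μ| ≤ √(∫ x, f x ^ 2 ∂μ) * √(∫ x, g x ^ 2 ∂μ) := by
  have h := abs_real_inner_le_norm (hf.toLp f) (hg.toLp g)
  have e : inner ℝ (hf.toLp f) (hg.toLp g) = ∫ x, f x * g x ∂μ := by
    rw [L2.inner_def]
    refine integral_congr_ae ?_
    filter_upwards [hf.coeFn_toLp, hg.coeFn_toLp] with x hx hy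
    simp [hx, hy, mul_comm]
  rw [e] at h
  rwa [← norm_toLp_sq hf, ← norm_toLp_sq hg, Real.sqrt_sq (norm_nonneg _),
    Real.sqrt_sq (norm_nonneg _)]

lemma cs_abs {f g : α → ℝ} (hf : MemLp f 2 μ) (hg : MemLp g 2 μ) :
    ∫ x, |f x * g x| ∂μ ≤ √(∫ x, f x ^ 2 ∂μ) * √(∫ x, g x ^ 2 ∂μ) := by
  have h := cs hf.abs hg.abs
  simp only [Pi.abs_apply, sq_abs] at h
  refine le_trans (le_of_eq ?_) ((le_abs_self _).trans h)
  simp [abs_mul]

lemma mul_integrable {f g : α → ℝ} (hf : MemLp f 2 μ) (hg : MemLp g 2 μ) :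
    Integrable (fun x => f x * g x) μ := hf.integrable_mul hg

/-- existence of `L²` limits -/
lemma exists_L2_limit {f : ℕ → α → ℝ} (hf : ∀ n, MemLp (f n) 2 μ)
    (hc : ∀ ε > 0, ∃ n0, ∀ n ≥ n0, ∀ m ≥ n0, ∫ x, (f n x - f m x) ^ 2 ∂μ ≤ ε) :
    ∃ u : α → ℝ, Measurable u ∧ MemLp u 2 μ ∧
      Tendsto (fun n => ∫ x, (f n x - u x) ^ 2 ∂μ) atTop (𝓝 0) := by
  have hd : ∀ n m, ‖(hf n).toLp (f n) - (hf m).toLp (f m)‖ ^ 2 = ∫ x, (f n x - f m x) ^ 2 ∂μ := by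
    intro n m
    rw [← MemLp.toLp_sub, norm_toLp_sq]
    rfl
  have hcs : CauchySeq (fun n => (hf n).toLp (f n)) := by
    rw [Metric.cauchySeq_iff]
    intro ε hε
    obtain ⟨n0, h0⟩ := hc ((ε / 2) ^ 2) (by positivity)
    refine ⟨n0, fun n hn m hm => ?_⟩
    rw [dist_eq_norm]
    have h1 := h0 n hn m hm
    rw [← hd] at h1
    have h2 := abs_le_of_sq_le_sq h1 (by positivity)
    rw [abs_of_nonneg (norm_nonneg _)] at h2
    linarith
  obtain ⟨u, hu⟩ := cauchySeq_tendsto_of_complete hcs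
  have hum := Lp.memLp u
  obtain ⟨u', hu'm, hu'⟩ := hum.aestronglyMeasurable
  have hu'2 : MemLp u' 2 μ := hum.ae_eq hu'
  refine ⟨u', hu'm.measurable, hu'2, ?_⟩
  have h3 : ∀ n, ‖(hf n).toLp (f n) - u‖ ^ 2 = ∫ x, (f n x - u' x) ^ 2 ∂μ := by
    intro n
    have e : u = hu'2.toLp u' := by
      ext1
      exact hu'.trans hu'2.coeFn_toLp.symm
    rw [e, ← MemLp.toLp_sub, norm_toLp_sq]
    rfl
  simp_rw [← h3]
  have h4 : Tendsto (fun n => (hf n).toLp (f n) - u) atTop (𝓝 0) := by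
    simpa using hu.sub_const u
  simpa using (h4.norm.pow 2)

/-- existence of `L¹` limits -/
lemma exists_L1_limit {f : ℕ → α → ℝ} (hf : ∀ n, Integrable (f n) μ)
    (hc : ∀ ε > 0, ∃ n0, ∀ n ≥ n0, ∀ m ≥ n0, ∫ x, |f n x - f m x| ∂μ ≤ ε) :
    ∃ u : α → ℝ, Measurable u ∧ Integrable u μ ∧
      Tendsto (fun n => ∫ x, |f n x - u x| ∂μ) atTop (𝓝 0) := by
  have hd : ∀ n m, ‖(hf n).toL1 (f n) - (hf m).toL1 (f m)‖ = ∫ x, |f n x - f m x| ∂μ := by
    intro n m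
    rw [← Integrable.toL1_sub, L1.norm_of_fun_eq_integral_norm]
    rfl
  have hcs : CauchySeq (fun n => (hf n).toL1 (f n)) := by
    rw [Metric.cauchySeq_iff]
    intro ε hε
    obtain ⟨n0, h0⟩ := hc (ε / 2) (by positivity)
    refine ⟨n0, fun n hn m hm => ?_⟩
    rw [dist_eq_norm]
    have h1 := h0 n hn m hm
    rw [← hd] at h1
    linarith
  obtain ⟨u, hu⟩ := cauchySeq_tendsto_of_complete hcs
  have hum := L1.integrable_coeFn u
  obtain ⟨u', hu'm, hu'⟩ := hum.aestronglyMeasurable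
  have hu'2 : Integrable u' μ := hum.congr hu'
  refine ⟨u', hu'm.measurable, hu'2, ?_⟩
  have h3 : ∀ n, ‖(hf n).toL1 (f n) - u‖ = ∫ x, |f n x - u' x| ∂μ := by
    intro n
    have e : u = hu'2.toL1 u' := by
      rw [← Integrable.toL1_coeFn u hum]
      exact (Integrable.toL1_eq_toL1_iff _ _ _ _).2 hu'
    rw [e, ← Integrable.toL1_sub, L1.norm_of_fun_eq_integral_norm]
    rfl
  simp_rw [← h3]
  have h4 : Tendsto (fun n => (hf n).toL1 (f n) - u) atTop (𝓝 0) := by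
    simpa using hu.sub_const u
  simpa using h4.norm

/-- pairing a sequence converging in `L²` -/
lemma tendsto_integral_mul_L2 {ι : Type*} {l : Filter ι} {f : ι → α → ℝ} {u g : α → ℝ}
    (hf : ∀ n, MemLp (f n) 2 μ)
    (hu : MemLp u 2 μ) (hg : MemLp g 2 μ)
    (hlim : Tendsto (fun n => ∫ x, (f n x - u x) ^ 2 ∂μ) l (𝓝 0)) :
    Tendsto (fun n => ∫ x, f n x * g x ∂μ) l (𝓝 (∫ x, u x * g x ∂μ)) := by
  rw [tendsto_iff_dist_tendsto_zero]
  have h1 : Tendsto (fun n => √(∫ x, (f n x - u x) ^ 2 ∂μ) * √(∫ x, g x ^ 2 ∂μ)) l (𝓝 0) := by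
    have := (hlim.sqrt).mul_const (√(∫ x, g x ^ 2 ∂μ))
    simpa using this
  refine squeeze_zero (fun n => dist_nonneg) (fun n => ?_) h1
  rw [Real.dist_eq, ← integral_sub (mul_integrable (hf n) hg) (mul_integrable hu hg)]
  have h2 := cs ((hf n).sub hu) hg
  simp only [Pi.sub_apply] at h2
  simpa [sub_mul] using h2

end

end Pool.Agent.H19.Good
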