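import Pool.Agent.H19.Good.Kernel
import Pool.Agent.H19.Good.L2

/-!
Test functions, the Dirichlet form and the Poincaré inequality.
-/

open MeasureTheory Set Filter Topology
open scoped Real ENNReal NNReal ContDiff Laplacian Pointwise

namespace Pool.Agent.H19.Good

noncomputable section

variable {N : ℕ}

/-- `ζ ∈ C_c^∞(Ω)` -/
structure IsTest (Ω : Set (EuclideanSpace ℝ (Fin N))) (ζ : EuclideanSpace ℝ (Fin N) → ℝ) : Prop where
  smooth : ContDiff ℝ ∞ ζ
  cpt : HasCompactSupport ζ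
  supp : tsupport ζ ⊆ Ω

/-- the Dirichlet form -/
def En (ζ η : EuclideanSpace ℝ (Fin N) → ℝ) : ℝ := ∫ x, ∑ i, pd i ζ x * pd i η x

variable {Ω : Set (EuclideanSpace ℝ (Fin N))} {ζ η ξ : EuclideanSpace ℝ (Fin N) → ℝ}

lemma IsTest.c1 (h : IsTest Ω ζ) : ContDiff ℝ 1 ζ := h.smooth.of_le (by norm_cast)
lemma IsTest.c2 (h : IsTest Ω ζ) : ContDiff ℝ 2 ζ := h.smooth.of_le (by norm_cast)
lemma IsTest.continuous (h : IsTest Ω ζ) : Continuous ζ := h.smooth.continuous
lemma IsTest.diff (h : IsTest Ω ζ) : Differentiable ℝ ζ := h.smooth.differentiable (by simp)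

lemma IsTest.memLp (h : IsTest Ω ζ) (p : ℝ≥0∞) : MemLp ζ p :=
  h.continuous.memLp_of_hasCompactSupport h.cpt

lemma IsTest.integrable (h : IsTest Ω ζ) : Integrable ζ :=
  h.continuous.integrable_of_hasCompactSupport h.cpt

lemma IsTest.eq_zero (h : IsTest Ω ζ) {x : EuclideanSpace ℝ (Fin N)} (hx : x ∉ Ω) : ζ x = 0 :=
  image_eq_zero_of_notMem_tsupport fun hx' => hx (h.supp hx')

lemma IsTest.mono {Ω' : Set (EuclideanSpace ℝ (Fin N))} (h : IsTest Ω ζ) (hs : Ω ⊆ Ω') : IsTest Ω' ζ :=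
  ⟨h.smooth, h.cpt, h.supp.trans hs⟩

lemma IsTest.zero : IsTest Ω (fun _ => 0) := by
  refine ⟨contDiff_const, HasCompactSupport.zero, ?_⟩
  have : tsupport (fun _ : EuclideanSpace ℝ (Fin N) => (0 : ℝ)) = ∅ := by
    simp [tsupport, Function.support]
  rw [this]; exact empty_subset _

lemma tsupport_comb (a b : ℝ) :
    tsupport (fun x => a * ζ x + b * η x) ⊆ tsupport ζ ∪ tsupport η := by
  unfold tsupport
  rw [← closure_union]
  refine closure_mono ?_
  intro x hx
  by_contra h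
  simp only [mem_union, Function.mem_support, not_or, not_not] at h
  apply hx
  simp [h.1, h.2]

lemma IsTest.comb (h : IsTest Ω ζ) (h' : IsTest Ω η) (a b : ℝ) :
    IsTest Ω (fun x => a * ζ x + b * η x) := by
  refine ⟨(contDiff_const.mul h.smooth).add (contDiff_const.mul h'.smooth), ?_, ?_⟩
  · exact (h.cpt.mul_left (f := fun _ => a)).add (h'.cpt.mul_left (f := fun _ => b))
  · exact (tsupport_comb a b).trans (union_subset h.supp h'.supp)

lemma pd_comb (hζ : Differentiable ℝ ζ) (hη : Differentiable ℝ η) (a b : ℝ) (i : Fin N)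
    (x : EuclideanSpace ℝ (Fin N)) :
    pd i (fun x => a * ζ x + b * η x) x = a * pd i ζ x + b * pd i η x := by
  unfold pd
  rw [fderiv_fun_add ((hζ x).const_mul a) ((hη x).const_mul b), fderiv_const_mul (hζ x),
    fderiv_const_mul (hη x)]
  simp

lemma en_integrand {f g : EuclideanSpace ℝ (Fin N) → ℝ} (hf : ContDiff ℝ 1 f) (hg : ContDiff ℝ 1 g)
    (hc : HasCompactSupport g) : Integrable (fun x => ∑ i, pd i f x * pd i g x) := by
  refine integrable_finsetSum _ fun i _ => ?_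
  exact ((pd_contDiff (m := 0) hf (by norm_num) i).continuous.mul
    (pd_contDiff (m := 0) hg (by norm_num) i).continuous).integrable_of_hasCompactSupport
      (pd_hasCompactSupport hc i).mul_left

lemma En_comm (ζ η : EuclideanSpace ℝ (Fin N) → ℝ) : En ζ η = En η ζ := by
  unfold En; simp_rw [mul_comm]

lemma En_self_nonneg (ζ : EuclideanSpace ℝ (Fin N) → ℝ) : 0 ≤ En ζ ζ :=
  integral_nonneg fun _ => Finset.sum_nonneg fun _ _ => mul_self_nonneg _

lemma En_eq_laplacian (hζ : ContDiff ℝ 1 ζ) (hη : IsTest Ω η) :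
    En ζ η = ∫ x, ζ x * (- Laplacian.laplacian η x) := by
  simp_rw [mul_neg]
  rw [integral_neg, integral_mul_laplacian hζ hη.c2 hη.cpt, neg_neg]
  rfl

lemma En_comb_right (hξ : ContDiff ℝ 1 ξ) (hζ : IsTest Ω ζ) (hη : IsTest Ω η) (a b : ℝ) :
    En ξ (fun x => a * ζ x + b * η x) = a * En ξ ζ + b * En ξ η := by
  unfold En
  rw [← integral_const_mul, ← integral_const_mul, ← integral_add]
  · refine integral_congr_ae (Eventually.of_forall fun x => ?_)
    simp only [pd_comb hζ.diff hη.diff]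
    rw [Finset.mul_sum, Finset.mul_sum, ← Finset.sum_add_distrib]
    exact Finset.sum_congr rfl fun i _ => by ring
  · exact (en_integrand hξ hζ.c1 hζ.cpt).const_mul a
  · exact (en_integrand hξ hη.c1 hη.cpt).const_mul b

lemma En_comb_comb (hζ : IsTest Ω ζ) (hη : IsTest Ω η) (a b : ℝ) :
    En (fun x => a * ζ x + b * η x) (fun x => a * ζ x + b * η x) =
      a ^ 2 * En ζ ζ + 2 * a * b * En ζ η + b ^ 2 * En η η := by
  rw [En_comb_right (hζ.comb hη a b).c1 hζ hη, En_comm _ ζ, En_comm _ η,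
    En_comb_right hζ.c1 hζ hη, En_comb_right hη.c1 hζ hη, En_comm η ζ]
  ring

/-- Cauchy–Schwarz for the Dirichlet form -/
lemma En_cs (hζ : IsTest Ω ζ) (hη : IsTest Ω η) : |En ζ η| ≤ √(En ζ ζ) * √(En η η) := by
  have h : ∀ t : ℝ, 0 ≤ En η η * (t * t) + (2 * En ζ η) * t + En ζ ζ := by
    intro t
    have h1 := En_self_nonneg (fun x => 1 * ζ x + t * η x)
    rw [En_comb_comb hζ hη] at h1
    nlinarith
  have hd := discrim_le_zero h
  unfold discrim at hd
  have h2 : (En ζ η) ^ 2 ≤ En ζ ζ * En η η := by nlinarith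
  rw [← Real.sqrt_mul (En_self_nonneg _), ← Real.sqrt_sq_eq_abs]
  exact Real.sqrt_le_sqrt h2

/-- Poincaré inequality -/
lemma poincare (hN : 0 < N) {R : ℝ} (hR : 0 < R) (hΩ : Ω ⊆ Metric.ball 0 R) (hζ : IsTest Ω ζ) :
    ∫ x, ζ x ^ 2 ≤ 4 * R ^ 2 * En ζ ζ := by
  let i0 : Fin N := ⟨0, hN⟩
  have hcoord : ContDiff ℝ 1 (fun x : EuclideanSpace ℝ (Fin N) => x i0) :=
    (EuclideanSpace.proj i0 : EuclideanSpace ℝ (Fin N) →L[ℝ] ℝ).contDiff
  have hsq : ContDiff ℝ 1 (fun x => ζ x * ζ x) := hζ.c1.mul hζ.c1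
  have hsqc : HasCompactSupport (fun x => ζ x * ζ x) := hζ.cpt.mul_left
  have h1 := ibp hcoord hsq hsqc i0
  have h2 : ∫ x, pd i0 (fun x : EuclideanSpace ℝ (Fin N) => x i0) x * (ζ x * ζ x) = ∫ x, ζ x ^ 2 := by
    refine integral_congr_ae (Eventually.of_forall fun x => ?_)
    simp only [pd_coord]
    ring
  rw [h2] at h1
  have h3 : ∀ x, pd i0 (fun x => ζ x * ζ x) x = 2 * (ζ x * pd i0 ζ x) := by
    intro x; rw [pd_mul hζ.diff hζ.diff]; ring
  simp_rw [h3] at h1
  have hpc : Continuous (pd i0 ζ) := (pd_contDiff (m := 0) hζ.c1 (by norm_num) i0).continuous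
  have hpcs : HasCompactSupport (pd i0 ζ) := pd_hasCompactSupport hζ.cpt i0
  have hI1 : Integrable (fun x => ζ x ^ 2) := by
    simp_rw [sq]
    exact (hζ.continuous.mul hζ.continuous).integrable_of_hasCompactSupport hsqc
  have hI2 : Integrable (fun x => pd i0 ζ x ^ 2) := by
    simp_rw [sq]
    exact (hpc.mul hpc).integrable_of_hasCompactSupport hpcs.mul_left
  have hI3 : Integrable (fun x => x i0 * (2 * (ζ x * pd i0 ζ x))) := by
    refine Continuous.integrable_of_hasCompactSupport ?_ ?_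
    · have := hζ.continuous
      have := hcoord.continuous
      fun_prop
    · have : HasCompactSupport (fun x => ζ x * pd i0 ζ x) := hpcs.mul_left
      exact (this.mul_left (f := fun _ => (2:ℝ))).mul_left
  have h4 : ∫ x, ζ x ^ 2 ≤ ∫ x, (1 / 2 * ζ x ^ 2 + 2 * R ^ 2 * pd i0 ζ x ^ 2) := by
    have h5 : ∫ x, ζ x ^ 2 = ∫ x, -(x i0 * (2 * (ζ x * pd i0 ζ x))) := by
      rw [integral_neg, h1, neg_neg]
    rw [h5]
    refine integral_mono hI3.neg ((hI1.const_mul _).add (hI2.const_mul _)) fun x => ?_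
    simp only
    by_cases hx : ζ x = 0
    · rw [hx]; simp only [zero_mul, mul_zero, neg_zero]
      positivity
    · have hxΩ : x ∈ Metric.ball (0 : EuclideanSpace ℝ (Fin N)) R := by
        by_contra hx'
        exact hx (hζ.eq_zero fun h => hx' (hΩ h))
      have hn : ‖x‖ < R := by simpa using hxΩ
      have hxi : |x i0| ≤ R := (PiLp.norm_apply_le x i0).trans hn.le
      have hxi2 : (x i0) ^ 2 ≤ R ^ 2 := by
        rw [← sq_abs]; exact pow_le_pow_left₀ (abs_nonneg _) hxi 2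
      have h6 : 0 ≤ (ζ x + 2 * (x i0) * pd i0 ζ x) ^ 2 := sq_nonneg _
      have h7 : (x i0) ^ 2 * pd i0 ζ x ^ 2 ≤ R ^ 2 * pd i0 ζ x ^ 2 := by gcongr
      nlinarith
  rw [integral_add (hI1.const_mul _) (hI2.const_mul _), integral_const_mul, integral_const_mul] at h4
  have h8 : ∫ x, pd i0 ζ x ^ 2 ≤ En ζ ζ := by
    unfold En
    refine integral_mono hI2 (en_integrand hζ.c1 hζ.c1 hζ.cpt) fun x => ?_
    simp only
    have : pd i0 ζ x ^ 2 = pd i0 ζ x * pd i0 ζ x := by ring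
    rw [this]
    exact Finset.single_le_sum (f := fun i => pd i ζ x * pd i ζ x) (fun i _ => mul_self_nonneg _)
      (Finset.mem_univ i0)
  nlinarith

end

end Pool.Agent.H19.Good
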