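import Mathlib

/-!
Primitives of bounded nondecreasing Lipschitz functions.
-/

open MeasureTheory Set Filter Topology
open scoped Real ENNReal NNReal

namespace Pool.Agent.H19.Good

noncomputable section

/-- primitive of `g` vanishing at `0` -/
def prim (g : ℝ → ℝ) (t : ℝ) : ℝ := ∫ τ in (0:ℝ)..1, t * g (τ * t)

lemma prim_eq {g : ℝ → ℝ} (t : ℝ) : prim g t = ∫ s in (0:ℝ)..t, g s := by
  unfold prim
  rw [intervalIntegral.integral_const_mul]
  have h := intervalIntegral.mul_integral_comp_mul_right (f := g) (a := 0) (b := 1) t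
  rw [h]
  simp

lemma prim_sub {g : ℝ → ℝ} (hg : Continuous g) (s t : ℝ) : prim g t - prim g s = ∫ τ in s..t, g τ := by
  rw [prim_eq, prim_eq, intervalIntegral.integral_interval_sub_left (hg.intervalIntegrable _ _)
    (hg.intervalIntegrable _ _)]

lemma prim_zero {g : ℝ → ℝ} : prim g 0 = 0 := by simp [prim]

lemma prim_lip {g : ℝ → ℝ} (hg : Continuous g) {C : ℝ} (hC : ∀ t, |g t| ≤ C) (s t : ℝ) :
    |prim g t - prim g s| ≤ C * |t - s| := by
  rw [prim_sub hg]
  have := intervalIntegral.norm_integral_le_of_norm_le_const (a := s) (b := t) (C := C) (f := g)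
    (fun x _ => hC x)
  simpa using this

lemma prim_ge {g : ℝ → ℝ} (hg : Continuous g) (hm : Monotone g) (a t : ℝ) :
    prim g a + g a * (t - a) ≤ prim g t := by
  have h := prim_sub hg a t
  rcases le_total a t with hat | hta
  · have : ∫ τ in a..t, g a ≤ ∫ τ in a..t, g τ :=
      intervalIntegral.integral_mono_on hat (by simp) (hg.intervalIntegrable _ _)
        (fun x hx => hm hx.1)
    rw [intervalIntegral.integral_const, smul_eq_mul] at this
    linarith
  · have : ∫ τ in t..a, g τ ≤ ∫ τ in t..a, g a :=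
      intervalIntegral.integral_mono_on hta (hg.intervalIntegrable _ _) (by simp)
        (fun x hx => hm hx.2)
    rw [intervalIntegral.integral_const, smul_eq_mul] at this
    rw [intervalIntegral.integral_symm] at h
    linarith

lemma prim_le {g : ℝ → ℝ} (hg : Continuous g) (hm : Monotone g) {L : ℝ}
    (hL : ∀ s t, |g s - g t| ≤ L * |s - t|) (a h : ℝ) :
    prim g (a + h) ≤ prim g a + h * g a + L * h ^ 2 := by
  -- prim (a) ≥ prim (a+h) + g(a+h) * (a - (a+h))
  have h1 := prim_ge hg hm (a + h) a
  have h2 := hL (a + h) a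
  have h3 : (a + h) - a = h := by ring
  rw [h3] at h2
  have h4 : a - (a + h) = -h := by ring
  rw [h4] at h1
  have h5 : (g (a + h) - g a) * h ≤ L * h ^ 2 := by
    calc (g (a + h) - g a) * h ≤ |(g (a + h) - g a) * h| := le_abs_self _
      _ = |g (a + h) - g a| * |h| := abs_mul _ _
      _ ≤ (L * |h|) * |h| := by gcongr
      _ = L * h ^ 2 := by rw [mul_assoc, ← sq, sq_abs]
  nlinarith

lemma prim_midpoint {g : ℝ → ℝ} (hg : Continuous g) (hm : Monotone g) (s t : ℝ) :
    prim g (1 / 2 * s + 1 / 2 * t) ≤ 1 / 2 * prim g s + 1 / 2 * prim g t := by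
  have h1 := prim_ge hg hm (1 / 2 * s + 1 / 2 * t) s
  have h2 := prim_ge hg hm (1 / 2 * s + 1 / 2 * t) t
  nlinarith

lemma prim_measurable {α : Type*} [MeasurableSpace α] {γ : α → ℝ → ℝ}
    (hγ : Measurable (Function.uncurry γ)) {u : α → ℝ} (hu : Measurable u) :
    Measurable (fun x => prim (γ x) (u x)) := by
  unfold prim
  simp_rw [intervalIntegral.integral_of_le zero_le_one]
  have h : StronglyMeasurable (Function.uncurry fun (x : α) (τ : ℝ) => u x * γ x (τ * u x)) := by
    refine Measurable.stronglyMeasurable ?_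
    have h1 : Measurable fun p : α × ℝ => u p.1 := hu.comp measurable_fst
    have h2 : Measurable fun p : α × ℝ => γ p.1 (p.2 * u p.1) :=
      hγ.comp (measurable_fst.prodMk (measurable_snd.mul h1))
    exact h1.mul h2
  exact (h.integral_prod_right (ν := volume.restrict (Ioc (0:ℝ) 1))).measurable

end

end Pool.Agent.H19.Good
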