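import Pool.Agent.H19.Good.Energy
import Pool.Agent.H19.Good.Prim

/-!
Weak solutions of `-Δu = φ` in `H¹₀(Ω)` and existence for `-Δu + γ(x,u) = 0`, by minimisation.
-/

open MeasureTheory Set Filter Topology
open scoped Real ENNReal NNReal ContDiff Laplacian Pointwise

namespace Pool.Agent.H19.Good

noncomputable section

variable {N : ℕ}

/-- `u ∈ H¹₀(Ω)` solves `-Δu = φ` in `Ω`; `φ, u ∈ L²`. -/
structure Weak (Ω : Set (EuclideanSpace ℝ (Fin N))) (φ u : EuclideanSpace ℝ (Fin N) → ℝ) : Prop where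
  memf : MemLp φ 2
  memu : MemLp u 2
  appr : ∃ ζ : ℕ → EuclideanSpace ℝ (Fin N) → ℝ, (∀ n, IsTest Ω (ζ n)) ∧
    Tendsto (fun n => ∫ x, (ζ n x - u x) ^ 2) atTop (𝓝 0) ∧
    ∀ ε > 0, ∃ n0, ∀ n ≥ n0, ∀ m ≥ n0,
      En (fun x => ζ n x - ζ m x) (fun x => ζ n x - ζ m x) ≤ ε
  eq : ∀ η, IsTest Ω η → ∫ x, u x * (- Laplacian.laplacian η x) = ∫ x, φ x * η x

variable {Ω : Set (EuclideanSpace ℝ (Fin N))} {ζ η ξ φ u : EuclideanSpace ℝ (Fin N) → ℝ}

lemma sub_eq_comb (ζ η : EuclideanSpace ℝ (Fin N) → ℝ) :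
    (fun x => ζ x - η x) = fun x => 1 * ζ x + (-1) * η x := by
  ext x; ring

lemma IsTest.sub (h : IsTest Ω ζ) (h' : IsTest Ω η) : IsTest Ω (fun x => ζ x - η x) := by
  rw [sub_eq_comb]; exact h.comb h' _ _

lemma En_sub (h : IsTest Ω ζ) (h' : IsTest Ω η) :
    En (fun x => ζ x - η x) (fun x => ζ x - η x) = En ζ ζ - 2 * En ζ η + En η η := by
  rw [sub_eq_comb, En_comb_comb h h']; ring

lemma indicator_ball_memLp (R : ℝ) :
    MemLp (fun x : EuclideanSpace ℝ (Fin N) => (Metric.ball (0 : EuclideanSpace ℝ (Fin N)) R).indicator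
      (fun _ => (1:ℝ)) x) 2 := by
  exact memLp_indicator_const 2 measurableSet_ball 1 (Or.inr measure_ball_lt_top.ne)

section exist

variable {γ : EuclideanSpace ℝ (Fin N) → ℝ → ℝ}

/-- nonlinear part of the functional -/
def In (γ : EuclideanSpace ℝ (Fin N) → ℝ → ℝ) (f : EuclideanSpace ℝ (Fin N) → ℝ) : ℝ :=
  ∫ x, prim (γ x) (f x)

structure GHyp (R C L : ℝ) (γ : EuclideanSpace ℝ (Fin N) → ℝ → ℝ) : Prop where
  meas : Measurable (Function.uncurry γ)
  bdd : ∀ x t, |γ x t| ≤ C
  mono : ∀ x, Monotone (γ x)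
  lip : ∀ x s t, |γ x s - γ x t| ≤ L * |s - t|
  supp : ∀ x, x ∉ Metric.ball (0 : EuclideanSpace ℝ (Fin N)) R → ∀ t, γ x t = 0

lemma GHyp.cont {R C L : ℝ} (h : GHyp R C L γ) (x : EuclideanSpace ℝ (Fin N)) : Continuous (γ x) := by
  refine (LipschitzWith.of_dist_le_mul (K := L.toNNReal) fun s t => ?_).continuous
  rw [Real.dist_eq, Real.dist_eq]
  refine (h.lip x s t).trans ?_
  gcongr
  exact Real.le_coe_toNNReal L

lemma GHyp.C_nonneg {R C L : ℝ} (h : GHyp R C L γ) : 0 ≤ C := (abs_nonneg _).trans (h.bdd 0 0)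

lemma GHyp.prim_diff {R C L : ℝ} (h : GHyp R C L γ) (x : EuclideanSpace ℝ (Fin N)) (s t : ℝ) :
    |prim (γ x) t - prim (γ x) s| ≤
      C * (|t - s| * (Metric.ball (0 : EuclideanSpace ℝ (Fin N)) R).indicator (fun _ => (1:ℝ)) x) := by
  by_cases hx : x ∈ Metric.ball (0 : EuclideanSpace ℝ (Fin N)) R
  · rw [indicator_of_mem hx, mul_one]
    exact prim_lip (h.cont x) (h.bdd x) s t
  · rw [indicator_of_notMem hx]
    have h0 : ∀ t, prim (γ x) t = 0 := by
      intro t
      unfold prim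
      simp [h.supp x hx]
    simp [h0]

lemma GHyp.prim_integrable {R C L : ℝ} (h : GHyp R C L γ) {f : EuclideanSpace ℝ (Fin N) → ℝ}
    (hfm : Measurable f) (hf : MemLp f 2) : Integrable (fun x => prim (γ x) (f x)) := by
  have h1 : Integrable (fun x => C * (|f x| *
      (Metric.ball (0 : EuclideanSpace ℝ (Fin N)) R).indicator (fun _ => (1:ℝ)) x)) :=
    (mul_integrable hf.abs (indicator_ball_memLp R)).const_mul C
  refine h1.mono' (prim_measurable h.meas hfm).aestronglyMeasurable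
    (Eventually.of_forall fun x => ?_)
  have := h.prim_diff x 0 (f x)
  rw [prim_zero, sub_zero, sub_zero] at this
  simpa using this

lemma GHyp.In_diff {R C L : ℝ} (h : GHyp R C L γ) {f g : EuclideanSpace ℝ (Fin N) → ℝ}
    (hfm : Measurable f) (hf : MemLp f 2) (hgm : Measurable g) (hg : MemLp g 2) :
    |In γ f - In γ g| ≤ C * (√(∫ x, (f x - g x) ^ 2) *
      √(∫ x : EuclideanSpace ℝ (Fin N),
        (Metric.ball (0 : EuclideanSpace ℝ (Fin N)) R).indicator (fun _ => (1:ℝ)) x ^ 2)) := by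
  unfold In
  rw [← integral_sub (h.prim_integrable hfm hf) (h.prim_integrable hgm hg)]
  have hfg : MemLp (fun x => f x - g x) 2 := hf.sub hg
  calc |∫ x, (prim (γ x) (f x) - prim (γ x) (g x))|
      ≤ ∫ x, |prim (γ x) (f x) - prim (γ x) (g x)| := abs_integral_le_integral_abs
    _ ≤ ∫ x, C * |(f x - g x) *
        (Metric.ball (0 : EuclideanSpace ℝ (Fin N)) R).indicator (fun _ => (1:ℝ)) x| := by
        refine integral_mono ((h.prim_integrable hfm hf).sub (h.prim_integrable hgm hg)).abs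
          ((mul_integrable hfg (indicator_ball_memLp R)).abs.const_mul C) fun x => ?_
        simp only
        have h1 := h.prim_diff x (g x) (f x)
        rw [abs_mul]
        have h2 : |(Metric.ball (0 : EuclideanSpace ℝ (Fin N)) R).indicator (fun _ => (1:ℝ)) x| =
          (Metric.ball (0 : EuclideanSpace ℝ (Fin N)) R).indicator (fun _ => (1:ℝ)) x :=
          abs_of_nonneg (indicator_nonneg (fun _ _ => zero_le_one) x)
        rw [h2]
        exact h1
    _ = C * ∫ x, |(f x - g x) *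
        (Metric.ball (0 : EuclideanSpace ℝ (Fin N)) R).indicator (fun _ => (1:ℝ)) x| :=
        integral_const_mul _ _
    _ ≤ _ := by
        have := h.C_nonneg
        gcongr
        exact cs_abs hfg (indicator_ball_memLp R)

lemma IsTest.measurable (h : IsTest Ω ζ) : Measurable ζ := h.continuous.measurable

/-- **Existence** for `-Δu + γ(x,u) = 0`. -/
theorem exists_weak (hN : 0 < N) {R : ℝ} (hR : 0 < R) (hΩ : Ω ⊆ Metric.ball 0 R) {C L : ℝ}
    (h : GHyp R C L γ) : ∃ u, Measurable u ∧ Weak Ω (fun x => - γ x (u x)) u := by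
  classical
  set V : ℝ := √(∫ x : EuclideanSpace ℝ (Fin N),
        (Metric.ball (0 : EuclideanSpace ℝ (Fin N)) R).indicator (fun _ => (1:ℝ)) x ^ 2) with hV
  have hVnn : 0 ≤ V := Real.sqrt_nonneg _
  have hCnn : 0 ≤ C := h.C_nonneg
  let J : (EuclideanSpace ℝ (Fin N) → ℝ) → ℝ := fun ζ => 1 / 2 * En ζ ζ + In γ ζ
  have hJ : ∀ ζ, J ζ = 1 / 2 * En ζ ζ + In γ ζ := fun ζ => rfl
  let S : Set ℝ := {y | ∃ ζ, IsTest Ω ζ ∧ J ζ = y}
  have hIn0 : In γ (fun _ => 0) = 0 := by unfold In; simp [prim_zero]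
  -- bound below
  have hbd : ∀ ζ, IsTest Ω ζ → - (2 * (R * C * V) ^ 2) ≤ J ζ := by
    intro ζ hζ
    have h1 := h.In_diff hζ.measurable (hζ.memLp 2) (measurable_const (a := (0:ℝ))) (by simp)
    rw [hIn0] at h1
    simp only [sub_zero] at h1
    have h2 := poincare hN hR hΩ hζ
    have h3 : √(∫ x, ζ x ^ 2) ≤ 2 * R * √(En ζ ζ) := by
      calc √(∫ x, ζ x ^ 2) ≤ √(4 * R ^ 2 * En ζ ζ) := Real.sqrt_le_sqrt h2
        _ = √((2 * R) ^ 2 * En ζ ζ) := by ring_nf
        _ = 2 * R * √(En ζ ζ) := by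
            rw [Real.sqrt_mul (by positivity), Real.sqrt_sq (by positivity)]
    have h4 : |In γ ζ| ≤ C * (2 * R * √(En ζ ζ) * V) := h1.trans (by gcongr)
    have h5 := neg_le_of_abs_le h4
    have h6 : √(En ζ ζ) ^ 2 = En ζ ζ := Real.sq_sqrt (En_self_nonneg ζ)
    rw [hJ]
    nlinarith [sq_nonneg (√(En ζ ζ) - 2 * (R * C * V))]
  have hSne : S.Nonempty := ⟨J (fun _ => 0), _, IsTest.zero, rfl⟩
  have hSbd : BddBelow S := ⟨- (2 * (R * C * V) ^ 2), by rintro y ⟨ζ, hζ, rfl⟩; exact hbd ζ hζ⟩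
  set I0 := sInf S with hI0
  have hI0le : ∀ ζ, IsTest Ω ζ → I0 ≤ J ζ := fun ζ hζ => csInf_le hSbd ⟨ζ, hζ, rfl⟩
  have hch : ∀ n : ℕ, ∃ ζ, IsTest Ω ζ ∧ J ζ < I0 + 1 / ((n : ℝ) + 1) := by
    intro n
    obtain ⟨y, ⟨ζ, hζ, rfl⟩, hy⟩ := Real.lt_sInf_add_pos hSne (ε := 1 / ((n : ℝ) + 1)) (by positivity)
    exact ⟨ζ, hζ, hy⟩
  choose ζ hζ hζJ using hch
  -- energy Cauchy
  have hEn : ∀ n m, En (fun x => ζ n x - ζ m x) (fun x => ζ n x - ζ m x) ≤
      4 * (1 / ((n : ℝ) + 1)) + 4 * (1 / ((m : ℝ) + 1)) := by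
    intro n m
    have hmid : IsTest Ω (fun x => 1 / 2 * ζ n x + 1 / 2 * ζ m x) := (hζ n).comb (hζ m) _ _
    have h1 := hI0le _ hmid
    rw [hJ, En_comb_comb (hζ n) (hζ m)] at h1
    have h2 : In γ (fun x => 1 / 2 * ζ n x + 1 / 2 * ζ m x) ≤ 1 / 2 * In γ (ζ n) + 1 / 2 * In γ (ζ m) := by
      unfold In
      rw [← integral_const_mul, ← integral_const_mul, ← integral_add]
      · refine integral_mono (h.prim_integrable hmid.measurable (hmid.memLp 2)) ?_ fun x => ?_
        · exact ((h.prim_integrable (hζ n).measurable ((hζ n).memLp 2)).const_mul _).add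
            ((h.prim_integrable (hζ m).measurable ((hζ m).memLp 2)).const_mul _)
        · exact prim_midpoint (h.cont x) (h.mono x) _ _
      · exact ((h.prim_integrable (hζ n).measurable ((hζ n).memLp 2)).const_mul _)
      · exact ((h.prim_integrable (hζ m).measurable ((hζ m).memLp 2)).const_mul _)
    have h3 := hζJ n
    have h4 := hζJ m
    rw [hJ] at h3 h4
    rw [En_sub (hζ n) (hζ m)]
    nlinarith
  have hEnC : ∀ ε > 0, ∃ n0, ∀ n ≥ n0, ∀ m ≥ n0,
      En (fun x => ζ n x - ζ m x) (fun x => ζ n x - ζ m x) ≤ ε := by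
    intro ε hε
    obtain ⟨n0, hn0⟩ := exists_nat_one_div_lt (show 0 < ε / 8 by positivity)
    refine ⟨n0, fun n hn m hm => (hEn n m).trans ?_⟩
    have h1 : 1 / ((n : ℝ) + 1) ≤ 1 / ((n0 : ℝ) + 1) := one_div_le_one_div_of_le (by positivity)
      (by gcongr)
    have h2 : 1 / ((m : ℝ) + 1) ≤ 1 / ((n0 : ℝ) + 1) := one_div_le_one_div_of_le (by positivity)
      (by gcongr)
    linarith
  -- L2 limit
  obtain ⟨u, hum, hu2, hulim⟩ := exists_L2_limit (μ := volume) (fun n => (hζ n).memLp 2) (by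
    intro ε hε
    obtain ⟨n0, hn0⟩ := hEnC (ε / (4 * R ^ 2)) (by positivity)
    refine ⟨n0, fun n hn m hm => ?_⟩
    have h1 := poincare hN hR hΩ ((hζ n).sub (hζ m))
    refine h1.trans ?_
    have h2 := hn0 n hn m hm
    calc 4 * R ^ 2 * En (fun x => ζ n x - ζ m x) (fun x => ζ n x - ζ m x) ≤
        4 * R ^ 2 * (ε / (4 * R ^ 2)) := by gcongr
      _ = ε := by field_simp)
  refine ⟨u, hum, ?_, hu2, ⟨ζ, hζ, hulim, hEnC⟩, ?_⟩
  · -- γ(x,u) ∈ L²
    have hmeas : Measurable (fun x => γ x (u x)) := h.meas.comp (measurable_id.prodMk hum)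
    have h1 : MemLp (fun x => C * (Metric.ball (0 : EuclideanSpace ℝ (Fin N)) R).indicator
      (fun _ => (1:ℝ)) x) 2 := (indicator_ball_memLp R).const_mul C
    refine h1.mono' hmeas.neg.aestronglyMeasurable (Eventually.of_forall fun x => ?_)
    by_cases hx : x ∈ Metric.ball (0 : EuclideanSpace ℝ (Fin N)) R
    · rw [indicator_of_mem hx]
      simpa using h.bdd x (u x)
    · rw [indicator_of_notMem hx, h.supp x hx]
      simp
  · intro η hη
    have hmeas : Measurable (fun x => γ x (u x)) := h.meas.comp (measurable_id.prodMk hum)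
    have hγ2 : MemLp (fun x => γ x (u x)) 2 := by
      have h1 : MemLp (fun x => C * (Metric.ball (0 : EuclideanSpace ℝ (Fin N)) R).indicator
        (fun _ => (1:ℝ)) x) 2 := (indicator_ball_memLp R).const_mul C
      refine h1.mono' hmeas.aestronglyMeasurable (Eventually.of_forall fun x => ?_)
      by_cases hx : x ∈ Metric.ball (0 : EuclideanSpace ℝ (Fin N)) R
      · rw [indicator_of_mem hx]
        simpa using h.bdd x (u x)
      · rw [indicator_of_notMem hx, h.supp x hx]
        simp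
    have hLap : MemLp (fun x => - Laplacian.laplacian η x) 2 := by
      refine Continuous.memLp_of_hasCompactSupport (laplacian_continuous hη.c2).neg ?_
      exact (laplacian_hasCompactSupport hη.c2 hη.cpt).neg
    set A : ℝ := ∫ x, u x * (- Laplacian.laplacian η x) with hA
    set D : ℝ := ∫ x, γ x (u x) * η x with hD
    set B : ℝ := 1 / 2 * En η η + L * ∫ x, η x ^ 2 with hB
    have key : ∀ t : ℝ, 0 ≤ B * (t * t) + (A + D) * t + 0 := by
      intro t
      have hut : Measurable (fun x => u x + t * η x) := hum.add (hη.measurable.const_mul t)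
      have hut2 : MemLp (fun x => u x + t * η x) 2 := hu2.add ((hη.memLp 2).const_mul t)
      -- the inequality at level n
      have hn : ∀ n : ℕ, - (1 / ((n : ℝ) + 1)) ≤ t * (∫ x, ζ n x * (- Laplacian.laplacian η x)) +
          1 / 2 * t ^ 2 * En η η + (In γ (fun x => 1 * ζ n x + t * η x) - In γ (ζ n)) := by
        intro n
        have h1 := hI0le _ ((hζ n).comb hη 1 t)
        rw [hJ, En_comb_comb (hζ n) hη] at h1
        have h2 := hζJ n
        rw [hJ] at h2
        rw [← En_eq_laplacian (hζ n).c1 hη]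
        nlinarith
      -- limits
      have l1 : Tendsto (fun n => ∫ x, ζ n x * (- Laplacian.laplacian η x)) atTop (𝓝 A) :=
        tendsto_integral_mul_L2 (fun n => (hζ n).memLp 2) hu2 hLap hulim
      have lI : ∀ {f : ℕ → EuclideanSpace ℝ (Fin N) → ℝ} {g : EuclideanSpace ℝ (Fin N) → ℝ},
          (∀ n, Measurable (f n)) → (∀ n, MemLp (f n) 2) → Measurable g → MemLp g 2 →
          Tendsto (fun n => ∫ x, (f n x - g x) ^ 2) atTop (𝓝 0) →
          Tendsto (fun n => In γ (f n)) atTop (𝓝 (In γ g)) := by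
        intro f g hf hf2 hg hg2 hl
        rw [tendsto_iff_dist_tendsto_zero]
        have h1 : Tendsto (fun n => C * (√(∫ x, (f n x - g x) ^ 2) * V)) atTop (𝓝 0) := by
          have := (hl.sqrt.mul_const V).const_mul C
          simpa using this
        exact squeeze_zero (fun n => dist_nonneg) (fun n => h.In_diff (hf n) (hf2 n) hg hg2) h1
      have l2 : Tendsto (fun n => In γ (ζ n)) atTop (𝓝 (In γ u)) :=
        lI (fun n => (hζ n).measurable) (fun n => (hζ n).memLp 2) hum hu2 hulim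
      have l3 : Tendsto (fun n => In γ (fun x => 1 * ζ n x + t * η x)) atTop
          (𝓝 (In γ (fun x => u x + t * η x))) := by
        refine lI (fun n => ((hζ n).comb hη 1 t).measurable)
          (fun n => ((hζ n).comb hη 1 t).memLp 2) hut hut2 ?_
        refine hulim.congr fun n => ?_
        refine integral_congr_ae (Eventually.of_forall fun x => ?_)
        simp only
        ring
      have l4 : Tendsto (fun n : ℕ => - (1 / ((n : ℝ) + 1))) atTop (𝓝 0) := by
        simpa using (tendsto_one_div_add_atTop_nhds_zero_nat (𝕜 := ℝ)).neg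
      have h5 := le_of_tendsto_of_tendsto' l4
        (((l1.const_mul t).add_const (1 / 2 * t ^ 2 * En η η)).add (l3.sub l2)) hn
      -- upper bound for the difference of In
      have h6 : In γ (fun x => u x + t * η x) - In γ u ≤ t * D + L * t ^ 2 * ∫ x, η x ^ 2 := by
        unfold In
        rw [← integral_sub (h.prim_integrable hut hut2) (h.prim_integrable hum hu2)]
        have hη2 : Integrable (fun x => η x ^ 2) := (hη.memLp 2).integrable_sq
        have e : t * D + L * t ^ 2 * ∫ x, η x ^ 2 =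
            ∫ x, (t * (γ x (u x) * η x) + L * t ^ 2 * η x ^ 2) := by
          rw [integral_add, integral_const_mul, integral_const_mul]
          · exact (mul_integrable hγ2 (hη.memLp 2)).const_mul t
          · exact hη2.const_mul _
        rw [e]
        refine integral_mono ((h.prim_integrable hut hut2).sub (h.prim_integrable hum hu2))
          (((mul_integrable hγ2 (hη.memLp 2)).const_mul t).add (hη2.const_mul _)) fun x => ?_
        simp only
        have := prim_le (h.cont x) (h.mono x) (h.lip x) (u x) (t * η x)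
        nlinarith
      nlinarith
    -- conclude
    have hd := discrim_le_zero key
    unfold discrim at hd
    have h7 : (A + D) ^ 2 ≤ 0 := by nlinarith
    have h8 : A + D = 0 := by nlinarith [sq_nonneg (A + D)]
    have h9 : ∫ x, - γ x (u x) * η x = - D := by
      rw [hD, ← integral_neg]
      simp
    rw [h9]
    linarith

end exist

end

end Pool.Agent.H19.Good
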