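import Pool.Agent.H19.Good.Mazur3

/-!
`L¹` convergence of the truncated nonlinearities.
-/

open MeasureTheory Set Filter Topology
open scoped Real ENNReal NNReal ContDiff Laplacian Pointwise

namespace Pool.Agent.H19.Good

noncomputable section

/-- Fatou: integrable limits -/
lemma integrable_of_ae_lim {α : Type*} [MeasurableSpace α] {μ : Measure α} {f : ℕ → α → ℝ} {g : α → ℝ}
    (hf : ∀ n, Integrable (f n) μ) (hae : ∀ᵐ x ∂μ, Tendsto (fun n => f n x) atTop (𝓝 (g x)))
    {C : ℝ} (hC : ∀ n, ∫ x, |f n x| ∂μ ≤ C) : Integrable g μ := by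
  have hgm : AEStronglyMeasurable g μ :=
    aestronglyMeasurable_of_tendsto_ae atTop (fun n => (hf n).aestronglyMeasurable) hae
  refine ⟨hgm, ?_⟩
  have h1 := Lp.eLpNorm_lim_le_liminf_eLpNorm (p := 1) (fun n => (hf n).aestronglyMeasurable) g hae
  have h2 : ∀ n, eLpNorm (f n) 1 μ ≤ ENNReal.ofReal C := by
    intro n
    rw [eLpNorm_one_eq_lintegral_enorm, ← ofReal_integral_norm_eq_lintegral_enorm (hf n)]
    exact ENNReal.ofReal_le_ofReal (hC n)
  have h3 : eLpNorm g 1 μ ≤ ENNReal.ofReal C := by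
    refine h1.trans ?_
    refine (liminf_le_liminf (Eventually.of_forall h2)).trans ?_
    simp
  rw [eLpNorm_one_eq_lintegral_enorm] at h3
  exact h3.trans_lt ENNReal.ofReal_lt_top

/-- generalised dominated convergence -/
lemma gen_dominated {α : Type*} [MeasurableSpace α] {μ : Measure α} {f g : ℕ → α → ℝ} {f' g' : α → ℝ}
    (hf : ∀ n, Integrable (f n) μ) (hf' : AEStronglyMeasurable f' μ) (hg : ∀ n, Integrable (g n) μ)
    (hg' : Integrable g' μ) (hle : ∀ n, ∀ᵐ x ∂μ, |f n x| ≤ g n x)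
    (hfae : ∀ᵐ x ∂μ, Tendsto (fun n => f n x) atTop (𝓝 (f' x)))
    (hgae : ∀ᵐ x ∂μ, Tendsto (fun n => g n x) atTop (𝓝 (g' x)))
    (hgl : Tendsto (fun n => ∫ x, |g n x - g' x| ∂μ) atTop (𝓝 0)) :
    Integrable f' μ ∧ Tendsto (fun n => ∫ x, |f n x - f' x| ∂μ) atTop (𝓝 0) := by
  have hle' : ∀ᵐ x ∂μ, |f' x| ≤ g' x := by
    filter_upwards [hfae, hgae, ae_all_iff.2 hle] with x h1 h2 h3
    exact le_of_tendsto_of_tendsto' h1.abs h2 h3
  have hf'i : Integrable f' μ := hg'.mono' hf' (by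
    filter_upwards [hle'] with x hx
    exact hx)
  refine ⟨hf'i, ?_⟩
  let F : ℕ → α → ℝ := fun n x => max (-g' x) (min (g' x) (f n x))
  have hFm : ∀ n, AEStronglyMeasurable (F n) μ := fun n =>
    (hg'.aestronglyMeasurable.neg).sup (hg'.aestronglyMeasurable.inf (hf n).aestronglyMeasurable)
  have hFb : ∀ n, ∀ᵐ x ∂μ, |F n x| ≤ g' x := by
    intro n
    filter_upwards [hle'] with x hx
    have h0 : 0 ≤ g' x := (abs_nonneg _).trans hx
    rw [abs_le]
    exact ⟨le_max_left _ _, max_le (by linarith) (min_le_left _ _)⟩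
  have hFi : ∀ n, Integrable (F n) μ := fun n => hg'.mono' (hFm n) (hFb n)
  have hFl : Tendsto (fun n => ∫ x, |F n x - f' x| ∂μ) atTop (𝓝 0) := by
    have h1 : Tendsto (fun n => ∫ x, |F n x - f' x| ∂μ) atTop (𝓝 (∫ _, (0:ℝ) ∂μ)) := by
      refine tendsto_integral_of_dominated_convergence (fun x => 2 * g' x)
        (fun n => ((hFi n).sub hf'i).abs.aestronglyMeasurable) (hg'.const_mul 2) (fun n => ?_) ?_
      · filter_upwards [hFb n, hle'] with x h1 h2
        rw [Real.norm_eq_abs, abs_abs]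
        refine (abs_sub _ _).trans ?_
        linarith
      · filter_upwards [hfae, hle'] with x h1 h2
        have h3 : Tendsto (fun n => F n x) atTop (𝓝 (max (-g' x) (min (g' x) (f' x)))) :=
          tendsto_const_nhds.max (tendsto_const_nhds.min h1)
        have h4 : max (-g' x) (min (g' x) (f' x)) = f' x := by
          rw [abs_le] at h2
          rw [min_eq_right h2.2, max_eq_right h2.1]
        rw [h4] at h3
        simpa using (h3.sub_const (f' x)).abs
    simpa using h1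
  have h5 := hgl.add hFl
  rw [add_zero] at h5
  refine squeeze_zero (fun n => integral_nonneg fun x => abs_nonneg _) (fun n => ?_) h5
  have i1 : Integrable (fun x => |g n x - g' x|) μ := ((hg n).sub hg').abs
  have i2 : Integrable (fun x => |F n x - f' x|) μ := ((hFi n).sub hf'i).abs
  rw [← integral_add i1 i2]
  refine integral_mono_ae ((hf n).sub hf'i).abs (i1.add i2) ?_
  filter_upwards [hle n, hle'] with x h1 h2
  have h6 : |f n x - F n x| ≤ |g n x - g' x| := by
    have h0 : 0 ≤ g' x := (abs_nonneg _).trans h2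
    rw [abs_le] at h1
    have h7 := le_abs_self (g n x - g' x)
    simp only [F]
    rcases le_total (f n x) (g' x) with h8 | h8
    · rw [min_eq_right h8]
      rcases le_total (-g' x) (f n x) with h9 | h9
      · rw [max_eq_right h9, sub_self, abs_zero]; exact abs_nonneg _
      · rw [max_eq_left h9, abs_of_nonpos (by linarith)]; linarith
    · rw [min_eq_left h8, max_eq_right (by linarith), abs_of_nonneg (by linarith)]; linarith
  calc |f n x - f' x| = |(f n x - F n x) + (F n x - f' x)| := by congr 1; ring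
    _ ≤ |f n x - F n x| + |F n x - f' x| := abs_add_le _ _
    _ ≤ _ := by linarith

variable {N : ℕ}

variable {Ω : Set (EuclideanSpace ℝ (Fin N))}

theorem trunc_conv (hN : 3 ≤ N) (hΩm : MeasurableSet Ω) {R : ℝ} (hR : 0 < R) (hΩ : Ω ⊆ Metric.ball 0 R)
    (m : Measure (EuclideanSpace ℝ (Fin N))) [IsFiniteMeasure m] (hm : m Ωᶜ = 0)
    (hcap : ∀ K, K ⊆ Ω → IsCompact K → ∀ B : ℝ, ∀ η > 0, ∃ δ > 0, ∀ s, Adm K δ B s →
      m.real K - η ≤ cost s) :
    ∃ (V : EuclideanSpace ℝ (Fin N) → ℝ) (v φ : ℕ → EuclideanSpace ℝ (Fin N) → ℝ) (n : ℕ → ℕ)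
      (w : ℕ → EuclideanSpace ℝ (Fin N) → ℝ) (Hi : EuclideanSpace ℝ (Fin N) → ℝ),
      LV (Metric.ball 0 (R + 2)) m (R + 2) V v φ n ∧ (∀ k, Measurable (w k)) ∧
      (∀ k, Weak (Metric.ball 0 (R + 2)) (fun x => - HH Ω k V (w k) x) (w k)) ∧
      (∀ k, ∀ᵐ x, 0 ≤ V x + w k x) ∧ Integrable Hi ∧
      (∀ᵐ x, Tendsto (fun k => HH Ω k V (w k) x) atTop (𝓝 (Hi x))) ∧
      Tendsto (fun k => ∫ x, |HH Ω k V (w k) x - Hi x|) atTop (𝓝 0) := by
  have hN0 : 0 < N := by omega
  have hRO0 : 0 < R + 2 := by linarith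
  have hΩO : Ω ⊆ Metric.ball 0 (R + 2) := hΩ.trans (Metric.ball_subset_ball (by linarith))
  have hΩb : Bornology.IsBounded Ω := Metric.isBounded_ball.subset hΩ
  have hOo : IsOpen (Metric.ball (0 : EuclideanSpace ℝ (Fin N)) (R + 2)) := Metric.isOpen_ball
  have hmO : m (Metric.ball (0 : EuclideanSpace ℝ (Fin N)) (R + 2))ᶜ = 0 :=
    measure_mono_null (compl_subset_compl.2 hΩO) hm
  obtain ⟨V, v, φ, n, hLV⟩ := exists_V hN hOo hRO0 subset_rfl m hmO
  have hex := fun k => exists_trunc (O := Metric.ball 0 (R + 2)) hN0 hΩm hRO0 subset_rfl hΩO hLV.measV k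
  choose w hwm hw using hex
  have hnn : ∀ k, ∀ᵐ x, 0 ≤ V x + w k x := fun k =>
    trunc_nonneg hN0 hΩm hΩO hOo hRO0 subset_rfl hLV (hwm k) (hw k)
  have hanti : ∀ k, ∀ᵐ x, w (k + 1) x ≤ w k x := fun k =>
    trunc_anti hN0 hOo hRO0 subset_rfl (Nat.le_succ k) (hw k) (hw (k + 1))
  set Hi : EuclideanSpace ℝ (Fin N) → ℝ := fun x =>
    Ω.indicator (fun _ => (1:ℝ)) x * (Real.exp (⨅ k, (V x + w k x)) - 1) with hHi
  have hae : ∀ᵐ x, Tendsto (fun k => HH Ω k V (w k) x) atTop (𝓝 (Hi x)) := by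
    filter_upwards [ae_all_iff.2 hnn, ae_all_iff.2 hanti] with x h1 h2
    have hA : Antitone (fun k => V x + w k x) := antitone_nat_of_succ_le fun k => by
      have := h2 k
      linarith
    have hb : BddBelow (range fun k => V x + w k x) := ⟨0, by rintro y ⟨k, rfl⟩; exact h1 k⟩
    have h3 := tendsto_atTop_ciInf hA hb
    have h4 : Tendsto (fun k => gp k (V x + w k x)) atTop (𝓝 (Real.exp (⨅ k, (V x + w k x)) - 1)) := by
      have h5 : Tendsto (fun k => Real.exp (V x + w k x) - 1) atTop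
          (𝓝 (Real.exp (⨅ k, (V x + w k x)) - 1)) :=
        ((Real.continuous_exp.tendsto _).comp h3).sub_const 1
      refine h5.congr' ?_
      obtain ⟨k0, hk0⟩ := exists_nat_ge (V x + w 0 x)
      filter_upwards [eventually_ge_atTop k0] with k hk
      unfold gp
      rw [max_eq_left (h1 k), min_eq_left]
      have h6 : V x + w k x ≤ V x + w 0 x := hA (Nat.zero_le k)
      have h7 : (k0:ℝ) ≤ k := by exact_mod_cast hk
      linarith
    simp only [hHi]
    exact h4.const_mul _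
  have hHint : ∀ k, Integrable (HH Ω k V (w k)) := fun k => HH_integrable hΩm hΩb k hLV.measV (hwm k)
  have hmass : ∀ k, ∫ x, HH Ω k V (w k) x ≤ m.real univ := fun k =>
    trunc_mass hN0 hΩm hΩO hOo hRO0 subset_rfl hLV (hwm k) (hw k)
  have hHii : Integrable Hi := by
    refine integrable_of_ae_lim hHint hae (C := m.real univ) fun k => ?_
    have : ∀ x, |HH Ω k V (w k) x| = HH Ω k V (w k) x := fun x => abs_of_nonneg (HH_nonneg k V (w k) x)
    simp_rw [this]
    exact hmass k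
  refine ⟨V, v, φ, n, w, Hi, hLV, hwm, hw, hnn, hHii, hae, ?_⟩
  refine scheffe hHint hHii (fun k => Eventually.of_forall fun x => HH_nonneg k V (w k) x) hae ?_
  by_contra hcon
  push Not at hcon
  obtain ⟨D, hD, hfreq⟩ := hcon
  have hfreq' : ∃ᶠ k in atTop, (∫ x, Hi x) + D ≤ ∫ x, HH Ω k V (w k) x := by
    refine hfreq.mono fun k hk => ?_
    exact hk.le
  exact no_cheap (R := R) hN hΩm hm hcap (half_pos hD) fun δ hδ =>
    dstep hN hΩm hR hΩ hLV hwm hw hae hHii hD hfreq' hδ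

end

end Pool.Agent.H19.Good
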