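import Pool.Agent.H19.Good.Fin1

/-!
Existence for signed measures under the capacity condition.
-/

open MeasureTheory Set Filter Topology
open scoped Real ENNReal NNReal ContDiff Laplacian Pointwise

namespace Pool.Agent.H19.Good

noncomputable section

variable {N : ℕ}

variable {Ω O : Set (EuclideanSpace ℝ (Fin N))}

/-- truncated exponential, without positive part -/
def hp' (k : ℕ) (t : ℝ) : ℝ := Real.exp (min t k) - 1

lemma hp'_abs_le (k : ℕ) (t : ℝ) : |hp' k t| ≤ Real.exp k := by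
  unfold hp'
  have h1 : Real.exp (min t (k : ℝ)) ≤ Real.exp k := Real.exp_le_exp.2 (min_le_right _ _)
  have h2 := Real.exp_pos (min t (k : ℝ))
  have h3 : 1 ≤ Real.exp (k:ℝ) := Real.one_le_exp (Nat.cast_nonneg k)
  rw [abs_le]
  constructor <;> linarith

lemma hp'_mono (k : ℕ) : Monotone (hp' k) := by
  intro s t hst
  unfold hp'
  gcongr

lemma hp'_mono_k {k l : ℕ} (hkl : k ≤ l) (t : ℝ) : hp' k t ≤ hp' l t := by
  unfold hp'
  gcongr

lemma hp'_lip (k : ℕ) (s t : ℝ) : |hp' k s - hp' k t| ≤ Real.exp k * |s - t| := by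
  unfold hp'
  have e : Real.exp (min s (k : ℝ)) - 1 - (Real.exp (min t (k : ℝ)) - 1) =
    Real.exp (min s (k : ℝ)) - Real.exp (min t (k : ℝ)) := by ring
  rw [e]
  refine (exp_lip (min_le_right _ _) (min_le_right _ _)).trans ?_
  refine mul_le_mul_of_nonneg_left ?_ (Real.exp_pos _).le
  refine (abs_min_sub_min_le_max s (k:ℝ) t (k:ℝ)).trans ?_
  rw [sub_self, abs_zero]
  exact max_le le_rfl (abs_nonneg _)

lemma hp'_continuous (k : ℕ) : Continuous (hp' k) := by unfold hp'; fun_prop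

lemma hp'_eq_gp (k : ℕ) {t : ℝ} (ht : 0 ≤ t) : hp' k t = gp k t := by
  unfold hp' gp; rw [max_eq_left ht]

lemma neg_one_le_hp' (k : ℕ) (t : ℝ) : -1 ≤ hp' k t := by
  unfold hp'
  have := Real.exp_pos (min t (k : ℝ))
  linarith

/-- `h = 1_Ω (e^{min(v+w, k)} - 1)` -/
def hh (Ω : Set (EuclideanSpace ℝ (Fin N))) (k : ℕ) (V w : EuclideanSpace ℝ (Fin N) → ℝ)
    (x : EuclideanSpace ℝ (Fin N)) : ℝ :=
  Ω.indicator (fun _ => (1:ℝ)) x * hp' k (V x + w x)

lemma hh_abs_le (k : ℕ) (V w : EuclideanSpace ℝ (Fin N) → ℝ) (x : EuclideanSpace ℝ (Fin N)) :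
    |hh Ω k V w x| ≤ Real.exp k := by
  unfold hh
  rw [abs_mul, abs_of_nonneg (ind_nonneg x)]
  calc _ ≤ 1 * Real.exp k := by
        gcongr
        · exact ind_le_one x
        · exact hp'_abs_le _ _
    _ = _ := one_mul _

lemma hh_zero (k : ℕ) (V w : EuclideanSpace ℝ (Fin N) → ℝ) {x : EuclideanSpace ℝ (Fin N)} (hx : x ∉ Ω) :
    hh Ω k V w x = 0 := by
  unfold hh; rw [indicator_of_notMem hx, zero_mul]

lemma hh_measurable (hΩ : MeasurableSet Ω) (k : ℕ) {V w : EuclideanSpace ℝ (Fin N) → ℝ}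
    (hV : Measurable V) (hw : Measurable w) : Measurable (hh Ω k V w) :=
  (measurable_const.indicator hΩ).mul ((hp'_continuous k).measurable.comp (hV.add hw))

lemma hh_integrable (hΩ : MeasurableSet Ω) (hΩb : Bornology.IsBounded Ω) (k : ℕ)
    {V w : EuclideanSpace ℝ (Fin N) → ℝ} (hV : Measurable V) (hw : Measurable w) :
    Integrable (hh Ω k V w) :=
  bdd_integrable hΩ hΩb (hh_measurable hΩ k hV hw) (C := Real.exp k) (hh_abs_le k V w)
    (fun x hx => hh_zero k V w hx)

lemma exists_trunc' (hN : 0 < N) (hΩm : MeasurableSet Ω) {R : ℝ} (hR : 0 < R) (hΩ : Ω ⊆ Metric.ball 0 R)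
    {V : EuclideanSpace ℝ (Fin N) → ℝ} (hV : Measurable V) (k : ℕ) :
    ∃ w, Measurable w ∧ Weak Ω (fun x => - hh Ω k V w x) w := by
  have hγ : GHyp R (Real.exp k) (Real.exp k) (fun (x : EuclideanSpace ℝ (Fin N)) (t : ℝ) =>
      Ω.indicator (fun _ => (1:ℝ)) x * hp' k (V x + t)) := by
    refine ⟨?_, ?_, ?_, ?_, ?_⟩
    · have h1 : Measurable (fun p : EuclideanSpace ℝ (Fin N) × ℝ => Ω.indicator (fun _ => (1:ℝ)) p.1) :=
        (measurable_const.indicator hΩm).comp measurable_fst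
      have h2 : Measurable (fun p : EuclideanSpace ℝ (Fin N) × ℝ => hp' k (V p.1 + p.2)) :=
        (hp'_continuous k).measurable.comp ((hV.comp measurable_fst).add measurable_snd)
      exact h1.mul h2
    · intro x t
      rw [abs_mul, abs_of_nonneg (ind_nonneg x)]
      calc _ ≤ 1 * Real.exp k := by
            gcongr
            · exact ind_le_one x
            · exact hp'_abs_le _ _
        _ = _ := one_mul _
    · intro x s t hst
      simp only
      have h1 := hp'_mono k (show V x + s ≤ V x + t by linarith)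
      exact mul_le_mul_of_nonneg_left h1 (ind_nonneg x)
    · intro x s t
      rw [← mul_sub, abs_mul, abs_of_nonneg (ind_nonneg x)]
      have h1 := hp'_lip k (V x + s) (V x + t)
      have e : V x + s - (V x + t) = s - t := by ring
      rw [e] at h1
      calc _ ≤ 1 * (Real.exp k * |s - t|) := by
            gcongr
            exact ind_le_one x
        _ = _ := one_mul _
    · intro x hx t
      rw [indicator_of_notMem (fun h => hx (hΩ h)), zero_mul]
  exact exists_weak hN hR hΩ hγ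

lemma anti' (hN : 0 < N) (hΩo : IsOpen Ω) {R : ℝ} (hR : 0 < R) (hΩ : Ω ⊆ Metric.ball 0 R)
    {V : EuclideanSpace ℝ (Fin N) → ℝ}
    {k l : ℕ} (hkl : k ≤ l) {w w' : EuclideanSpace ℝ (Fin N) → ℝ}
    (hw : Weak Ω (fun x => - hh Ω k V w x) w) (hw' : Weak Ω (fun x => - hh Ω l V w' x) w') :
    ∀ᵐ x, w' x ≤ w x := by
  have h := weak_nonpos hN hΩo hR hΩ (hw'.sub hw) (by
    refine Eventually.of_forall fun x _ hx => ?_
    have h1 : hp' k (V x + w x) ≤ hp' l (V x + w' x) :=
      (hp'_mono_k hkl _).trans (hp'_mono l (by linarith))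
    have h2 : hh Ω k V w x ≤ hh Ω l V w' x := mul_le_mul_of_nonneg_left h1 (ind_nonneg x)
    linarith)
  filter_upwards [h] with x hx
  linarith

/-- pairing an `L¹`-convergent sequence with a bounded continuous function on a bounded set -/
lemma tendsto_L1_test (hΩm : MeasurableSet Ω) (hΩb : Bornology.IsBounded Ω)
    {f : ℕ → EuclideanSpace ℝ (Fin N) → ℝ} {g ζ : EuclideanSpace ℝ (Fin N) → ℝ}
    (hf : ∀ n, Integrable (f n)) (hg : Integrable g) (hζ : Continuous ζ)
    (hl : Tendsto (fun n => ∫ x, |f n x - g x|) atTop (𝓝 0)) :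
    Tendsto (fun n => ∫ x in Ω, f n x * ζ x) atTop (𝓝 (∫ x in Ω, g x * ζ x)) := by
  obtain ⟨C, hC⟩ := (Metric.isCompact_of_isClosed_isBounded isClosed_closure
    hΩb.closure).exists_bound_of_continuousOn hζ.continuousOn
  have hb : ∀ x, |Ω.indicator ζ x| ≤ |C| := by
    intro x
    by_cases hx : x ∈ Ω
    · rw [indicator_of_mem hx]; exact (hC x (subset_closure hx)).trans (le_abs_self _)
    · rw [indicator_of_notMem hx]; simp
  have hζm : AEStronglyMeasurable (Ω.indicator ζ) volume :=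
    (hζ.measurable.indicator hΩm).aestronglyMeasurable
  have e : ∀ h : EuclideanSpace ℝ (Fin N) → ℝ, ∫ x in Ω, h x * ζ x = ∫ x, h x * Ω.indicator ζ x := by
    intro h
    rw [← integral_indicator hΩm]
    refine integral_congr_ae (Eventually.of_forall fun x => ?_)
    by_cases hx : x ∈ Ω
    · simp only [indicator_of_mem hx]
    · simp only [indicator_of_notMem hx, mul_zero]
  simp_rw [e]
  rw [tendsto_iff_dist_tendsto_zero]
  have h1 : Tendsto (fun n => |C| * ∫ x, |f n x - g x|) atTop (𝓝 0) := by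
    simpa using hl.const_mul |C|
  refine squeeze_zero (fun n => dist_nonneg) (fun n => ?_) h1
  rw [Real.dist_eq, ← integral_sub (bdd_mul_int (hf n) hζm hb) (bdd_mul_int hg hζm hb),
    ← integral_const_mul]
  refine abs_integral_le_integral_abs.trans ?_
  refine integral_mono ((bdd_mul_int (hf n) hζm hb).sub (bdd_mul_int hg hζm hb)).abs
    (((hf n).sub hg).abs.const_mul _) fun x => ?_
  simp only
  rw [← sub_mul, abs_mul, mul_comm]
  exact mul_le_mul_of_nonneg_right (hb x) (abs_nonneg _)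

/-- distributional equation of `V` -/
lemma LV.dist_eq (hN : 0 < N) (hΩo : IsOpen Ω) {R : ℝ} (hR : 0 < R) (hΩ : Ω ⊆ Metric.ball 0 R)
    {m : Measure (EuclideanSpace ℝ (Fin N))} [IsFiniteMeasure m]
    {V : EuclideanSpace ℝ (Fin N) → ℝ} {v φ : ℕ → EuclideanSpace ℝ (Fin N) → ℝ} {n : ℕ → ℕ}
    (h : LV Ω m R V v φ n) {ζ : EuclideanSpace ℝ (Fin N) → ℝ} (hζ : ContDiff ℝ ∞ ζ)
    (hζf : ∀ x ∈ frontier Ω, ζ x = 0) :
    ∫ x in Ω, V x * (- Laplacian.laplacian ζ x) = ∫ x, ζ x ∂m := by
  have hΩb : Bornology.IsBounded Ω := Metric.isBounded_ball.subset hΩ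
  have hΩm := hΩo.measurableSet
  have hc : Continuous (fun x => - Laplacian.laplacian ζ x) :=
    (laplacian_continuous (hζ.of_le (by norm_cast))).neg
  have l1 := tendsto_L1_test hΩm hΩb (fun j => weak_integrable hΩm hΩb (h.weak j)) h.intV hc h.lim
  have l2 := h.test ζ hζ.continuous
  have e : ∀ j, ∫ x in Ω, v j x * (- Laplacian.laplacian ζ x) = ∫ x in Ω, φ j x * ζ x := fun j =>
    (h.weak j).eq_test hN hΩo hR hΩ hζ hζf
  simp_rw [e] at l1
  exact tendsto_nhds_unique l1 l2

end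

end Pool.Agent.H19.Good
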