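import Pool.Agent.H19.Good.Fin2

/-!
Comparison of the truncated solutions in `Ω` and in the large ball.
-/

open MeasureTheory Set Filter Topology
open scoped Real ENNReal NNReal ContDiff Laplacian Pointwise

namespace Pool.Agent.H19.Good

noncomputable section

variable {N : ℕ}

variable {Ω O : Set (EuclideanSpace ℝ (Fin N))}

lemma isTest_moll {R : ℝ} (n : ℕ) {x : EuclideanSpace ℝ (Fin N)} (hx : ‖x‖ < R) :
    IsTest (Metric.ball 0 (R + 2)) (fun t => moll n (x - t)) := by
  refine ⟨(moll_contDiff n).comp (contDiff_const.sub contDiff_id),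
    (moll_cpt n).comp_homeomorph (Homeomorph.subLeft x), ?_⟩
  have h1 : tsupport (fun t => moll n (x - t)) ⊆ Metric.closedBall x 1 := by
    refine closure_minimal (fun t ht => ?_) Metric.isClosed_closedBall
    by_contra h
    apply ht
    refine moll_eq_zero n ?_
    have h2 : 1 < ‖t - x‖ := by simpa [dist_eq_norm] using h
    have h3 : 1 / ((n : ℝ) + 1) ≤ 1 := by
      rw [div_le_one (by positivity)]
      linarith [(Nat.cast_nonneg n : (0:ℝ) ≤ n)]
    rw [norm_sub_rev]
    linarith
  refine h1.trans fun t ht => ?_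
  have h2 : ‖t - x‖ ≤ 1 := by simpa [dist_eq_norm] using ht
  have h3 := norm_sub_norm_le t x
  simp only [Metric.mem_ball, dist_zero_right]
  linarith

lemma IsTest.frontier_zero {ζ : EuclideanSpace ℝ (Fin N) → ℝ} (h : IsTest Ω ζ) (hΩo : IsOpen Ω) :
    ∀ x ∈ frontier Ω, ζ x = 0 := fun x hx => h.eq_zero (by
  have := hx.2
  rwa [hΩo.interior_eq] at this)

lemma below (hN : 3 ≤ N) (hΩo : IsOpen Ω) {R : ℝ} (hR : 0 < R) (hΩ : Ω ⊆ Metric.ball 0 R)
    {m1 m2 : Measure (EuclideanSpace ℝ (Fin N))} [IsFiniteMeasure m1] [IsFiniteMeasure m2]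
    {V V1 V2 : EuclideanSpace ℝ (Fin N) → ℝ}
    {v v1 v2 φ φ1 φ2 : ℕ → EuclideanSpace ℝ (Fin N) → ℝ} {n n1 n2 : ℕ → ℕ}
    (h : LV (Metric.ball 0 (R + 2)) m1 (R + 2) V v φ n) (h1 : LV Ω m1 R V1 v1 φ1 n1)
    (h2 : LV Ω m2 R V2 v2 φ2 n2)
    {k : ℕ} {w w' : EuclideanSpace ℝ (Fin N) → ℝ} (hwm : Measurable w) (hw'm : Measurable w')
    (hw : Weak (Metric.ball 0 (R + 2)) (fun x => - HH Ω k V w x) w)
    (hw' : Weak Ω (fun x => - hh Ω k (fun x => V1 x - V2 x) w' x) w')
    (hnn : ∀ᵐ x, 0 ≤ V x + w x) : ∀ᵐ x, x ∈ Ω → V1 x - V2 x + w' x ≤ V x + w x := by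
  obtain ⟨L, hL, hp⟩ := PH_st
  have hN0 : 0 < N := by omega
  have hRO0 : 0 < R + 2 := by linarith
  set O := Metric.ball (0 : EuclideanSpace ℝ (Fin N)) (R + 2) with hO
  have hOO : O ⊆ Metric.ball 0 (R + 2) := by rw [hO]
  have hOo : IsOpen O := Metric.isOpen_ball
  have hOm := hOo.measurableSet
  have hOb : Bornology.IsBounded O := Metric.isBounded_ball
  have hΩm := hΩo.measurableSet
  have hΩb : Bornology.IsBounded Ω := Metric.isBounded_ball.subset hΩ
  have hwi : Integrable w := weak_integrable hOm hOb hw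
  have hw'i : Integrable w' := weak_integrable hΩm hΩb hw'
  have hv1i : ∀ j, Integrable (v1 j) := fun j => weak_integrable hΩm hΩb (h1.weak j)
  have hv2i : ∀ j, Integrable (v2 j) := fun j => weak_integrable hΩm hΩb (h2.weak j)
  have hHi : Integrable (HH Ω k V w) := HH_integrable hΩm hΩb k h.measV hwm
  have hhi : Integrable (hh Ω k (fun x => V1 x - V2 x) w') :=
    hh_integrable hΩm hΩb k (h1.measV.sub h2.measV) hw'm
  set U : EuclideanSpace ℝ (Fin N) → ℝ := fun x => V x + w x with hU
  have hUi : Integrable U := h.intV.add hwi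
  -- distributional equation of U
  have hUeq : ∀ η, IsTest O η → ∫ x, U x * (- Laplacian.laplacian η x) =
      ∫ x, η x ∂m1 - ∫ x, HH Ω k V w x * η x := by
    intro η hη
    have e1 := h.dist_eq hN0 hOo hRO0 hOO hη.smooth (hη.frontier_zero hOo)
    have e2 := hw.eq η hη
    have hlz : ∀ x, x ∉ O → Laplacian.laplacian η x = 0 := by
      intro x hx
      by_contra hne
      exact hx (hη.supp (laplacian_support_subset hη.c2 hne))
    have e3 : ∫ x in O, V x * (- Laplacian.laplacian η x) = ∫ x, V x * (- Laplacian.laplacian η x) := by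
      refine setIntegral_eq_integral_of_forall_compl_eq_zero fun x hx => ?_
      rw [hlz x hx]; simp
    have hlc : Continuous (fun x => - Laplacian.laplacian η x) := (laplacian_continuous hη.c2).neg
    obtain ⟨C, hC⟩ := (laplacian_hasCompactSupport hη.c2 hη.cpt).neg.exists_bound_of_continuous hlc
    have i1 : Integrable (fun x => V x * (- Laplacian.laplacian η x)) :=
      bdd_mul_int h.intV hlc.aestronglyMeasurable hC
    have i2 : Integrable (fun x => w x * (- Laplacian.laplacian η x)) :=
      bdd_mul_int hwi hlc.aestronglyMeasurable hC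
    have e4 : ∫ x, U x * (- Laplacian.laplacian η x) =
        (∫ x, V x * (- Laplacian.laplacian η x)) + ∫ x, w x * (- Laplacian.laplacian η x) := by
      rw [← integral_add i1 i2]
      refine integral_congr_ae (Eventually.of_forall fun x => ?_)
      simp only [hU]; ring
    have e5 : ∫ x, -HH Ω k V w x * η x = - ∫ x, HH Ω k V w x * η x := by
      rw [← integral_neg]
      refine integral_congr_ae (Eventually.of_forall fun x => ?_)
      simp only; ring
    rw [e4, e2, ← e3, e1, e5]
    ring
  -- the comparison functions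
  set W : ℕ → EuclideanSpace ℝ (Fin N) → ℝ := fun j => cv volume U (moll (n1 j)) with hW
  have hWs : ∀ j, ContDiff ℝ ∞ (W j) := fun j =>
    cv_contDiff hUi.locallyIntegrable (moll_contDiff _) (moll_cpt _)
  have hWnn : ∀ j x, 0 ≤ W j x := by
    intro j x
    simp only [hW]
    unfold cv
    refine integral_nonneg_of_ae ?_
    filter_upwards [hnn] with t ht
    exact mul_nonneg ht (moll_nonneg _ _)
  have hWlap : ∀ j, ∀ x ∈ Ω, Laplacian.laplacian (W j) x =
      - cv m1 (fun _ => 1) (moll (n1 j)) x + cv volume (HH Ω k V w) (moll (n1 j)) x := by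
    intro j x hx
    have hxR : ‖x‖ < R := by simpa using hΩ hx
    have hη := isTest_moll (n1 j) hxR
    have e1 := hUeq _ hη
    simp only [hW]
    rw [laplacian_cv hUi.locallyIntegrable (moll_contDiff _) (moll_cpt _)]
    have e2 : ∫ t, U t * (- Laplacian.laplacian
        (fun t : EuclideanSpace ℝ (Fin N) => moll (n1 j) (x - t)) t) =
        - cv volume U (Laplacian.laplacian (moll (n1 j))) x := by
      unfold cv
      rw [← integral_neg]
      refine integral_congr_ae (Eventually.of_forall fun t => ?_)
      simp only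
      rw [laplacian_comp_const_sub ((moll_contDiff _).of_le (by norm_cast))]
      ring
    have e3 : cv m1 (fun _ => 1) (moll (n1 j)) x = ∫ t, moll (n1 j) (x - t) ∂m1 := by
      unfold cv; simp
    have e4 : cv volume (HH Ω k V w) (moll (n1 j)) x = ∫ t, HH Ω k V w t * moll (n1 j) (x - t) := rfl
    rw [e2] at e1
    rw [e3, e4]
    linarith
  -- inequality at level j
  have hq1 : ∀ t, |Real.smoothTransition t| ≤ 1 := st_abs_le
  have hqc : Continuous Real.smoothTransition := Real.smoothTransition.continuous
  have hfm : IsFiniteMeasure (volume.restrict Ω) := ⟨by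
    rw [Measure.restrict_apply_univ]; exact hΩb.measure_lt_top⟩
  have hWi : ∀ j, Integrable (W j) := fun j => cv_integrable hUi (moll_integrable _)
  have hcvi : ∀ j, Integrable (cv volume (HH Ω k V w) (moll (n1 j))) := fun j =>
    cv_integrable hHi (moll_integrable _)
  have hui : ∀ j, Integrable (fun x => 1 * (v1 j x - v2 j x) + 1 * w' x - W j x) := fun j =>
    ((((hv1i j).sub (hv2i j)).const_mul 1).add (hw'i.const_mul 1)).sub (hWi j)
  have hui' : Integrable (fun x => 1 * (V1 x - V2 x) + 1 * w' x - U x) :=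
    (((h1.intV.sub h2.intV).const_mul 1).add (hw'i.const_mul 1)).sub hUi
  have hqi : ∀ {f g : EuclideanSpace ℝ (Fin N) → ℝ}, Integrable f → Integrable g →
      Integrable (fun x => f x * Real.smoothTransition (g x)) := fun hf hg =>
    bdd_mul_int hf (hqc.comp_aestronglyMeasurable hg.aestronglyMeasurable) (fun x => hq1 _)
  have hj : ∀ j, ∫ x in Ω, Real.smoothTransition (1 * (v1 j x - v2 j x) + 1 * w' x - W j x) ^ 2 ≤
      4 * R ^ 2 * L * ∫ x in Ω, (cv volume (HH Ω k V w) (moll (n1 j)) x -
        hh Ω k (fun x => V1 x - V2 x) w' x) *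
        Real.smoothTransition (1 * (v1 j x - v2 j x) + 1 * w' x - W j x) := by
    intro j
    have hu := ((h1.weak j).sub (h2.weak j)).comb hw' 1 1
    refine (comp_set hN0 hΩo hR hΩ hu (hWs j) (fun x _ => hWnn j x) hp).trans ?_
    refine mul_le_mul_of_nonneg_left ?_ (by positivity)
    have hlapi : IntegrableOn (Laplacian.laplacian (W j)) Ω := by
      have : ContinuousOn (Laplacian.laplacian (W j)) (Metric.closedBall 0 R) :=
        (laplacian_continuous ((hWs j).of_le (by norm_cast))).continuousOn
      exact (this.integrableOn_compact (isCompact_closedBall _ _)).mono_set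
        (hΩ.trans Metric.ball_subset_closedBall)
    refine setIntegral_mono_on ?_ (hqi ((hcvi j).sub hhi) (hui j)).integrableOn hΩm fun x hx => ?_
    · have hb := (hqc.comp_aestronglyMeasurable (hui j).aestronglyMeasurable).restrict (s := Ω)
      have hI : IntegrableOn (fun x => 1 * (φ1 j x - φ2 j x) +
          1 * -hh Ω k (fun x => V1 x - V2 x) w' x + Laplacian.laplacian (W j) x) Ω :=
        (((((h1.φint j).sub (h2.φint j)).const_mul 1).add (hhi.neg.const_mul 1)).integrableOn).add hlapi
      have := Integrable.bdd_mul (c := 1) hI hb (Eventually.of_forall fun x => by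
        rw [Real.norm_eq_abs]; exact hq1 _)
      refine this.congr (Eventually.of_forall fun x => ?_)
      simp only
      ring
    · refine mul_le_mul_of_nonneg_right ?_ (Real.smoothTransition.nonneg _)
      rw [hWlap j x hx]
      have h3 := h1.φle j x
      have h4 := h2.φnn j x
      linarith
  -- limits
  have hnlim : Tendsto n1 atTop atTop := h1.nlim
  have lW : Tendsto (fun j => ∫ x, |W j x - U x|) atTop (𝓝 0) := (cv_moll_L1 hUi).comp hnlim
  have lH : Tendsto (fun j => ∫ x, |cv volume (HH Ω k V w) (moll (n1 j)) x - HH Ω k V w x|) atTop (𝓝 0) :=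
    (cv_moll_L1 hHi).comp hnlim
  have lu : Tendsto (fun j => ∫ x in Ω, |(1 * (v1 j x - v2 j x) + 1 * w' x - W j x) -
      (1 * (V1 x - V2 x) + 1 * w' x - U x)|) atTop (𝓝 0) := by
    have h3 := (h1.lim.add h2.lim).add lW
    simp only [add_zero] at h3
    refine squeeze_zero (fun n => integral_nonneg fun x => abs_nonneg _) (fun j => ?_) h3
    have i1 : Integrable (fun x => |v1 j x - V1 x|) := ((hv1i j).sub h1.intV).abs
    have i2 : Integrable (fun x => |v2 j x - V2 x|) := ((hv2i j).sub h2.intV).abs
    have i3 : Integrable (fun x => |W j x - U x|) := ((hWi j).sub hUi).abs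
    have i12 : Integrable (fun x => |v1 j x - V1 x| + |v2 j x - V2 x|) := i1.add i2
    rw [← integral_add i1 i2, ← integral_add i12 i3]
    refine (setIntegral_le_integral ((hui j).sub hui').abs (Eventually.of_forall fun x => abs_nonneg _)).trans ?_
    refine integral_mono ((hui j).sub hui').abs (i12.add i3) fun x => ?_
    simp only [Pi.sub_apply]
    have e : 1 * (v1 j x - v2 j x) + 1 * w' x - W j x - (1 * (V1 x - V2 x) + 1 * w' x - U x) =
      ((v1 j x - V1 x) - (v2 j x - V2 x)) - (W j x - U x) := by ring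
    rw [e]
    refine (abs_sub _ _).trans ?_
    have := abs_sub (v1 j x - V1 x) (v2 j x - V2 x)
    linarith
  have lHh : Tendsto (fun j => ∫ x in Ω, |(cv volume (HH Ω k V w) (moll (n1 j)) x -
        hh Ω k (fun x => V1 x - V2 x) w' x) - (HH Ω k V w x - hh Ω k (fun x => V1 x - V2 x) w' x)|)
      atTop (𝓝 0) := by
    refine squeeze_zero (fun n => integral_nonneg fun x => abs_nonneg _) (fun j => ?_) lH
    have e : ∀ x, (cv volume (HH Ω k V w) (moll (n1 j)) x -
        hh Ω k (fun x => V1 x - V2 x) w' x) - (HH Ω k V w x - hh Ω k (fun x => V1 x - V2 x) w' x) =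
        cv volume (HH Ω k V w) (moll (n1 j)) x - HH Ω k V w x := fun x => by ring
    simp_rw [e]
    exact setIntegral_le_integral ((hcvi j).sub hHi).abs (Eventually.of_forall fun x => abs_nonneg _)
  have l1 := tendsto_bl (μ := volume.restrict Ω) (fun j => (hui j).integrableOn) hui'.integrableOn
    (fun j => ((hcvi j).sub hhi).integrableOn) (hHi.sub hhi).integrableOn
    (C := Real.exp k + Real.exp k) (Eventually.of_forall fun x => by
      refine (abs_sub _ _).trans (add_le_add ?_ (hh_abs_le _ _ _ _))
      rw [abs_of_nonneg (HH_nonneg k V w x)]; exact HH_le k V w x) hqc hq1 hp.lip lu lHh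
  have l2 := tendsto_bl (μ := volume.restrict Ω) (fun j => (hui j).integrableOn) hui'.integrableOn
    (H := fun _ _ => (1:ℝ)) (H' := fun _ => (1:ℝ)) (fun _ => integrable_const 1) (integrable_const 1)
    (C := 1) (Eventually.of_forall fun x => by simp)
    (p := fun t => Real.smoothTransition t ^ 2) (hqc.pow 2)
    (B := 1) (fun t => by
      rw [abs_pow]; exact pow_le_one₀ (abs_nonneg _) (hq1 t)) (L := 2 * L) (fun s t => by
      have e : Real.smoothTransition s ^ 2 - Real.smoothTransition t ^ 2 =
        (Real.smoothTransition s - Real.smoothTransition t) *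
        (Real.smoothTransition s + Real.smoothTransition t) := by ring
      rw [e, abs_mul]
      have h5 : |Real.smoothTransition s + Real.smoothTransition t| ≤ 2 := by
        refine (abs_add_le _ _).trans ?_
        linarith [hq1 s, hq1 t]
      calc _ ≤ (L * |s - t|) * 2 := by
            gcongr; exact hp.lip s t
        _ = _ := by ring) lu (by simp)
  simp only [one_mul] at l2
  have h6 := le_of_tendsto_of_tendsto' l2 (l1.const_mul (4 * R ^ 2 * L)) (fun j => by
    have := hj j
    simp only [one_mul] at this ⊢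
    exact this)
  have h7 : ∫ x in Ω, (HH Ω k V w x - hh Ω k (fun x => V1 x - V2 x) w' x) *
      Real.smoothTransition (1 * (V1 x - V2 x) + 1 * w' x - U x) ≤ 0 := by
    refine integral_nonpos_of_ae ?_
    rw [EventuallyLE, ae_restrict_iff' hΩm]
    filter_upwards [hnn] with x hx hxΩ
    simp only [Pi.zero_apply]
    rcases le_or_gt (V1 x - V2 x + w' x) (U x) with h8 | h8
    · rw [Real.smoothTransition.zero_of_nonpos (by linarith), mul_zero]
    · refine mul_nonpos_of_nonpos_of_nonneg ?_ (Real.smoothTransition.nonneg _)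
      unfold HH hh
      rw [indicator_of_mem hxΩ, one_mul, one_mul, ← hp'_eq_gp k hx]
      have := hp'_mono k h8.le
      simp only [hU] at this
      linarith
  have h8 : ∫ x in Ω, Real.smoothTransition (V1 x - V2 x + w' x - U x) ^ 2 ≤ 0 :=
    h6.trans (mul_nonpos_of_nonneg_of_nonpos (by positivity) h7)
  have hint : IntegrableOn (fun x => Real.smoothTransition (V1 x - V2 x + w' x - U x) ^ 2) Ω := by
    have hm : AEStronglyMeasurable (fun x => Real.smoothTransition (V1 x - V2 x + w' x - U x) ^ 2)
        (volume.restrict Ω) := by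
      have : Integrable (fun x => V1 x - V2 x + w' x - U x) := ((h1.intV.sub h2.intV).add hw'i).sub hUi
      exact ((hqc.pow 2).comp_aestronglyMeasurable this.aestronglyMeasurable).restrict
    refine (integrable_const (1:ℝ)).mono' hm (Eventually.of_forall fun x => ?_)
    rw [Real.norm_eq_abs, abs_pow]
    exact pow_le_one₀ (abs_nonneg _) (hq1 _)
  have h9 := (integral_eq_zero_iff_of_nonneg_ae (Eventually.of_forall fun x => sq_nonneg _) hint).1
    (le_antisymm h8 (integral_nonneg fun x => sq_nonneg _))
  rw [EventuallyEq, ae_restrict_iff' hΩm] at h9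
  filter_upwards [h9] with x hx hxΩ
  have h11 := pow_eq_zero_iff (two_ne_zero) |>.1 (hx hxΩ)
  rw [Real.smoothTransition.zero_iff_nonpos] at h11
  linarith

end

end Pool.Agent.H19.Good
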