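import Pool.Agent.H19.Good.Fin3

/-!
Existence of solutions under the capacity condition.
-/

open MeasureTheory Set Filter Topology
open scoped Real ENNReal NNReal ContDiff Laplacian Pointwise

namespace Pool.Agent.H19.Good

noncomputable section

variable {N : ℕ}

variable {Ω O : Set (EuclideanSpace ℝ (Fin N))}

theorem existence (hN : 3 ≤ N) (hΩo : IsOpen Ω) {R : ℝ} (hR : 0 < R) (hΩ : Ω ⊆ Metric.ball 0 R)
    (m1 m2 : Measure (EuclideanSpace ℝ (Fin N))) [IsFiniteMeasure m1] [IsFiniteMeasure m2]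
    (hm1 : m1 Ωᶜ = 0) (hm2 : m2 Ωᶜ = 0)
    (hcap : ∀ K, K ⊆ Ω → IsCompact K → ∀ B : ℝ, ∀ η > 0, ∃ δ > 0, ∀ s, Adm K δ B s →
      m1.real K - η ≤ cost s) :
    ∃ u : EuclideanSpace ℝ (Fin N) → ℝ, IntegrableOn u Ω ∧ IntegrableOn (fun x => Real.exp (u x) - 1) Ω ∧
      ∀ ζ : EuclideanSpace ℝ (Fin N) → ℝ, ContDiff ℝ ∞ ζ → (∀ x ∈ frontier Ω, ζ x = 0) →
        -(∫ x in Ω, u x * Laplacian.laplacian ζ x) + ∫ x in Ω, (Real.exp (u x) - 1) * ζ x =
          (∫ x, ζ x ∂m1) - ∫ x, ζ x ∂m2 := by
  have hN0 : 0 < N := by omega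
  have hΩm := hΩo.measurableSet
  have hΩb : Bornology.IsBounded Ω := Metric.isBounded_ball.subset hΩ
  have hfm : IsFiniteMeasure (volume.restrict Ω) := ⟨by
    rw [Measure.restrict_apply_univ]; exact hΩb.measure_lt_top⟩
  obtain ⟨V, v, φ, n, w, Hi, hLV, hwm, hw, hnn, hHii, hHae, hHl⟩ := trunc_conv hN hΩm hR hΩ m1 hm1 hcap
  obtain ⟨V1, v1, φ1, n1, h1⟩ := exists_V hN hΩo hR hΩ m1 hm1
  obtain ⟨V2, v2, φ2, n2, h2⟩ := exists_V hN hΩo hR hΩ m2 hm2
  have hVm : Measurable (fun x => V1 x - V2 x) := h1.measV.sub h2.measV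
  have hVi : Integrable (fun x => V1 x - V2 x) := h1.intV.sub h2.intV
  have hex := fun k => exists_trunc' (Ω := Ω) hN0 hΩm hR hΩ hVm k
  choose w' hw'm hw' using hex
  have hw'i : ∀ k, Integrable (w' k) := fun k => weak_integrable hΩm hΩb (hw' k)
  have hbelow : ∀ k, ∀ᵐ x, x ∈ Ω → V1 x - V2 x + w' k x ≤ V x + w k x := fun k =>
    below hN hΩo hR hΩ hLV h1 h2 (hwm k) (hw'm k) (hw k) (hw' k) (hnn k)
  have hanti : ∀ k, ∀ᵐ x, w' (k + 1) x ≤ w' k x := fun k =>
    anti' hN0 hΩo hR hΩ (Nat.le_succ k) (hw' k) (hw' (k + 1))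
  set h : ℕ → EuclideanSpace ℝ (Fin N) → ℝ := fun k => hh Ω k (fun x => V1 x - V2 x) (w' k) with hh'
  have hhi : ∀ k, Integrable (h k) := fun k => hh_integrable hΩm hΩb k hVm (hw'm k)
  -- pointwise limit of h
  set ell : EuclideanSpace ℝ (Fin N) → ℝ := fun x =>
    Ω.indicator (fun _ => (1:ℝ)) x * ((⨅ k, Real.exp (V1 x - V2 x + w' k x)) - 1) with hell
  have hhae : ∀ᵐ x, Tendsto (fun k => h k x) atTop (𝓝 (ell x)) ∧
      Tendsto (fun k => Real.exp (V1 x - V2 x + w' k x)) atTop
        (𝓝 (⨅ k, Real.exp (V1 x - V2 x + w' k x))) := by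
    filter_upwards [ae_all_iff.2 hanti] with x h2
    have hA : Antitone (fun k => V1 x - V2 x + w' k x) := antitone_nat_of_succ_le fun k => by
      have := h2 k
      linarith
    have hA' : Antitone (fun k => Real.exp (V1 x - V2 x + w' k x)) := fun i j hij =>
      Real.exp_le_exp.2 (hA hij)
    have hb : BddBelow (range fun k => Real.exp (V1 x - V2 x + w' k x)) :=
      ⟨0, by rintro y ⟨k, rfl⟩; exact (Real.exp_pos _).le⟩
    have h3 := tendsto_atTop_ciInf hA' hb
    refine ⟨?_, h3⟩
    simp only [hell, hh', hh]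
    refine Tendsto.const_mul _ ?_
    refine (h3.sub_const 1).congr' ?_
    obtain ⟨k0, hk0⟩ := exists_nat_ge (V1 x - V2 x + w' 0 x)
    filter_upwards [eventually_ge_atTop k0] with k hk
    unfold hp'
    rw [min_eq_left]
    have h6 : V1 x - V2 x + w' k x ≤ V1 x - V2 x + w' 0 x := hA (Nat.zero_le k)
    have h7 : (k0:ℝ) ≤ k := by exact_mod_cast hk
    linarith
  -- domination
  set G : ℕ → EuclideanSpace ℝ (Fin N) → ℝ := fun k x =>
    Ω.indicator (fun _ => (1:ℝ)) x + HH Ω k V (w k) x with hG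
  set G' : EuclideanSpace ℝ (Fin N) → ℝ := fun x => Ω.indicator (fun _ => (1:ℝ)) x + Hi x with hG'
  have hOi : Integrable (Ω.indicator (fun _ : EuclideanSpace ℝ (Fin N) => (1:ℝ))) := by
    rw [integrable_indicator_iff hΩm]; exact integrableOn_const hΩb.measure_lt_top.ne
  have hHint : ∀ k, Integrable (HH Ω k V (w k)) := fun k => HH_integrable hΩm hΩb k hLV.measV (hwm k)
  have hGi : ∀ k, Integrable (G k) := fun k => hOi.add (hHint k)
  have hG'i : Integrable G' := hOi.add hHii
  have hle : ∀ k, ∀ᵐ x, |h k x| ≤ G k x := by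
    intro k
    filter_upwards [hbelow k, hnn k] with x hx hx0
    by_cases hxΩ : x ∈ Ω
    · simp only [hG, hh', hh, HH, indicator_of_mem hxΩ, one_mul]
      have h3 := hp'_mono k (hx hxΩ)
      rw [hp'_eq_gp k hx0] at h3
      have h4 := neg_one_le_hp' k (V1 x - V2 x + w' k x)
      have h5 := gp_nonneg k (V x + w k x)
      rw [abs_le]
      constructor <;> linarith
    · simp only [hG, hh', hh, HH, indicator_of_notMem hxΩ, zero_mul, add_zero, abs_zero, le_refl]
  have hellm : AEStronglyMeasurable ell volume :=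
    aestronglyMeasurable_of_tendsto_ae atTop (fun k => (hhi k).aestronglyMeasurable)
      (by filter_upwards [hhae] with x hx; exact hx.1)
  have hgd := gen_dominated hhi hellm hGi hG'i hle (by filter_upwards [hhae] with x hx; exact hx.1)
    (by
      filter_upwards [hHae] with x hx
      exact tendsto_const_nhds.add hx)
    (by
      refine hHl.congr fun k => ?_
      refine integral_congr_ae (Eventually.of_forall fun x => ?_)
      simp only [hG, hG']
      congr 1; ring)
  obtain ⟨helli, hhl⟩ := hgd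
  -- w' converges in L¹
  have hwcauchy : ∀ ε > 0, ∃ n0, ∀ i ≥ n0, ∀ j ≥ n0, ∫ x, |w' i x - w' j x| ≤ ε := by
    intro ε hε
    rw [Metric.tendsto_atTop] at hhl
    obtain ⟨n0, hn0⟩ := hhl (ε / (2 * R ^ 2)) (by positivity)
    refine ⟨n0, fun i hi j hj => ?_⟩
    have h3 := weak_L1 hN0 hΩo hR hΩ ((hw'm i).sub (hw'm j)) ((hw' i).sub (hw' j))
    refine h3.trans ?_
    have h4 := hn0 i hi
    have h5 := hn0 j hj
    rw [Real.dist_eq, sub_zero, abs_of_nonneg (integral_nonneg fun x => abs_nonneg _)] at h4 h5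
    have i1 : Integrable (fun x => |h i x - ell x|) := ((hhi i).sub helli).abs
    have i2 : Integrable (fun x => |h j x - ell x|) := ((hhi j).sub helli).abs
    have h6 : ∫ x in Ω, |-hh Ω i (fun x => V1 x - V2 x) (w' i) x - -hh Ω j (fun x => V1 x - V2 x) (w' j) x| ≤
        (∫ x, |h i x - ell x|) + ∫ x, |h j x - ell x| := by
      rw [← integral_add i1 i2]
      have i3 : Integrable (fun x => |-hh Ω i (fun x => V1 x - V2 x) (w' i) x -
          -hh Ω j (fun x => V1 x - V2 x) (w' j) x|) := ((hhi i).neg.sub (hhi j).neg).abs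
      refine (setIntegral_le_integral i3 (Eventually.of_forall fun x => abs_nonneg _)).trans ?_
      refine integral_mono i3 (i1.add i2) fun x => ?_
      simp only [hh']
      have e : -hh Ω i (fun x => V1 x - V2 x) (w' i) x - -hh Ω j (fun x => V1 x - V2 x) (w' j) x =
        (hh Ω j (fun x => V1 x - V2 x) (w' j) x - ell x) -
          (hh Ω i (fun x => V1 x - V2 x) (w' i) x - ell x) := by ring
      rw [e]
      refine (abs_sub _ _).trans (le_of_eq ?_)
      ring
    have h7 : (∫ x, |h i x - ell x|) + ∫ x, |h j x - ell x| ≤ ε / R ^ 2 := by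
      have : ε / (2 * R ^ 2) + ε / (2 * R ^ 2) = ε / R ^ 2 := by field_simp; norm_num
      linarith
    calc _ ≤ R ^ 2 * (ε / R ^ 2) := by
          refine mul_le_mul_of_nonneg_left (h6.trans h7) (by positivity)
      _ = ε := by field_simp
  obtain ⟨wi, hwim, hwii, hwil⟩ := exists_L1_limit hw'i hwcauchy
  -- the solution
  set u : EuclideanSpace ℝ (Fin N) → ℝ := fun x => V1 x - V2 x + wi x with hu
  have hui : Integrable u := hVi.add hwii
  obtain ⟨ns, hns, hnsae⟩ := exists_subseq_ae hw'i hwii hwil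
  have hexp : ∀ᵐ x, x ∈ Ω → ell x = Real.exp (u x) - 1 := by
    filter_upwards [hhae, hnsae] with x hx1 hx2 hxΩ
    have h3 := hx1.2.comp hns.tendsto_atTop
    have h4 : Tendsto (fun i => Real.exp (V1 x - V2 x + w' (ns i) x)) atTop (𝓝 (Real.exp (u x))) :=
      (Real.continuous_exp.tendsto _).comp (tendsto_const_nhds.add hx2)
    have h5 := tendsto_nhds_unique h3 h4
    simp only [hell, indicator_of_mem hxΩ, one_mul]
    rw [h5]
  refine ⟨u, hui.integrableOn, ?_, fun ζ hζ hζf => ?_⟩
  · refine (helli.integrableOn (s := Ω)).congr ?_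
    rw [EventuallyEq, ae_restrict_iff' hΩm]
    exact hexp
  · have hlc : Continuous (fun x => - Laplacian.laplacian ζ x) :=
      (laplacian_continuous (hζ.of_le (by norm_cast))).neg
    have l1 := tendsto_L1_test hΩm hΩb hw'i hwii hlc hwil
    have l2 := tendsto_L1_test hΩm hΩb hhi helli hζ.continuous hhl
    have e1 : ∀ k, ∫ x in Ω, w' k x * (- Laplacian.laplacian ζ x) = - ∫ x in Ω, h k x * ζ x := by
      intro k
      rw [(hw' k).eq_test hN0 hΩo hR hΩ hζ hζf, ← integral_neg]
      refine integral_congr_ae (Eventually.of_forall fun x => ?_)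
      simp only [hh']; ring
    simp_rw [e1] at l1
    have e2 := tendsto_nhds_unique l1 l2.neg
    have e3 := h1.dist_eq hN0 hΩo hR hΩ hζ hζf
    have e4 := h2.dist_eq hN0 hΩo hR hΩ hζ hζf
    have e5 : ∫ x in Ω, ell x * ζ x = ∫ x in Ω, (Real.exp (u x) - 1) * ζ x := by
      refine setIntegral_congr_ae hΩm ?_
      filter_upwards [hexp] with x hx hxΩ
      rw [hx hxΩ]
    have hcont_int : ∀ f : EuclideanSpace ℝ (Fin N) → ℝ, Integrable f →
        IntegrableOn (fun x => f x * (- Laplacian.laplacian ζ x)) Ω := by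
      intro f hf
      obtain ⟨C, hC⟩ := (Metric.isCompact_of_isClosed_isBounded isClosed_closure
        hΩb.closure).exists_bound_of_continuousOn hlc.continuousOn
      have := Integrable.bdd_mul (c := C) (hf.integrableOn (s := Ω))
        (hlc.aestronglyMeasurable.restrict (s := Ω)) (by
          rw [ae_restrict_iff' hΩm]
          exact Eventually.of_forall fun x hx => hC x (subset_closure hx))
      refine this.congr (Eventually.of_forall fun x => ?_)
      simp only; ring
    have e6 : ∫ x in Ω, u x * (- Laplacian.laplacian ζ x) =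
        (∫ x in Ω, V1 x * (- Laplacian.laplacian ζ x)) - (∫ x in Ω, V2 x * (- Laplacian.laplacian ζ x)) +
        ∫ x in Ω, wi x * (- Laplacian.laplacian ζ x) := by
      have i12 : IntegrableOn (fun x => V1 x * (- Laplacian.laplacian ζ x) -
          V2 x * (- Laplacian.laplacian ζ x)) Ω := (hcont_int V1 h1.intV).sub (hcont_int V2 h2.intV)
      rw [← integral_sub (hcont_int V1 h1.intV) (hcont_int V2 h2.intV),
        ← integral_add i12 (hcont_int wi hwii)]
      refine integral_congr_ae (Eventually.of_forall fun x => ?_)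
      simp only [hu]; ring
    have e7 : -(∫ x in Ω, u x * Laplacian.laplacian ζ x) = ∫ x in Ω, u x * (- Laplacian.laplacian ζ x) := by
      rw [← integral_neg]
      refine integral_congr_ae (Eventually.of_forall fun x => ?_)
      simp only; ring
    rw [e7, e6, e3, e4, e2, e5]
    ring

end

end Pool.Agent.H19.Good
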