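import Pool.Agent.H19.Good.Pot

/-!
Consequences of the comparison principle.
-/

open MeasureTheory Set Filter Topology
open scoped Real ENNReal NNReal ContDiff Laplacian Pointwise

namespace Pool.Agent.H19.Good

noncomputable section

variable {N : ℕ}

variable {Ω : Set (EuclideanSpace ℝ (Fin N))} {ζ η ξ φ ψ u w W : EuclideanSpace ℝ (Fin N) → ℝ}

lemma PH_st : ∃ L, 0 < L ∧ PH Real.smoothTransition L := by
  have hsm : ContDiff ℝ ∞ Real.smoothTransition := Real.smoothTransition.contDiff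
  have hcd : Continuous (deriv Real.smoothTransition) := hsm.continuous_deriv (by simp)
  obtain ⟨C, hC⟩ := (isCompact_Icc (a := (0:ℝ)) (b := 1)).exists_bound_of_continuousOn hcd.continuousOn
  have hC0 : 0 ≤ C := (norm_nonneg _).trans (hC 0 (by simp))
  refine ⟨C + 1, by linarith, hsm, fun t ht => Real.smoothTransition.zero_of_nonpos ht, ?_, ?_⟩
  · intro t
    exact Real.smoothTransition.monotone.deriv_nonneg
  · intro t
    by_cases ht : t ∈ Icc (0:ℝ) 1
    · have := (le_abs_self _).trans (hC t ht)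
      linarith
    · have h0 : deriv Real.smoothTransition t = 0 := by
        rw [mem_Icc, not_and_or, not_le, not_le] at ht
        rcases ht with ht | ht
        · have : Real.smoothTransition =ᶠ[𝓝 t] fun _ => 0 := by
            filter_upwards [Iio_mem_nhds ht] with y hy
            exact Real.smoothTransition.zero_of_nonpos (le_of_lt hy)
          rw [this.deriv_eq]; simp
        · have : Real.smoothTransition =ᶠ[𝓝 t] fun _ => 1 := by
            filter_upwards [Ioi_mem_nhds ht] with y hy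
            exact Real.smoothTransition.one_of_one_le (le_of_lt hy)
          rw [this.deriv_eq]; simp
      rw [h0]; linarith

lemma PH.scale {p : ℝ → ℝ} {L : ℝ} (h : PH p L) {δ : ℝ} (hδ : 0 < δ) :
    PH (fun t => p (t / δ)) (L / δ) := by
  have hd : ∀ t, deriv (fun t => p (t / δ)) t = deriv p (t / δ) / δ := fun t => by
    have h1 : HasDerivAt (fun t => p (t / δ)) (deriv p (t / δ) * (1 / δ)) t :=
      (h.diff (t / δ)).hasDerivAt.comp t ((hasDerivAt_id t).div_const δ)
    rw [h1.deriv]; ring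
  refine ⟨h.smooth.comp (contDiff_id.div_const δ), fun t ht => h.zero _ ?_, ?_, ?_⟩
  · exact div_nonpos_of_nonpos_of_nonneg ht hδ.le
  · intro t; rw [hd]; exact div_nonneg (h.dnn _) hδ.le
  · intro t; rw [hd]; exact div_le_div_of_nonneg_right (h.dle _) hδ.le

/-- pointwise comparison -/
theorem comp_le (hN : 0 < N) (hΩo : IsOpen Ω) {R : ℝ} (hR : 0 < R) (hΩ : Ω ⊆ Metric.ball 0 R)
    (hu : Weak Ω φ u) (hW : ContDiff ℝ ∞ W) (hWf : ∀ x ∈ frontier Ω, 0 ≤ W x)
    (h : ∀ᵐ x, x ∈ Ω → W x < u x → φ x + Laplacian.laplacian W x ≤ 0) :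
    ∀ᵐ x, x ∈ Ω → u x ≤ W x := by
  obtain ⟨L, hL, hp⟩ := PH_st
  have hΩb : Bornology.IsBounded Ω := Metric.isBounded_ball.subset hΩ
  have h1 := comp hN hΩo hR hΩ hu hW hWf hp
  have h2 : ∫ x, (φ x + Ω.indicator (Laplacian.laplacian W) x) *
        Ω.indicator (fun x => Real.smoothTransition (u x - W x)) x ≤ 0 := by
    refine integral_nonpos_of_ae ?_
    filter_upwards [h] with x hx
    simp only [Pi.zero_apply]
    by_cases hxΩ : x ∈ Ω
    · rw [indicator_of_mem hxΩ, indicator_of_mem hxΩ]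
      rcases lt_or_ge (W x) (u x) with h3 | h3
      · exact mul_nonpos_of_nonpos_of_nonneg (hx hxΩ h3) (Real.smoothTransition.nonneg _)
      · rw [Real.smoothTransition.zero_of_nonpos (by linarith), mul_zero]
    · rw [indicator_of_notMem hxΩ (fun x => Real.smoothTransition (u x - W x)), mul_zero]
  have h4 : ∫ x, (Ω.indicator (fun x => Real.smoothTransition (u x - W x)) x) ^ 2 ≤ 0 :=
    h1.trans (mul_nonpos_of_nonneg_of_nonpos (by positivity) h2)
  have h5 : ∫ x, (Ω.indicator (fun x => Real.smoothTransition (u x - W x)) x) ^ 2 = 0 :=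
    le_antisymm h4 (integral_nonneg fun x => sq_nonneg _)
  have h6 := (integral_eq_zero_iff_of_nonneg (fun x => sq_nonneg _)
    (hp.ind_memLp hu.memu hW.continuous hΩo.measurableSet hΩb).integrable_sq).1 h5
  filter_upwards [h6] with x hx hxΩ
  have h7 : (Ω.indicator (fun x => Real.smoothTransition (u x - W x)) x) ^ 2 = 0 := hx
  rw [indicator_of_mem hxΩ] at h7
  have h8 := pow_eq_zero_iff (two_ne_zero) |>.1 h7
  rw [Real.smoothTransition.zero_iff_nonpos] at h8
  linarith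

lemma weak_nonpos (hN : 0 < N) (hΩo : IsOpen Ω) {R : ℝ} (hR : 0 < R) (hΩ : Ω ⊆ Metric.ball 0 R)
    (hu : Weak Ω φ u) (h : ∀ᵐ x, x ∈ Ω → 0 < u x → φ x ≤ 0) : ∀ᵐ x, u x ≤ 0 := by
  have hlap : ∀ x : EuclideanSpace ℝ (Fin N),
      Laplacian.laplacian (fun _ : EuclideanSpace ℝ (Fin N) => (0:ℝ)) x = 0 := by
    intro x
    have e : ∀ i : Fin N, pd i (fun _ : EuclideanSpace ℝ (Fin N) => (0:ℝ)) = fun _ => 0 := by
      intro i; ext y; simp [pd]
    rw [laplacian_eq_sum contDiff_const]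
    simp_rw [e]
    simp
  have h1 := comp_le hN hΩo hR hΩ hu (W := fun _ => 0) contDiff_const (fun _ _ => le_rfl) (by
    filter_upwards [h] with x hx hxΩ hx0
    rw [hlap, add_zero]
    exact hx hxΩ hx0)
  filter_upwards [h1, hu.ae_zero hΩo.measurableSet] with x hx hx'
  by_cases hxΩ : x ∈ Ω
  · exact hx hxΩ
  · exact (hx' hxΩ).le

lemma weak_nonneg (hN : 0 < N) (hΩo : IsOpen Ω) {R : ℝ} (hR : 0 < R) (hΩ : Ω ⊆ Metric.ball 0 R)
    (hu : Weak Ω φ u) (h : ∀ᵐ x, x ∈ Ω → u x < 0 → 0 ≤ φ x) : ∀ᵐ x, 0 ≤ u x := by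
  have h1 := hu.comb hu (-1) 0
  have h2 := weak_nonpos hN hΩo hR hΩ h1 (by
    filter_upwards [h] with x hx hxΩ hx0
    have := hx hxΩ (by linarith)
    linarith)
  filter_upwards [h2] with x hx
  linarith

/-- existence for bounded right-hand side -/
lemma exists_G (hN : 0 < N) {R : ℝ} (hR : 0 < R) (hΩ : Ω ⊆ Metric.ball 0 R)
    (hφm : Measurable φ) {C : ℝ} (hC : ∀ x, |φ x| ≤ C)
    (hφs : ∀ x, x ∉ Metric.ball (0 : EuclideanSpace ℝ (Fin N)) R → φ x = 0) :
    ∃ u, Measurable u ∧ Weak Ω φ u := by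
  have hγ : GHyp R C 0 (fun (x : EuclideanSpace ℝ (Fin N)) (_ : ℝ) => - φ x) := by
    refine ⟨?_, ?_, ?_, ?_, ?_⟩
    · exact (hφm.comp measurable_fst).neg
    · intro x t; rw [abs_neg]; exact hC x
    · intro x s t _; exact le_rfl
    · intro x s t; simp
    · intro x hx t; rw [hφs x hx, neg_zero]
  obtain ⟨u, hu, hw⟩ := exists_weak hN hR hΩ hγ
  refine ⟨u, hu, ?_⟩
  simpa using hw

lemma pd_norm_sq (i : Fin N) (x : EuclideanSpace ℝ (Fin N)) :
    pd i (fun x : EuclideanSpace ℝ (Fin N) => ‖x‖ ^ 2) x = 2 * x i := by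
  have h0 : HasFDerivAt (fun x : EuclideanSpace ℝ (Fin N) => ‖x‖ ^ 2) (2 • (innerSL ℝ x)) x :=
    (hasStrictFDerivAt_norm_sq x).hasFDerivAt (𝕜 := ℝ)
  unfold pd
  rw [h0.fderiv]
  simp only [_root_.smul_apply, innerSL_apply_apply, nsmul_eq_mul]
  rw [real_inner_comm, bv_apply_inner]
  simp

/-- the barrier `C (R² - ‖x‖²)/(2N)` -/
def barr (N : ℕ) (R C : ℝ) (x : EuclideanSpace ℝ (Fin N)) : ℝ := C / (2 * N) * (R ^ 2 - ‖x‖ ^ 2)

lemma barr_contDiff (R C : ℝ) : ContDiff ℝ ∞ (barr N R C) :=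
  contDiff_const.mul (contDiff_const.sub (contDiff_norm_sq ℝ))

lemma laplacian_barr (hN : 0 < N) (R C : ℝ) (x : EuclideanSpace ℝ (Fin N)) :
    Laplacian.laplacian (barr N R C) x = - C := by
  rw [laplacian_eq_sum ((barr_contDiff R C).of_le (by norm_cast))]
  have e1 : ∀ i : Fin N, pd i (barr N R C) = fun x => (-(C / N)) * x i := by
    intro i
    ext y
    have e2 : barr N R C = fun y => (C / (2 * N) * R ^ 2) * 1 + (-(C / (2 * N))) * ‖y‖ ^ 2 := by
      ext y; unfold barr; ring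
    rw [e2, pd_comb (ζ := fun _ => (1:ℝ)) (η := fun y => ‖y‖ ^ 2) (differentiable_const 1)
      ((contDiff_norm_sq ℝ (n := 1)).differentiable (by simp)), pd_norm_sq]
    have e3 : pd i (fun _ : EuclideanSpace ℝ (Fin N) => (1:ℝ)) y = 0 := by simp [pd]
    rw [e3]
    ring
  have e4 : ∀ i : Fin N, pd i (pd i (barr N R C)) x = -(C / N) := by
    intro i
    rw [e1, pd_const_mul (f := fun x : EuclideanSpace ℝ (Fin N) => x i)
      (EuclideanSpace.proj i : EuclideanSpace ℝ (Fin N) →L[ℝ] ℝ).differentiable, pd_coord]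
    ring
  simp_rw [e4]
  have : (N : ℝ) ≠ 0 := by positivity
  simp only [Finset.sum_const, Finset.card_univ, Fintype.card_fin, nsmul_eq_mul]
  field_simp

lemma frontier_norm_le {R : ℝ} (hΩ : Ω ⊆ Metric.ball 0 R) {x : EuclideanSpace ℝ (Fin N)}
    (hx : x ∈ frontier Ω) : ‖x‖ ≤ R := by
  have h1 : x ∈ closure Ω := frontier_subset_closure hx
  have h2 : closure Ω ⊆ Metric.closedBall 0 R := closure_minimal (hΩ.trans Metric.ball_subset_closedBall)
    Metric.isClosed_closedBall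
  simpa using h2 h1

lemma weak_le_sup (hN : 0 < N) (hΩo : IsOpen Ω) {R : ℝ} (hR : 0 < R) (hΩ : Ω ⊆ Metric.ball 0 R)
    (hu : Weak Ω φ u) {C : ℝ} (hC0 : 0 ≤ C) (h : ∀ᵐ x, x ∈ Ω → φ x ≤ C) :
    ∀ᵐ x, u x ≤ C * R ^ 2 := by
  have h1 := comp_le hN hΩo hR hΩ hu (W := barr N R C) (barr_contDiff R C) (fun x hx => ?_) (by
    filter_upwards [h] with x hx hxΩ _
    rw [laplacian_barr hN]
    linarith [hx hxΩ])
  · have hN1 : (1:ℝ) ≤ N := by exact_mod_cast hN
    filter_upwards [h1, hu.ae_zero hΩo.measurableSet] with x hx hx'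
    by_cases hxΩ : x ∈ Ω
    · refine (hx hxΩ).trans ?_
      unfold barr
      have h2 : C / (2 * N) ≤ C := by
        rw [div_le_iff₀ (by positivity)]
        nlinarith
      have h3 : ‖x‖ < R := by simpa using hΩ hxΩ
      have h4 : 0 ≤ R ^ 2 - ‖x‖ ^ 2 := by nlinarith [norm_nonneg x]
      have h5 : R ^ 2 - ‖x‖ ^ 2 ≤ R ^ 2 := by nlinarith [norm_nonneg x]
      calc C / (2 * N) * (R ^ 2 - ‖x‖ ^ 2) ≤ C * (R ^ 2 - ‖x‖ ^ 2) := by gcongr
        _ ≤ C * R ^ 2 := by gcongr
    · rw [hx' hxΩ]; positivity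
  · have h2 := frontier_norm_le hΩ hx
    unfold barr
    have h3 : 0 ≤ R ^ 2 - ‖x‖ ^ 2 := by nlinarith [norm_nonneg x]
    positivity

lemma weak_abs_sup (hN : 0 < N) (hΩo : IsOpen Ω) {R : ℝ} (hR : 0 < R) (hΩ : Ω ⊆ Metric.ball 0 R)
    (hu : Weak Ω φ u) {C : ℝ} (hC0 : 0 ≤ C) (h : ∀ᵐ x, x ∈ Ω → |φ x| ≤ C) :
    ∀ᵐ x, |u x| ≤ C * R ^ 2 := by
  have h1 := weak_le_sup hN hΩo hR hΩ hu hC0 (by
    filter_upwards [h] with x hx hxΩ
    exact (le_abs_self _).trans (hx hxΩ))
  have h2 := weak_le_sup hN hΩo hR hΩ (hu.comb hu (-1) 0) hC0 (by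
    filter_upwards [h] with x hx hxΩ
    have := (neg_abs_le (φ x))
    have := hx hxΩ
    linarith)
  filter_upwards [h1, h2] with x hx hx'
  rw [abs_le]
  constructor <;> linarith

/-- `L¹` bound -/
lemma weak_L1 (hN : 0 < N) (hΩo : IsOpen Ω) {R : ℝ} (hR : 0 < R) (hΩ : Ω ⊆ Metric.ball 0 R)
    (hum : Measurable u) (hu : Weak Ω φ u) : ∫ x, |u x| ≤ R ^ 2 * ∫ x in Ω, |φ x| := by
  have hΩm := hΩo.measurableSet
  have hΩb : Bornology.IsBounded Ω := Metric.isBounded_ball.subset hΩ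
  set ψ : EuclideanSpace ℝ (Fin N) → ℝ := (Metric.ball (0 : EuclideanSpace ℝ (Fin N)) R).indicator
    (fun x => if 0 ≤ u x then 1 else -1) with hψ
  have hψm : Measurable ψ := by
    refine Measurable.indicator ?_ measurableSet_ball
    exact Measurable.ite (measurableSet_le measurable_const hum) measurable_const measurable_const
  have hψb : ∀ x, |ψ x| ≤ 1 := by
    intro x
    by_cases hx : x ∈ Metric.ball (0 : EuclideanSpace ℝ (Fin N)) R
    · rw [hψ, indicator_of_mem hx]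
      split_ifs <;> simp
    · rw [hψ, indicator_of_notMem hx]; simp
  obtain ⟨w, hwm, hw⟩ := exists_G hN hR hΩ hψm hψb (fun x hx => by rw [hψ, indicator_of_notMem hx])
  have h1 := hu.symm hw
  have h2 : ∫ x, u x * ψ x = ∫ x, |u x| := by
    refine integral_congr_ae ?_
    filter_upwards [hu.ae_zero hΩm] with x hx
    by_cases hxΩ : x ∈ Ω
    · have hxb := hΩ hxΩ
      rw [hψ, indicator_of_mem hxb]
      split_ifs with h
      · rw [abs_of_nonneg h, mul_one]
      · rw [abs_of_neg (not_le.1 h)]; ring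
    · rw [hx hxΩ]; simp
  have hwb := weak_abs_sup hN hΩo hR hΩ hw zero_le_one (Eventually.of_forall fun x _ => hψb x)
  rw [← h2, h1, ← integral_const_mul]
  have hint : IntegrableOn (fun x => |φ x|) Ω := by
    have : IsFiniteMeasure (volume.restrict Ω) := ⟨by
      rw [Measure.restrict_apply_univ]; exact hΩb.measure_lt_top⟩
    exact ((hu.memf.restrict Ω).integrable (by norm_num)).abs
  have e : ∫ x in Ω, R ^ 2 * |φ x| = ∫ x, Ω.indicator (fun x => R ^ 2 * |φ x|) x :=
    (integral_indicator hΩm).symm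
  rw [e]
  refine integral_mono_ae (mul_integrable hu.memf hw.memu)
    ((integrable_indicator_iff hΩm).2 (hint.const_mul _)) ?_
  filter_upwards [hwb, hw.ae_zero hΩm] with x hx hx'
  by_cases hxΩ : x ∈ Ω
  · rw [indicator_of_mem hxΩ]
    calc φ x * w x ≤ |φ x * w x| := le_abs_self _
      _ = |φ x| * |w x| := abs_mul _ _
      _ ≤ |φ x| * (1 * R ^ 2) := by gcongr
      _ = R ^ 2 * |φ x| := by ring
  · rw [indicator_of_notMem hxΩ, hx' hxΩ, mul_zero]

lemma laplacian_comb_neg (hζ : ContDiff ℝ ∞ ζ) (x : EuclideanSpace ℝ (Fin N)) :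
    Laplacian.laplacian (fun x => - ζ x) x = - Laplacian.laplacian ζ x := by
  have h2 : ContDiff ℝ 2 ζ := hζ.of_le (by norm_cast)
  rw [laplacian_eq_sum h2, laplacian_eq_sum h2.neg, ← Finset.sum_neg_distrib]
  refine Finset.sum_congr rfl fun i _ => ?_
  have e1 : pd i (fun x => - ζ x) = fun x => - pd i ζ x := by
    ext y; unfold pd; rw [fderiv_fun_neg]; rfl
  rw [e1]
  unfold pd
  rw [fderiv_fun_neg]
  rfl

/-- smooth functions vanishing on the boundary are weak solutions -/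
lemma weak_test (hN : 0 < N) (hΩo : IsOpen Ω) {R : ℝ} (hR : 0 < R) (hΩ : Ω ⊆ Metric.ball 0 R)
    (hζ : ContDiff ℝ ∞ ζ) (hζf : ∀ x ∈ frontier Ω, ζ x = 0) :
    Weak Ω (Ω.indicator (fun x => - Laplacian.laplacian ζ x)) (Ω.indicator ζ) := by
  have hΩm := hΩo.measurableSet
  have hΩb : Bornology.IsBounded Ω := Metric.isBounded_ball.subset hΩ
  have hcl : Continuous (fun x => - Laplacian.laplacian ζ x) :=
    (laplacian_continuous (hζ.of_le (by norm_cast))).neg
  obtain ⟨C, hC⟩ := (Metric.isCompact_of_isClosed_isBounded isClosed_closure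
    hΩb.closure).exists_bound_of_continuousOn hcl.continuousOn
  set φ := Ω.indicator (fun x => - Laplacian.laplacian ζ x) with hφ
  have hb : ∀ x, |φ x| ≤ |C| := by
    intro x
    by_cases hx : x ∈ Ω
    · rw [hφ, indicator_of_mem hx]; exact (hC x (subset_closure hx)).trans (le_abs_self _)
    · rw [hφ, indicator_of_notMem hx]; simp
  obtain ⟨w, hwm, hw⟩ := exists_G hN hR hΩ (hcl.measurable.indicator hΩm) hb (fun x hx => by
    rw [indicator_of_notMem (fun h => hx (hΩ h))])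
  have h1 := comp_le hN hΩo hR hΩ hw hζ (fun x hx => (hζf x hx).ge) (by
    refine Eventually.of_forall fun x hx _ => ?_
    rw [indicator_of_mem hx]; simp)
  have h2 := comp_le hN hΩo hR hΩ (hw.comb hw (-1) 0) (W := fun x => - ζ x) hζ.neg
    (fun x hx => by rw [hζf x hx]; simp) (by
      refine Eventually.of_forall fun x hx _ => ?_
      rw [laplacian_comb_neg hζ, indicator_of_mem hx]; simp)
  refine hw.congr (ae_eq_refl _) ?_
  filter_upwards [h1, h2, hw.ae_zero hΩm] with x hx1 hx2 hx3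
  by_cases hx : x ∈ Ω
  · rw [indicator_of_mem hx]
    have := hx1 hx
    have := hx2 hx
    linarith
  · rw [indicator_of_notMem hx, hx3 hx]

/-- the weak solution satisfies the equation tested with all smooth functions vanishing on `∂Ω` -/
lemma Weak.eq_test (hN : 0 < N) (hΩo : IsOpen Ω) {R : ℝ} (hR : 0 < R) (hΩ : Ω ⊆ Metric.ball 0 R)
    (hu : Weak Ω φ u) (hζ : ContDiff ℝ ∞ ζ) (hζf : ∀ x ∈ frontier Ω, ζ x = 0) :
    ∫ x in Ω, u x * (- Laplacian.laplacian ζ x) = ∫ x in Ω, φ x * ζ x := by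
  have hΩm := hΩo.measurableSet
  have h := hu.symm (weak_test hN hΩo hR hΩ hζ hζf)
  rw [← integral_indicator hΩm, ← integral_indicator hΩm]
  convert h using 1
  · refine integral_congr_ae (Eventually.of_forall fun x => ?_)
    by_cases hx : x ∈ Ω
    · simp [indicator_of_mem hx]
    · simp [indicator_of_notMem hx]
  · refine integral_congr_ae (Eventually.of_forall fun x => ?_)
    by_cases hx : x ∈ Ω
    · simp [indicator_of_mem hx]
    · simp [indicator_of_notMem hx]

end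

end Pool.Agent.H19.Good
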