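import Pool.Agent.H19.Good.Conv

/-!
The Newtonian kernel `Φ(x) = κ / ‖x‖^(N-2)` and the fundamental solution identity.
-/

open MeasureTheory Set Filter Topology
open scoped Real ENNReal NNReal ContDiff Laplacian Pointwise

namespace Pool.Agent.H19.Good

noncomputable section

variable {N : ℕ}

/-- volume of the unit ball -/
def om (N : ℕ) : ℝ := (volume (Metric.ball (0 : EuclideanSpace ℝ (Fin N)) 1)).toReal

/-- `κ = 1/(N (N-2) ω_N)` -/
def kap (N : ℕ) : ℝ := 1 / (N * (N - 2) * (volume (Metric.ball (0 : EuclideanSpace ℝ (Fin N)) 1)).toReal)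

/-- the Newtonian kernel -/
def Phi (x : EuclideanSpace ℝ (Fin N)) : ℝ := kap N / ‖x‖ ^ (N - 2)

lemma om_pos : 0 < om N := by
  unfold om
  refine ENNReal.toReal_pos ?_ measure_ball_lt_top.ne
  exact (Metric.measure_ball_pos volume _ one_pos).ne'

lemma kap_pos (hN : 3 ≤ N) : 0 < kap N := by
  unfold kap
  have h := om_pos (N := N)
  unfold om at h
  have h3 : (3 : ℝ) ≤ N := by exact_mod_cast hN
  have : (0 : ℝ) < N * (N - 2) := by nlinarith
  positivity

lemma kap_mul (hN : 3 ≤ N) : kap N * (N * (N - 2)) = 1 / om N := by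
  have h := om_pos (N := N)
  have h' : kap N = 1 / (N * (N - 2) * om N) := rfl
  have h3 : (3 : ℝ) ≤ N := by exact_mod_cast hN
  have h4 : (N : ℝ) - 2 ≠ 0 := by linarith
  have h5 : (N : ℝ) ≠ 0 := by linarith
  rw [h']
  field_simp

lemma Phi_nonneg (hN : 3 ≤ N) (x : EuclideanSpace ℝ (Fin N)) : 0 ≤ Phi x :=
  div_nonneg (kap_pos hN).le (by positivity)

lemma Phi_neg (x : EuclideanSpace ℝ (Fin N)) : Phi (-x) = Phi x := by simp [Phi]

lemma Phi_sub_comm (x y : EuclideanSpace ℝ (Fin N)) : Phi (x - y) = Phi (y - x) := by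
  rw [← neg_sub, Phi_neg]

@[fun_prop]
lemma Phi_measurable : Measurable (Phi : EuclideanSpace ℝ (Fin N) → ℝ) := by
  unfold Phi; fun_prop

lemma Phi_le_of_le (hN : 3 ≤ N) {r : ℝ} (hr : 0 < r) {x : EuclideanSpace ℝ (Fin N)} (hx : r ≤ ‖x‖) :
    Phi x ≤ kap N / r ^ (N - 2) := by
  unfold Phi
  have := kap_pos hN
  gcongr

lemma Phi_continuousAt {x : EuclideanSpace ℝ (Fin N)} (hx : x ≠ 0) : ContinuousAt Phi x := by
  unfold Phi
  refine ContinuousAt.div continuousAt_const (by fun_prop) ?_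
  have : ‖x‖ ≠ 0 := norm_ne_zero_iff.2 hx
  positivity

lemma nontrivial_E (hN : 3 ≤ N) : Nontrivial (EuclideanSpace ℝ (Fin N)) := by
  have : Nonempty (Fin N) := ⟨⟨0, by omega⟩⟩
  infer_instance

lemma Phi_integrableOn_ball (hN : 3 ≤ N) (R : ℝ) :
    IntegrableOn (Phi : EuclideanSpace ℝ (Fin N) → ℝ) (Metric.ball 0 R) := by
  have := nontrivial_E hN
  have h := (integrableOn_fun_norm_addHaar (volume : Measure (EuclideanSpace ℝ (Fin N)))
    (f := fun r : ℝ => kap N / r ^ (N - 2)) (r := R)).2 ?_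
  · exact h
  · simp only [finrank_euclideanSpace, Fintype.card_fin, smul_eq_mul]
    have h1 : IntegrableOn (fun y : ℝ => kap N * y) (Ioo 0 R) := by
      have : IntegrableOn (fun y : ℝ => kap N * y) (Icc 0 R) :=
        (Continuous.continuousOn (by fun_prop)).integrableOn_compact isCompact_Icc
      exact this.mono_set Ioo_subset_Icc_self
    refine h1.congr_fun (fun y hy => ?_) measurableSet_Ioo
    have hy0 : (0 : ℝ) < y := hy.1
    have e : N - 1 = (N - 2) + 1 := by omega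
    simp only
    rw [e, pow_succ]
    field_simp

lemma Phi_locallyIntegrable (hN : 3 ≤ N) :
    LocallyIntegrable (Phi : EuclideanSpace ℝ (Fin N) → ℝ) := by
  intro x
  refine ⟨Metric.ball 0 (‖x‖ + 1), ?_, Phi_integrableOn_ball hN _⟩
  exact Metric.isOpen_ball.mem_nhds (by simp)

/-! ### the regularised kernel -/

/-- `1/√(‖x‖² + ε²)` -/
def Ri (ε : ℝ) (x : EuclideanSpace ℝ (Fin N)) : ℝ := (√(‖x‖ ^ 2 + ε ^ 2))⁻¹

lemma Ri_pos {ε : ℝ} (hε : 0 < ε) (x : EuclideanSpace ℝ (Fin N)) : 0 < Ri ε x := by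
  unfold Ri; positivity

lemma Ri_sq {ε : ℝ} (hε : 0 < ε) (x : EuclideanSpace ℝ (Fin N)) :
    Ri ε x ^ 2 * (‖x‖ ^ 2 + ε ^ 2) = 1 := by
  unfold Ri
  have h : 0 < ‖x‖ ^ 2 + ε ^ 2 := by positivity
  rw [inv_pow, Real.sq_sqrt h.le]
  field_simp

lemma Ri_contDiff {ε : ℝ} (hε : 0 < ε) : ContDiff ℝ ∞ (Ri ε : EuclideanSpace ℝ (Fin N) → ℝ) := by
  unfold Ri
  refine ContDiff.inv ?_ (fun x => by positivity)
  refine ContDiff.sqrt ?_ (fun x => by positivity)
  exact (contDiff_norm_sq ℝ).add contDiff_const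

lemma pd_Ri_pow {ε : ℝ} (hε : 0 < ε) (n : ℕ) (i : Fin N) (x : EuclideanSpace ℝ (Fin N)) :
    pd i (fun x => Ri ε x ^ n) x = - (n : ℝ) * (x i * Ri ε x ^ (n + 2)) := by
  have hpos : 0 < ‖x‖ ^ 2 + ε ^ 2 := by positivity
  have h0 : HasFDerivAt (fun x : EuclideanSpace ℝ (Fin N) => ‖x‖ ^ 2 + ε ^ 2)
      (2 • (innerSL ℝ x)) x := by
    have := (hasStrictFDerivAt_norm_sq x).hasFDerivAt (𝕜 := ℝ)
    exact this.add_const _
  have h1 : HasDerivAt (fun t : ℝ => ((√t)⁻¹) ^ n)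
      (-(n : ℝ) / 2 * ((√(‖x‖ ^ 2 + ε ^ 2))⁻¹) ^ (n + 2)) (‖x‖ ^ 2 + ε ^ 2) := by
    have hs : HasDerivAt (fun t : ℝ => √t) (1 / (2 * √(‖x‖ ^ 2 + ε ^ 2))) (‖x‖ ^ 2 + ε ^ 2) :=
      Real.hasDerivAt_sqrt hpos.ne'
    have hsp : 0 < √(‖x‖ ^ 2 + ε ^ 2) := Real.sqrt_pos.2 hpos
    have h2 : HasDerivAt (fun t : ℝ => ((√t)⁻¹) ^ n) _ (‖x‖ ^ 2 + ε ^ 2) := (hs.inv hsp.ne').pow n
    refine h2.congr_deriv ?_
    simp only [Pi.inv_apply]
    rcases n with _ | n
    · simp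
    · simp only [Nat.add_sub_cancel, Nat.cast_add, Nat.cast_one, inv_pow]
      field_simp
      ring
  have h2 := h1.comp_hasFDerivAt x h0
  have h3 : (fun x : EuclideanSpace ℝ (Fin N) => Ri ε x ^ n) =
      (fun t : ℝ => ((√t)⁻¹) ^ n) ∘ (fun x : EuclideanSpace ℝ (Fin N) => ‖x‖ ^ 2 + ε ^ 2) := rfl
  unfold pd
  rw [h3, h2.fderiv]
  simp only [_root_.smul_apply, innerSL_apply_apply, smul_eq_mul, nsmul_eq_mul]
  rw [real_inner_comm, bv_apply_inner]
  unfold Ri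
  push_cast
  ring

lemma pd_coord (i : Fin N) (x : EuclideanSpace ℝ (Fin N)) : pd i (fun x => x i) x = 1 := by
  unfold pd
  have h : HasFDerivAt (fun x : EuclideanSpace ℝ (Fin N) => x i)
      (EuclideanSpace.proj i : EuclideanSpace ℝ (Fin N) →L[ℝ] ℝ) x :=
    (EuclideanSpace.proj i : EuclideanSpace ℝ (Fin N) →L[ℝ] ℝ).hasFDerivAt
  rw [h.fderiv]
  simp [bv]

lemma pd_mul {f g : EuclideanSpace ℝ (Fin N) → ℝ} (hf : Differentiable ℝ f) (hg : Differentiable ℝ g)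
    (i : Fin N) (x : EuclideanSpace ℝ (Fin N)) :
    pd i (fun x => f x * g x) x = f x * pd i g x + pd i f x * g x := by
  unfold pd
  rw [fderiv_fun_mul (hf x) (hg x)]
  simp [mul_comm]

lemma pd_const_mul {f : EuclideanSpace ℝ (Fin N) → ℝ} (hf : Differentiable ℝ f) (c : ℝ)
    (i : Fin N) (x : EuclideanSpace ℝ (Fin N)) :
    pd i (fun x => c * f x) x = c * pd i f x := by
  unfold pd
  rw [fderiv_const_mul (hf x)]
  simp

lemma laplacian_Phie (hN : 3 ≤ N) {ε : ℝ} (hε : 0 < ε) (x : EuclideanSpace ℝ (Fin N)) :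
    Laplacian.laplacian (fun x => kap N * Ri ε x ^ (N - 2)) x =
      - (ε ^ 2 * Ri ε x ^ (N + 2) / om N) := by
  have hR := Ri_contDiff (N := N) hε
  have hd : ∀ n : ℕ, Differentiable ℝ (fun x : EuclideanSpace ℝ (Fin N) => Ri ε x ^ n) := fun n =>
    (hR.pow n).differentiable (by simp)
  have h2 : ContDiff ℝ 2 (fun x : EuclideanSpace ℝ (Fin N) => kap N * Ri ε x ^ (N - 2)) :=
    (contDiff_const.mul (hR.pow _)).of_le (by norm_cast)
  have hcoord : ∀ i : Fin N, Differentiable ℝ (fun x : EuclideanSpace ℝ (Fin N) => x i) := fun i =>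
    (EuclideanSpace.proj i : EuclideanSpace ℝ (Fin N) →L[ℝ] ℝ).differentiable
  rw [laplacian_eq_sum h2]
  have hN2 : N - 2 + 2 = N := by omega
  have hc2 : ((N - 2 : ℕ) : ℝ) = (N : ℝ) - 2 := by
    rw [Nat.cast_sub (by omega)]; norm_num
  have e1 : ∀ i : Fin N, pd i (fun x : EuclideanSpace ℝ (Fin N) => kap N * Ri ε x ^ (N - 2)) =
      fun x => (-(kap N * (N - 2))) * (x i * Ri ε x ^ N) := by
    intro i
    ext y
    rw [pd_const_mul (hd _), pd_Ri_pow hε, hN2, hc2]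
    ring
  have e2 : ∀ i : Fin N, pd i (pd i (fun x : EuclideanSpace ℝ (Fin N) => kap N * Ri ε x ^ (N - 2))) x =
      (-(kap N * (N - 2))) * (Ri ε x ^ N - N * (x i) ^ 2 * Ri ε x ^ (N + 2)) := by
    intro i
    rw [e1, pd_const_mul (f := fun x => x i * Ri ε x ^ N) ((hcoord i).mul (hd N)), pd_mul (hcoord i) (hd N), pd_Ri_pow hε, pd_coord]
    ring
  simp_rw [e2]
  rw [← Finset.mul_sum, Finset.sum_sub_distrib]
  simp_rw [mul_assoc, ← Finset.mul_sum, ← Finset.sum_mul]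
  rw [sum_sq_coord]
  simp only [Finset.sum_const, Finset.card_univ, Fintype.card_fin, nsmul_eq_mul]
  have h3 := Ri_sq hε x
  have h4 := kap_mul hN
  have h5 : Ri ε x ^ (N + 2) = Ri ε x ^ N * Ri ε x ^ 2 := pow_add _ _ _
  have h6 : Ri ε x ^ N = Ri ε x ^ N * (Ri ε x ^ 2 * (‖x‖ ^ 2 + ε ^ 2)) := by rw [h3, mul_one]
  have h7 : (N : ℝ) * Ri ε x ^ N - N * (‖x‖ ^ 2 * Ri ε x ^ (N + 2)) =
      N * ε ^ 2 * Ri ε x ^ (N + 2) := by
    rw [h5]
    linear_combination N * h6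
  rw [h7]
  have h8 : ε ^ 2 * Ri ε x ^ (N + 2) / om N = ε ^ 2 * Ri ε x ^ (N + 2) * (1 / om N) := by ring
  rw [h8, ← h4]
  ring

lemma tendsto_aux : Tendsto (fun r : ℝ => r * (√(r ^ 2 + 1))⁻¹) atTop (𝓝 1) := by
  have h1 : Tendsto (fun r : ℝ => (√(1 + (r⁻¹) ^ 2))⁻¹) atTop (𝓝 1) := by
    have h2 : Tendsto (fun r : ℝ => r⁻¹) atTop (𝓝 0) := tendsto_inv_atTop_zero
    have h3 : Continuous (fun t : ℝ => (√(1 + t ^ 2))⁻¹) := by
      refine Continuous.inv₀ (by fun_prop) (fun t => by positivity)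
    have h4 := (h3.tendsto 0).comp h2
    simpa [Function.comp_def] using h4
  refine h1.congr' ?_
  filter_upwards [eventually_gt_atTop 0] with r hr
  have h5 : r ^ 2 + 1 = r ^ 2 * (1 + (r⁻¹) ^ 2) := by field_simp
  rw [h5, Real.sqrt_mul (by positivity), Real.sqrt_sq hr.le]
  field_simp

lemma integral_radial (hN : 3 ≤ N) :
    ∫ y in Ioi (0 : ℝ), y ^ (N - 1) * ((√(y ^ 2 + 1))⁻¹) ^ (N + 2) = 1 / N := by
  have hN0 : (N : ℝ) ≠ 0 := by positivity
  have hder : ∀ x ∈ Ici (0 : ℝ), HasDerivAt (fun r : ℝ => (r * (√(r ^ 2 + 1))⁻¹) ^ N / N)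
      (x ^ (N - 1) * ((√(x ^ 2 + 1))⁻¹) ^ (N + 2)) x := by
    intro x _
    have hpos : 0 < x ^ 2 + 1 := by positivity
    have hsp : 0 < √(x ^ 2 + 1) := Real.sqrt_pos.2 hpos
    have h1 : HasDerivAt (fun r : ℝ => √(r ^ 2 + 1)) (1 / (2 * √(x ^ 2 + 1)) * (2 * x)) x := by
      have h2 : HasDerivAt (fun r : ℝ => r ^ 2 + 1) (2 * x) x := by
        simpa using (hasDerivAt_pow 2 x).add_const (1 : ℝ)
      exact (Real.hasDerivAt_sqrt hpos.ne').comp x h2
    have h3 : HasDerivAt (fun r : ℝ => (r * (√(r ^ 2 + 1))⁻¹) ^ N / N) _ x :=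
      (((hasDerivAt_id x).mul (h1.inv hsp.ne')).pow N).div_const N
    refine h3.congr_deriv ?_
    obtain ⟨n, rfl⟩ : ∃ n, N = n + 1 := ⟨N - 1, by omega⟩
    simp only [Pi.inv_apply, Pi.mul_apply, id, Nat.add_sub_cancel, inv_pow]
    have hs2 : √(x ^ 2 + 1) ^ 2 = x ^ 2 + 1 := Real.sq_sqrt hpos.le
    have e1 : (1 * (√(x ^ 2 + 1))⁻¹ + x * (-(1 / (2 * √(x ^ 2 + 1)) * (2 * x)) / √(x ^ 2 + 1) ^ 2)) =
        ((√(x ^ 2 + 1)) ^ 3)⁻¹ := by
      field_simp
      linear_combination hs2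
    rw [e1, mul_pow, inv_pow]
    field_simp
    ring
  have hlim : Tendsto (fun r : ℝ => (r * (√(r ^ 2 + 1))⁻¹) ^ N / N) atTop (𝓝 (1 / N)) := by
    have := (tendsto_aux.pow N).div_const (N : ℝ)
    simpa using this
  have := integral_Ioi_of_hasDerivAt_of_nonneg' hder (fun x hx => ?_) hlim
  · rw [this]
    have : N ≠ 0 := by omega
    simp [this]
  · have : (0 : ℝ) < x := hx
    positivity

lemma integral_psi (hN : 3 ≤ N) :
    ∫ x : EuclideanSpace ℝ (Fin N), Ri 1 x ^ (N + 2) / om N = 1 := by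
  have := nontrivial_E hN
  have h := integral_fun_norm_addHaar (volume : Measure (EuclideanSpace ℝ (Fin N)))
    (fun r : ℝ => ((√(r ^ 2 + 1))⁻¹) ^ (N + 2))
  simp only [finrank_euclideanSpace, Fintype.card_fin, smul_eq_mul, nsmul_eq_mul] at h
  rw [integral_radial hN] at h
  have h2 : (∫ x : EuclideanSpace ℝ (Fin N), Ri 1 x ^ (N + 2)) = om N := by
    have h3 : (fun x : EuclideanSpace ℝ (Fin N) => Ri 1 x ^ (N + 2)) =
        fun x => ((√(‖x‖ ^ 2 + 1))⁻¹) ^ (N + 2) := by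
      ext x; simp [Ri]
    rw [h3, h]
    have hN0 : (N : ℝ) ≠ 0 := by positivity
    unfold Measure.real om
    field_simp
  rw [integral_div, h2, div_self om_pos.ne']

lemma Ri_mul_norm_le {ε : ℝ} (hε : 0 < ε) (x : EuclideanSpace ℝ (Fin N)) : ‖x‖ * Ri ε x ≤ 1 := by
  have h := Ri_sq hε x
  have h1 := (Ri_pos hε x).le
  have h2 : (‖x‖ * Ri ε x) ^ 2 ≤ 1 := by
    have : 0 ≤ Ri ε x ^ 2 * ε ^ 2 := by positivity
    nlinarith
  exact (sq_le_one_iff₀ (by positivity)).1 h2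

lemma Ri_le_inv {ε : ℝ} (hε : 0 < ε) {x : EuclideanSpace ℝ (Fin N)} (hx : x ≠ 0) :
    Ri ε x ≤ ‖x‖⁻¹ := by
  have h := Ri_mul_norm_le hε x
  have hx' : 0 < ‖x‖ := norm_pos_iff.2 hx
  rw [le_inv_comm₀ (Ri_pos hε x) hx', ← one_div, le_div_iff₀ (Ri_pos hε x)]
  exact h

lemma psi_decay (hN : 3 ≤ N) :
    Tendsto (fun x : EuclideanSpace ℝ (Fin N) => ‖x‖ ^ (Module.finrank ℝ (EuclideanSpace ℝ (Fin N))) *
      (Ri 1 x ^ (N + 2) / om N)) (Bornology.cobounded _) (𝓝 0) := by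
  have := nontrivial_E hN
  simp only [finrank_euclideanSpace, Fintype.card_fin]
  have h1 : Tendsto (fun x : EuclideanSpace ℝ (Fin N) => (‖x‖⁻¹) ^ 2 / om N)
      (Bornology.cobounded _) (𝓝 0) := by
    have h2 : Tendsto (fun x : EuclideanSpace ℝ (Fin N) => ‖x‖⁻¹) (Bornology.cobounded _) (𝓝 0) :=
      tendsto_inv_atTop_zero.comp tendsto_norm_cobounded_atTop
    simpa using (h2.pow 2).div_const (om N)
  refine squeeze_zero' (Eventually.of_forall fun x => ?_) ?_ h1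
  · have := (Ri_pos one_pos x).le
    have := om_pos (N := N)
    positivity
  · have h0 : ∀ᶠ x : EuclideanSpace ℝ (Fin N) in Bornology.cobounded _, x ≠ 0 :=
      Bornology.eventually_ne_cobounded 0
    filter_upwards [h0] with x hx
    have e : ‖x‖ ^ N * (Ri 1 x ^ (N + 2) / om N) = (‖x‖ * Ri 1 x) ^ N * (Ri 1 x ^ 2) / om N := by
      rw [mul_pow, pow_add]; ring
    rw [e]
    have h2 := Ri_mul_norm_le one_pos x
    have h3 := Ri_le_inv one_pos hx
    have h4 := (Ri_pos one_pos x).le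
    have := om_pos (N := N)
    have h5 : (‖x‖ * Ri 1 x) ^ N ≤ 1 := pow_le_one₀ (by positivity) h2
    have h6 : Ri 1 x ^ 2 ≤ (‖x‖⁻¹) ^ 2 := by gcongr
    gcongr
    calc (‖x‖ * Ri 1 x) ^ N * (Ri 1 x ^ 2) ≤ 1 * (‖x‖⁻¹) ^ 2 := by gcongr
      _ = (‖x‖⁻¹) ^ 2 := one_mul _

lemma Ri_scale {c : ℝ} (hc : 0 < c) (x : EuclideanSpace ℝ (Fin N)) :
    Ri c⁻¹ x = c * Ri 1 (c • x) := by
  unfold Ri
  have h1 : ‖c • x‖ ^ 2 + 1 ^ 2 = c ^ 2 * (‖x‖ ^ 2 + (c⁻¹) ^ 2) := by
    rw [norm_smul, Real.norm_of_nonneg hc.le]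
    field_simp
  rw [h1, Real.sqrt_mul (by positivity), Real.sqrt_sq hc.le]
  field_simp

/-- **Fundamental solution**: `Φ ⋆ (Δ s) = - s`. -/
lemma Phi_conv_laplacian (hN : 3 ≤ N) {s : EuclideanSpace ℝ (Fin N) → ℝ} (hs : ContDiff ℝ ∞ s)
    (hc : HasCompactSupport s) (x : EuclideanSpace ℝ (Fin N)) :
    ∫ t, Phi t * Laplacian.laplacian s (x - t) = - s x := by
  have := nontrivial_E hN
  have hs2 : ContDiff ℝ 2 s := hs.of_le (by norm_cast)
  have hLs := laplacian_continuous hs2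
  have hLc := laplacian_hasCompactSupport hs2 hc
  -- left side limit
  have hL : Tendsto (fun c : ℝ => ∫ t, (kap N * Ri c⁻¹ t ^ (N - 2)) * Laplacian.laplacian s (x - t))
      atTop (𝓝 (∫ t, Phi t * Laplacian.laplacian s (x - t))) := by
    refine tendsto_integral_filter_of_dominated_convergence
      (fun t => ‖Phi t * Laplacian.laplacian s (x - t)‖) ?_ ?_ ?_ ?_
    · filter_upwards [eventually_gt_atTop 0] with c hc0
      refine Continuous.aestronglyMeasurable ?_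
      have h1 := (Ri_contDiff (N := N) (inv_pos.2 hc0)).continuous
      fun_prop
    · filter_upwards [eventually_gt_atTop 0] with c hc0
      have h0 : ∀ᵐ t : EuclideanSpace ℝ (Fin N), t ≠ 0 := Measure.ae_ne volume 0
      filter_upwards [h0] with t ht
      rw [norm_mul, norm_mul (Phi t)]
      refine mul_le_mul_of_nonneg_right ?_ (norm_nonneg (Laplacian.laplacian s (x - t)))
      have hk := kap_pos hN
      have h1 := Ri_pos (inv_pos.2 hc0) t
      rw [Real.norm_of_nonneg (by positivity), Real.norm_of_nonneg (Phi_nonneg hN t)]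
      unfold Phi
      rw [div_eq_mul_inv, ← inv_pow]
      have := Ri_le_inv (inv_pos.2 hc0) ht
      gcongr
    · exact (cv_integrand_integrable (Phi_locallyIntegrable hN) hLs hLc x).norm
    · have h0 : ∀ᵐ t : EuclideanSpace ℝ (Fin N), t ≠ 0 := Measure.ae_ne volume 0
      filter_upwards [h0] with t ht
      refine Tendsto.mul_const _ ?_
      have h1 : Tendsto (fun c : ℝ => c⁻¹) atTop (𝓝 0) := tendsto_inv_atTop_zero
      have ht' : 0 < ‖t‖ := norm_pos_iff.2 ht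
      have h2 : Continuous (fun e : ℝ => kap N * ((√(‖t‖ ^ 2 + e ^ 2))⁻¹) ^ (N - 2)) := by
        refine continuous_const.mul (Continuous.pow (Continuous.inv₀ (by fun_prop) fun e => ?_) _)
        positivity
      have h3 := (h2.tendsto 0).comp h1
      have h4 : Phi t = kap N * ((√(‖t‖ ^ 2 + (0:ℝ) ^ 2))⁻¹) ^ (N - 2) := by
        unfold Phi
        simp [Real.sqrt_sq ht'.le, div_eq_mul_inv]
      rw [h4]
      exact h3
  -- right side
  have hR : Tendsto (fun c : ℝ => ∫ t, (kap N * Ri c⁻¹ t ^ (N - 2)) * Laplacian.laplacian s (x - t))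
      atTop (𝓝 (- s x)) := by
    have h1 : Tendsto (fun c : ℝ => ∫ t : EuclideanSpace ℝ (Fin N),
        (c ^ (Module.finrank ℝ (EuclideanSpace ℝ (Fin N))) * (Ri 1 (c • t) ^ (N + 2) / om N)) •
          (s (x - t))) atTop (𝓝 (s (x - 0))) := by
      refine tendsto_integral_comp_smul_smul_of_integrable (μ := volume)
        (φ := fun t : EuclideanSpace ℝ (Fin N) => Ri 1 t ^ (N + 2) / om N) (fun t => ?_)
        (integral_psi hN) (psi_decay hN) (g := fun t => s (x - t)) ?_ ?_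
      · have := (Ri_pos one_pos t).le
        have := om_pos (N := N)
        positivity
      · exact (hs.continuous.integrable_of_hasCompactSupport hc).comp_sub_left x
      · exact (hs.continuous.comp (continuous_const.sub continuous_id)).continuousAt
    rw [sub_zero] at h1
    refine (h1.neg).congr' ?_
    filter_upwards [eventually_gt_atTop 0] with c hc0
    have hg : ContDiff ℝ ∞ (fun t => s (x - t)) := hs.comp (contDiff_const.sub contDiff_id)
    have hgc : HasCompactSupport (fun t => s (x - t)) :=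
      hc.comp_homeomorph (Homeomorph.subLeft x)
    have h3 := integral_laplacian_symm (f := fun t => kap N * Ri c⁻¹ t ^ (N - 2))
      (g := fun t => s (x - t))
      ((contDiff_const.mul ((Ri_contDiff (inv_pos.2 hc0)).pow _)).of_le (by norm_cast))
      (hg.of_le (by norm_cast)) hgc
    simp only [laplacian_comp_const_sub hs2] at h3
    rw [h3, ← integral_neg]
    congr 1
    ext t
    rw [laplacian_Phie hN (inv_pos.2 hc0), Ri_scale hc0]
    simp only [finrank_euclideanSpace, Fintype.card_fin, smul_eq_mul]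
    rw [mul_pow, pow_add c N 2]
    field_simp
  exact tendsto_nhds_unique hL hR

end

end Pool.Agent.H19.Good
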