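import Mathlib

/-!
Basic facts on the Laplacian of functions on `EuclideanSpace ℝ (Fin N)`.
-/

open MeasureTheory Set Filter Topology
open scoped Real ENNReal NNReal ContDiff Laplacian

namespace Pool.Agent.H19.Good

noncomputable section

variable {N : ℕ}

/-- the standard basis vector -/
def bv (i : Fin N) : EuclideanSpace ℝ (Fin N) := EuclideanSpace.basisFun (Fin N) ℝ i

lemma bv_apply_inner (i : Fin N) (x : EuclideanSpace ℝ (Fin N)) : inner ℝ (bv i) x = x i := by
  simp [bv, EuclideanSpace.inner_single_left]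

lemma norm_bv (i : Fin N) : ‖bv i‖ = 1 := by simp [bv]

lemma sum_sq_coord (x : EuclideanSpace ℝ (Fin N)) : ∑ i, (x i) ^ 2 = ‖x‖ ^ 2 := by
  rw [EuclideanSpace.norm_eq, Real.sq_sqrt (Finset.sum_nonneg fun i _ => sq_nonneg _)]
  simp

/-- partial derivative -/
def pd (i : Fin N) (f : EuclideanSpace ℝ (Fin N) → ℝ) (x : EuclideanSpace ℝ (Fin N)) : ℝ :=
  fderiv ℝ f x (bv i)

lemma pd_contDiff {f : EuclideanSpace ℝ (Fin N) → ℝ} {n : WithTop ℕ∞} {m : WithTop ℕ∞} (hf : ContDiff ℝ n f)
    (hmn : m + 1 ≤ n) (i : Fin N) :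
    ContDiff ℝ m (pd i f) :=
  (hf.fderiv_right hmn).clm_apply contDiff_const

lemma pd_contDiff_top {f : EuclideanSpace ℝ (Fin N) → ℝ} (hf : ContDiff ℝ ∞ f) (i : Fin N) :
    ContDiff ℝ ∞ (pd i f) := pd_contDiff hf (by simp) i

lemma pd_hasCompactSupport {f : EuclideanSpace ℝ (Fin N) → ℝ} (hf : HasCompactSupport f) (i : Fin N) :
    HasCompactSupport (pd i f) := by
  refine (hf.fderiv (𝕜 := ℝ)).mono fun x hx => ?_
  rw [Function.mem_support] at hx ⊢
  intro h0
  apply hx
  simp [pd, h0]

lemma tsupport_pd_subset {f : EuclideanSpace ℝ (Fin N) → ℝ} (i : Fin N) :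
    tsupport (pd i f) ⊆ tsupport f := by
  refine (closure_mono ?_).trans (tsupport_fderiv_subset ℝ (f := f))
  intro x hx
  rw [Function.mem_support] at hx ⊢
  intro h0
  apply hx
  simp [pd, h0]

lemma laplacian_eq_sum {f : EuclideanSpace ℝ (Fin N) → ℝ} (hf : ContDiff ℝ 2 f) (x : EuclideanSpace ℝ (Fin N)) :
    Laplacian.laplacian f x = ∑ i, pd i (pd i f) x := by
  rw [InnerProductSpace.laplacian_eq_iteratedFDeriv_orthonormalBasis f (EuclideanSpace.basisFun (Fin N) ℝ)]
  refine Finset.sum_congr rfl fun i _ => ?_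
  rw [iteratedFDeriv_two_apply]
  unfold pd bv
  have hd : DifferentiableAt ℝ (fderiv ℝ f) x :=
    ((hf.fderiv_right (m := 1) (by norm_num)).differentiable (by norm_num)) x
  rw [fderiv_clm_apply hd (differentiableAt_const _)]
  simp

lemma laplacian_eq_sum' {f : EuclideanSpace ℝ (Fin N) → ℝ} (hf : ContDiff ℝ 2 f) :
    Laplacian.laplacian f = fun x => ∑ i, pd i (pd i f) x := by
  ext x; exact laplacian_eq_sum hf x

lemma laplacian_contDiff {f : EuclideanSpace ℝ (Fin N) → ℝ} (hf : ContDiff ℝ ∞ f) :
    ContDiff ℝ ∞ (Laplacian.laplacian f) := by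
  rw [laplacian_eq_sum' (hf.of_le (by norm_cast))]
  exact ContDiff.sum fun i _ => pd_contDiff_top (pd_contDiff_top hf i) i

lemma laplacian_continuous {f : EuclideanSpace ℝ (Fin N) → ℝ} (hf : ContDiff ℝ 2 f) :
    Continuous (Laplacian.laplacian f) := by
  rw [laplacian_eq_sum' hf]
  refine continuous_finsetSum _ fun i _ => ?_
  exact (pd_contDiff (m := 0) (pd_contDiff (m := 1) hf (by norm_num) i) (by norm_num) i).continuous

lemma laplacian_hasCompactSupport {f : EuclideanSpace ℝ (Fin N) → ℝ} (hf : ContDiff ℝ 2 f)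
    (hc : HasCompactSupport f) :
    HasCompactSupport (Laplacian.laplacian f) := by
  rw [laplacian_eq_sum' hf]
  have : (fun x => ∑ i, pd i (pd i f) x) = ∑ i, pd i (pd i f) := by ext x; simp
  rw [this]
  refine Finset.sum_induction _ HasCompactSupport (fun a b => HasCompactSupport.add) HasCompactSupport.zero
    fun i _ => pd_hasCompactSupport (pd_hasCompactSupport hc i) i

lemma laplacian_support_subset {f : EuclideanSpace ℝ (Fin N) → ℝ} (hf : ContDiff ℝ 2 f) :
    Function.support (Laplacian.laplacian f) ⊆ tsupport f := by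
  intro x hx
  by_contra hxf
  apply hx
  rw [laplacian_eq_sum hf]
  refine Finset.sum_eq_zero fun i _ => ?_
  by_contra h
  have : x ∈ tsupport (pd i (pd i f)) := subset_tsupport _ h
  exact hxf (tsupport_pd_subset i (tsupport_pd_subset i this))

/-- integration by parts in direction `i` -/
lemma ibp {f g : EuclideanSpace ℝ (Fin N) → ℝ} (hf : ContDiff ℝ 1 f) (hg : ContDiff ℝ 1 g)
    (hc : HasCompactSupport g) (i : Fin N) :
    ∫ x, f x * pd i g x = - ∫ x, pd i f x * g x := by
  have hg' := pd_contDiff (m := 0) hg (by norm_num) i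
  have hf' := pd_contDiff (m := 0) hf (by norm_num) i
  refine integral_mul_fderiv_eq_neg_fderiv_mul_of_integrable ?_ ?_ ?_ ?_ ?_
  · exact (hf'.continuous.mul hg.continuous).integrable_of_hasCompactSupport hc.mul_left
  · exact (hf.continuous.mul hg'.continuous).integrable_of_hasCompactSupport
      (pd_hasCompactSupport hc i).mul_left
  · exact (hf.continuous.mul hg.continuous).integrable_of_hasCompactSupport hc.mul_left
  · exact fun x _ => hf.differentiable (by norm_num) x
  · exact fun x _ => hg.differentiable (by norm_num) x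

/-- Green's identity, first form -/
lemma integral_mul_laplacian {f g : EuclideanSpace ℝ (Fin N) → ℝ} (hf : ContDiff ℝ 1 f) (hg : ContDiff ℝ 2 g)
    (hc : HasCompactSupport g) :
    ∫ x, f x * Laplacian.laplacian g x = - ∫ x, ∑ i, pd i f x * pd i g x := by
  rw [laplacian_eq_sum' hg]
  have h1 : ∀ i : Fin N, ContDiff ℝ 1 (pd i g) := fun i => pd_contDiff hg (by norm_num) i
  have hint : ∀ i : Fin N, Integrable (fun x => f x * pd i (pd i g) x) := fun i =>
    (hf.continuous.mul (pd_contDiff (m := 0) (h1 i) (by norm_num) i).continuous).integrable_of_hasCompactSupport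
      (pd_hasCompactSupport (pd_hasCompactSupport hc i) i).mul_left
  have hint2 : ∀ i : Fin N, Integrable (fun x => pd i f x * pd i g x) := fun i =>
    ((pd_contDiff (m := 0) hf (by norm_num) i).continuous.mul (h1 i).continuous).integrable_of_hasCompactSupport
      (pd_hasCompactSupport hc i).mul_left
  simp_rw [Finset.mul_sum]
  rw [integral_finsetSum _ (fun i _ => hint i), integral_finsetSum _ (fun i _ => hint2 i),
    ← Finset.sum_neg_distrib]
  exact Finset.sum_congr rfl fun i _ => ibp hf (h1 i) (pd_hasCompactSupport hc i) i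

lemma integral_mul_laplacian' {f g : EuclideanSpace ℝ (Fin N) → ℝ} (hf : ContDiff ℝ 2 f) (hg : ContDiff ℝ 1 g)
    (hc : HasCompactSupport g) :
    ∫ x, Laplacian.laplacian f x * g x = - ∫ x, ∑ i, pd i f x * pd i g x := by
  rw [laplacian_eq_sum' hf]
  have h1 : ∀ i : Fin N, ContDiff ℝ 1 (pd i f) := fun i => pd_contDiff hf (by norm_num) i
  have hint : ∀ i : Fin N, Integrable (fun x => pd i (pd i f) x * g x) := fun i =>
    ((pd_contDiff (m := 0) (h1 i) (by norm_num) i).continuous.mul hg.continuous).integrable_of_hasCompactSupport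
      hc.mul_left
  have hint2 : ∀ i : Fin N, Integrable (fun x => pd i f x * pd i g x) := fun i =>
    ((h1 i).continuous.mul (pd_contDiff (m := 0) hg (by norm_num) i).continuous).integrable_of_hasCompactSupport
      (pd_hasCompactSupport hc i).mul_left
  simp_rw [Finset.sum_mul]
  rw [integral_finsetSum _ (fun i _ => hint i), integral_finsetSum _ (fun i _ => hint2 i),
    ← Finset.sum_neg_distrib]
  refine Finset.sum_congr rfl fun i _ => ?_
  rw [ibp (h1 i) hg hc i, neg_neg]

/-- Green's second identity -/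
lemma integral_laplacian_symm {f g : EuclideanSpace ℝ (Fin N) → ℝ} (hf : ContDiff ℝ 2 f) (hg : ContDiff ℝ 2 g)
    (hc : HasCompactSupport g) :
    ∫ x, f x * Laplacian.laplacian g x = ∫ x, Laplacian.laplacian f x * g x := by
  rw [integral_mul_laplacian (hf.of_le (by norm_num)) hg hc,
    integral_mul_laplacian' hf (hg.of_le (by norm_num)) hc]

lemma pd_comp_const_sub (f : EuclideanSpace ℝ (Fin N) → ℝ) (x : EuclideanSpace ℝ (Fin N)) (i : Fin N)
    (y : EuclideanSpace ℝ (Fin N)) :
    pd i (fun t => f (x - t)) y = - pd i f (x - y) := by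
  unfold pd
  by_cases hd : DifferentiableAt ℝ f (x - y)
  · have h1 : HasFDerivAt (fun t => x - t) (-(ContinuousLinearMap.id ℝ (EuclideanSpace ℝ (Fin N)))) y :=
      (hasFDerivAt_id y).const_sub x
    have h2 := (hd.hasFDerivAt.comp y h1).fderiv
    have h3 : (fun t => f (x - t)) = f ∘ (fun t => x - t) := rfl
    rw [h3, h2]
    simp
  · have h1 : ¬ DifferentiableAt ℝ (fun t => f (x - t)) y := by
      intro h
      apply hd
      have h4 : DifferentiableAt ℝ ((fun t => f (x - t)) ∘ (fun z => x - z)) (x - y) := by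
        refine DifferentiableAt.comp (x - y) ?_ (by fun_prop)
        simpa using h
      have h5 : ((fun t => f (x - t)) ∘ (fun z => x - z)) = f := by ext z; simp
      rwa [h5] at h4
    rw [fderiv_zero_of_not_differentiableAt h1, fderiv_zero_of_not_differentiableAt hd]
    simp

lemma laplacian_comp_const_sub {f : EuclideanSpace ℝ (Fin N) → ℝ} (hf : ContDiff ℝ 2 f)
    (x y : EuclideanSpace ℝ (Fin N)) :
    Laplacian.laplacian (fun t => f (x - t)) y = Laplacian.laplacian f (x - y) := by
  have hf2 : ContDiff ℝ 2 (fun t => f (x - t)) := hf.comp (contDiff_const.sub contDiff_id)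
  rw [laplacian_eq_sum hf, laplacian_eq_sum hf2]
  refine Finset.sum_congr rfl fun i _ => ?_
  have h1 : pd i (fun t => f (x - t)) = fun y => - pd i f (x - y) := by
    ext y; exact pd_comp_const_sub f x i y
  rw [h1]
  have h2 : pd i (fun y => - pd i f (x - y)) y = - pd i (fun y => pd i f (x - y)) y := by
    unfold pd
    rw [fderiv_fun_neg]
    simp
  rw [h2, pd_comp_const_sub, neg_neg]

end

end Pool.Agent.H19.Good
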