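import Pool.Agent.H19.Good.Green

/-!
Solutions of `-Δ V = m` for finite positive measures.
-/

open MeasureTheory Set Filter Topology
open scoped Real ENNReal NNReal ContDiff Laplacian Pointwise

namespace Pool.Agent.H19.Good

noncomputable section

/-- `L¹` limits preserve a.e. inequalities -/
lemma le_of_L1_limits {α : Type*} [MeasurableSpace α] {μ : Measure α} {f g : ℕ → α → ℝ} {f' g' : α → ℝ}
    (hf : ∀ n, Integrable (f n) μ) (hg : ∀ n, Integrable (g n) μ) (hf' : Integrable f' μ)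
    (hg' : Integrable g' μ) (h : ∀ n, ∀ᵐ x ∂μ, f n x ≤ g n x)
    (h1 : Tendsto (fun n => ∫ x, |f n x - f' x| ∂μ) atTop (𝓝 0))
    (h2 : Tendsto (fun n => ∫ x, |g n x - g' x| ∂μ) atTop (𝓝 0)) : ∀ᵐ x ∂μ, f' x ≤ g' x := by
  have h3 := h1.add h2
  rw [add_zero] at h3
  have h4 : ∫ x, max (f' x - g' x) 0 ∂μ ≤ 0 := by
    refine ge_of_tendsto' h3 fun n => ?_
    have i1 : Integrable (fun x => |f n x - f' x|) μ := ((hf n).sub hf').abs
    have i2 : Integrable (fun x => |g n x - g' x|) μ := ((hg n).sub hg').abs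
    rw [← integral_add i1 i2]
    refine integral_mono_ae (hf'.sub hg').pos_part (i1.add i2) ?_
    filter_upwards [h n] with x hx
    refine max_le ?_ (by positivity)
    have h5 := neg_abs_le (f n x - f' x)
    have h6 := le_abs_self (g n x - g' x)
    linarith
  have h5 : ∫ x, max (f' x - g' x) 0 ∂μ = 0 := le_antisymm h4 (integral_nonneg fun x => le_max_right _ _)
  have h6 := (integral_eq_zero_iff_of_nonneg (fun x => le_max_right _ _) (hf'.sub hg').pos_part).1 h5
  filter_upwards [h6] with x hx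
  have h7 : max (f' x - g' x) 0 = 0 := hx
  have h8 := le_max_left (f' x - g' x) 0
  rw [h7] at h8
  linarith

variable {N : ℕ}

variable {Ω : Set (EuclideanSpace ℝ (Fin N))} {ζ η ξ φ ψ u w W : EuclideanSpace ℝ (Fin N) → ℝ}

/-- compact exhaustion of `Ω` -/
def exh (Ω : Set (EuclideanSpace ℝ (Fin N))) (j : ℕ) : Set (EuclideanSpace ℝ (Fin N)) :=
  {x | 1 / ((j : ℝ) + 1) ≤ Metric.infDist x Ωᶜ}

lemma exh_subset (j : ℕ) : exh Ω j ⊆ Ω := by
  intro x hx
  by_contra h
  have h1 : Metric.infDist x Ωᶜ = 0 := Metric.infDist_zero_of_mem h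
  have h2 : 1 / ((j : ℝ) + 1) ≤ Metric.infDist x Ωᶜ := hx
  rw [h1] at h2
  have : 0 < 1 / ((j : ℝ) + 1) := by positivity
  linarith

lemma exh_closed (j : ℕ) : IsClosed (exh Ω j) :=
  isClosed_le continuous_const (Metric.continuous_infDist_pt _)

lemma exh_compact (hΩb : Bornology.IsBounded Ω) (j : ℕ) : IsCompact (exh Ω j) :=
  Metric.isCompact_of_isClosed_isBounded (exh_closed j) (hΩb.subset (exh_subset j))

lemma exh_mono : Monotone (exh Ω) := by
  intro i j hij x hx
  have h2 : 1 / ((i : ℝ) + 1) ≤ Metric.infDist x Ωᶜ := hx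
  have : 1 / ((j : ℝ) + 1) ≤ 1 / ((i : ℝ) + 1) := one_div_le_one_div_of_le (by positivity) (by gcongr)
  exact this.trans h2

lemma exh_iUnion (hΩo : IsOpen Ω) (hne : Ωᶜ.Nonempty) : ⋃ j, exh Ω j = Ω := by
  refine subset_antisymm (iUnion_subset fun j => exh_subset j) fun x hx => ?_
  have h1 : 0 < Metric.infDist x Ωᶜ := by
    rw [← hΩo.isClosed_compl.notMem_iff_infDist_pos hne]
    simpa using hx
  obtain ⟨j, hj⟩ := exists_nat_one_div_lt h1
  exact mem_iUnion.2 ⟨j, hj.le⟩

lemma exh_dist {j : ℕ} {x y : EuclideanSpace ℝ (Fin N)} (hy : y ∈ exh Ω j) (hx : x ∉ Ω) :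
    1 / ((j : ℝ) + 1) ≤ ‖x - y‖ := by
  have h2 : 1 / ((j : ℝ) + 1) ≤ Metric.infDist y Ωᶜ := hy
  refine h2.trans ((Metric.infDist_le_dist_of_mem (show x ∈ Ωᶜ from hx)).trans ?_)
  rw [dist_comm, dist_eq_norm]

lemma cv_one_moll_eq_zero {ν : Measure (EuclideanSpace ℝ (Fin N))} {j n : ℕ} (hjn : j ≤ n)
    {x : EuclideanSpace ℝ (Fin N)} (hx : x ∉ Ω) :
    cv (ν.restrict (exh Ω j)) (fun _ => 1) (moll n) x = 0 := by
  unfold cv
  have : ∀ᵐ t ∂(ν.restrict (exh Ω j)), (1:ℝ) * moll n (x - t) = 0 := by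
    filter_upwards [ae_restrict_mem (exh_closed j).measurableSet] with t ht
    rw [moll_eq_zero n, mul_zero]
    refine le_trans ?_ (exh_dist ht hx)
    exact one_div_le_one_div_of_le (by positivity) (by gcongr)
  rw [integral_congr_ae this, integral_zero]

/-- data of the approximation of the solution `V` of `-ΔV = m` -/
structure LV (Ω : Set (EuclideanSpace ℝ (Fin N))) (m : Measure (EuclideanSpace ℝ (Fin N))) (R : ℝ)
    (V : EuclideanSpace ℝ (Fin N) → ℝ) (v φ : ℕ → EuclideanSpace ℝ (Fin N) → ℝ) (n : ℕ → ℕ) : Prop where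
  measV : Measurable V
  intV : Integrable V
  nonneg : ∀ᵐ x, 0 ≤ V x
  zero : ∀ᵐ x, x ∉ Ω → V x = 0
  le_pot : ∀ᵐ x, x ∈ Ω → V x ≤ cv m (fun _ => 1) (PhiT (2 * R)) x
  measv : ∀ j, Measurable (v j)
  weak : ∀ j, Weak Ω (φ j) (v j)
  φnn : ∀ j x, 0 ≤ φ j x
  φle : ∀ j x, φ j x ≤ cv m (fun _ => 1) (moll (n j)) x
  φsmooth : ∀ j, ContDiff ℝ ∞ (φ j)
  φzero : ∀ j x, x ∉ Ω → φ j x = 0
  nlim : Tendsto n atTop atTop
  φint : ∀ j, Integrable (φ j)
  φmass : ∀ j, ∫ x, φ j x ≤ m.real univ
  lim : Tendsto (fun j => ∫ x, |v j x - V x|) atTop (𝓝 0)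
  test : ∀ ζ : EuclideanSpace ℝ (Fin N) → ℝ, Continuous ζ →
    Tendsto (fun j => ∫ x in Ω, φ j x * ζ x) atTop (𝓝 (∫ x, ζ x ∂m))


section pieces

variable {m : Measure (EuclideanSpace ℝ (Fin N))} [IsFiniteMeasure m]

/-- `ρ_n * (m restricted to exh Ω j)` -/
def phj (Ω : Set (EuclideanSpace ℝ (Fin N))) (m : Measure (EuclideanSpace ℝ (Fin N))) (j n : ℕ) :
    EuclideanSpace ℝ (Fin N) → ℝ :=
  cv (m.restrict (exh Ω j)) (fun _ => 1) (moll n)

lemma one_locInt {ν : Measure (EuclideanSpace ℝ (Fin N))} [IsFiniteMeasure ν] :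
    LocallyIntegrable (fun _ : EuclideanSpace ℝ (Fin N) => (1:ℝ)) ν := locallyIntegrable_const 1

lemma cv_one_integrand {ν : Measure (EuclideanSpace ℝ (Fin N))} [IsFiniteMeasure ν]
    {g : EuclideanSpace ℝ (Fin N) → ℝ} (hg : Continuous g) (hc : HasCompactSupport g)
    (x : EuclideanSpace ℝ (Fin N)) : Integrable (fun t => (1:ℝ) * g (x - t)) ν :=
  cv_integrand_integrable one_locInt hg hc x

lemma phj_smooth (j n : ℕ) : ContDiff ℝ ∞ (phj Ω m j n) :=
  cv_contDiff one_locInt (moll_contDiff n) (moll_cpt n)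

lemma phj_nonneg (j n : ℕ) (x : EuclideanSpace ℝ (Fin N)) : 0 ≤ phj Ω m j n x :=
  cv_nonneg (fun _ => zero_le_one) (moll_nonneg n) x

lemma phj_zero {j n : ℕ} (hjn : j ≤ n) {x : EuclideanSpace ℝ (Fin N)} (hx : x ∉ Ω) :
    phj Ω m j n x = 0 := cv_one_moll_eq_zero hjn hx

lemma phj_le (j n : ℕ) (x : EuclideanSpace ℝ (Fin N)) :
    phj Ω m j n x ≤ cv m (fun _ => 1) (moll n) x := by
  unfold phj cv
  exact setIntegral_le_integral (cv_one_integrand (moll_continuous n) (moll_cpt n) x)
    (Eventually.of_forall fun t => mul_nonneg zero_le_one (moll_nonneg n _))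

lemma phj_integrable (j n : ℕ) : Integrable (phj Ω m j n) :=
  cv_integrable (integrable_const 1) (moll_integrable n)

lemma phj_integral (j n : ℕ) : ∫ x, phj Ω m j n x = m.real (exh Ω j) := by
  unfold phj
  rw [integral_cv (integrable_const 1) (moll_integrable n), moll_integral, mul_one]
  simp

lemma phj_bdd (j n : ℕ) : ∃ C, ∀ x, |phj Ω m j n x| ≤ C := by
  obtain ⟨C, hC⟩ := (moll_cpt (N := N) n).exists_bound_of_continuous (moll_continuous n)
  refine ⟨C * m.real (exh Ω j), fun x => ?_⟩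
  unfold phj cv
  have := norm_integral_le_of_norm_le_const (μ := m.restrict (exh Ω j))
    (f := fun t => (1:ℝ) * moll n (x - t)) (C := C) (Eventually.of_forall fun t => by
      rw [one_mul]; exact hC _)
  simpa using this

lemma exists_vj (hN : 0 < N) {R : ℝ} (hR : 0 < R) (hΩ : Ω ⊆ Metric.ball 0 R) {j n : ℕ} (hjn : j ≤ n) :
    ∃ v, Measurable v ∧ Weak Ω (phj Ω m j n) v := by
  obtain ⟨C, hC⟩ := phj_bdd (Ω := Ω) (m := m) j n
  exact exists_G hN hR hΩ (phj_smooth j n).continuous.measurable hC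
    (fun x hx => phj_zero hjn fun h => hx (hΩ h))

lemma phj_diff {i j n : ℕ} (hij : i ≤ j) (x : EuclideanSpace ℝ (Fin N)) :
    phj Ω m j n x - phj Ω m i n x =
      cv (m.restrict (exh Ω j \ exh Ω i)) (fun _ => 1) (moll n) x := by
  unfold phj cv
  rw [setIntegral_sdiff (exh_closed i).measurableSet _ (exh_mono hij)]
  exact (cv_one_integrand (moll_continuous n) (moll_cpt n) x).integrableOn

/-- changing the compact set -/
lemma diff_j (hN : 0 < N) (hΩo : IsOpen Ω) {R : ℝ} (hR : 0 < R) (hΩ : Ω ⊆ Metric.ball 0 R)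
    {i j n : ℕ} (hij : i ≤ j) {v a : EuclideanSpace ℝ (Fin N) → ℝ} (hvm : Measurable v)
    (ham : Measurable a) (hv : Weak Ω (phj Ω m j n) v) (ha : Weak Ω (phj Ω m i n) a) :
    ∫ x, |v x - a x| ≤ R ^ 2 * m.real (exh Ω j \ exh Ω i) := by
  refine (weak_L1 hN hΩo hR hΩ (hvm.sub ham) (hv.sub ha)).trans ?_
  refine mul_le_mul_of_nonneg_left ?_ (by positivity)
  simp_rw [phj_diff hij]
  have hint : Integrable (fun x => |cv (m.restrict (exh Ω j \ exh Ω i)) (fun _ => 1) (moll n) x|) :=
    (cv_integrable (integrable_const 1) (moll_integrable n)).abs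
  refine (setIntegral_le_integral hint (Eventually.of_forall fun x => abs_nonneg _)).trans ?_
  have e : ∀ x, |cv (m.restrict (exh Ω j \ exh Ω i)) (fun _ => 1) (moll n) x| =
      cv (m.restrict (exh Ω j \ exh Ω i)) (fun _ => 1) (moll n) x := fun x =>
    abs_of_nonneg (cv_nonneg (fun _ => zero_le_one) (moll_nonneg n) x)
  simp_rw [e]
  rw [integral_cv (integrable_const 1) (moll_integrable n), moll_integral, mul_one]
  simp

/-- difference kernel on a ball -/
def Dk (N : ℕ) (M : ℝ) (n n' : ℕ) : EuclideanSpace ℝ (Fin N) → ℝ :=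
  (Metric.ball 0 M).indicator (fun x => moPhi n x - moPhi n' x)

lemma moPhi_integrableOn (hN : 3 ≤ N) (M : ℝ) (n : ℕ) :
    IntegrableOn (moPhi n : EuclideanSpace ℝ (Fin N) → ℝ) (Metric.ball 0 M) :=
  ((moPhi_contDiff hN n).continuous.continuousOn.integrableOn_compact
    (isCompact_closedBall 0 M)).mono_set Metric.ball_subset_closedBall

lemma Dk_integrable (hN : 3 ≤ N) (M : ℝ) (n n' : ℕ) : Integrable (Dk N M n n') := by
  unfold Dk
  rw [integrable_indicator_iff measurableSet_ball]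
  exact (moPhi_integrableOn hN M n).sub (moPhi_integrableOn hN M n')

lemma norm_sub_lt_of_mem {R : ℝ} (hΩ : Ω ⊆ Metric.ball 0 R) {x t : EuclideanSpace ℝ (Fin N)}
    (hx : ‖x‖ ≤ R) (ht : t ∈ Ω) : ‖x - t‖ < 2 * R := by
  have h1 : ‖t‖ < R := by simpa using hΩ ht
  have := norm_sub_le x t
  linarith

lemma cv_Kt_sub (hN : 3 ≤ N) {R : ℝ} (hΩ : Ω ⊆ Metric.ball 0 R) {ν : Measure (EuclideanSpace ℝ (Fin N))}
    [IsFiniteMeasure ν] (hν : ∀ᵐ t ∂ν, t ∈ Ω) (n n' : ℕ) {x : EuclideanSpace ℝ (Fin N)} (hx : ‖x‖ ≤ R) :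
    cv ν (fun _ => 1) (Kt (2 * R) n) x - cv ν (fun _ => 1) (Kt (2 * R) n') x =
      cv ν (fun _ => 1) (Dk N (2 * R) n n') x := by
  unfold cv
  rw [← integral_sub (cv_one_integrand (Kt_contDiff hN _ n).continuous (Kt_cpt _ n) x)
    (cv_one_integrand (Kt_contDiff hN _ n').continuous (Kt_cpt _ n') x)]
  refine integral_congr_ae ?_
  filter_upwards [hν] with t ht
  have h := norm_sub_lt_of_mem hΩ hx ht
  rw [Kt_eq h, Kt_eq h]
  unfold Dk
  rw [indicator_of_mem (by simpa using h)]
  ring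

/-- changing the mollification index -/
lemma diff_n (hN : 3 ≤ N) (hΩo : IsOpen Ω) {R : ℝ} (hR : 0 < R) (hΩ : Ω ⊆ Metric.ball 0 R)
    {i n n' : ℕ} {ε : ℝ} (hε : 0 ≤ ε)
    (hclose : ∀ z : EuclideanSpace ℝ (Fin N), 1 / ((i : ℝ) + 1) ≤ ‖z‖ → ‖z‖ ≤ 2 * R →
      |moPhi n z - moPhi n' z| ≤ ε)
    {v a : EuclideanSpace ℝ (Fin N) → ℝ} (hv : Weak Ω (phj Ω m i n) v)
    (ha : Weak Ω (phj Ω m i n') a) :
    ∫ x, |v x - a x| ≤ m.real univ * (∫ x, |Dk N (2 * R) n n' x|) +
      volume.real Ω * (ε * m.real univ) := by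
  have hN0 : 0 < N := by omega
  have hΩm := hΩo.measurableSet
  have hΩb : Bornology.IsBounded Ω := Metric.isBounded_ball.subset hΩ
  -- pointwise bound
  have key : ∀ (n n' : ℕ) (v a : EuclideanSpace ℝ (Fin N) → ℝ),
      (∀ z : EuclideanSpace ℝ (Fin N), 1 / ((i : ℝ) + 1) ≤ ‖z‖ → ‖z‖ ≤ 2 * R →
      |moPhi n z - moPhi n' z| ≤ ε) → Weak Ω (phj Ω m i n) v → Weak Ω (phj Ω m i n') a →
      ∀ᵐ x, x ∈ Ω → v x - a x ≤
        cv (m.restrict (exh Ω i)) (fun _ => 1) (Dk N (2 * R) n n') x + ε * m.real univ := by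
    intro n n' v a hclose hv ha
    have hνΩ : ∀ᵐ t ∂(m.restrict (exh Ω i)), t ∈ Ω := by
      filter_upwards [ae_restrict_mem (exh_closed i).measurableSet] with t ht
      exact exh_subset i ht
    have hsm : ∀ n, ContDiff ℝ ∞ (cv (m.restrict (exh Ω i)) (fun _ => 1) (Kt (2 * R) n)) := fun n =>
      cv_contDiff one_locInt (Kt_contDiff hN _ n) (Kt_cpt _ n)
    set W : EuclideanSpace ℝ (Fin N) → ℝ := fun x =>
      (1 * cv (m.restrict (exh Ω i)) (fun _ => 1) (Kt (2 * R) n) x +
        (-1) * cv (m.restrict (exh Ω i)) (fun _ => 1) (Kt (2 * R) n') x) + ε * m.real univ with hW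
    have hWs : ContDiff ℝ ∞ W :=
      ((contDiff_const.mul (hsm n)).add (contDiff_const.mul (hsm n'))).add contDiff_const
    have hWeq : ∀ x : EuclideanSpace ℝ (Fin N), ‖x‖ ≤ R → W x =
        cv (m.restrict (exh Ω i)) (fun _ => 1) (Dk N (2 * R) n n') x + ε * m.real univ := by
      intro x hx
      rw [← cv_Kt_sub hN hΩ hνΩ n n' hx]
      simp only [hW]; ring
    have hWlap : ∀ x ∈ Ω, Laplacian.laplacian W x = -(phj Ω m i n x) + phj Ω m i n' x := by
      intro x hx
      have hxR : ‖x‖ < R := by simpa using hΩ hx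
      have e1 : Laplacian.laplacian W x =
          1 * Laplacian.laplacian (cv (m.restrict (exh Ω i)) (fun _ => 1) (Kt (2 * R) n)) x +
          (-1) * Laplacian.laplacian (cv (m.restrict (exh Ω i)) (fun _ => 1) (Kt (2 * R) n')) x := by
        have hs1 : ContDiff ℝ 2 (cv (m.restrict (exh Ω i)) (fun _ => 1) (Kt (2 * R) n)) :=
          (hsm n).of_le (by norm_cast)
        have hs2 : ContDiff ℝ 2 (cv (m.restrict (exh Ω i)) (fun _ => 1) (Kt (2 * R) n')) :=
          (hsm n').of_le (by norm_cast)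
        rw [laplacian_eq_sum (hWs.of_le (by norm_cast)), laplacian_eq_sum hs1, laplacian_eq_sum hs2,
          Finset.mul_sum, Finset.mul_sum, ← Finset.sum_add_distrib]
        refine Finset.sum_congr rfl fun k _ => ?_
        have e2 : pd k W = fun x => 1 * pd k (cv (m.restrict (exh Ω i)) (fun _ => 1) (Kt (2 * R) n)) x +
          (-1) * pd k (cv (m.restrict (exh Ω i)) (fun _ => 1) (Kt (2 * R) n')) x := by
          ext y
          rw [← pd_comb ((hsm n).differentiable (by simp)) ((hsm n').differentiable (by simp))]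
          unfold pd
          rw [hW, fderiv_add_const]
        rw [e2, pd_comb]
        · exact (pd_contDiff_top (hsm n) k).differentiable (by simp)
        · exact (pd_contDiff_top (hsm n') k).differentiable (by simp)
      have hz : ∀ᵐ t ∂(m.restrict (exh Ω i)), R ≤ ‖t‖ → (1:ℝ) = 0 := by
        filter_upwards [hνΩ] with t ht h
        have h3 : ‖t‖ < R := by simpa using hΩ ht
        linarith
      rw [e1, laplacian_cv_Kt hN one_locInt hz hxR, laplacian_cv_Kt hN one_locInt hz hxR]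
      unfold phj
      ring
    have hWf : ∀ x ∈ frontier Ω, 0 ≤ W x := by
      intro x hx
      have hxR := frontier_norm_le hΩ hx
      have hxΩ : x ∉ Ω := by
        have := hx.2
        rwa [hΩo.interior_eq] at this
      rw [hWeq x hxR]
      have h1 : |cv (m.restrict (exh Ω i)) (fun _ => 1) (Dk N (2 * R) n n') x| ≤
          ε * (m.restrict (exh Ω i)).real univ := by
        unfold cv
        refine norm_integral_le_of_norm_le_const (μ := m.restrict (exh Ω i))
          (f := fun t => (1:ℝ) * Dk N (2 * R) n n' (x - t)) (C := ε) ?_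
        filter_upwards [ae_restrict_mem (exh_closed i).measurableSet] with t ht
        have h2 := norm_sub_lt_of_mem hΩ hxR (exh_subset i ht)
        rw [one_mul, Real.norm_eq_abs]
        unfold Dk
        rw [indicator_of_mem (by simpa using h2)]
        exact hclose _ (exh_dist ht hxΩ) h2.le
      have h3 : (m.restrict (exh Ω i)).real univ ≤ m.real univ := by
        rw [measureReal_restrict_apply_univ]
        exact measureReal_mono (subset_univ _)
      have h4 := neg_le_of_abs_le h1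
      have h5 : ε * (m.restrict (exh Ω i)).real univ ≤ ε * m.real univ := by gcongr
      linarith
    have h1 := comp_le hN0 hΩo hR hΩ (hv.sub ha) hWs hWf (by
      refine Eventually.of_forall fun x hx _ => ?_
      rw [hWlap x hx]
      linarith)
    filter_upwards [h1] with x hx hxΩ
    have hxR : ‖x‖ ≤ R := by
      have : ‖x‖ < R := by simpa using hΩ hxΩ
      exact this.le
    rw [← hWeq x hxR]
    exact hx hxΩ
  have k1 := key n n' v a hclose hv ha
  have k2 := key n' n a v (fun z h1 h2 => by rw [abs_sub_comm]; exact hclose z h1 h2) ha hv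
  have hD : ∀ x, cv (m.restrict (exh Ω i)) (fun _ => 1) (Dk N (2 * R) n' n) x =
      - cv (m.restrict (exh Ω i)) (fun _ => 1) (Dk N (2 * R) n n') x := by
    intro x
    unfold cv
    rw [← integral_neg]
    refine integral_congr_ae (Eventually.of_forall fun t => ?_)
    simp only [Dk]
    by_cases h : x - t ∈ Metric.ball (0 : EuclideanSpace ℝ (Fin N)) (2 * R)
    · rw [indicator_of_mem h, indicator_of_mem h]; ring
    · rw [indicator_of_notMem h, indicator_of_notMem h]; ring
  have hcvint : Integrable (fun x => |cv (m.restrict (exh Ω i)) (fun _ => 1) (Dk N (2 * R) n n') x|) :=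
    (cv_integrable (integrable_const 1) (Dk_integrable hN _ n n')).abs
  have hindint : Integrable (Ω.indicator (fun _ : EuclideanSpace ℝ (Fin N) => ε * m.real univ)) := by
    rw [integrable_indicator_iff hΩm]
    exact integrableOn_const hΩb.measure_lt_top.ne
  have hva : Integrable (fun x => |v x - a x|) := by
    have h2 := hv.memu.sub ha.memu
    have : MemLp (Ω.indicator (fun x => v x - a x)) 2 := h2.indicator hΩm
    have h3 : Integrable (Ω.indicator (fun x => v x - a x)) := by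
      rw [integrable_indicator_iff hΩm]
      have : IsFiniteMeasure (volume.restrict Ω) := ⟨by
        rw [Measure.restrict_apply_univ]; exact hΩb.measure_lt_top⟩
      exact (h2.restrict Ω).integrable (by norm_num)
    refine (h3.congr ?_).abs
    filter_upwards [hv.ae_zero hΩm, ha.ae_zero hΩm] with x h4 h5
    by_cases hx : x ∈ Ω
    · rw [indicator_of_mem hx]
    · rw [indicator_of_notMem hx, h4 hx, h5 hx, sub_zero]
  calc ∫ x, |v x - a x| ≤ ∫ x, (|cv (m.restrict (exh Ω i)) (fun _ => 1) (Dk N (2 * R) n n') x| +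
        Ω.indicator (fun _ : EuclideanSpace ℝ (Fin N) => ε * m.real univ) x) := by
        refine integral_mono_ae hva (hcvint.add hindint) ?_
        filter_upwards [k1, k2, hv.ae_zero hΩm, ha.ae_zero hΩm] with x h1 h2 h4 h5
        by_cases hx : x ∈ Ω
        · rw [indicator_of_mem hx]
          have h1' := h1 hx
          have h2' := h2 hx
          rw [hD] at h2'
          rw [abs_le]
          have h6 := le_abs_self (cv (m.restrict (exh Ω i)) (fun _ => 1) (Dk N (2 * R) n n') x)
          have h7 := neg_abs_le (cv (m.restrict (exh Ω i)) (fun _ => 1) (Dk N (2 * R) n n') x)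
          constructor <;> linarith
        · rw [indicator_of_notMem hx, h4 hx, h5 hx]
          simp
    _ = (∫ x, |cv (m.restrict (exh Ω i)) (fun _ => 1) (Dk N (2 * R) n n') x|) +
        volume.real Ω * (ε * m.real univ) := by
        rw [integral_add hcvint hindint, integral_indicator hΩm, setIntegral_const, smul_eq_mul]
    _ ≤ _ := by
        have h8 := cv_L1_le (ν := m.restrict (exh Ω i)) (f := fun _ => (1:ℝ)) (integrable_const 1)
          (Dk_integrable hN (2 * R) n n')
        have h9 : ∫ x, |(1:ℝ)| ∂(m.restrict (exh Ω i)) ≤ m.real univ := by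
          simp only [abs_one, integral_const, smul_eq_mul, mul_one]
          rw [measureReal_restrict_apply_univ]
          exact measureReal_mono (subset_univ _)
        have h10 : 0 ≤ ∫ x, |Dk N (2 * R) n n' x| := integral_nonneg fun x => abs_nonneg _
        have h11 := mul_le_mul_of_nonneg_right h9 h10
        linarith

end pieces

end

end Pool.Agent.H19.Good
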