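import Pool.Agent.H19.Good.LemV

/-!
Construction of the solution `V` of `-Δ V = m`.
-/

open MeasureTheory Set Filter Topology
open scoped Real ENNReal NNReal ContDiff Laplacian Pointwise

namespace Pool.Agent.H19.Good

noncomputable section

variable {N : ℕ}

variable {Ω : Set (EuclideanSpace ℝ (Fin N))}

/-- duality for convolutions -/
lemma cv_dual {ν : Measure (EuclideanSpace ℝ (Fin N))} [SFinite ν]
    {f g h : EuclideanSpace ℝ (Fin N) → ℝ} (hf : Integrable f ν) (hg : Integrable g)
    (hh : AEStronglyMeasurable h volume) {C : ℝ} (hC : ∀ x, |h x| ≤ C) :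
    ∫ x, cv ν f g x * h x = ∫ t, f t * (∫ x, h x * g (x - t)) ∂ν := by
  have h1 : Integrable (fun p : EuclideanSpace ℝ (Fin N) × EuclideanSpace ℝ (Fin N) =>
      f p.2 * g (p.1 - p.2)) (volume.prod ν) := by
    have := hf.convolution_integrand (ContinuousLinearMap.mul ℝ ℝ) hg
    simpa using this
  have h2 : Integrable (fun p : EuclideanSpace ℝ (Fin N) × EuclideanSpace ℝ (Fin N) =>
      h p.1 * (f p.2 * g (p.1 - p.2))) (volume.prod ν) := by
    refine h1.bdd_mul (c := C) ?_ (Eventually.of_forall fun p => by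
      rw [Real.norm_eq_abs]; exact hC _)
    exact hh.comp_fst
  have h3 := integral_integral_swap (f := fun x t => h x * (f t * g (x - t))) h2
  have e1 : ∀ x, cv ν f g x * h x = ∫ t, h x * (f t * g (x - t)) ∂ν := by
    intro x
    unfold cv
    rw [mul_comm, integral_const_mul]
  simp_rw [e1]
  rw [h3]
  refine integral_congr_ae (Eventually.of_forall fun t => ?_)
  simp only
  rw [← integral_const_mul]
  refine integral_congr_ae (Eventually.of_forall fun x => ?_)
  simp only
  ring

section main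

variable {m : Measure (EuclideanSpace ℝ (Fin N))} [IsFiniteMeasure m]

lemma ub_pot (hN : 3 ≤ N) (hΩo : IsOpen Ω) {R : ℝ} (hR : 0 < R) (hΩ : Ω ⊆ Metric.ball 0 R)
    (hm : m Ωᶜ = 0) {j n : ℕ} {v : EuclideanSpace ℝ (Fin N) → ℝ} (hv : Weak Ω (phj Ω m j n) v) :
    ∀ᵐ x, x ∈ Ω → v x ≤ cv m (fun _ => 1) (Kt (2 * R) n) x := by
  refine comp_le (by omega) hΩo hR hΩ hv (cv_contDiff one_locInt (Kt_contDiff hN _ n) (Kt_cpt _ n))
    (fun x _ => cv_nonneg (fun _ => zero_le_one) (Kt_nonneg hN _ n) x) ?_
  refine Eventually.of_forall fun x hx _ => ?_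
  have hz : ∀ᵐ t ∂m, R ≤ ‖t‖ → (1:ℝ) = 0 := by
    have h1 : ∀ᵐ t ∂m, t ∈ Ω := by
      rw [ae_iff]; exact hm
    filter_upwards [h1] with t ht h
    have h3 : ‖t‖ < R := by simpa using hΩ ht
    linarith
  rw [laplacian_cv_Kt hN one_locInt hz (by simpa using hΩ hx)]
  have := phj_le (Ω := Ω) (m := m) j n x
  linarith

/-- `L¹` size of the kernel error -/
def dk (N : ℕ) (M : ℝ) (n : ℕ) : ℝ :=
  ∫ x in Metric.ball (0 : EuclideanSpace ℝ (Fin N)) M, |moPhi n x - Phi x|

lemma dk_nonneg (M : ℝ) (n : ℕ) : 0 ≤ dk N M n := integral_nonneg fun x => abs_nonneg _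

lemma dk_lim (hN : 3 ≤ N) (M : ℝ) : Tendsto (fun n => dk N M n) atTop (𝓝 0) := moPhi_L1 hN M

lemma Dk_le (hN : 3 ≤ N) (M : ℝ) (n n' : ℕ) : ∫ x, |Dk N M n n' x| ≤ dk N M n + dk N M n' := by
  have i1 : IntegrableOn (fun x : EuclideanSpace ℝ (Fin N) => |moPhi n x - Phi x|) (Metric.ball 0 M) :=
    ((moPhi_integrableOn hN M n).sub (Phi_integrableOn_ball hN M)).abs
  have i2 : IntegrableOn (fun x : EuclideanSpace ℝ (Fin N) => |moPhi n' x - Phi x|) (Metric.ball 0 M) :=
    ((moPhi_integrableOn hN M n').sub (Phi_integrableOn_ball hN M)).abs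
  have e : ∫ x, |Dk N M n n' x| =
      ∫ x in Metric.ball (0 : EuclideanSpace ℝ (Fin N)) M, |moPhi n x - moPhi n' x| := by
    rw [← integral_indicator measurableSet_ball]
    refine integral_congr_ae (Eventually.of_forall fun x => ?_)
    simp only [Dk]
    by_cases hx : x ∈ Metric.ball (0 : EuclideanSpace ℝ (Fin N)) M
    · rw [indicator_of_mem hx, indicator_of_mem hx]
    · rw [indicator_of_notMem hx, indicator_of_notMem hx, abs_zero]
  rw [e]
  unfold dk
  rw [← integral_add i1 i2]
  refine integral_mono ((moPhi_integrableOn hN M n).sub (moPhi_integrableOn hN M n')).abs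
    (i1.add i2) fun x => ?_
  simp only
  calc |moPhi n x - moPhi n' x| = |(moPhi n x - Phi x) - (moPhi n' x - Phi x)| := by congr 1; ring
    _ ≤ _ := abs_sub _ _

lemma Kt_lim (hN : 3 ≤ N) (hΩm : MeasurableSet Ω) {R : ℝ} (hΩ : Ω ⊆ Metric.ball 0 R)
    (hm : m Ωᶜ = 0) :
    Tendsto (fun n => ∫ x in Ω, |cv m (fun _ => 1) (Kt (2 * R) n) x - cv m (fun _ => 1) (PhiT (2 * R)) x|)
      atTop (𝓝 0) := by
  have h1 : Tendsto (fun n => m.real univ * dk N (2 * R) n) atTop (𝓝 0) := by
    simpa using (dk_lim hN (2 * R)).const_mul (m.real univ)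
  refine squeeze_zero (fun n => integral_nonneg fun x => abs_nonneg _) (fun n => ?_) h1
  set D : EuclideanSpace ℝ (Fin N) → ℝ := (Metric.ball 0 (2 * R)).indicator
    (fun x => moPhi n x - Phi x) with hD
  have hDint : Integrable D := by
    rw [hD, integrable_indicator_iff measurableSet_ball]
    exact (moPhi_integrableOn hN _ n).sub (Phi_integrableOn_ball hN _)
  have hmΩ : ∀ᵐ t ∂m, t ∈ Ω := by
    rw [ae_iff]; exact hm
  have e1 : ∀ᵐ x, x ∈ Ω → cv m (fun _ => 1) (Kt (2 * R) n) x - cv m (fun _ => 1) (PhiT (2 * R)) x =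
      cv m (fun _ => 1) D x := by
    filter_upwards [cv_ae_integrable (ν := m) (f := fun _ => (1:ℝ)) (integrable_const 1)
      (PhiT_integrable (N := N) hN (2 * R))] with x hx hxΩ
    unfold cv
    rw [← integral_sub (cv_one_integrand (Kt_contDiff hN _ n).continuous (Kt_cpt _ n) x) hx]
    refine integral_congr_ae ?_
    filter_upwards [hmΩ] with t ht
    have hxR : ‖x‖ < R := by simpa using hΩ hxΩ
    have h2 := norm_sub_lt_of_mem hΩ hxR.le ht
    rw [Kt_eq h2, hD, PhiT, indicator_of_mem (by simpa using h2), indicator_of_mem (by simpa using h2)]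
    ring
  have e2 : ∫ x in Ω, |cv m (fun _ => 1) (Kt (2 * R) n) x - cv m (fun _ => 1) (PhiT (2 * R)) x| =
      ∫ x in Ω, |cv m (fun _ => 1) D x| := by
    refine setIntegral_congr_ae hΩm ?_
    filter_upwards [e1] with x hx hxΩ
    rw [hx hxΩ]
  rw [e2]
  have hcvint : Integrable (fun x => |cv m (fun _ => 1) D x|) :=
    (cv_integrable (integrable_const 1) hDint).abs
  refine (setIntegral_le_integral hcvint (Eventually.of_forall fun x => abs_nonneg _)).trans ?_
  refine (cv_L1_le (integrable_const 1) hDint).trans (le_of_eq ?_)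
  congr 1
  · simp
  · unfold dk
    rw [← integral_indicator measurableSet_ball]
    refine integral_congr_ae (Eventually.of_forall fun x => ?_)
    simp only [hD]
    by_cases hx : x ∈ Metric.ball (0 : EuclideanSpace ℝ (Fin N)) (2 * R)
    · rw [indicator_of_mem hx, indicator_of_mem hx]
    · rw [indicator_of_notMem hx, indicator_of_notMem hx, abs_zero]

lemma weak_integrable (hΩm : MeasurableSet Ω) (hΩb : Bornology.IsBounded Ω)
    {φ u : EuclideanSpace ℝ (Fin N) → ℝ} (hu : Weak Ω φ u) : Integrable u := by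
  have h3 : Integrable (Ω.indicator u) := by
    rw [integrable_indicator_iff hΩm]
    have : IsFiniteMeasure (volume.restrict Ω) := ⟨by
      rw [Measure.restrict_apply_univ]; exact hΩb.measure_lt_top⟩
    exact (hu.memu.restrict Ω).integrable (by norm_num)
  refine h3.congr ?_
  filter_upwards [hu.ae_zero hΩm] with x h4
  by_cases hx : x ∈ Ω
  · rw [indicator_of_mem hx]
  · rw [indicator_of_notMem hx, h4 hx]

lemma exh_tail (hm : m Ωᶜ = 0) (hΩo : IsOpen Ω) (hne : Ωᶜ.Nonempty) :
    Tendsto (fun i => m.real (exh Ω i)ᶜ) atTop (𝓝 0) := by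
  have h1 : Tendsto (fun i => m (exh Ω i)) atTop (𝓝 (m Ω)) := by
    have := tendsto_measure_iUnion_atTop (μ := m) (exh_mono (Ω := Ω))
    rwa [exh_iUnion hΩo hne] at this
  have hmu : m Ω = m univ := by
    have := measure_add_measure_compl (μ := m) hΩo.measurableSet
    rw [hm, add_zero] at this
    exact this
  have h2 : Tendsto (fun i => m.real (exh Ω i)) atTop (𝓝 (m.real univ)) := by
    rw [hmu] at h1
    exact (ENNReal.tendsto_toReal (measure_ne_top m univ)).comp h1
  have h3 : ∀ i, m.real (exh Ω i)ᶜ = m.real univ - m.real (exh Ω i) := fun i => by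
    rw [measureReal_compl (exh_closed i).measurableSet]
  simp_rw [h3]
  simpa using (tendsto_const_nhds (x := m.real univ)).sub h2

/-- test function limit -/
lemma phj_test (hΩo : IsOpen Ω) {R : ℝ} (hΩ : Ω ⊆ Metric.ball 0 R) (hne : Ωᶜ.Nonempty)
    (hm : m Ωᶜ = 0) {nn : ℕ → ℕ} (hnn : ∀ j, j ≤ nn j) {ζ : EuclideanSpace ℝ (Fin N) → ℝ}
    (hζ : Continuous ζ) :
    Tendsto (fun j => ∫ x in Ω, phj Ω m j (nn j) x * ζ x) atTop (𝓝 (∫ x, ζ x ∂m)) := by
  have hΩm := hΩo.measurableSet
  have hΩb : Bornology.IsBounded Ω := Metric.isBounded_ball.subset hΩ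
  obtain ⟨C, hC⟩ := (Metric.isCompact_of_isClosed_isBounded isClosed_closure
    hΩb.closure).exists_bound_of_continuousOn hζ.continuousOn
  set ζ' := Ω.indicator ζ with hζ'
  have hb : ∀ x, |ζ' x| ≤ |C| := by
    intro x
    by_cases hx : x ∈ Ω
    · rw [hζ', indicator_of_mem hx]; exact (hC x (subset_closure hx)).trans (le_abs_self _)
    · rw [hζ', indicator_of_notMem hx]; simp
  have hζm : Measurable ζ' := hζ.measurable.indicator hΩm
  have hmΩ : ∀ᵐ t ∂m, t ∈ Ω := by
    rw [ae_iff]; exact hm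
  have e1 : ∫ x, ζ x ∂m = ∫ x, ζ' x ∂m := by
    refine integral_congr_ae ?_
    filter_upwards [hmΩ] with t ht
    rw [hζ', indicator_of_mem ht]
  have e2 : ∀ j, ∫ x in Ω, phj Ω m j (nn j) x * ζ x =
      ∫ t in exh Ω j, cv volume ζ' (moll (nn j)) t ∂m := by
    intro j
    have h1 : ∫ x in Ω, phj Ω m j (nn j) x * ζ x = ∫ x, phj Ω m j (nn j) x * ζ' x := by
      rw [← integral_indicator hΩm]
      refine integral_congr_ae (Eventually.of_forall fun x => ?_)
      by_cases hx : x ∈ Ω
      · simp only [hζ', indicator_of_mem hx]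
      · simp only [hζ', indicator_of_notMem hx, mul_zero]
    rw [h1]
    unfold phj
    rw [cv_dual (integrable_const 1) (moll_integrable (nn j)) hζm.aestronglyMeasurable hb]
    refine integral_congr_ae (Eventually.of_forall fun t => ?_)
    simp only [one_mul]
    unfold cv
    refine integral_congr_ae (Eventually.of_forall fun x => ?_)
    simp only
    rw [moll_sub_comm]
  have hint : ∀ n, Integrable (cv volume ζ' (moll n)) m := by
    intro n
    have hloc : LocallyIntegrable ζ' := by
      refine (Integrable.locallyIntegrable ?_)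
      rw [hζ', integrable_indicator_iff hΩm]
      exact (hζ.continuousOn.integrableOn_compact (isCompact_closedBall (0 : EuclideanSpace ℝ (Fin N)) R)).mono_set
        (hΩ.trans Metric.ball_subset_closedBall)
    have hc : Continuous (cv volume ζ' (moll n)) :=
      (cv_contDiff hloc (moll_contDiff n) (moll_cpt n)).continuous
    exact (integrable_const |C|).mono' hc.aestronglyMeasurable
      (Eventually.of_forall fun x => cv_moll_bound hb x)
  have hint' : Integrable ζ' m :=
    (integrable_const |C|).mono' hζm.aestronglyMeasurable (Eventually.of_forall fun x => hb x)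
  rw [e1]
  simp_rw [e2]
  rw [Metric.tendsto_atTop]
  intro ε hε
  -- uniform continuity
  have huc := (isCompact_closedBall (0 : EuclideanSpace ℝ (Fin N)) (R + 1)).uniformContinuousOn_of_continuous
    hζ.continuousOn
  rw [Metric.uniformContinuousOn_iff] at huc
  obtain ⟨d, hd, hd'⟩ := huc (ε / (4 * (m.real univ + 1))) (by positivity)
  obtain ⟨n0, hn0⟩ := exists_nat_one_div_lt (show 0 < min d 1 by positivity)
  have htail := exh_tail (m := m) hm hΩo hne
  rw [Metric.tendsto_atTop] at htail
  obtain ⟨n1, hn1⟩ := htail (ε / (4 * (|C| + 1))) (by positivity)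
  refine ⟨max n0 n1, fun j hj => ?_⟩
  have hj0 : n0 ≤ j := le_of_max_le_left hj
  have hj1 := hn1 j (le_of_max_le_right hj)
  rw [Real.dist_eq, sub_zero, abs_of_nonneg measureReal_nonneg] at hj1
  have h1 : |∫ t in exh Ω j, (cv volume ζ' (moll (nn j)) t - ζ' t) ∂m| ≤
      ε / (4 * (m.real univ + 1)) * (m.restrict (exh Ω j)).real univ := by
    refine norm_integral_le_of_norm_le_const (μ := m.restrict (exh Ω j))
      (f := fun t => cv volume ζ' (moll (nn j)) t - ζ' t) ?_
    filter_upwards [ae_restrict_mem (exh_closed j).measurableSet] with t ht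
    rw [Real.norm_eq_abs]
    refine cv_moll_dist hζm.aestronglyMeasurable fun y hy => ?_
    have htΩ := exh_subset j ht
    have hyj : ‖y - t‖ < 1 / ((j : ℝ) + 1) := by
      refine hy.trans_le (one_div_le_one_div_of_le (by positivity) ?_)
      have := hnn j
      gcongr
    have hyΩ : y ∈ Ω := by
      by_contra h
      have := exh_dist ht h
      linarith
    rw [hζ', indicator_of_mem htΩ, indicator_of_mem hyΩ]
    have h2 : ‖y - t‖ < min d 1 := by
      refine hyj.trans_le ((one_div_le_one_div_of_le (by positivity) ?_).trans hn0.le)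
      gcongr
    have h3 := hd' y (by
      have : ‖y‖ < R := by simpa using hΩ hyΩ
      simp only [Metric.mem_closedBall, dist_zero_right]; linarith) t (by
      have : ‖t‖ < R := by simpa using hΩ htΩ
      simp only [Metric.mem_closedBall, dist_zero_right]; linarith) (by
      rw [dist_eq_norm]; exact h2.trans_le (min_le_left _ _))
    rw [Real.dist_eq] at h3
    exact h3.le
  have h4 : |∫ t in (exh Ω j)ᶜ, ζ' t ∂m| ≤ |C| * (m.restrict (exh Ω j)ᶜ).real univ :=
    norm_integral_le_of_norm_le_const (μ := m.restrict (exh Ω j)ᶜ)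
      (f := fun t => ζ' t) (Eventually.of_forall fun t => hb t)
  rw [measureReal_restrict_apply_univ] at h1 h4
  have h5 : ∫ t, ζ' t ∂m = (∫ t in exh Ω j, ζ' t ∂m) + ∫ t in (exh Ω j)ᶜ, ζ' t ∂m :=
    (integral_add_compl (exh_closed j).measurableSet hint').symm
  rw [integral_sub (hint _).integrableOn hint'.integrableOn] at h1
  have h6 : m.real (exh Ω j) ≤ m.real univ := measureReal_mono (subset_univ _)
  have h7 : ε / (4 * (m.real univ + 1)) * m.real (exh Ω j) ≤ ε / 4 := by
    have hmu : 0 ≤ m.real univ := measureReal_nonneg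
    calc ε / (4 * (m.real univ + 1)) * m.real (exh Ω j) ≤
        ε / (4 * (m.real univ + 1)) * (m.real univ + 1) := by gcongr; linarith
      _ = ε / 4 := by field_simp
  have h8 : |C| * m.real (exh Ω j)ᶜ ≤ ε / 4 := by
    calc |C| * m.real (exh Ω j)ᶜ ≤ (|C| + 1) * (ε / (4 * (|C| + 1))) := by
          gcongr; linarith
      _ = ε / 4 := by field_simp
  rw [Real.dist_eq, h5]
  rw [abs_le] at h1 h4
  rw [abs_lt]
  constructor <;> linarith

end main

end

end Pool.Agent.H19.Good
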