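import Pool.Agent.H19.Good.LemV2

/-!
Main construction of the solution `V` of `-Δ V = m`.
-/

open MeasureTheory Set Filter Topology
open scoped Real ENNReal NNReal ContDiff Laplacian Pointwise

namespace Pool.Agent.H19.Good

noncomputable section

variable {N : ℕ}

variable {Ω : Set (EuclideanSpace ℝ (Fin N))}

lemma compl_nonempty_of_bdd (hN : 0 < N) (hΩb : Bornology.IsBounded Ω) : Ωᶜ.Nonempty := by
  by_contra h
  rw [not_nonempty_iff_eq_empty, compl_empty_iff] at h
  rw [h] at hΩb
  have : Nonempty (Fin N) := ⟨⟨0, hN⟩⟩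
  exact NormedSpace.unbounded_univ ℝ (EuclideanSpace ℝ (Fin N)) hΩb

theorem exists_V (hN : 3 ≤ N) (hΩo : IsOpen Ω) {R : ℝ} (hR : 0 < R) (hΩ : Ω ⊆ Metric.ball 0 R)
    (m : Measure (EuclideanSpace ℝ (Fin N))) [IsFiniteMeasure m] (hm : m Ωᶜ = 0) :
    ∃ V v φ n, LV Ω m R V v φ n := by
  have hN0 : 0 < N := by omega
  have hΩm := hΩo.measurableSet
  have hΩb : Bornology.IsBounded Ω := Metric.isBounded_ball.subset hΩ
  have hne := compl_nonempty_of_bdd hN0 hΩb
  -- choice of indices
  have hc : ∀ i : ℕ, ∃ n0, ∀ n ≥ n0, ∀ z : EuclideanSpace ℝ (Fin N), 1 / ((i : ℝ) + 1) ≤ ‖z‖ →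
      ‖z‖ ≤ 2 * R → |moPhi n z - Phi z| ≤ 1 / ((i : ℝ) + 1) := fun i =>
    moPhi_unif (by positivity) (by positivity)
  choose c hc using hc
  let nn : ℕ → ℕ := fun j => j + ∑ i ∈ Finset.range (j + 1), c i
  have hnn_ge : ∀ j, j ≤ nn j := fun j => Nat.le_add_right _ _
  have hnn_c : ∀ i j, i ≤ j → c i ≤ nn j := by
    intro i j hij
    have : c i ≤ ∑ i ∈ Finset.range (j + 1), c i :=
      Finset.single_le_sum (fun _ _ => Nat.zero_le _) (Finset.mem_range.2 (by omega))
    simp only [nn]; omega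
  have hv := fun j => exists_vj (m := m) hN0 hR hΩ (hnn_ge j)
  choose v hvm hvw using hv
  -- the Cauchy estimate
  set τ : ℕ → ℝ := fun i => m.real (exh Ω i)ᶜ with hτ
  have hτl : Tendsto τ atTop (𝓝 0) := exh_tail hm hΩo hne
  have hest : ∀ i j, i ≤ j → ∫ x, |v j x - v i x| ≤ R ^ 2 * τ i +
      (m.real univ * (dk N (2 * R) (nn j) + dk N (2 * R) (nn i)) +
        volume.real Ω * (2 * (1 / ((i : ℝ) + 1)) * m.real univ)) := by
    intro i j hij
    obtain ⟨a, ham, haw⟩ := exists_vj (m := m) (Ω := Ω) hN0 hR hΩ (hij.trans (hnn_ge j))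
    have h1 := diff_j hN0 hΩo hR hΩ hij (hvm j) ham (hvw j) haw
    have h2 := diff_n hN hΩo hR hΩ (ε := 2 * (1 / ((i : ℝ) + 1))) (by positivity) (fun z hz1 hz2 => by
      have h3 := hc i (nn j) (hnn_c i j hij) z hz1 hz2
      have h4 := hc i (nn i) (hnn_c i i le_rfl) z hz1 hz2
      calc |moPhi (nn j) z - moPhi (nn i) z| =
          |(moPhi (nn j) z - Phi z) - (moPhi (nn i) z - Phi z)| := by congr 1; ring
        _ ≤ |moPhi (nn j) z - Phi z| + |moPhi (nn i) z - Phi z| := abs_sub _ _
        _ ≤ _ := by linarith) haw (hvw i)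
    have h5 : m.real (exh Ω j \ exh Ω i) ≤ τ i := measureReal_mono (fun x hx => hx.2)
    have h6 := Dk_le (N := N) hN (2 * R) (nn j) (nn i)
    have hi1 : Integrable (fun x => |v j x - a x|) :=
      ((weak_integrable hΩm hΩb (hvw j)).sub (weak_integrable hΩm hΩb haw)).abs
    have hi2 : Integrable (fun x => |a x - v i x|) :=
      ((weak_integrable hΩm hΩb haw).sub (weak_integrable hΩm hΩb (hvw i))).abs
    calc ∫ x, |v j x - v i x| ≤ ∫ x, (|v j x - a x| + |a x - v i x|) := by
          refine integral_mono ((weak_integrable hΩm hΩb (hvw j)).sub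
            (weak_integrable hΩm hΩb (hvw i))).abs (hi1.add hi2) fun x => ?_
          exact abs_sub_le _ _ _
      _ = (∫ x, |v j x - a x|) + ∫ x, |a x - v i x| := integral_add hi1 hi2
      _ ≤ _ := by
          have hmu : 0 ≤ m.real univ := measureReal_nonneg
          have h7 : R ^ 2 * m.real (exh Ω j \ exh Ω i) ≤ R ^ 2 * τ i := by gcongr
          have h8 : m.real univ * (∫ x, |Dk N (2 * R) (nn j) (nn i) x|) ≤
            m.real univ * (dk N (2 * R) (nn j) + dk N (2 * R) (nn i)) := by gcongr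
          linarith
  have hnnlim : Tendsto nn atTop atTop := tendsto_atTop_mono hnn_ge tendsto_id
  have hdl : Tendsto (fun j => dk N (2 * R) (nn j)) atTop (𝓝 0) := (dk_lim hN (2 * R)).comp hnnlim
  have hcauchy : ∀ ε > 0, ∃ n0, ∀ j ≥ n0, ∀ i ≥ n0, ∫ x, |v j x - v i x| ≤ ε := by
    intro ε hε
    have hmu : 0 ≤ m.real univ := measureReal_nonneg
    have hvu : 0 ≤ volume.real Ω := measureReal_nonneg
    have l1 : ∀ᶠ i in atTop, R ^ 2 * τ i < ε / 4 := by
      have := hτl.const_mul (R ^ 2)
      rw [mul_zero] at this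
      exact this.eventually (gt_mem_nhds (by positivity))
    have l2 : ∀ᶠ i in atTop, m.real univ * dk N (2 * R) (nn i) < ε / 4 := by
      have := hdl.const_mul (m.real univ)
      rw [mul_zero] at this
      exact this.eventually (gt_mem_nhds (by positivity))
    have l3 : ∀ᶠ i : ℕ in atTop, volume.real Ω * (2 * (1 / ((i : ℝ) + 1)) * m.real univ) < ε / 4 := by
      have h1 := (((tendsto_one_div_add_atTop_nhds_zero_nat (𝕜 := ℝ)).const_mul 2).mul_const
        (m.real univ)).const_mul (volume.real Ω)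
      simp only [mul_zero, zero_mul] at h1
      exact h1.eventually (gt_mem_nhds (by positivity))
    obtain ⟨n0, hn0⟩ := eventually_atTop.1 (l1.and (l2.and l3))
    have hw : ∀ i j, n0 ≤ i → i ≤ j → ∫ x, |v j x - v i x| ≤ ε := by
      intro i j hi hij
      have h1 := hest i j hij
      have h2 := hn0 i hi
      have h3 := hn0 j (hi.trans hij)
      have h4 : m.real univ * (dk N (2 * R) (nn j) + dk N (2 * R) (nn i)) =
        m.real univ * dk N (2 * R) (nn j) + m.real univ * dk N (2 * R) (nn i) := by ring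
      linarith [h2.1, h2.2.1, h2.2.2, h3.2.1]
    refine ⟨n0, fun j hj i hi => ?_⟩
    rcases le_total i j with h | h
    · exact hw i j hi h
    · have := hw j i hj h
      simp_rw [abs_sub_comm (v j _)]
      exact this
  obtain ⟨V, hVm, hVi, hVl⟩ := exists_L1_limit (fun j => weak_integrable hΩm hΩb (hvw j)) hcauchy
  have hl0 : ∀ f : EuclideanSpace ℝ (Fin N) → ℝ, Tendsto (fun _ : ℕ => ∫ x, |f x - f x|) atTop (𝓝 0) := by
    intro f; simp
  refine ⟨V, v, fun j => phj Ω m j (nn j), nn, ?_⟩
  refine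
    { measV := hVm
      intV := hVi
      nonneg := ?_
      zero := ?_
      le_pot := ?_
      measv := hvm
      weak := hvw
      φnn := fun j x => phj_nonneg j _ x
      φle := fun j x => phj_le j _ x
      φsmooth := fun j => phj_smooth j _
      φzero := fun j x hx => phj_zero (hnn_ge j) hx
      nlim := hnnlim
      φint := fun j => phj_integrable j _
      φmass := fun j => by rw [phj_integral]; exact measureReal_mono (subset_univ _)
      lim := hVl
      test := fun ζ hζ => phj_test hΩo hΩ hne hm hnn_ge hζ }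
  · refine le_of_L1_limits (f := fun _ _ => (0:ℝ)) (g := v) (fun n => integrable_zero _ _ _)
      (fun j => weak_integrable hΩm hΩb (hvw j)) (integrable_zero _ _ _) hVi (fun j => ?_) (by simp) hVl
    exact weak_nonneg hN0 hΩo hR hΩ (hvw j) (Eventually.of_forall fun x _ _ => phj_nonneg j _ x)
  · have h1 : Tendsto (fun j => ∫ x in Ωᶜ, |v j x - V x|) atTop (𝓝 0) := by
      refine squeeze_zero (fun n => integral_nonneg fun x => abs_nonneg _) (fun n => ?_) hVl
      exact setIntegral_le_integral ((weak_integrable hΩm hΩb (hvw n)).sub hVi).abs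
        (Eventually.of_forall fun x => abs_nonneg _)
    have h2 : ∀ j, ∫ x in Ωᶜ, |v j x - V x| = ∫ x in Ωᶜ, |V x| := by
      intro j
      refine setIntegral_congr_ae hΩm.compl ?_
      filter_upwards [(hvw j).ae_zero hΩm] with x hx hxΩ
      rw [hx hxΩ, zero_sub, abs_neg]
    simp_rw [h2] at h1
    have h3 : ∫ x in Ωᶜ, |V x| = 0 := tendsto_nhds_unique tendsto_const_nhds h1
    rw [setIntegral_eq_zero_iff_of_nonneg_ae (Eventually.of_forall fun x => abs_nonneg _)
      hVi.abs.integrableOn, Filter.EventuallyEq, ae_restrict_iff' hΩm.compl] at h3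
    filter_upwards [h3] with x hx hxΩ
    simpa using hx hxΩ
  · have hmΩ : ∀ᵐ t ∂m, t ∈ Ω := by
      rw [ae_iff]; exact hm
    have hpi : Integrable (cv m (fun _ => 1) (PhiT (2 * R))) :=
      cv_integrable (integrable_const 1) (PhiT_integrable hN _)
    have hKi : ∀ n, IntegrableOn (cv m (fun _ => 1) (Kt (2 * R) n)) Ω := fun n =>
      (cv_integrable (integrable_const 1)
        ((Kt_contDiff hN _ n).continuous.integrable_of_hasCompactSupport (Kt_cpt _ n))).integrableOn
    have h1 := le_of_L1_limits (μ := volume.restrict Ω) (f := v)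
      (g := fun j => cv m (fun _ => 1) (Kt (2 * R) (nn j))) (f' := V)
      (g' := cv m (fun _ => 1) (PhiT (2 * R)))
      (fun j => (weak_integrable hΩm hΩb (hvw j)).integrableOn) (fun j => hKi (nn j))
      hVi.integrableOn hpi.integrableOn (fun j => ?_) ?_ ?_
    · rwa [ae_restrict_iff' hΩm] at h1
    · rw [ae_restrict_iff' hΩm]
      exact ub_pot hN hΩo hR hΩ hm (hvw j)
    · refine squeeze_zero (fun n => integral_nonneg fun x => abs_nonneg _) (fun n => ?_) hVl
      exact setIntegral_le_integral ((weak_integrable hΩm hΩb (hvw n)).sub hVi).abs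
        (Eventually.of_forall fun x => abs_nonneg _)
    · exact (Kt_lim hN hΩm hΩ hm).comp hnnlim

end

end Pool.Agent.H19.Good
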