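import Pool.Agent.H19.Good.Cap

/-!
If `m(K) ≤ cap(K)` for all compact `K`, there are no cheap potentials.
-/

open MeasureTheory Set Filter Topology
open scoped Real ENNReal NNReal ContDiff Laplacian Pointwise

namespace Pool.Agent.H19.Good

noncomputable section

/-- `L¹` convergence implies a.e. convergence of a subsequence -/
lemma exists_subseq_ae {α : Type*} [MeasurableSpace α] {μ : Measure α} {f : ℕ → α → ℝ} {g : α → ℝ}
    (hf : ∀ n, Integrable (f n) μ) (hg : Integrable g μ)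
    (h : Tendsto (fun n => ∫ x, |f n x - g x| ∂μ) atTop (𝓝 0)) :
    ∃ ns : ℕ → ℕ, StrictMono ns ∧ ∀ᵐ x ∂μ, Tendsto (fun i => f (ns i) x) atTop (𝓝 (g x)) := by
  have h1 : TendstoInMeasure μ f atTop g := by
    refine tendstoInMeasure_of_tendsto_eLpNorm (p := 1) one_ne_zero
      (fun n => (hf n).aestronglyMeasurable) hg.aestronglyMeasurable ?_
    have h2 : ∀ n, eLpNorm (f n - g) 1 μ = ENNReal.ofReal (∫ x, |f n x - g x| ∂μ) := by
      intro n
      rw [eLpNorm_one_eq_lintegral_enorm, ← ofReal_integral_norm_eq_lintegral_enorm ((hf n).sub hg)]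
      rfl
    simp_rw [h2]
    have := ENNReal.tendsto_ofReal h
    rwa [ENNReal.ofReal_zero] at this
  exact h1.exists_seq_tendsto_ae

lemma L1_of_L2 {α : Type*} [MeasurableSpace α] {μ : Measure α} [IsFiniteMeasure μ] {f : ℕ → α → ℝ}
    {g : α → ℝ} (hf : ∀ n, MemLp (f n) 2 μ) (hg : MemLp g 2 μ)
    (h : Tendsto (fun n => ∫ x, (f n x - g x) ^ 2 ∂μ) atTop (𝓝 0)) :
    Tendsto (fun n => ∫ x, |f n x - g x| ∂μ) atTop (𝓝 0) := by
  have h1 : Tendsto (fun n => √(∫ x, (f n x - g x) ^ 2 ∂μ) * √(∫ _, (1:ℝ) ^ 2 ∂μ)) atTop (𝓝 0) := by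
    have := h.sqrt.mul_const (√(∫ _, (1:ℝ) ^ 2 ∂μ))
    rwa [Real.sqrt_zero, zero_mul] at this
  refine squeeze_zero (fun n => integral_nonneg fun x => abs_nonneg _) (fun n => ?_) h1
  have := cs_abs ((hf n).sub hg) (memLp_const (1:ℝ))
  simpa using this

variable {N : ℕ}

variable {Ω : Set (EuclideanSpace ℝ (Fin N))}

variable {m : Measure (EuclideanSpace ℝ (Fin N))} [IsFiniteMeasure m] {R : ℝ}

/-- sequences with small mass and bounded potentials -/
structure SSeq (R : ℝ) (s : ℕ → EuclideanSpace ℝ (Fin N) → ℝ) : Prop where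
  bd : ∀ n, ∃ C, Bd R C (s n)
  nonneg : ∀ n x, 0 ≤ s n x
  mass : ∀ n, ∫ x, s n x ≤ 1 / ((n : ℝ) + 1)
  pot_le : ∀ n x, pot (s n) x ≤ 2

/-- single-level estimate -/
lemma level (hN : 3 ≤ N) {K : Set (EuclideanSpace ℝ (Fin N))} {a : ℝ} (ha : 0 < a) {r : ℝ} (hr : 0 < r)
    (hcap : ∀ B : ℝ, ∀ η > 0, ∃ δ > 0, ∀ s, Adm K δ B s → m.real K - η ≤ cost s)
    {s : ℕ → EuclideanSpace ℝ (Fin N) → ℝ} (hs : SSeq R s)
    (hlow : ∀ ε > 0, ∃ n0, ∀ n ≥ n0, ∀ x ∈ K, a - ε ≤ pot (s n) x) {ε : ℝ} (hε : 0 < ε) :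
    ∃ n0, ∀ n ≥ n0, a * m.real K - ε ≤ cost ((Metric.thickening r K).indicator (s n)) := by
  set U := Metric.thickening r K with hU
  have hUm : MeasurableSet U := Metric.isOpen_thickening.measurableSet
  have hk := kap_pos hN
  set mK := m.real K with hmK
  have hmK0 : 0 ≤ mK := measureReal_nonneg
  set ε₁ : ℝ := min (a / 4) (ε / (6 * (mK + 1))) with hε₁
  have hε₁0 : 0 < ε₁ := by positivity
  have hε₁a : ε₁ ≤ a / 4 := min_le_left _ _
  have hε₁m : 2 * ε₁ * mK ≤ ε / 3 := by
    have h1 : ε₁ ≤ ε / (6 * (mK + 1)) := min_le_right _ _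
    calc 2 * ε₁ * mK ≤ 2 * (ε / (6 * (mK + 1))) * (mK + 1) := by gcongr; linarith
      _ = ε / 3 := by field_simp; ring
  set a' : ℝ := a - 2 * ε₁ with ha'
  have ha'1 : a / 2 ≤ a' := by linarith
  have ha'0 : 0 < a' := by linarith
  have ha'a : a' ≤ a := by linarith
  set η' : ℝ := ε / (3 * (a + 1)) with hη'
  have hη'0 : 0 < η' := by positivity
  have haη : a * η' ≤ ε / 3 := by
    calc a * η' ≤ (a + 1) * (ε / (3 * (a + 1))) := by gcongr; linarith
      _ = ε / 3 := by field_simp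
  set B : ℝ := 4 / a with hB
  have hB0 : 0 ≤ B := by positivity
  obtain ⟨δ, hδ, hadm⟩ := hcap (2 * B + 2) η' hη'0
  obtain ⟨n1, hn1⟩ := hlow ε₁ hε₁0
  -- smallness of masses
  have hl := tendsto_one_div_add_atTop_nhds_zero_nat (𝕜 := ℝ)
  have l1 : ∀ᶠ n : ℕ in atTop, 1 / a' * (1 / ((n : ℝ) + 1)) < δ / 2 := by
    have := hl.const_mul (1 / a')
    rw [mul_zero] at this
    exact this.eventually (gt_mem_nhds (by positivity))
  have l2 : ∀ᶠ n : ℕ in atTop, kap N / r ^ (N - 2) * (1 / ((n : ℝ) + 1)) < ε₁ := by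
    have := hl.const_mul (kap N / r ^ (N - 2))
    rw [mul_zero] at this
    exact this.eventually (gt_mem_nhds (by positivity))
  have l3 : ∀ᶠ n : ℕ in atTop, Real.posLog (1 / a') * (1 / ((n : ℝ) + 1)) < ε / 3 := by
    have := hl.const_mul (Real.posLog (1 / a'))
    rw [mul_zero] at this
    exact this.eventually (gt_mem_nhds (by positivity))
  obtain ⟨n2, hn2⟩ := eventually_atTop.1 (l1.and (l2.and l3))
  refine ⟨max n1 n2, fun n hn => ?_⟩
  have hn1' := hn1 n (le_of_max_le_left hn)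
  obtain ⟨hm1, hm2, hm3⟩ := hn2 n (le_of_max_le_right hn)
  obtain ⟨C, hC⟩ := hs.bd n
  have hs0 := hs.nonneg n
  have hmass := hs.mass n
  have hUb : Bd R C (U.indicator (s n)) := hC.indicator hUm
  have hUcb : Bd R C (Uᶜ.indicator (s n)) := hC.indicator hUm.compl
  have hU0 : ∀ x, 0 ≤ U.indicator (s n) x := indicator_nonneg fun x _ => hs0 x
  have hUc0 : ∀ x, 0 ≤ Uᶜ.indicator (s n) x := indicator_nonneg fun x _ => hs0 x
  have hUmass : ∫ x, U.indicator (s n) x ≤ 1 / ((n : ℝ) + 1) :=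
    (integral_mono hUb.integrable hC.integrable (indicator_le_self' fun x _ => hs0 x)).trans hmass
  have hUcmass : ∫ x, Uᶜ.indicator (s n) x ≤ 1 / ((n : ℝ) + 1) :=
    (integral_mono hUcb.integrable hC.integrable (indicator_le_self' fun x _ => hs0 x)).trans hmass
  have hUint0 : 0 ≤ ∫ x, U.indicator (s n) x := integral_nonneg hU0
  have hsplit : ∀ x, pot (s n) x = pot (U.indicator (s n)) x + pot (Uᶜ.indicator (s n)) x := by
    intro x
    have h1 := pot_comb hN hUb hUcb 1 1 x
    rw [one_mul, one_mul] at h1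
    rw [← h1]
    congr 1
    ext y
    rw [one_mul, one_mul]
    exact (congrFun (indicator_self_add_compl U (s n)) y).symm
  have hpotU : ∀ x ∈ K, a' ≤ pot (U.indicator (s n)) x := by
    intro x hx
    have h1 := hn1' x hx
    have h2 := hUcb.pot_far hN hUc0 hr (x := x) (fun t ht => by
      have h3 : t ∉ U := by
        intro h4
        exact ht (indicator_of_notMem (fun h5 : t ∈ Uᶜ => h5 h4) _)
      by_contra h6
      push Not at h6
      exact h3 (Metric.mem_thickening_iff.2 ⟨x, hx, by rwa [dist_comm, dist_eq_norm]⟩))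
    have h7 : kap N / r ^ (N - 2) * ∫ t, Uᶜ.indicator (s n) t ≤
        kap N / r ^ (N - 2) * (1 / ((n : ℝ) + 1)) := by gcongr
    rw [hsplit x] at h1
    linarith
  have hτ := hUb.const_mul (1 / a')
  have h1a' : 0 ≤ 1 / a' := by positivity
  have h8 : m.real K - η' ≤ cost (fun x => 1 / a' * U.indicator (s n) x) := by
    refine cap_bd hN hadm hτ (fun x => mul_nonneg h1a' (hU0 x)) ?_ ?_ ?_ hB0
    · rw [integral_const_mul]
      have : 1 / a' * ∫ x, U.indicator (s n) x ≤ 1 / a' * (1 / ((n : ℝ) + 1)) := by gcongr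
      linarith
    · intro x hx
      rw [pot_const_mul]
      have := hpotU x hx
      rw [one_div, inv_mul_eq_div, le_div_iff₀ ha'0, one_mul]
      exact this
    · intro x
      rw [pot_const_mul]
      have h9 : pot (U.indicator (s n)) x ≤ 2 := by
        have h10 := hs.pot_le n x
        rw [hsplit x] at h10
        have h11 := pot_nonneg hN hUc0 x
        linarith
      have h12 : 1 / a' ≤ 2 / a := by
        rw [div_le_div_iff₀ ha'0 ha]; linarith
      calc 1 / a' * pot (U.indicator (s n)) x ≤ 2 / a * 2 := by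
            gcongr
            exact pot_nonneg hN hU0 x
        _ = B := by rw [hB]; ring
  have h9 := h8.trans (cost_scale hUb hU0 h1a')
  have h10 : Real.posLog (1 / a') * ∫ x, U.indicator (s n) x ≤ ε / 3 := by
    have : Real.posLog (1 / a') * ∫ x, U.indicator (s n) x ≤
        Real.posLog (1 / a') * (1 / ((n : ℝ) + 1)) := by
      have := Real.posLog_nonneg (x := 1 / a')
      gcongr
    linarith
  have h11 : a' * (mK - η') ≤ cost (U.indicator (s n)) + Real.posLog (1 / a') * ∫ x, U.indicator (s n) x := by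
    have h12 := mul_le_mul_of_nonneg_left h9 ha'0.le
    have e : a' * (1 / a' * cost (U.indicator (s n)) + 1 / a' * Real.posLog (1 / a') *
        ∫ x, U.indicator (s n) x) = cost (U.indicator (s n)) + Real.posLog (1 / a') *
        ∫ x, U.indicator (s n) x := by field_simp
    rw [e] at h12
    exact h12
  have h13 : a' * η' ≤ a * η' := by gcongr
  have h14 : a' * mK = a * mK - 2 * ε₁ * mK := by rw [ha']; ring
  have h15 : a' * (mK - η') = a' * mK - a' * η' := by ring
  linarith

/-- superadditivity of the cost over disjoint sets -/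
lemma cost_sum_le {ι : Type*} [Fintype ι] {U : ι → Set (EuclideanSpace ℝ (Fin N))}
    (hUm : ∀ i, MeasurableSet (U i)) (hUd : Pairwise (Function.onFun Disjoint U))
    {C : ℝ} {s : EuclideanSpace ℝ (Fin N) → ℝ} (h : Bd R C s) (hs : ∀ x, 0 ≤ s x) :
    ∑ i, cost ((U i).indicator s) ≤ cost s := by
  unfold cost
  rw [← integral_finsetSum _ (fun i _ => (h.indicator (hUm i)).cost_integrable)]
  refine integral_mono (integrable_finsetSum _ fun i _ => (h.indicator (hUm i)).cost_integrable)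
    h.cost_integrable fun x => ?_
  simp only
  by_cases hx : ∃ i, x ∈ U i
  · obtain ⟨i, hi⟩ := hx
    rw [Finset.sum_eq_single i]
    · rw [indicator_of_mem hi]
    · intro j _ hji
      have : x ∉ U j := fun hj => (hUd hji).le_bot ⟨hj, hi⟩
      rw [indicator_of_notMem this, zero_mul]
    · intro h; exact absurd (Finset.mem_univ i) h
  · push Not at hx
    rw [Finset.sum_eq_zero]
    · exact mul_nonneg (hs x) Real.posLog_nonneg
    · intro i _
      rw [indicator_of_notMem (hx i), zero_mul]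

end

end Pool.Agent.H19.Good
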