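import Pool.Agent.H19.Good.Mazur

/-!
If `m(K) ≤ cap(K)` for all compact `K`, there are no cheap potentials.
-/

open MeasureTheory Set Filter Topology
open scoped Real ENNReal NNReal ContDiff Laplacian Pointwise

namespace Pool.Agent.H19.Good

noncomputable section

variable {N : ℕ}

variable {Ω : Set (EuclideanSpace ℝ (Fin N))}

variable {m : Measure (EuclideanSpace ℝ (Fin N))} [IsFiniteMeasure m] {R : ℝ}

lemma multilevel (hN : 3 ≤ N)
    (hcap : ∀ K, K ⊆ Ω → IsCompact K → ∀ B : ℝ, ∀ η > 0, ∃ δ > 0, ∀ s, Adm K δ B s →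
      m.real K - η ≤ cost s)
    {s : ℕ → EuclideanSpace ℝ (Fin N) → ℝ} (hs : SSeq R s) {θ : EuclideanSpace ℝ (Fin N) → ℝ}
    (hθm : Measurable θ) {T : Set (EuclideanSpace ℝ (Fin N))} (hTm : MeasurableSet T) (hTΩ : T ⊆ Ω)
    (hunif : TendstoUniformlyOn (fun n => pot (s n)) θ atTop T)
    (hθ0 : ∀ x ∈ T, 0 ≤ θ x) (hθ2 : ∀ x ∈ T, θ x ≤ 2) {ε : ℝ} (hε : 0 < ε) :
    ∃ n0, ∀ n ≥ n0, ∫ x in T, θ x ∂m - ε ≤ cost (s n) := by
  have hmu : 0 ≤ m.real univ := measureReal_nonneg
  -- choice of L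
  obtain ⟨L', hL'⟩ := exists_nat_one_div_lt (show 0 < ε / (4 * (m.real univ + 1)) by positivity)
  set L : ℕ := L' + 1 with hL
  have hL0 : (0:ℝ) < L := by rw [hL]; positivity
  have hLm : m.real univ * (1 / (L:ℝ)) ≤ ε / 4 := by
    have h1 : 1 / (L:ℝ) ≤ ε / (4 * (m.real univ + 1)) := by
      rw [hL]; push_cast; exact hL'.le
    calc m.real univ * (1 / (L:ℝ)) ≤ (m.real univ + 1) * (ε / (4 * (m.real univ + 1))) := by
          gcongr; linarith
      _ = ε / 4 := by field_simp
  set n2 : ℕ := 2 * L + 1 with hn2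
  have hn20 : (0:ℝ) < n2 := by rw [hn2]; positivity
  set ε' : ℝ := ε / (8 * n2) with hε'
  have hε'0 : 0 < ε' := by positivity
  let T' : Fin n2 → Set (EuclideanSpace ℝ (Fin N)) := fun i =>
    T ∩ {x | (i:ℝ) / L ≤ θ x ∧ θ x < ((i:ℝ) + 1) / L}
  have hT'm : ∀ i, MeasurableSet (T' i) := fun i =>
    hTm.inter ((measurableSet_le measurable_const hθm).inter (measurableSet_lt hθm measurable_const))
  have hT'd : Pairwise (Function.onFun Disjoint T') := by
    intro i j hij
    rw [Function.onFun, Set.disjoint_left]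
    rintro x ⟨-, hx1, hx2⟩ ⟨-, hx3, hx4⟩
    rcases lt_or_gt_of_ne hij with h | h
    · have h1 : (i:ℝ) + 1 ≤ (j:ℝ) := by
        have : (i:ℕ) + 1 ≤ (j:ℕ) := h
        exact_mod_cast this
      have h2 : ((i:ℝ) + 1) / L ≤ (j:ℝ) / L := by gcongr
      linarith
    · have h1 : (j:ℝ) + 1 ≤ (i:ℝ) := by
        have : (j:ℕ) + 1 ≤ (i:ℕ) := h
        exact_mod_cast this
      have h2 : ((j:ℝ) + 1) / L ≤ (i:ℝ) / L := by gcongr
      linarith
  have hT'u : ⋃ i, T' i = T := by
    refine subset_antisymm (iUnion_subset fun i => inter_subset_left) fun x hx => ?_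
    have h0 := hθ0 x hx
    have h2 := hθ2 x hx
    have h3 : 0 ≤ θ x * L := by positivity
    have h4 : ⌊θ x * L⌋₊ < n2 := by
      rw [Nat.floor_lt h3, hn2]
      push_cast
      nlinarith
    refine mem_iUnion.2 ⟨⟨⌊θ x * L⌋₊, h4⟩, hx, ?_, ?_⟩
    · show ((⌊θ x * L⌋₊ : ℕ) : ℝ) / L ≤ θ x
      rw [div_le_iff₀ hL0]
      exact Nat.floor_le h3
    · show θ x < (((⌊θ x * L⌋₊ : ℕ) : ℝ) + 1) / L
      rw [lt_div_iff₀ hL0]
      exact Nat.lt_floor_add_one _
  -- compact subsets
  have hK : ∀ i, ∃ K, K ⊆ T' i ∧ IsCompact K ∧ m (T' i \ K) < ENNReal.ofReal ε' := fun i =>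
    (hT'm i).exists_isCompact_sdiff_lt (measure_ne_top m _) (by simpa using hε'0)
  choose K hKT hKc hKm using hK
  have hKm' : ∀ i, m.real (T' i) ≤ m.real (K i) + ε' := by
    intro i
    have h1 : m.real (T' i \ K i) ≤ ε' := by
      unfold Measure.real
      exact ENNReal.toReal_le_of_le_ofReal hε'0.le (hKm i).le
    have h2 : m.real (T' i) = m.real (K i) + m.real (T' i \ K i) := by
      have := measureReal_sdiff_add_inter (μ := m) (s := T' i) (hKc i).measurableSet
      rw [inter_eq_self_of_subset_right (hKT i)] at this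
      linarith
    linarith
  have hKd : ∀ i j, i ≠ j → Disjoint (K i) (K j) := fun i j hij =>
    (hT'd hij).mono (hKT i) (hKT j)
  -- common radius
  have hr : ∃ r > 0, ∀ i j, i ≠ j → Disjoint (Metric.thickening r (K i)) (Metric.thickening r (K j)) := by
    have h1 : ∀ᶠ r in 𝓝[>] (0:ℝ), ∀ i j, i ≠ j →
        Disjoint (Metric.thickening r (K i)) (Metric.thickening r (K j)) := by
      rw [eventually_all]
      intro i
      rw [eventually_all]
      intro j
      by_cases hij : i = j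
      · exact Eventually.of_forall fun r h => absurd hij h
      · obtain ⟨d, hd, hdd⟩ := (hKd i j hij).exists_thickenings (hKc i) (hKc j).isClosed
        have h2 : Ioc (0:ℝ) d ∈ 𝓝[>] (0:ℝ) := Ioc_mem_nhdsGT hd
        filter_upwards [h2] with r hr _
        exact hdd.mono (Metric.thickening_mono hr.2 _) (Metric.thickening_mono hr.2 _)
    obtain ⟨r, hr1, hr2⟩ := (h1.and self_mem_nhdsWithin).exists
    exact ⟨r, hr2, hr1⟩
  obtain ⟨r, hr0, hrd⟩ := hr
  have hUd : Pairwise (Function.onFun Disjoint fun i => Metric.thickening r (K i)) :=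
    fun i j hij => hrd i j hij
  have hUm : ∀ i, MeasurableSet (Metric.thickening r (K i)) := fun i =>
    Metric.isOpen_thickening.measurableSet
  -- level estimates
  have hlev : ∀ i : Fin n2, ∃ n0, ∀ n ≥ n0, ((i:ℝ) / L) * m.real (K i) - ε / (4 * n2) ≤
      cost ((Metric.thickening r (K i)).indicator (s n)) := by
    intro i
    rcases Nat.eq_zero_or_pos (i:ℕ) with hi | hi
    · refine ⟨0, fun n _ => ?_⟩
      rw [hi]
      have h1 := cost_nonneg (s := (Metric.thickening r (K i)).indicator (s n))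
        (indicator_nonneg fun x _ => hs.nonneg n x)
      have h2 : 0 ≤ ε / (4 * n2) := by positivity
      simp only [Nat.cast_zero, zero_div, zero_mul]
      linarith
    · refine level hN (a := (i:ℝ) / L) (by positivity) hr0
        (hcap (K i) ((hKT i).trans (inter_subset_left.trans hTΩ)) (hKc i)) hs (fun ε₂ hε₂ => ?_) (by positivity)
      rw [Metric.tendstoUniformlyOn_iff] at hunif
      obtain ⟨n0, hn0⟩ := eventually_atTop.1 (hunif ε₂ hε₂)
      refine ⟨n0, fun n hn x hx => ?_⟩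
      have hxT := hKT i hx
      have h1 := hn0 n hn x hxT.1
      rw [Real.dist_eq, abs_lt] at h1
      have h2 : (i:ℝ) / L ≤ θ x := hxT.2.1
      linarith
  choose n0 hn0 using hlev
  refine ⟨Finset.univ.sup n0, fun n hn => ?_⟩
  have hn' : ∀ i, n0 i ≤ n := fun i => (Finset.le_sup (Finset.mem_univ i)).trans hn
  obtain ⟨C, hC⟩ := hs.bd n
  have h1 := cost_sum_le hUm hUd hC (hs.nonneg n)
  have h2 : ∑ i : Fin n2, (((i:ℝ) / L) * m.real (K i) - ε / (4 * n2)) ≤ cost (s n) :=
    (Finset.sum_le_sum fun i _ => hn0 i n (hn' i)).trans h1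
  rw [Finset.sum_sub_distrib] at h2
  have h3 : ∑ _i : Fin n2, ε / (4 * (n2:ℝ)) = ε / 4 := by
    rw [Finset.sum_const, Finset.card_univ, Fintype.card_fin, nsmul_eq_mul]
    field_simp
  rw [h3] at h2
  -- upper bound of the integral
  have hθi : IntegrableOn θ T m := by
    refine Measure.integrableOn_of_bounded (M := 2) (measure_ne_top m T) hθm.aestronglyMeasurable ?_
    rw [ae_restrict_iff' hTm]
    refine Eventually.of_forall fun x hx => ?_
    rw [Real.norm_of_nonneg (hθ0 x hx)]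
    exact hθ2 x hx
  have h4 : ∫ x in T, θ x ∂m = ∑ i, ∫ x in T' i, θ x ∂m := by
    rw [← integral_iUnion_fintype hT'm hT'd (fun i => hθi.mono_set inter_subset_left), hT'u]
  have h5 : ∀ i : Fin n2, ∫ x in T' i, θ x ∂m ≤
      ((i:ℝ) / L) * m.real (K i) + (2 * ε' + (1 / L) * m.real (T' i)) := by
    intro i
    have h6 : ∫ x in T' i, θ x ∂m ≤ ∫ x in T' i, ((i:ℝ) + 1) / L ∂m := by
      refine setIntegral_mono_on (hθi.mono_set inter_subset_left) (integrable_const _).integrableOn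
        (hT'm i) fun x hx => hx.2.2.le
    rw [setIntegral_const, smul_eq_mul] at h6
    have h7 : (i:ℝ) / L ≤ 2 := by
      rw [div_le_iff₀ hL0]
      have : (i:ℕ) ≤ 2 * L := by have := i.2; omega
      exact_mod_cast this
    have h8 : 0 ≤ (i:ℝ) / L := by positivity
    have h9 := hKm' i
    have h10 : (i:ℝ) / L * m.real (T' i) ≤ (i:ℝ) / L * m.real (K i) + 2 * ε' := by
      calc (i:ℝ) / L * m.real (T' i) ≤ (i:ℝ) / L * (m.real (K i) + ε') := by gcongr
        _ = (i:ℝ) / L * m.real (K i) + (i:ℝ) / L * ε' := by ring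
        _ ≤ _ := by gcongr
    calc _ ≤ m.real (T' i) * (((i:ℝ) + 1) / L) := h6
      _ = (i:ℝ) / L * m.real (T' i) + (1 / L) * m.real (T' i) := by ring
      _ ≤ _ := by linarith
  have h11 : ∫ x in T, θ x ∂m ≤ ∑ i : Fin n2, ((i:ℝ) / L) * m.real (K i) + (ε / 4 + ε / 4) := by
    rw [h4]
    refine (Finset.sum_le_sum fun i _ => h5 i).trans ?_
    rw [Finset.sum_add_distrib, Finset.sum_add_distrib]
    have h12 : ∑ _i : Fin n2, 2 * ε' = ε / 4 := by
      rw [Finset.sum_const, Finset.card_univ, Fintype.card_fin, nsmul_eq_mul, hε']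
      field_simp
      ring
    have h13 : ∑ i : Fin n2, (1 / (L:ℝ)) * m.real (T' i) ≤ ε / 4 := by
      rw [← Finset.mul_sum]
      have h14 : ∑ i, m.real (T' i) ≤ m.real univ := by
        rw [← measureReal_iUnion_fintype hT'd hT'm]
        exact measureReal_mono (subset_univ _)
      calc (1 / (L:ℝ)) * ∑ i, m.real (T' i) ≤ (1 / (L:ℝ)) * m.real univ := by gcongr
        _ = m.real univ * (1 / (L:ℝ)) := mul_comm _ _
        _ ≤ _ := hLm
    rw [h12]
    linarith
  linarith

end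

end Pool.Agent.H19.Good
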