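import Pool.Agent.H19.Good.Mazur2

/-!
If `m(K) ≤ cap(K)` for all compact `K`, there are no cheap potentials: conclusion.
-/

open MeasureTheory Set Filter Topology
open scoped Real ENNReal NNReal ContDiff Laplacian Pointwise

namespace Pool.Agent.H19.Good

noncomputable section

variable {N : ℕ}

variable {Ω : Set (EuclideanSpace ℝ (Fin N))}

variable {m : Measure (EuclideanSpace ℝ (Fin N))} [IsFiniteMeasure m] {R δ η : ℝ}
  {s s' : EuclideanSpace ℝ (Fin N) → ℝ}

lemma Cheap.pot_nonneg (h : Cheap Ω m R δ η s) (hN : 3 ≤ N) (x : EuclideanSpace ℝ (Fin N)) :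
    0 ≤ pot s x := Good.pot_nonneg hN h.nonneg x

lemma Cheap.pot_memLp (h : Cheap Ω m R δ η s) (hN : 3 ≤ N) (p : ℝ≥0∞) : MemLp (pot s) p m := by
  obtain ⟨C, hC⟩ := h.bd
  refine MemLp.of_bound (hC.pot_continuous hN).aestronglyMeasurable 2 (Eventually.of_forall fun x => ?_)
  rw [Real.norm_of_nonneg (h.pot_nonneg hN x)]
  exact h.pot_le x

lemma Cheap.pot_int (h : Cheap Ω m R δ η s) (hN : 3 ≤ N) : Integrable (pot s) m :=
  (memLp_one_iff_integrable).1 (h.pot_memLp hN 1)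

lemma Cheap.mono (h : Cheap Ω m R δ η s) {δ' : ℝ} (hδ : δ ≤ δ') : Cheap Ω m R δ' η s :=
  ⟨h.bd, h.nonneg, h.zero, h.mass.trans hδ, h.pot_le, h.cost_le⟩

lemma Cheap.mid (h : Cheap Ω m R δ η s) (h' : Cheap Ω m R δ η s') (hN : 3 ≤ N) :
    Cheap Ω m R δ η (fun x => 1 / 2 * s x + 1 / 2 * s' x) := by
  obtain ⟨C, hC⟩ := h.bd
  obtain ⟨C', hC'⟩ := h'.bd
  have hpot : ∀ x, pot (fun x => 1 / 2 * s x + 1 / 2 * s' x) x = 1 / 2 * pot s x + 1 / 2 * pot s' x :=
    pot_comb hN hC hC' _ _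
  refine ⟨⟨_, hC.comb hC' _ _⟩, fun x => ?_, fun x hx => ?_, ?_, fun x => ?_, ?_⟩
  · have := h.nonneg x
    have := h'.nonneg x
    positivity
  · simp only [h.zero x hx, h'.zero x hx]; ring
  · rw [integral_add (hC.integrable.const_mul _) (hC'.integrable.const_mul _), integral_const_mul,
      integral_const_mul]
    have := h.mass
    have := h'.mass
    linarith
  · rw [hpot]
    have := h.pot_le x
    have := h'.pot_le x
    linarith
  · simp_rw [hpot]
    rw [integral_add ((h.pot_int hN).const_mul _) ((h'.pot_int hN).const_mul _), integral_const_mul,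
      integral_const_mul]
    have h1 := cost_midpoint hC hC' h.nonneg h'.nonneg
    have h2 := h.cost_le
    have h3 := h'.cost_le
    linarith

theorem no_cheap (hN : 3 ≤ N) (hΩm : MeasurableSet Ω) (hm : m Ωᶜ = 0)
    (hcap : ∀ K, K ⊆ Ω → IsCompact K → ∀ B : ℝ, ∀ η > 0, ∃ δ > 0, ∀ s, Adm K δ B s →
      m.real K - η ≤ cost s) (hη : 0 < η) : ¬ ∀ δ > 0, ∃ s, Cheap Ω m R δ η s := by
  intro hall
  have hmu : 0 ≤ m.real univ := measureReal_nonneg
  -- minimal L² norms
  let S : ℝ → Set ℝ := fun δ => {y | ∃ s, Cheap Ω m R δ η s ∧ ∫ x, pot s x ^ 2 ∂m = y}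
  have hSne : ∀ δ > 0, (S δ).Nonempty := fun δ hδ => by
    obtain ⟨s, hs⟩ := hall δ hδ
    exact ⟨_, s, hs, rfl⟩
  have hSbd : ∀ δ, BddBelow (S δ) := fun δ => ⟨0, by
    rintro y ⟨s, -, rfl⟩; exact integral_nonneg fun x => sq_nonneg _⟩
  let dn : ℕ → ℝ := fun n => sInf (S (1 / ((n : ℝ) + 1)))
  have hpos : ∀ n : ℕ, (0:ℝ) < 1 / ((n : ℝ) + 1) := fun n => by positivity
  have hdn_le : ∀ (n : ℕ) s, Cheap Ω m R (1 / ((n : ℝ) + 1)) η s → dn n ≤ ∫ x, pot s x ^ 2 ∂m :=
    fun n s hs => csInf_le (hSbd _) ⟨s, hs, rfl⟩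
  have hch : ∀ n : ℕ, ∃ s, Cheap Ω m R (1 / ((n : ℝ) + 1)) η s ∧
      ∫ x, pot s x ^ 2 ∂m < dn n + 1 / ((n : ℝ) + 1) := by
    intro n
    obtain ⟨y, ⟨s, hs, rfl⟩, hy⟩ := Real.lt_sInf_add_pos (hSne _ (hpos n)) (hpos n)
    exact ⟨s, hs, hy⟩
  choose s hs hs2 using hch
  have hmono : Monotone dn := by
    intro i j hij
    refine csInf_le_csInf (hSbd _) (hSne _ (hpos j)) ?_
    rintro y ⟨s, hs, rfl⟩
    exact ⟨s, hs.mono (one_div_le_one_div_of_le (by positivity) (by gcongr)), rfl⟩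
  have hbdd : BddAbove (range dn) := by
    refine ⟨4 * m.real univ, ?_⟩
    rintro y ⟨n, rfl⟩
    refine (hdn_le n _ (hs n)).trans ?_
    have h1 : ∫ x, pot (s n) x ^ 2 ∂m ≤ ∫ _, (4:ℝ) ∂m := by
      refine integral_mono ((hs n).pot_memLp hN 2).integrable_sq (integrable_const _) fun x => ?_
      have h2 := (hs n).pot_nonneg hN x
      have h3 := (hs n).pot_le x
      simp only
      nlinarith
    refine h1.trans (le_of_eq ?_)
    simp [mul_comm]
  have hlim : Tendsto dn atTop (𝓝 (⨆ n, dn n)) := tendsto_atTop_ciSup hmono hbdd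
  -- Cauchy
  have hpar : ∀ i j, i ≤ j → ∫ x, (pot (s i) x - pot (s j) x) ^ 2 ∂m ≤
      2 * (dn j - dn i) + 2 * (1 / ((i : ℝ) + 1)) + 2 * (1 / ((j : ℝ) + 1)) := by
    intro i j hij
    have hj' : Cheap Ω m R (1 / ((i : ℝ) + 1)) η (s j) :=
      (hs j).mono (one_div_le_one_div_of_le (by positivity) (by gcongr))
    have h1 := hdn_le i _ ((hs i).mid hj' hN)
    obtain ⟨C, hC⟩ := (hs i).bd
    obtain ⟨C', hC'⟩ := (hs j).bd
    simp_rw [pot_comb hN hC hC'] at h1
    have i1 := ((hs i).pot_memLp hN 2).integrable_sq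
    have i2 := ((hs j).pot_memLp hN 2).integrable_sq
    have i3 : Integrable (fun x => (1 / 2 * pot (s i) x + 1 / 2 * pot (s j) x) ^ 2) m :=
      ((((hs i).pot_memLp hN 2).const_mul _).add (((hs j).pot_memLp hN 2).const_mul _)).integrable_sq
    have i4 : Integrable (fun x => 2 * pot (s i) x ^ 2 + 2 * pot (s j) x ^ 2) m :=
      (i1.const_mul 2).add (i2.const_mul 2)
    have e : ∫ x, (pot (s i) x - pot (s j) x) ^ 2 ∂m =
        2 * (∫ x, pot (s i) x ^ 2 ∂m) + 2 * (∫ x, pot (s j) x ^ 2 ∂m) -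
          4 * ∫ x, (1 / 2 * pot (s i) x + 1 / 2 * pot (s j) x) ^ 2 ∂m := by
      rw [← integral_const_mul, ← integral_const_mul, ← integral_const_mul,
        ← integral_add (i1.const_mul 2) (i2.const_mul 2),
        ← integral_sub i4 (i3.const_mul 4)]
      refine integral_congr_ae (Eventually.of_forall fun x => ?_)
      simp only
      ring
    rw [e]
    have h2 := hs2 i
    have h3 := hs2 j
    linarith
  have hcauchy : ∀ ε > 0, ∃ n0, ∀ i ≥ n0, ∀ j ≥ n0,
      ∫ x, (pot (s i) x - pot (s j) x) ^ 2 ∂m ≤ ε := by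
    intro ε hε
    have hcs := hlim.cauchySeq
    rw [Metric.cauchySeq_iff] at hcs
    obtain ⟨n1, hn1⟩ := hcs (ε / 4) (by positivity)
    obtain ⟨n2, hn2⟩ := exists_nat_one_div_lt (show 0 < ε / 8 by positivity)
    have hsym : ∀ i j, max n1 n2 ≤ i → i ≤ j → ∫ x, (pot (s i) x - pot (s j) x) ^ 2 ∂m ≤ ε := by
      intro i j hi hij
      have h1 := hpar i j hij
      have h2 := hn1 j (((le_max_left _ _).trans hi).trans hij) i ((le_max_left _ _).trans hi)
      rw [Real.dist_eq] at h2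
      have h3 := le_abs_self (dn j - dn i)
      have h4 : 1 / ((i : ℝ) + 1) ≤ 1 / ((n2 : ℝ) + 1) := one_div_le_one_div_of_le (by positivity)
        (by
          have := (le_max_right n1 n2).trans hi
          gcongr)
      have h5 : 1 / ((j : ℝ) + 1) ≤ 1 / ((n2 : ℝ) + 1) := one_div_le_one_div_of_le (by positivity)
        (by
          have := ((le_max_right n1 n2).trans hi).trans hij
          gcongr)
      linarith
    refine ⟨max n1 n2, fun i hi j hj => ?_⟩
    rcases le_total i j with h | h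
    · exact hsym i j hi h
    · have := hsym j i hj h
      refine le_trans (le_of_eq ?_) this
      refine integral_congr_ae (Eventually.of_forall fun x => ?_)
      simp only
      ring
  obtain ⟨θ, hθm, hθ2, hθl⟩ := exists_L2_limit (fun n => (hs n).pot_memLp hN 2) hcauchy
  have hθi : Integrable θ m := hθ2.integrable (by norm_num)
  have hL1 := L1_of_L2 (fun n => (hs n).pot_memLp hN 2) hθ2 hθl
  obtain ⟨ns, hns, hae⟩ := exists_subseq_ae (fun n => (hs n).pot_int hN) hθi hL1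
  -- Egorov on Ω
  obtain ⟨t, htΩ, htm, htε, hunif⟩ := tendstoUniformlyOn_of_ae_tendsto (μ := m) (s := Ω)
    (f := fun i => pot (s (ns i))) (g := θ)
    (fun i => by
      obtain ⟨C, hC⟩ := (hs (ns i)).bd
      exact (hC.pot_continuous hN).stronglyMeasurable) hθm.stronglyMeasurable hΩm
    (measure_ne_top m _) (by filter_upwards [hae] with x hx _; exact hx) (ε := η / 16) (by positivity)
  set T := Ω \ t with hT
  have hTm : MeasurableSet T := hΩm.diff htm
  have hpt : ∀ x ∈ T, Tendsto (fun i => pot (s (ns i)) x) atTop (𝓝 (θ x)) := fun x hx =>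
    hunif.tendsto_at hx
  have hθ0 : ∀ x ∈ T, 0 ≤ θ x := fun x hx => ge_of_tendsto' (hpt x hx) fun i => (hs _).pot_nonneg hN x
  have hθle : ∀ x ∈ T, θ x ≤ 2 := fun x hx => le_of_tendsto' (hpt x hx) fun i => (hs _).pot_le x
  have hSS : SSeq R (fun i => s (ns i)) := by
    refine ⟨fun n => (hs _).bd, fun n => (hs _).nonneg, fun n => (hs _).mass.trans ?_, fun n => (hs _).pot_le⟩
    have := hns.id_le n
    exact one_div_le_one_div_of_le (by positivity) (by gcongr; exact this)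
  obtain ⟨n0, hn0⟩ := multilevel (m := m) hN hcap hSS hθm hTm sdiff_subset hunif hθ0 hθle
    (ε := η / 16) (by positivity)
  -- integrals converge
  have hint : Tendsto (fun i => ∫ x, pot (s (ns i)) x ∂m) atTop (𝓝 (∫ x, θ x ∂m)) := by
    rw [tendsto_iff_dist_tendsto_zero]
    refine squeeze_zero (fun n => dist_nonneg) (fun n => ?_) (hL1.comp hns.tendsto_atTop)
    rw [Real.dist_eq, ← integral_sub ((hs _).pot_int hN) hθi]
    exact abs_integral_le_integral_abs
  have h1 : ∀ᶠ i in atTop, ∫ x, pot (s (ns i)) x ∂m < ∫ x, θ x ∂m + η / 16 :=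
    hint.eventually (gt_mem_nhds (by linarith))
  obtain ⟨i, hi1, hi2⟩ := (h1.and (eventually_ge_atTop n0)).exists
  have h2 := hn0 i hi2
  have h3 := (hs (ns i)).cost_le
  -- the integral of θ off T
  have h4 : ∫ x, θ x ∂m = ∫ x in T, θ x ∂m + ∫ x in Tᶜ, θ x ∂m := (integral_add_compl hTm hθi).symm
  have hae2 : ∀ᵐ x ∂m, |θ x| ≤ 2 := by
    filter_upwards [hae] with x hx
    rw [abs_of_nonneg (ge_of_tendsto' hx fun i => (hs _).pot_nonneg hN x)]
    exact le_of_tendsto' hx fun i => (hs _).pot_le x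
  have h5 : ‖∫ x in Tᶜ, θ x ∂m‖ ≤ 2 * (m.restrict Tᶜ).real univ :=
    norm_integral_le_of_norm_le_const (ae_restrict_of_ae hae2)
  rw [measureReal_restrict_apply_univ] at h5
  have h6 : m.real Tᶜ ≤ η / 16 := by
    have h7 : m Tᶜ ≤ m Ωᶜ + m t := by
      refine (measure_mono ?_).trans (measure_union_le _ _)
      intro x hx
      by_cases hxΩ : x ∈ Ω
      · right
        by_contra hxt
        exact hx ⟨hxΩ, hxt⟩
      · left; exact hxΩ
    rw [hm, zero_add] at h7
    exact ENNReal.toReal_le_of_le_ofReal (by positivity) (h7.trans htε)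
  have h8 := le_abs_self (∫ x in Tᶜ, θ x ∂m)
  rw [Real.norm_eq_abs] at h5
  linarith

end

end Pool.Agent.H19.Good
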