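import Pool.Agent.H19.Good.Comp2

/-!
Mollifiers, truncated regularised Newtonian kernels.
-/

open MeasureTheory Set Filter Topology
open scoped Real ENNReal NNReal ContDiff Laplacian Pointwise

namespace Pool.Agent.H19.Good

noncomputable section

/-- Scheffé's lemma, in a one-sided form -/
lemma scheffe {α : Type*} [MeasurableSpace α] {μ : Measure α} {f : ℕ → α → ℝ} {g : α → ℝ}
    (hf : ∀ n, Integrable (f n) μ) (hg : Integrable g μ) (hf0 : ∀ n, 0 ≤ᵐ[μ] f n)
    (hae : ∀ᵐ x ∂μ, Tendsto (fun n => f n x) atTop (𝓝 (g x)))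
    (hint : ∀ ε > 0, ∀ᶠ n in atTop, ∫ x, f n x ∂μ ≤ ∫ x, g x ∂μ + ε) :
    Tendsto (fun n => ∫ x, |f n x - g x| ∂μ) atTop (𝓝 0) := by
  have h1 : Tendsto (fun n => ∫ x, max (g x - f n x) 0 ∂μ) atTop (𝓝 0) := by
    have h2 : Tendsto (fun n => ∫ x, max (g x - f n x) 0 ∂μ) atTop (𝓝 (∫ _, (0:ℝ) ∂μ)) := by
      refine tendsto_integral_of_dominated_convergence (fun x => |g x|) (fun n => ?_) hg.abs
        (fun n => ?_) ?_
      · exact ((hg.sub (hf n)).pos_part).aestronglyMeasurable
      · filter_upwards [hf0 n] with x hx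
        have hx' : 0 ≤ f n x := hx
        rw [Real.norm_of_nonneg (le_max_right _ _)]
        refine max_le ?_ (abs_nonneg _)
        linarith [le_abs_self (g x)]
      · filter_upwards [hae] with x hx
        have h3 : Tendsto (fun n => max (g x - f n x) 0) atTop (𝓝 (max (g x - g x) 0)) :=
          (tendsto_const_nhds.sub hx).max tendsto_const_nhds
        simpa using h3
    simpa using h2
  rw [Metric.tendsto_atTop]
  intro ε hε
  obtain ⟨n1, h2⟩ := eventually_atTop.1 (hint (ε / 4) (by positivity))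
  rw [Metric.tendsto_atTop] at h1
  obtain ⟨n2, h3⟩ := h1 (ε / 4) (by positivity)
  refine ⟨max n1 n2, fun n hn => ?_⟩
  have h4 := h2 n (le_of_max_le_left hn)
  have h5 := h3 n (le_of_max_le_right hn)
  rw [Real.dist_eq, sub_zero] at h5 ⊢
  have e : ∫ x, |f n x - g x| ∂μ = (∫ x, f n x ∂μ - ∫ x, g x ∂μ) +
      2 * ∫ x, max (g x - f n x) 0 ∂μ := by
    have i1 : Integrable (fun x => f n x - g x) μ := (hf n).sub hg
    have i2 : Integrable (fun x => 2 * max (g x - f n x) 0) μ :=
      ((hg.sub (hf n)).pos_part).const_mul 2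
    rw [← integral_const_mul, ← integral_sub (hf n) hg, ← integral_add i1 i2]
    refine integral_congr_ae (Eventually.of_forall fun x => ?_)
    simp only
    rcases le_total (f n x) (g x) with h | h
    · rw [abs_of_nonpos (by linarith), max_eq_left (by linarith)]; ring
    · rw [abs_of_nonneg (by linarith), max_eq_right (by linarith)]; ring
  have h6 := le_abs_self (∫ x, max (g x - f n x) 0 ∂μ)
  rw [abs_of_nonneg (integral_nonneg fun x => abs_nonneg _), e]
  linarith

variable {N : ℕ}

/-- bump functions of radius `1/(n+1)` -/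
def bmp (N : ℕ) (n : ℕ) : ContDiffBump (0 : EuclideanSpace ℝ (Fin N)) where
  rIn := 1 / (2 * ((n : ℝ) + 1))
  rOut := 1 / ((n : ℝ) + 1)
  rIn_pos := by positivity
  rIn_lt_rOut := by
    refine one_div_lt_one_div_of_lt (by positivity) ?_
    have : (0 : ℝ) < (n : ℝ) + 1 := by positivity
    linarith

/-- mollifier -/
def moll (n : ℕ) : EuclideanSpace ℝ (Fin N) → ℝ := (bmp N n).normed volume

lemma moll_contDiff (n : ℕ) : ContDiff ℝ ∞ (moll n : EuclideanSpace ℝ (Fin N) → ℝ) :=
  (bmp N n).contDiff_normed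

lemma moll_continuous (n : ℕ) : Continuous (moll n : EuclideanSpace ℝ (Fin N) → ℝ) :=
  (moll_contDiff n).continuous

lemma moll_nonneg (n : ℕ) (x : EuclideanSpace ℝ (Fin N)) : 0 ≤ moll n x :=
  (bmp N n).nonneg_normed x

lemma moll_cpt (n : ℕ) : HasCompactSupport (moll n : EuclideanSpace ℝ (Fin N) → ℝ) :=
  (bmp N n).hasCompactSupport_normed

lemma moll_integral (n : ℕ) : ∫ x : EuclideanSpace ℝ (Fin N), moll n x = 1 :=
  (bmp N n).integral_normed

lemma moll_integrable (n : ℕ) : Integrable (moll n : EuclideanSpace ℝ (Fin N) → ℝ) :=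
  (bmp N n).integrable_normed

lemma moll_neg (n : ℕ) (x : EuclideanSpace ℝ (Fin N)) : moll n (-x) = moll n x :=
  (bmp N n).normed_neg x

lemma moll_sub_comm (n : ℕ) (x y : EuclideanSpace ℝ (Fin N)) : moll n (x - y) = moll n (y - x) := by
  rw [← neg_sub, moll_neg]

lemma moll_eq_zero (n : ℕ) {x : EuclideanSpace ℝ (Fin N)} (hx : 1 / ((n : ℝ) + 1) ≤ ‖x‖) :
    moll n x = 0 := by
  by_contra h
  have h1 : x ∈ Function.support (moll n : EuclideanSpace ℝ (Fin N) → ℝ) := h
  unfold moll at h1
  rw [ContDiffBump.support_normed_eq] at h1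
  have h2 : ‖x‖ < 1 / ((n : ℝ) + 1) := by simpa [bmp] using h1
  linarith

lemma moll_tsupport (n : ℕ) :
    tsupport (moll n : EuclideanSpace ℝ (Fin N) → ℝ) = Metric.closedBall 0 (1 / ((n : ℝ) + 1)) := by
  unfold moll
  rw [ContDiffBump.tsupport_normed_eq]
  rfl

lemma rOut_tendsto : Tendsto (fun n => (bmp N n).rOut) atTop (𝓝 0) :=
  tendsto_one_div_add_atTop_nhds_zero_nat

/-- mollification converges a.e. -/
lemma cv_moll_ae {w : EuclideanSpace ℝ (Fin N) → ℝ} (hw : LocallyIntegrable w) :
    ∀ᵐ x, Tendsto (fun n => cv volume w (moll n) x) atTop (𝓝 (w x)) := by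
  have h := ContDiffBump.ae_convolution_tendsto_right_of_locallyIntegrable (μ := volume)
    (φ := fun n => bmp N n) (l := atTop) (K := 2) (rOut_tendsto (N := N))
    (Eventually.of_forall fun n => by
      have : (0:ℝ) < (n:ℝ) + 1 := by positivity
      simp only [bmp]
      rw [one_div, one_div, mul_inv]
      linarith [inv_pos.2 this]) hw
  filter_upwards [h] with x hx
  refine hx.congr fun n => ?_
  rw [convolution_eq_swap]
  unfold cv moll
  refine integral_congr_ae (Eventually.of_forall fun t => ?_)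
  simp only [ContinuousLinearMap.lsmul_apply, smul_eq_mul]
  ring

lemma cv_integrable {ν : Measure (EuclideanSpace ℝ (Fin N))} [SFinite ν]
    {f g : EuclideanSpace ℝ (Fin N) → ℝ} (hf : Integrable f ν) (hg : Integrable g) :
    Integrable (cv ν f g) := by
  rw [cv_eq]
  exact (hf.convolution_integrand (ContinuousLinearMap.mul ℝ ℝ) hg).integral_prod_left

lemma integral_cv {ν : Measure (EuclideanSpace ℝ (Fin N))} [SFinite ν]
    {f g : EuclideanSpace ℝ (Fin N) → ℝ} (hf : Integrable f ν) (hg : Integrable g) :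
    ∫ x, cv ν f g x = (∫ x, f x ∂ν) * ∫ x, g x := by
  rw [cv_eq, integral_convolution (ContinuousLinearMap.mul ℝ ℝ) hf hg]
  simp

lemma cv_moll_L1_nonneg {w : EuclideanSpace ℝ (Fin N) → ℝ} (hw : Integrable w) (hw0 : ∀ x, 0 ≤ w x) :
    Tendsto (fun n => ∫ x, |cv volume w (moll n) x - w x|) atTop (𝓝 0) := by
  refine scheffe (fun n => cv_integrable hw (moll_integrable n)) hw (fun n => ?_)
    (cv_moll_ae hw.locallyIntegrable) fun ε hε => Eventually.of_forall fun n => ?_
  · exact Eventually.of_forall fun x => integral_nonneg fun t => mul_nonneg (hw0 t) (moll_nonneg n _)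
  · rw [integral_cv hw (moll_integrable n), moll_integral, mul_one]
    linarith

lemma cv_sub_left {ν : Measure (EuclideanSpace ℝ (Fin N))}
    {f f' g : EuclideanSpace ℝ (Fin N) → ℝ} (x : EuclideanSpace ℝ (Fin N))
    (h1 : Integrable (fun t => f t * g (x - t)) ν) (h2 : Integrable (fun t => f' t * g (x - t)) ν) :
    cv ν (fun t => f t - f' t) g x = cv ν f g x - cv ν f' g x := by
  unfold cv
  rw [← integral_sub h1 h2]
  simp_rw [sub_mul]

/-- mollification converges in `L¹` -/
lemma cv_moll_L1 {w : EuclideanSpace ℝ (Fin N) → ℝ} (hw : Integrable w) :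
    Tendsto (fun n => ∫ x, |cv volume w (moll n) x - w x|) atTop (𝓝 0) := by
  have hp : Integrable (fun x => max (w x) 0) := hw.pos_part
  have hn : Integrable (fun x => max (-w x) 0) := hw.neg_part
  have h1 := cv_moll_L1_nonneg hp (fun x => le_max_right _ _)
  have h2 := cv_moll_L1_nonneg hn (fun x => le_max_right _ _)
  have h3 := h1.add h2
  rw [add_zero] at h3
  refine squeeze_zero (fun n => integral_nonneg fun x => abs_nonneg _) (fun n => ?_) h3
  have e : w = fun x => max (w x) 0 - max (-w x) 0 := by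
    ext x
    rcases le_total (w x) 0 with h | h
    · rw [max_eq_right h, max_eq_left (by linarith)]; ring
    · rw [max_eq_left h, max_eq_right (by linarith)]; ring
  have e2 : ∀ x, cv volume w (moll n) x = cv volume (fun x => max (w x) 0) (moll n) x -
      cv volume (fun x => max (-w x) 0) (moll n) x := by
    intro x
    conv_lhs => rw [e]
    exact cv_sub_left x
      (cv_integrand_integrable hp.locallyIntegrable (moll_continuous n) (moll_cpt n) x)
      (cv_integrand_integrable hn.locallyIntegrable (moll_continuous n) (moll_cpt n) x)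
  have i1 : Integrable (fun x => |cv volume (fun x => max (w x) 0) (moll n) x - max (w x) 0|) :=
    ((cv_integrable hp (moll_integrable n)).sub hp).abs
  have i2 : Integrable (fun x => |cv volume (fun x => max (-w x) 0) (moll n) x - max (-w x) 0|) :=
    ((cv_integrable hn (moll_integrable n)).sub hn).abs
  rw [← integral_add i1 i2]
  refine integral_mono ((cv_integrable hw (moll_integrable n)).sub hw).abs (i1.add i2) fun x => ?_
  simp only
  have e3 : w x = max (w x) 0 - max (-w x) 0 := congrFun e x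
  rw [e2]
  calc |cv volume (fun x => max (w x) 0) (moll n) x - cv volume (fun x => max (-w x) 0) (moll n) x - w x|
      = |(cv volume (fun x => max (w x) 0) (moll n) x - max (w x) 0) -
        (cv volume (fun x => max (-w x) 0) (moll n) x - max (-w x) 0)| := by
          congr 1; linarith
    _ ≤ _ := abs_sub _ _

end

end Pool.Agent.H19.Good
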