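import Pool.Agent.H19.Good.Cap

/-!
The truncated Newtonian kernel for the necessity part.
-/

open MeasureTheory Set Filter Topology
open scoped Real ENNReal NNReal ContDiff Laplacian Pointwise

namespace Pool.Agent.H19.Good

noncomputable section

variable {N : ℕ}

variable {Ω U : Set (EuclideanSpace ℝ (Fin N))}

lemma Phi_contDiffAt {x : EuclideanSpace ℝ (Fin N)} (hx : x ≠ 0) : ContDiffAt ℝ ∞ Phi x := by
  unfold Phi
  refine contDiffAt_const.div ((contDiffAt_norm ℝ hx).pow _) ?_
  have : ‖x‖ ≠ 0 := norm_ne_zero_iff.2 hx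
  positivity

lemma laplacian_mul {f g : EuclideanSpace ℝ (Fin N) → ℝ} (hf : ContDiff ℝ ∞ f) (hg : ContDiff ℝ ∞ g)
    (x : EuclideanSpace ℝ (Fin N)) :
    Laplacian.laplacian (fun x => f x * g x) x =
      f x * Laplacian.laplacian g x + 2 * (∑ i, pd i f x * pd i g x) + Laplacian.laplacian f x * g x := by
  have hf2 : ContDiff ℝ 2 f := hf.of_le (by norm_cast)
  have hg2 : ContDiff ℝ 2 g := hg.of_le (by norm_cast)
  have hfd : Differentiable ℝ f := hf.differentiable (by simp)
  have hgd : Differentiable ℝ g := hg.differentiable (by simp)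
  rw [laplacian_eq_sum ((hf.mul hg).of_le (by norm_cast)), laplacian_eq_sum hf2, laplacian_eq_sum hg2,
    Finset.mul_sum, Finset.mul_sum, Finset.sum_mul, ← Finset.sum_add_distrib, ← Finset.sum_add_distrib]
  refine Finset.sum_congr rfl fun i _ => ?_
  have hfi : Differentiable ℝ (pd i f) := (pd_contDiff_top hf i).differentiable (by simp)
  have hgi : Differentiable ℝ (pd i g) := (pd_contDiff_top hg i).differentiable (by simp)
  have e1 : pd i (fun x => f x * g x) = fun x => 1 * (f x * pd i g x) + 1 * (pd i f x * g x) := by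
    ext y; rw [pd_mul hfd hgd]; ring
  rw [e1, pd_comb (ζ := fun x => f x * pd i g x) (η := fun x => pd i f x * g x) (hfd.mul hgi)
    (hfi.mul hgd), pd_mul hfd hgi, pd_mul hfi hgd]
  ring

/-- `∫ Φ Δ s = - s(0)` -/
lemma Phi_lap (hN : 3 ≤ N) {s : EuclideanSpace ℝ (Fin N) → ℝ} (hs : ContDiff ℝ ∞ s)
    (hc : HasCompactSupport s) : ∫ t, Phi t * Laplacian.laplacian s t = - s 0 := by
  rw [← Phi_conv_laplacian hN hs hc 0]
  rw [← integral_neg_eq_self]
  refine integral_congr_ae (Eventually.of_forall fun t => ?_)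
  simp only
  rw [Phi_neg, zero_sub]

/-- inner cutoff -/
def cut (N : ℕ) (r : ℝ) (hr : 0 < r) : ContDiffBump (0 : EuclideanSpace ℝ (Fin N)) :=
  ⟨r / 2, r, by positivity, by linarith⟩

/-- inner cutoff as a function -/
def cutf (N : ℕ) (r : ℝ) (hr : 0 < r) : EuclideanSpace ℝ (Fin N) → ℝ := fun x => cut N r hr x

/-- truncated kernel, supported in `ball 0 r` -/
def Kh (r : ℝ) (hr : 0 < r) (t : EuclideanSpace ℝ (Fin N)) : ℝ := cutf N r hr t * Phi t

variable {r : ℝ} {hr : 0 < r}

lemma cut_smooth : ContDiff ℝ ∞ (cutf N r hr) := (cut N r hr).contDiff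

lemma cut_cpt : HasCompactSupport (cutf N r hr) := (cut N r hr).hasCompactSupport

lemma cut_zero_near : (cutf N r hr) =ᶠ[𝓝 0] fun _ => 1 := by
  have : Metric.ball (0 : EuclideanSpace ℝ (Fin N)) (r / 2) ∈ 𝓝 0 :=
    Metric.ball_mem_nhds _ (by positivity)
  filter_upwards [this] with x hx
  exact (cut N r hr).one_of_mem_closedBall (Metric.ball_subset_closedBall hx)

lemma cut_nonneg (t : EuclideanSpace ℝ (Fin N)) : 0 ≤ cutf N r hr t := (cut N r hr).nonneg

lemma cut_le_one (t : EuclideanSpace ℝ (Fin N)) : cutf N r hr t ≤ 1 := (cut N r hr).le_one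

lemma Kh_nonneg (hN : 3 ≤ N) (t : EuclideanSpace ℝ (Fin N)) : 0 ≤ Kh r hr t :=
  mul_nonneg (cut_nonneg t) (Phi_nonneg hN t)

lemma Kh_le (hN : 3 ≤ N) (t : EuclideanSpace ℝ (Fin N)) : Kh r hr t ≤ Phi t :=
  mul_le_of_le_one_left (Phi_nonneg hN t) (cut_le_one t)

lemma Kh_zero {t : EuclideanSpace ℝ (Fin N)} (ht : r ≤ ‖t‖) : Kh r hr t = 0 := by
  unfold Kh cutf
  rw [(cut N r hr).zero_of_le_dist (by simpa [cut] using ht), zero_mul]

lemma Kh_eq {t : EuclideanSpace ℝ (Fin N)} (ht : ‖t‖ ≤ r / 2) : Kh r hr t = Phi t := by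
  unfold Kh cutf
  rw [(cut N r hr).one_of_mem_closedBall (by simpa [cut] using ht), one_mul]

lemma Kh_measurable : Measurable (Kh (N := N) r hr) :=
  (cut_smooth.continuous.measurable).mul Phi_measurable

lemma Kh_integrable (hN : 3 ≤ N) : Integrable (Kh (N := N) r hr) := by
  refine (PhiT_integrable hN r).mono' Kh_measurable.aestronglyMeasurable
    (Eventually.of_forall fun t => ?_)
  rw [Real.norm_of_nonneg (Kh_nonneg hN t)]
  unfold PhiT
  by_cases ht : t ∈ Metric.ball (0 : EuclideanSpace ℝ (Fin N)) r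
  · rw [indicator_of_mem ht]; exact Kh_le hN t
  · rw [indicator_of_notMem ht, Kh_zero (by simpa using ht)]

/-- `Φ ∂_i χ` -/
def Fi (r : ℝ) (hr : 0 < r) (i : Fin N) (t : EuclideanSpace ℝ (Fin N)) : ℝ :=
  Phi t * pd i (cutf N r hr) t

lemma Fi_smooth (i : Fin N) : ContDiff ℝ ∞ (Fi r hr i) := by
  rw [contDiff_iff_contDiffAt]
  intro x
  by_cases hx : x = 0
  · subst hx
    refine (contDiffAt_const (c := (0:ℝ))).congr_of_eventuallyEq ?_
    filter_upwards [eventually_eventually_nhds.2 (cut_zero_near (N := N) (r := r) (hr := hr))] with y hy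
    unfold Fi pd
    have h : (cutf N r hr) =ᶠ[𝓝 y] fun _ => 1 := hy
    rw [h.fderiv_eq]
    simp
  · exact (Phi_contDiffAt hx).mul (pd_contDiff_top cut_smooth i).contDiffAt

lemma Fi_cpt (i : Fin N) : HasCompactSupport (Fi r hr i) :=
  (pd_hasCompactSupport cut_cpt i).mul_left

/-- `Φ Δχ` -/
def PL (r : ℝ) (hr : 0 < r) (t : EuclideanSpace ℝ (Fin N)) : ℝ :=
  Phi t * Laplacian.laplacian (cutf N r hr) t

/-- `Φ Δχ` is continuous with compact support -/
lemma PL_cont : Continuous (PL (N := N) r hr) := by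
  rw [continuous_iff_continuousAt]
  intro x
  by_cases hx : x = 0
  · subst hx
    refine (continuousAt_const (y := (0:ℝ))).congr ?_
    filter_upwards [eventually_eventually_nhds.2 (cut_zero_near (N := N) (r := r) (hr := hr))] with y hy
    have h : (cutf N r hr) =ᶠ[𝓝 y] fun _ => 1 := hy
    have h2 : Laplacian.laplacian (cutf N r hr) y = 0 := by
      rw [(InnerProductSpace.laplacian_congr_nhds h).eq_of_nhds, laplacian_eq_sum contDiff_const]
      refine Finset.sum_eq_zero fun i _ => ?_
      have : pd i (fun _ : EuclideanSpace ℝ (Fin N) => (1:ℝ)) = fun _ => 0 := by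
        ext z; simp [pd]
      rw [this]; simp [pd]
    unfold PL
    rw [h2, mul_zero]
  · exact (Phi_continuousAt hx).mul (laplacian_continuous (cut_smooth.of_le (by norm_cast))).continuousAt

lemma PL_cpt : HasCompactSupport (PL (N := N) r hr) :=
  (laplacian_hasCompactSupport (cut_smooth.of_le (by norm_cast)) cut_cpt).mul_left

/-- sum of the divergence terms -/
def DF (r : ℝ) (hr : 0 < r) (t : EuclideanSpace ℝ (Fin N)) : ℝ := ∑ i, pd i (Fi r hr i) t

lemma DF_cont : Continuous (DF (N := N) r hr) :=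
  continuous_finsetSum _ fun i _ => (pd_contDiff_top (Fi_smooth i) i).continuous

lemma DF_cpt : HasCompactSupport (DF (N := N) r hr) := by
  have e : DF (N := N) r hr = ∑ i, pd i (Fi r hr i) := by
    ext x; simp [DF]
  rw [e]
  exact Finset.sum_induction _ HasCompactSupport (fun a b => HasCompactSupport.add)
    HasCompactSupport.zero fun i _ => pd_hasCompactSupport (Fi_cpt i) i

/-- error kernel -/
def rh (r : ℝ) (hr : 0 < r) (t : EuclideanSpace ℝ (Fin N)) : ℝ :=
  PL r hr t + (-2) * DF r hr t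

lemma rh_cont : Continuous (rh (N := N) r hr) :=
  PL_cont.add (continuous_const.mul DF_cont)

lemma rh_cpt : HasCompactSupport (rh (N := N) r hr) := by
  have h2 : HasCompactSupport (fun t : EuclideanSpace ℝ (Fin N) => (-2) * DF r hr t) :=
    HasCompactSupport.mul_left (DF_cpt (hr := hr))
  exact HasCompactSupport.add (PL_cpt (hr := hr)) h2

lemma rh_bound : ∃ C : ℝ, 0 < C ∧ ∀ t : EuclideanSpace ℝ (Fin N), |rh r hr t| ≤ C := by
  obtain ⟨C, hC⟩ := (rh_cpt (N := N) (r := r) (hr := hr)).exists_bound_of_continuous rh_cont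
  exact ⟨max C 1, by positivity, fun t => (hC t).trans (le_max_left _ _)⟩

/-- the truncated kernel identity at the origin -/
lemma Kh_lap (hN : 3 ≤ N) {g : EuclideanSpace ℝ (Fin N) → ℝ} (hg : ContDiff ℝ ∞ g)
    (hc : HasCompactSupport g) :
    ∫ t, Kh r hr t * Laplacian.laplacian g t = - g 0 - ∫ t, rh r hr t * g t := by
  have h1 : ContDiff ℝ ∞ (fun t => cutf N r hr t * g t) := cut_smooth.mul hg
  have h1c : HasCompactSupport (fun t => cutf N r hr t * g t) := hc.mul_left
  have h2 := Phi_lap hN h1 h1c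
  have h0 : cutf N r hr 0 = 1 := (cut_zero_near (N := N) (r := r) (hr := hr)).self_of_nhds
  simp only [h0, one_mul] at h2
  have hg2 : ContDiff ℝ 2 g := hg.of_le (by norm_cast)
  have e1 : ∀ t, Phi t * Laplacian.laplacian (fun t => cutf N r hr t * g t) t =
      Kh r hr t * Laplacian.laplacian g t + (2 * (∑ i, Fi r hr i t * pd i g t) + PL r hr t * g t) := by
    intro t
    rw [laplacian_mul cut_smooth hg]
    have : ∑ i, Fi r hr i t * pd i g t = Phi t * ∑ i, pd i (cutf N r hr) t * pd i g t := by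
      rw [Finset.mul_sum]
      refine Finset.sum_congr rfl fun i _ => ?_
      unfold Fi
      ring
    rw [this]
    unfold Kh PL
    ring
  have i1 : Integrable (fun t => Kh r hr t * Laplacian.laplacian g t) := by
    obtain ⟨C, hC⟩ := (laplacian_hasCompactSupport hg2 hc).exists_bound_of_continuous
      (laplacian_continuous hg2)
    exact (Kh_integrable hN).mul_bdd (c := C) (laplacian_continuous hg2).aestronglyMeasurable
      (Eventually.of_forall hC)
  have i2 : ∀ i, Integrable (fun t => Fi r hr i t * pd i g t) := fun i =>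
    ((Fi_smooth i).continuous.mul (pd_contDiff_top hg i).continuous).integrable_of_hasCompactSupport
      (pd_hasCompactSupport hc i).mul_left
  have i2' : Integrable (fun t => 2 * (∑ i, Fi r hr i t * pd i g t)) :=
    (integrable_finsetSum _ fun i _ => i2 i).const_mul 2
  have i3 : Integrable (fun t => PL r hr t * g t) :=
    (PL_cont.mul hg.continuous).integrable_of_hasCompactSupport hc.mul_left
  have i4 : ∀ i, Integrable (fun t => pd i (Fi r hr i) t * g t) := fun i =>
    ((pd_contDiff_top (Fi_smooth i) i).continuous.mul hg.continuous).integrable_of_hasCompactSupport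
      hc.mul_left
  simp_rw [e1] at h2
  have i23 : Integrable (fun t => 2 * (∑ i, Fi r hr i t * pd i g t) + PL r hr t * g t) := i2'.add i3
  rw [integral_add i1 i23] at h2
  rw [integral_add i2' i3, integral_const_mul, integral_finsetSum _ (fun i _ => i2 i)] at h2
  have e2 : ∀ i, ∫ t, Fi r hr i t * pd i g t = - ∫ t, pd i (Fi r hr i) t * g t := fun i =>
    ibp ((Fi_smooth i).of_le (by norm_cast)) (hg.of_le (by norm_cast)) hc i
  simp_rw [e2] at h2
  rw [Finset.sum_neg_distrib, ← integral_finsetSum _ (fun i _ => i4 i)] at h2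
  have e3 : ∫ t, rh r hr t * g t = (∫ t, PL r hr t * g t) + (-2) * (∫ t, DF r hr t * g t) := by
    have i5 : Integrable (fun t => DF r hr t * g t) :=
      (DF_cont.mul hg.continuous).integrable_of_hasCompactSupport hc.mul_left
    rw [← integral_const_mul]
    rw [← integral_add i3 (i5.const_mul _)]
    refine integral_congr_ae (Eventually.of_forall fun t => ?_)
    simp only
    unfold rh
    ring
  have e4 : ∫ t, DF r hr t * g t = ∫ t, ∑ i, pd i (Fi r hr i) t * g t := by
    refine integral_congr_ae (Eventually.of_forall fun t => ?_)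
    simp only
    unfold DF
    rw [Finset.sum_mul]
  rw [e3, e4]
  linarith

end

end Pool.Agent.H19.Good
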