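import Pool.Agent.H19.Good.Nec1

/-!
Localised potentials and the core inequality for the necessity part.
-/

open MeasureTheory Set Filter Topology
open scoped Real ENNReal NNReal ContDiff Laplacian Pointwise

namespace Pool.Agent.H19.Good

noncomputable section

variable {N : ℕ}

variable {Ω U K' : Set (EuclideanSpace ℝ (Fin N))} {r : ℝ}

/-- smooth cutoff around a set -/
lemma exists_chi (K' : Set (EuclideanSpace ℝ (Fin N))) (hr : 0 < r) :
    ∃ χ : EuclideanSpace ℝ (Fin N) → ℝ, ContDiff ℝ ∞ χ ∧
    (∀ x, 0 ≤ χ x) ∧ (∀ x, χ x ≤ 1) ∧ (∀ x ∈ Metric.thickening r K', χ x = 1) ∧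
      (∀ x, x ∉ Metric.thickening (3 * r) K' → χ x = 0) := by
  obtain ⟨n, hn⟩ := exists_nat_one_div_lt hr
  set w : EuclideanSpace ℝ (Fin N) → ℝ := (Metric.thickening (2 * r) K').indicator (fun _ => 1) with hw
  have hmeas : MeasurableSet (Metric.thickening (2 * r) K') := Metric.isOpen_thickening.measurableSet
  have hwm : Measurable w := measurable_const.indicator hmeas
  have hw0 : ∀ x, 0 ≤ w x := fun x => indicator_nonneg (fun _ _ => zero_le_one) x
  have hw1 : ∀ x, w x ≤ 1 := fun x => indicator_le_self' (fun _ _ => zero_le_one) x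
  have hwl : LocallyIntegrable w volume := (locallyIntegrable_const 1).indicator hmeas
  have hwb : ∀ x, |w x| ≤ 1 := fun x => by rw [abs_of_nonneg (hw0 x)]; exact hw1 x
  refine ⟨cv volume w (moll n), cv_contDiff hwl (moll_contDiff n) (moll_cpt n),
    fun x => cv_nonneg hw0 (moll_nonneg n) x,
    fun x => (le_abs_self _).trans (cv_moll_bound hwb x), fun x hx => ?_, fun x hx => ?_⟩
  · have hx1 : w x = 1 := by
      rw [hw, indicator_of_mem (Metric.thickening_mono (by linarith) _ hx)]
    have h := cv_moll_dist (n := n) (ε := 0) hwm.aestronglyMeasurable (x := x) (fun y hy => ?_)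
    · have h2 := abs_nonpos_iff.1 h
      linarith
    · have hy1 : y ∈ Metric.thickening (2 * r) K' := by
        rw [Metric.mem_thickening_iff] at hx ⊢
        obtain ⟨z, hz, hxz⟩ := hx
        refine ⟨z, hz, ?_⟩
        have := dist_triangle y x z
        rw [dist_eq_norm y x] at this
        linarith
      rw [hx1, hw, indicator_of_mem hy1]
      simp
  · have hx1 : w x = 0 := by
      rw [hw, indicator_of_notMem]
      intro h
      exact hx (Metric.thickening_mono (by linarith) _ h)
    have h := cv_moll_dist (n := n) (ε := 0) hwm.aestronglyMeasurable (x := x) (fun y hy => ?_)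
    · have h2 := abs_nonpos_iff.1 h
      linarith
    · have hy1 : y ∉ Metric.thickening (2 * r) K' := by
        intro hy2
        apply hx
        rw [Metric.mem_thickening_iff] at hy2 ⊢
        obtain ⟨z, hz, hxz⟩ := hy2
        refine ⟨z, hz, ?_⟩
        have := dist_triangle x y z
        rw [dist_comm x y, dist_eq_norm y x] at this
        linarith
      rw [hx1, hw, indicator_of_notMem hy1]
      simp

/-- smooth compactly supported functions are bounded with support in a ball -/
lemma bd_of_smooth {s : EuclideanSpace ℝ (Fin N) → ℝ} (hs : Continuous s) (hc : HasCompactSupport s) :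
    ∃ R C, Bd R C s := by
  obtain ⟨C, hC⟩ := hc.exists_bound_of_continuous hs
  obtain ⟨R, hR⟩ := hc.isCompact.isBounded.subset_ball 0
  refine ⟨R, C, hs.measurable, hC, fun x hx => ?_⟩
  by_contra h
  have := hR (subset_tsupport _ h)
  rw [Metric.mem_ball, dist_zero_right] at this
  linarith

variable {hr : 0 < r}

/-- Laplacian of the localised potential -/
lemma laplacian_cv_Kh (hN : 3 ≤ N) {σ : EuclideanSpace ℝ (Fin N) → ℝ} (hσ : ContDiff ℝ ∞ σ)
    (hc : HasCompactSupport σ) (x : EuclideanSpace ℝ (Fin N)) :
    Laplacian.laplacian (cv volume (Kh r hr) σ) x = - σ x - cv volume (rh r hr) σ x := by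
  rw [laplacian_cv (Kh_integrable hN).locallyIntegrable hσ hc]
  have h1 : ContDiff ℝ ∞ (fun t => σ (x - t)) := hσ.comp (contDiff_const.sub contDiff_id)
  have h2 : HasCompactSupport (fun t => σ (x - t)) :=
    hc.comp_homeomorph (Homeomorph.subLeft x)
  have h3 := Kh_lap (r := r) (hr := hr) hN h1 h2
  simp only [sub_zero] at h3
  unfold cv
  rw [← h3]
  refine integral_congr_ae (Eventually.of_forall fun t => ?_)
  simp only
  rw [laplacian_comp_const_sub (hσ.of_le (by norm_cast))]

lemma cv_rh_bound {C : ℝ} (hC : ∀ t : EuclideanSpace ℝ (Fin N), |rh r hr t| ≤ C)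
    {σ : EuclideanSpace ℝ (Fin N) → ℝ} (hσ : Integrable σ) (hσ0 : ∀ x, 0 ≤ σ x)
    (x : EuclideanSpace ℝ (Fin N)) : |cv volume (rh r hr) σ x| ≤ C * ∫ t, σ t := by
  unfold cv
  have h1 : Integrable (fun t => C * σ (x - t)) := (hσ.comp_sub_left x).const_mul C
  calc |∫ t, rh r hr t * σ (x - t)| ≤ ∫ t, |rh r hr t * σ (x - t)| := abs_integral_le_integral_abs
    _ ≤ ∫ t, C * σ (x - t) := by
        refine integral_mono_of_nonneg (Eventually.of_forall fun t => abs_nonneg _) h1
          (Eventually.of_forall fun t => ?_)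
        simp only
        rw [abs_mul, abs_of_nonneg (hσ0 _)]
        exact mul_le_mul_of_nonneg_right (hC t) (hσ0 _)
    _ = C * ∫ t, σ t := by
        rw [integral_const_mul, integral_sub_left_eq_self (fun t => σ t) volume x]

lemma cv_Kh_swap (σ : EuclideanSpace ℝ (Fin N) → ℝ) (x : EuclideanSpace ℝ (Fin N)) :
    cv volume (Kh r hr) σ x = ∫ t, σ t * Kh r hr (x - t) := by
  unfold cv
  rw [← integral_sub_left_eq_self (fun t => Kh r hr t * σ (x - t)) volume x]
  refine integral_congr_ae (Eventually.of_forall fun t => ?_)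
  simp only [sub_sub_cancel]
  ring

/-- Young's inequality -/
lemma young {a b l : ℝ} (hb : 0 ≤ b) (hl : 0 < l) :
    a * b ≤ b * Real.posLog b + Real.log (1 / l) * b + l * Real.exp a := by
  rcases hb.eq_or_lt with rfl | hb
  · simp only [mul_zero, zero_mul, zero_add]
    positivity
  · have h1 : Real.log b ≤ Real.posLog b := by
      rw [Real.posLog_apply]; exact le_max_right _ _
    -- `log z ≤ z - 1` with `z = l e^a / b`
    have hz : 0 < l * Real.exp a / b := by positivity
    have h2 := Real.log_le_sub_one_of_pos hz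
    rw [Real.log_div (by positivity) hb.ne', Real.log_mul hl.ne' (Real.exp_pos a).ne', Real.log_exp] at h2
    rw [Real.log_div one_ne_zero hl.ne', Real.log_one]
    have h3 : b * (Real.log l + a - Real.log b) ≤ b * (l * Real.exp a / b - 1) :=
      mul_le_mul_of_nonneg_left h2 hb.le
    have h4 : b * (l * Real.exp a / b - 1) = l * Real.exp a - b := by
      field_simp
    have h5 : b * Real.log b ≤ b * Real.posLog b := mul_le_mul_of_nonneg_left h1 hb.le
    rw [h4] at h3
    nlinarith

end

end Pool.Agent.H19.Good
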