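import Pool.Agent.H19.Good.Nec2

/-!
The core inequality for the necessity part.
-/

open MeasureTheory Set Filter Topology
open scoped Real ENNReal NNReal ContDiff Laplacian Pointwise

namespace Pool.Agent.H19.Good

noncomputable section

variable {N : ℕ}

variable {Ω U K' : Set (EuclideanSpace ℝ (Fin N))} {r : ℝ} {hr : 0 < r}

lemma nec_core (hN : 3 ≤ N) (hΩo : IsOpen Ω) (hΩv : volume Ω ≠ ⊤)
    (m1 m2 : Measure (EuclideanSpace ℝ (Fin N))) [IsFiniteMeasure m1] [IsFiniteMeasure m2]
    {u : EuclideanSpace ℝ (Fin N) → ℝ} (hu : IntegrableOn u Ω)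
    (hg : IntegrableOn (fun x => Real.exp (u x) - 1) Ω)
    (hsol : ∀ ζ : EuclideanSpace ℝ (Fin N) → ℝ, ContDiff ℝ ∞ ζ → (∀ x ∈ frontier Ω, ζ x = 0) →
      -(∫ x in Ω, u x * Laplacian.laplacian ζ x) + ∫ x in Ω, (Real.exp (u x) - 1) * ζ x =
        (∫ x, ζ x ∂m1) - ∫ x, ζ x ∂m2)
    (hK' : IsCompact K') (hU : Metric.thickening (4 * r) K' ⊆ U) (hUΩ : U ⊆ Ω)
    (hUm : MeasurableSet U) {C : ℝ} (hC : ∀ t : EuclideanSpace ℝ (Fin N), |rh r hr t| ≤ C)
    {δ B l T : ℝ} (hB : 0 ≤ B) (hl : 0 < l) (hl1 : l ≤ 1) (hT : 0 ≤ T)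
    {s : EuclideanSpace ℝ (Fin N) → ℝ} (hs : Adm K' δ B s) :
    (1 - kap N / (r / 2) ^ (N - 2) * δ) * m1.real K' ≤
      B * m2.real U + C * δ * (∫ x in Ω, |u x|) + cost s + Real.log (1 / l) * δ +
        l * (∫ x in Ω, Real.exp (u x)) + B * (∫ x in Ω, max (Real.exp (u x) - T) 0) +
        T * ((∫ x : EuclideanSpace ℝ (Fin N), Kh r hr x) * δ) := by
  have hk := kap_pos hN
  have hΩm := hΩo.measurableSet
  obtain ⟨χ, hχs, hχ0, hχ1, hχe, hχz⟩ := exists_chi K' hr
  obtain ⟨R, M, hbd⟩ := bd_of_smooth hs.smooth.continuous hs.cpt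
  have hC0 : 0 ≤ C := (abs_nonneg _).trans (hC 0)
  set σ : EuclideanSpace ℝ (Fin N) → ℝ := fun x => χ x * s x with hσd
  have hσs : ContDiff ℝ ∞ σ := hχs.mul hs.smooth
  have hσc : HasCompactSupport σ := hs.cpt.mul_left
  have hσ0 : ∀ x, 0 ≤ σ x := fun x => mul_nonneg (hχ0 x) (hs.nonneg x)
  have hσle : ∀ x, σ x ≤ s x := fun x => mul_le_of_le_one_left (hs.nonneg x) (hχ1 x)
  have hσi : Integrable σ := hσs.continuous.integrable_of_hasCompactSupport hσc
  have hsi : Integrable s := hs.smooth.continuous.integrable_of_hasCompactSupport hs.cpt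
  have hmass0 : 0 ≤ ∫ x, σ x := integral_nonneg hσ0
  have hmass : ∫ x, σ x ≤ δ := (integral_mono hσi hsi hσle).trans hs.mass
  have hδ0 : 0 ≤ δ := hmass0.trans hmass
  set ζ : EuclideanSpace ℝ (Fin N) → ℝ := cv volume (Kh r hr) σ with hζd
  have hζs : ContDiff ℝ ∞ ζ := cv_contDiff (Kh_integrable hN).locallyIntegrable hσs hσc
  have hζ0 : ∀ x, 0 ≤ ζ x := fun x => cv_nonneg (Kh_nonneg hN) hσ0 x
  have hζi : Integrable ζ := cv_integrable (Kh_integrable hN) hσi
  have hζint : ∫ x, ζ x = (∫ x : EuclideanSpace ℝ (Fin N), Kh r hr x) * ∫ x, σ x :=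
    integral_cv (Kh_integrable hN) hσi
  have hKh0 : 0 ≤ ∫ x : EuclideanSpace ℝ (Fin N), Kh r hr x := integral_nonneg (Kh_nonneg hN)
  have hint : ∀ x, Integrable (fun t => σ t * Kh r hr (x - t)) := by
    intro x
    refine (hbd.pot_integrand hN x).mono' ?_ (Eventually.of_forall fun t => ?_)
    · exact (hσs.continuous.measurable.mul
        (Kh_measurable.comp (measurable_const.sub measurable_id))).aestronglyMeasurable
    · rw [Real.norm_of_nonneg (mul_nonneg (hσ0 t) (Kh_nonneg hN _))]
      exact mul_le_mul (hσle t) (Kh_le hN _) (Kh_nonneg hN _) (hs.nonneg t)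
  have hζB : ∀ x, ζ x ≤ B := by
    intro x
    refine le_trans ?_ (hs.le_B x)
    rw [hζd, cv_Kh_swap]
    unfold pot
    refine integral_mono (hint x) (hbd.pot_integrand hN x) fun t => ?_
    exact mul_le_mul (hσle t) (Kh_le hN _) (Kh_nonneg hN _) (hs.nonneg t)
  have hζz : ∀ x, x ∉ Metric.thickening (4 * r) K' → ζ x = 0 := by
    intro x hx
    rw [hζd, cv_Kh_swap]
    have : ∀ t, σ t * Kh r hr (x - t) = 0 := by
      intro t
      by_cases ht : t ∈ Metric.thickening (3 * r) K'
      · have h1 : r ≤ ‖x - t‖ := by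
          by_contra h
          push Not at h
          apply hx
          rw [Metric.mem_thickening_iff] at ht ⊢
          obtain ⟨z, hz, hxz⟩ := ht
          refine ⟨z, hz, ?_⟩
          have := dist_triangle x t z
          rw [dist_eq_norm x t] at this
          linarith
        rw [Kh_zero h1, mul_zero]
      · rw [hσd]
        simp only
        rw [hχz t ht]
        simp
    simp_rw [this]
    exact integral_zero _ _
  have hζK : ∀ x ∈ K', 1 - kap N / (r / 2) ^ (N - 2) * δ ≤ ζ x := by
    intro x hx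
    have h1 := hs.ge_one x hx
    rw [hζd, cv_Kh_swap]
    have h2 : pot s x - kap N / (r / 2) ^ (N - 2) * ∫ t, s t ≤ ∫ t, σ t * Kh r hr (x - t) := by
      unfold pot
      have i1 := hbd.pot_integrand hN x
      have i2 : Integrable (fun t => kap N / (r / 2) ^ (N - 2) * s t) := hsi.const_mul _
      rw [← integral_const_mul, ← integral_sub i1 i2]
      refine integral_mono (i1.sub i2) (hint x) fun t => ?_
      simp only
      by_cases ht : ‖x - t‖ < r / 2
      · have h3 : t ∈ Metric.thickening r K' := by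
          rw [Metric.mem_thickening_iff]
          refine ⟨x, hx, ?_⟩
          rw [dist_comm, dist_eq_norm]
          linarith
        rw [Kh_eq ht.le, hσd]
        simp only
        rw [hχe t h3, one_mul]
        have : 0 ≤ kap N / (r / 2) ^ (N - 2) * s t := mul_nonneg (by positivity) (hs.nonneg t)
        linarith
      · push Not at ht
        have h3 : Phi (x - t) ≤ kap N / (r / 2) ^ (N - 2) := Phi_le_of_le hN (by positivity) ht
        have h4 : 0 ≤ σ t * Kh r hr (x - t) := mul_nonneg (hσ0 t) (Kh_nonneg hN _)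
        have h5 : s t * Phi (x - t) ≤ s t * (kap N / (r / 2) ^ (N - 2)) :=
          mul_le_mul_of_nonneg_left h3 (hs.nonneg t)
        linarith
    have h6 : kap N / (r / 2) ^ (N - 2) * ∫ t, s t ≤ kap N / (r / 2) ^ (N - 2) * δ :=
      mul_le_mul_of_nonneg_left hs.mass (by positivity)
    linarith
  have hζf : ∀ x ∈ frontier Ω, ζ x = 0 := by
    intro x hx
    apply hζz
    intro h
    have h1 : x ∈ Ω := hUΩ (hU h)
    have h2 : x ∉ interior Ω := hx.2
    rw [hΩo.interior_eq] at h2
    exact h2 h1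
  have hid := hsol ζ hζs hζf
  have hlap : ∀ x, Laplacian.laplacian ζ x = - σ x - cv volume (rh r hr) σ x := fun x =>
    laplacian_cv_Kh hN hσs hσc x
  have hrb : ∀ x, |cv volume (rh r hr) σ x| ≤ C * δ := fun x =>
    (cv_rh_bound hC hσi hσ0 x).trans (mul_le_mul_of_nonneg_left hmass hC0)
  have hrc : Continuous (cv volume (rh (N := N) r hr) σ) :=
    (cv_contDiff (rh_cont.integrable_of_hasCompactSupport rh_cpt).locallyIntegrable hσs hσc).continuous
  obtain ⟨Mσ, hMσ⟩ := hσc.exists_bound_of_continuous hσs.continuous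
  -- the two terms of `u Δζ`
  have j1 : IntegrableOn (fun x => u x * σ x) Ω := by
    refine (hu.bdd_mul (c := Mσ) hσs.continuous.aestronglyMeasurable (Eventually.of_forall hMσ)).congr
      (Eventually.of_forall fun x => ?_)
    simp only; ring
  have j2 : IntegrableOn (fun x => u x * cv volume (rh r hr) σ x) Ω := by
    refine (hu.bdd_mul (c := C * δ) hrc.aestronglyMeasurable (Eventually.of_forall hrb)).congr
      (Eventually.of_forall fun x => ?_)
    simp only; ring
  have k1 : -(∫ x in Ω, u x * Laplacian.laplacian ζ x) =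
      (∫ x in Ω, u x * σ x) + ∫ x in Ω, u x * cv volume (rh r hr) σ x := by
    rw [← integral_neg, ← integral_add j1 j2]
    refine integral_congr_ae (Eventually.of_forall fun x => ?_)
    simp only
    rw [hlap]; ring
  have k2 : ∫ x in Ω, u x * cv volume (rh r hr) σ x ≤ C * δ * ∫ x in Ω, |u x| := by
    rw [← integral_const_mul]
    refine integral_mono j2 (hu.abs.const_mul _) fun x => ?_
    simp only
    calc u x * cv volume (rh r hr) σ x ≤ |u x * cv volume (rh r hr) σ x| := le_abs_self _
      _ = |cv volume (rh r hr) σ x| * |u x| := by rw [abs_mul]; ring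
      _ ≤ C * δ * |u x| := mul_le_mul_of_nonneg_right (hrb x) (abs_nonneg _)
  have hexp : IntegrableOn (fun x => Real.exp (u x)) Ω := by
    have h1 : IntegrableOn (fun _ : EuclideanSpace ℝ (Fin N) => (1:ℝ)) Ω := integrableOn_const hΩv
    refine (hg.add h1).congr (Eventually.of_forall fun x => ?_)
    simp
  obtain ⟨R', M', hbσ⟩ := bd_of_smooth hσs.continuous hσc
  have hcσ : cost σ ≤ cost s := by
    unfold cost
    refine integral_mono hbσ.cost_integrable hbd.cost_integrable fun x => ?_
    simp only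
    exact mul_le_mul (hσle x) (Real.posLog_le_posLog (hσ0 x) (hσle x)) Real.posLog_nonneg (hs.nonneg x)
  have hlog : 0 ≤ Real.log (1 / l) := Real.log_nonneg (by rw [le_div_iff₀ hl]; linarith)
  have k3 : ∫ x in Ω, u x * σ x ≤ cost s + Real.log (1 / l) * δ + l * ∫ x in Ω, Real.exp (u x) := by
    have i1 : IntegrableOn (fun x => σ x * Real.posLog (σ x)) Ω := hbσ.cost_integrable.integrableOn
    have i2 : IntegrableOn (fun x => Real.log (1 / l) * σ x) Ω := (hσi.const_mul _).integrableOn
    have i3 : IntegrableOn (fun x => l * Real.exp (u x)) Ω := hexp.const_mul l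
    have i12 : IntegrableOn (fun x => σ x * Real.posLog (σ x) + Real.log (1 / l) * σ x) Ω := i1.add i2
    have h1 : ∫ x in Ω, u x * σ x ≤
        ∫ x in Ω, (σ x * Real.posLog (σ x) + Real.log (1 / l) * σ x + l * Real.exp (u x)) :=
      integral_mono j1 (i12.add i3) fun x => young (hσ0 x) hl
    have h2 : ∫ x in Ω, (σ x * Real.posLog (σ x) + Real.log (1 / l) * σ x + l * Real.exp (u x)) =
        (∫ x in Ω, σ x * Real.posLog (σ x)) + (∫ x in Ω, Real.log (1 / l) * σ x) +
          ∫ x in Ω, l * Real.exp (u x) := by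
      rw [integral_add i12 i3, integral_add i1 i2]
    have h3 : ∫ x in Ω, σ x * Real.posLog (σ x) ≤ cost σ :=
      setIntegral_le_integral hbσ.cost_integrable
        (Eventually.of_forall fun x => mul_nonneg (hσ0 x) Real.posLog_nonneg)
    have h4 : ∫ x in Ω, Real.log (1 / l) * σ x ≤ Real.log (1 / l) * δ := by
      rw [integral_const_mul]
      refine mul_le_mul_of_nonneg_left ?_ hlog
      exact (setIntegral_le_integral hσi (Eventually.of_forall hσ0)).trans hmass
    rw [h2, integral_const_mul l] at h1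
    linarith
  -- the absorption term
  have hTint : IntegrableOn (fun x => max (Real.exp (u x) - T) 0) Ω := by
    have h1 : IntegrableOn (fun _ : EuclideanSpace ℝ (Fin N) => T) Ω := integrableOn_const hΩv
    exact (hexp.sub h1).pos_part
  have k4 : ∫ x in Ω, (Real.exp (u x) - 1) * ζ x ≤
      B * (∫ x in Ω, max (Real.exp (u x) - T) 0) + T * ((∫ x : EuclideanSpace ℝ (Fin N), Kh r hr x) * δ) := by
    have i1 : IntegrableOn (fun x => B * max (Real.exp (u x) - T) 0) Ω := hTint.const_mul B
    have i2 : IntegrableOn (fun x => T * ζ x) Ω := (hζi.const_mul T).integrableOn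
    have i3 : IntegrableOn (fun x => (Real.exp (u x) - 1) * ζ x) Ω := by
      refine (hg.bdd_mul (c := B) hζs.continuous.aestronglyMeasurable
        (Eventually.of_forall fun x => ?_)).congr (Eventually.of_forall fun x => ?_)
      · rw [Real.norm_of_nonneg (hζ0 x)]; exact hζB x
      · simp only; ring
    have h1 : ∫ x in Ω, (Real.exp (u x) - 1) * ζ x ≤
        ∫ x in Ω, (B * max (Real.exp (u x) - T) 0 + T * ζ x) := by
      refine integral_mono i3 (i1.add i2) fun x => ?_
      simp only
      have h2 := hζ0 x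
      have h3 := hζB x
      have h4 : (Real.exp (u x) - 1) * ζ x ≤ (max (Real.exp (u x) - T) 0 + T) * ζ x := by
        refine mul_le_mul_of_nonneg_right ?_ h2
        have := le_max_left (Real.exp (u x) - T) 0
        linarith
      have h5 : max (Real.exp (u x) - T) 0 * ζ x ≤ max (Real.exp (u x) - T) 0 * B :=
        mul_le_mul_of_nonneg_left h3 (le_max_right _ _)
      nlinarith
    rw [integral_add i1 i2, integral_const_mul, integral_const_mul] at h1
    have h2 : ∫ x in Ω, ζ x ≤ (∫ x : EuclideanSpace ℝ (Fin N), Kh r hr x) * δ := by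
      refine (setIntegral_le_integral hζi (Eventually.of_forall hζ0)).trans ?_
      rw [hζint]
      exact mul_le_mul_of_nonneg_left hmass hKh0
    have h3 := mul_le_mul_of_nonneg_left h2 hT
    linarith
  -- the measure terms
  have hζb : ∀ x, ‖ζ x‖ ≤ B := fun x => by rw [Real.norm_of_nonneg (hζ0 x)]; exact hζB x
  have hζm1 : Integrable ζ m1 := Integrable.of_bound hζs.continuous.aestronglyMeasurable B
    (Eventually.of_forall hζb)
  have k5 : (1 - kap N / (r / 2) ^ (N - 2) * δ) * m1.real K' ≤ ∫ x, ζ x ∂m1 := by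
    have h1 : ∫ x in K', ζ x ∂m1 ≤ ∫ x, ζ x ∂m1 := setIntegral_le_integral hζm1
      (Eventually.of_forall hζ0)
    have h2 : ∫ _ in K', (1 - kap N / (r / 2) ^ (N - 2) * δ) ∂m1 ≤ ∫ x in K', ζ x ∂m1 :=
      setIntegral_mono_on (integrableOn_const (measure_ne_top _ _)) hζm1.integrableOn
        hK'.measurableSet hζK
    rw [setIntegral_const, smul_eq_mul] at h2
    linarith [mul_comm (m1.real K') (1 - kap N / (r / 2) ^ (N - 2) * δ)]
  have k6 : ∫ x, ζ x ∂m2 ≤ B * m2.real U := by
    have h1 : ∫ x, ζ x ∂m2 = ∫ x in U, ζ x ∂m2 := by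
      rw [← integral_indicator hUm]
      refine integral_congr_ae (Eventually.of_forall fun x => ?_)
      by_cases hx : x ∈ U
      · rw [indicator_of_mem hx]
      · rw [indicator_of_notMem hx]
        exact hζz x fun h => hx (hU h)
    have hζm2 : Integrable ζ m2 := Integrable.of_bound hζs.continuous.aestronglyMeasurable B
      (Eventually.of_forall hζb)
    have h2 : ∫ x in U, ζ x ∂m2 ≤ ∫ _ in U, B ∂m2 :=
      integral_mono hζm2.integrableOn (integrable_const B) fun x => hζB x
    rw [setIntegral_const, smul_eq_mul] at h2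
    rw [h1]
    linarith [mul_comm (m2.real U) B]
  rw [k1] at hid
  linarith

end

end Pool.Agent.H19.Good
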