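import Pool.Agent.H19.Good.Nec3

/-!
Necessity of the capacity condition.
-/

open MeasureTheory Set Filter Topology
open scoped Real ENNReal NNReal ContDiff Laplacian Pointwise

namespace Pool.Agent.H19.Good

noncomputable section

variable {N : ℕ}

variable {Ω K P : Set (EuclideanSpace ℝ (Fin N))}

theorem necessity (hN : 3 ≤ N) (hΩo : IsOpen Ω) (hΩv : volume Ω ≠ ⊤)
    (m1 m2 : Measure (EuclideanSpace ℝ (Fin N))) [IsFiniteMeasure m1] [IsFiniteMeasure m2]
    (hP : MeasurableSet P) (hP1 : m1 Pᶜ = 0) (hP2 : m2 P = 0)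
    {u : EuclideanSpace ℝ (Fin N) → ℝ} (hu : IntegrableOn u Ω)
    (hg : IntegrableOn (fun x => Real.exp (u x) - 1) Ω)
    (hsol : ∀ ζ : EuclideanSpace ℝ (Fin N) → ℝ, ContDiff ℝ ∞ ζ → (∀ x ∈ frontier Ω, ζ x = 0) →
      -(∫ x in Ω, u x * Laplacian.laplacian ζ x) + ∫ x in Ω, (Real.exp (u x) - 1) * ζ x =
        (∫ x, ζ x ∂m1) - ∫ x, ζ x ∂m2)
    (hKΩ : K ⊆ Ω) (hK : IsCompact K) (B : ℝ) {η : ℝ} (hη : 0 < η) :
    ∃ δ > 0, ∀ s, Adm K δ B s → m1.real K - η ≤ cost s := by
  have hk := kap_pos hN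
  set B' : ℝ := max B 1 with hB'
  have hB1 : 1 ≤ B' := le_max_right _ _
  have hB0 : 0 < B' := by linarith
  -- the compact set `K'`
  obtain ⟨K', hK'sub, hK', hK'm⟩ := (hK.measurableSet.inter hP).exists_isCompact_lt_add (μ := m1)
    (measure_ne_top _ _) (ε := ENNReal.ofReal (η / 8)) (by simp; positivity)
  have hm1 : m1.real K ≤ m1.real K' + η / 8 := by
    have h1 : m1 K ≤ m1 (K ∩ P) := by
      calc m1 K ≤ m1 ((K ∩ P) ∪ Pᶜ) := measure_mono fun x hx => by
            by_cases hxP : x ∈ P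
            · exact Or.inl ⟨hx, hxP⟩
            · exact Or.inr hxP
        _ ≤ m1 (K ∩ P) + m1 Pᶜ := measure_union_le _ _
        _ = m1 (K ∩ P) := by rw [hP1, add_zero]
    have h2 : m1 K ≤ m1 K' + ENNReal.ofReal (η / 8) := h1.trans hK'm.le
    have h3 := ENNReal.toReal_mono (by finiteness) h2
    rw [ENNReal.toReal_add (by finiteness) (by finiteness), ENNReal.toReal_ofReal (by positivity)] at h3
    exact h3
  -- the open set `U`
  have hm2K : m2 K' = 0 := measure_mono_null (hK'sub.trans inter_subset_right) hP2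
  obtain ⟨U0, hU0, hU0o, hU0m⟩ := K'.exists_isOpen_lt_of_lt (μ := m2) (ENNReal.ofReal (η / (8 * B')))
    (by rw [hm2K]; simp; positivity)
  have hUo : IsOpen (U0 ∩ Ω) := hU0o.inter hΩo
  have hK'U : K' ⊆ U0 ∩ Ω := subset_inter hU0 ((hK'sub.trans inter_subset_left).trans hKΩ)
  have hm2U : B' * m2.real (U0 ∩ Ω) ≤ η / 8 := by
    have h1 : m2 (U0 ∩ Ω) ≤ ENNReal.ofReal (η / (8 * B')) :=
      (measure_mono inter_subset_left).trans hU0m.le
    have h2 := ENNReal.toReal_mono (by finiteness) h1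
    rw [ENNReal.toReal_ofReal (by positivity)] at h2
    have h3 : B' * m2.real (U0 ∩ Ω) ≤ B' * (η / (8 * B')) := mul_le_mul_of_nonneg_left h2 hB0.le
    have h4 : B' * (η / (8 * B')) = η / 8 := by field_simp
    linarith
  obtain ⟨r0, hr0, hr0U⟩ := hK'.exists_thickening_subset_open hUo hK'U
  have hr : 0 < r0 / 4 := by positivity
  have hrU : Metric.thickening (4 * (r0 / 4)) K' ⊆ U0 ∩ Ω := by
    rw [mul_div_cancel₀ _ (by norm_num : (4:ℝ) ≠ 0)]; exact hr0U
  obtain ⟨C, hC0, hC⟩ := rh_bound (N := N) (r := r0 / 4) (hr := hr)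
  have hexp : IntegrableOn (fun x => Real.exp (u x)) Ω := by
    have h1 : IntegrableOn (fun _ : EuclideanSpace ℝ (Fin N) => (1:ℝ)) Ω := integrableOn_const hΩv
    refine (hg.add h1).congr (Eventually.of_forall fun x => ?_)
    simp
  set E : ℝ := ∫ x in Ω, Real.exp (u x) with hE
  have hE0 : 0 ≤ E := integral_nonneg fun x => (Real.exp_pos _).le
  -- the parameter `l`
  set l : ℝ := min 1 (η / (8 * (E + 1))) with hl
  have hl0 : 0 < l := by positivity
  have hl1 : l ≤ 1 := min_le_left _ _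
  have hlE : l * E ≤ η / 8 := by
    have h1 : l * E ≤ η / (8 * (E + 1)) * E := mul_le_mul_of_nonneg_right (min_le_right _ _) hE0
    have h2 : η / (8 * (E + 1)) * E ≤ η / 8 := by
      rw [div_mul_eq_mul_div, div_le_div_iff₀ (by positivity) (by norm_num)]
      nlinarith
    linarith
  -- the parameter `T`
  have hTlim : Tendsto (fun n : ℕ => ∫ x in Ω, max (Real.exp (u x) - n) 0) atTop (𝓝 0) := by
    have h1 : Tendsto (fun n : ℕ => ∫ x in Ω, max (Real.exp (u x) - n) 0) atTop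
        (𝓝 (∫ x in Ω, (0:ℝ))) := by
      refine tendsto_integral_of_dominated_convergence (fun x => Real.exp (u x)) (fun n => ?_) hexp
        (fun n => ?_) ?_
      · have h1 : IntegrableOn (fun _ : EuclideanSpace ℝ (Fin N) => (n:ℝ)) Ω := integrableOn_const hΩv
        exact ((hexp.sub h1).pos_part).aestronglyMeasurable
      · refine Eventually.of_forall fun x => ?_
        rw [Real.norm_of_nonneg (le_max_right _ _)]
        refine max_le ?_ (Real.exp_pos _).le
        have : (0:ℝ) ≤ n := Nat.cast_nonneg n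
        linarith
      · refine Eventually.of_forall fun x => ?_
        refine tendsto_const_nhds.congr' ?_
        obtain ⟨n0, hn0⟩ := exists_nat_ge (Real.exp (u x))
        filter_upwards [eventually_ge_atTop n0] with n hn
        have : (n0:ℝ) ≤ n := by exact_mod_cast hn
        rw [max_eq_right (by linarith)]
    simpa using h1
  have hT2 := hTlim.const_mul B'
  rw [mul_zero] at hT2
  obtain ⟨n, hn⟩ := (hT2.eventually (gt_mem_nhds (show 0 < η / 8 by positivity))).exists
  have hA0 : 0 ≤ ∫ x in Ω, |u x| := integral_nonneg fun x => abs_nonneg _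
  have hKh0 : 0 ≤ ∫ x : EuclideanSpace ℝ (Fin N), Kh (r0 / 4) hr x := integral_nonneg (Kh_nonneg hN)
  have hlog : 0 ≤ Real.log (1 / l) := Real.log_nonneg (by rw [le_div_iff₀ hl0]; linarith)
  set S : ℝ := kap N / (r0 / 4 / 2) ^ (N - 2) * m1.real K' + C * (∫ x in Ω, |u x|) + Real.log (1 / l) +
    n * (∫ x : EuclideanSpace ℝ (Fin N), Kh (r0 / 4) hr x) with hS
  have hS0 : 0 ≤ S := by positivity
  refine ⟨η / (8 * (S + 1)), by positivity, fun s hs => ?_⟩
  have hSδ : S * (η / (8 * (S + 1))) ≤ η / 8 := by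
    rw [mul_div_assoc', div_le_div_iff₀ (by positivity) (by norm_num)]
    nlinarith
  have hs' : Adm K' (η / (8 * (S + 1))) B' s :=
    ⟨hs.smooth, hs.cpt, hs.nonneg, hs.mass, fun x hx => hs.ge_one x (hK'sub hx).1,
      fun x => (hs.le_B x).trans (le_max_left _ _)⟩
  have key := nec_core hN hΩo hΩv m1 m2 hu hg hsol hK' hrU inter_subset_right hUo.measurableSet hC
    hB0.le hl0 hl1 (Nat.cast_nonneg n) hs'
  rw [← hE] at key
  have hSδ2 : S * (η / (8 * (S + 1))) = kap N / (r0 / 4 / 2) ^ (N - 2) * (η / (8 * (S + 1))) * m1.real K' +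
      C * (η / (8 * (S + 1))) * (∫ x in Ω, |u x|) + Real.log (1 / l) * (η / (8 * (S + 1))) +
      n * ((∫ x : EuclideanSpace ℝ (Fin N), Kh (r0 / 4) hr x) * (η / (8 * (S + 1)))) := by
    conv_lhs => rw [hS]
    ring
  linarith

end

end Pool.Agent.H19.Good
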