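import Pool.Agent.H19.Good.Moll

/-!
Mollified Newtonian kernel and potentials.
-/

open MeasureTheory Set Filter Topology
open scoped Real ENNReal NNReal ContDiff Laplacian Pointwise

namespace Pool.Agent.H19.Good

noncomputable section

variable {N : ℕ}

lemma cv_moll_eq (n : ℕ) (w : EuclideanSpace ℝ (Fin N) → ℝ) (x : EuclideanSpace ℝ (Fin N)) :
    cv volume w (moll n) x =
      convolution ((bmp N n).normed volume) w (ContinuousLinearMap.lsmul ℝ ℝ) volume x := by
  rw [convolution_eq_swap]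
  unfold cv moll
  refine integral_congr_ae (Eventually.of_forall fun t => ?_)
  simp only [ContinuousLinearMap.lsmul_apply, smul_eq_mul]
  ring

/-- local closeness of mollification -/
lemma cv_moll_dist {n : ℕ} {w : EuclideanSpace ℝ (Fin N) → ℝ} (hw : AEStronglyMeasurable w volume)
    {x : EuclideanSpace ℝ (Fin N)} {ε : ℝ}
    (h : ∀ y, ‖y - x‖ < 1 / ((n : ℝ) + 1) → |w y - w x| ≤ ε) :
    |cv volume w (moll n) x - w x| ≤ ε := by
  rw [cv_moll_eq, ← Real.dist_eq]
  refine ContDiffBump.dist_normed_convolution_le hw fun y hy => ?_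
  rw [Real.dist_eq]
  refine h y ?_
  rw [← dist_eq_norm]
  exact hy

lemma cv_nonneg {ν : Measure (EuclideanSpace ℝ (Fin N))} {f g : EuclideanSpace ℝ (Fin N) → ℝ}
    (hf : ∀ x, 0 ≤ f x) (hg : ∀ x, 0 ≤ g x) (x : EuclideanSpace ℝ (Fin N)) : 0 ≤ cv ν f g x :=
  integral_nonneg fun t => mul_nonneg (hf t) (hg _)

lemma cv_moll_bound {n : ℕ} {w : EuclideanSpace ℝ (Fin N) → ℝ} {C : ℝ} (hC : ∀ x, |w x| ≤ C)
    (x : EuclideanSpace ℝ (Fin N)) : |cv volume w (moll n) x| ≤ C := by
  unfold cv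
  have hC0 : 0 ≤ C := (abs_nonneg _).trans (hC x)
  have hint : Integrable (fun t => C * moll n (x - t)) :=
    ((moll_integrable n).comp_sub_left x).const_mul C
  calc |∫ t, w t * moll n (x - t)| ≤ ∫ t, |w t * moll n (x - t)| := abs_integral_le_integral_abs
    _ ≤ ∫ t, C * moll n (x - t) := by
        refine integral_mono_of_nonneg (Eventually.of_forall fun t => abs_nonneg _) hint
          (Eventually.of_forall fun t => ?_)
        simp only
        rw [abs_mul, abs_of_nonneg (moll_nonneg n _)]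
        exact mul_le_mul_of_nonneg_right (hC t) (moll_nonneg n _)
    _ = C := by
        rw [integral_const_mul, integral_sub_left_eq_self (fun t => moll n t) volume x, moll_integral, mul_one]

lemma cv_L1_le {ν : Measure (EuclideanSpace ℝ (Fin N))} [SFinite ν]
    {f g : EuclideanSpace ℝ (Fin N) → ℝ} (hf : Integrable f ν) (hg : Integrable g) :
    ∫ x, |cv ν f g x| ≤ (∫ x, |f x| ∂ν) * ∫ x, |g x| := by
  rw [← integral_cv hf.abs hg.abs]
  refine integral_mono (cv_integrable hf hg).abs (cv_integrable hf.abs hg.abs) fun x => ?_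
  simp only
  unfold cv
  refine abs_integral_le_integral_abs.trans (le_of_eq ?_)
  simp_rw [abs_mul]

lemma cv_ae_integrable {ν : Measure (EuclideanSpace ℝ (Fin N))} [SFinite ν]
    {f g : EuclideanSpace ℝ (Fin N) → ℝ} (hf : Integrable f ν) (hg : Integrable g) :
    ∀ᵐ x, Integrable (fun t => f t * g (x - t)) ν := by
  have h := (hf.ae_convolution_exists (ContinuousLinearMap.mul ℝ ℝ) hg)
  filter_upwards [h] with x hx
  simpa [ConvolutionExistsAt] using hx

/-! ### the mollified kernel -/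

/-- mollified Newtonian kernel -/
def moPhi (n : ℕ) : EuclideanSpace ℝ (Fin N) → ℝ := cv volume Phi (moll n)

lemma moPhi_contDiff (hN : 3 ≤ N) (n : ℕ) : ContDiff ℝ ∞ (moPhi n : EuclideanSpace ℝ (Fin N) → ℝ) :=
  cv_contDiff (Phi_locallyIntegrable hN) (moll_contDiff n) (moll_cpt n)

lemma laplacian_moPhi (hN : 3 ≤ N) (n : ℕ) (x : EuclideanSpace ℝ (Fin N)) :
    Laplacian.laplacian (moPhi n) x = - moll n x := by
  unfold moPhi
  rw [laplacian_cv (Phi_locallyIntegrable hN) (moll_contDiff n) (moll_cpt n)]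
  exact Phi_conv_laplacian hN (moll_contDiff n) (moll_cpt n) x

lemma moPhi_nonneg (hN : 3 ≤ N) (n : ℕ) (x : EuclideanSpace ℝ (Fin N)) : 0 ≤ moPhi n x :=
  cv_nonneg (Phi_nonneg hN) (moll_nonneg n) x

/-- uniform convergence away from `0` -/
lemma moPhi_unif {δ M : ℝ} (hδ : 0 < δ) {ε : ℝ} (hε : 0 < ε) :
    ∃ n0, ∀ n ≥ n0, ∀ z : EuclideanSpace ℝ (Fin N), δ ≤ ‖z‖ → ‖z‖ ≤ M →
      |moPhi n z - Phi z| ≤ ε := by
  let A : Set (EuclideanSpace ℝ (Fin N)) := {z | δ / 2 ≤ ‖z‖} ∩ Metric.closedBall 0 (M + 1)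
  have hA : IsCompact A := (isCompact_closedBall _ _).inter_left
    (isClosed_le continuous_const continuous_norm)
  have hcont : ContinuousOn (Phi : EuclideanSpace ℝ (Fin N) → ℝ) A := by
    intro z hz
    refine (Phi_continuousAt ?_).continuousWithinAt
    rintro rfl
    have : δ / 2 ≤ ‖(0 : EuclideanSpace ℝ (Fin N))‖ := hz.1
    rw [norm_zero] at this
    linarith
  have huc := hA.uniformContinuousOn_of_continuous hcont
  rw [Metric.uniformContinuousOn_iff] at huc
  obtain ⟨d, hd, hd'⟩ := huc ε hε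
  obtain ⟨n0, hn0⟩ := exists_nat_one_div_lt (show 0 < min d (min (δ / 2) 1) by positivity)
  refine ⟨n0, fun n hn z hz1 hz2 => ?_⟩
  refine cv_moll_dist Phi_measurable.aestronglyMeasurable fun y hy => ?_
  have h1 : 1 / ((n : ℝ) + 1) ≤ 1 / ((n0 : ℝ) + 1) := one_div_le_one_div_of_le (by positivity)
    (by gcongr)
  have h2 : ‖y - z‖ < min d (min (δ / 2) 1) := by linarith
  rw [lt_min_iff, lt_min_iff] at h2
  have hzA : z ∈ A := ⟨by show δ / 2 ≤ ‖z‖; linarith, by simp; linarith⟩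
  have hyA : y ∈ A := by
    have h3 : ‖z‖ ≤ ‖y‖ + ‖y - z‖ := by
      have := norm_sub_norm_le z y
      rw [norm_sub_rev] at this
      linarith
    have h4 : ‖y‖ ≤ ‖z‖ + ‖y - z‖ := by
      have := norm_sub_norm_le y z
      linarith
    refine ⟨by show δ / 2 ≤ ‖y‖; linarith, ?_⟩
    simp only [Metric.mem_closedBall, dist_zero_right]
    linarith
  have h5 := hd' y hyA z hzA (by rw [dist_eq_norm]; exact h2.1)
  rw [Real.dist_eq] at h5
  exact h5.le

/-- truncated kernel -/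
def PhiT (M : ℝ) : EuclideanSpace ℝ (Fin N) → ℝ := (Metric.ball 0 M).indicator Phi

lemma PhiT_integrable (hN : 3 ≤ N) (M : ℝ) : Integrable (PhiT M : EuclideanSpace ℝ (Fin N) → ℝ) := by
  unfold PhiT
  rw [integrable_indicator_iff measurableSet_ball]
  exact Phi_integrableOn_ball hN M

/-- `L¹` convergence on balls -/
lemma moPhi_L1 (hN : 3 ≤ N) (M : ℝ) :
    Tendsto (fun n => ∫ x in Metric.ball (0 : EuclideanSpace ℝ (Fin N)) M, |moPhi n x - Phi x|) atTop
      (𝓝 0) := by
  have h1 := cv_moll_L1 (PhiT_integrable (N := N) hN (M + 1))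
  refine squeeze_zero (fun n => integral_nonneg fun x => abs_nonneg _) (fun n => ?_) h1
  have i1 : Integrable (fun x => |cv volume (PhiT (M + 1)) (moll n) x - PhiT (M + 1) x|)
      (volume : Measure (EuclideanSpace ℝ (Fin N))) :=
    ((cv_integrable (PhiT_integrable hN (M + 1)) (moll_integrable n)).sub (PhiT_integrable hN (M + 1))).abs
  refine le_trans (le_of_eq ?_) (setIntegral_le_integral (s := Metric.ball 0 M) i1
    (Eventually.of_forall fun x => abs_nonneg _))
  refine setIntegral_congr_fun measurableSet_ball fun x hx => ?_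
  have hx' : ‖x‖ < M := by simpa using hx
  have e1 : PhiT (M + 1) x = Phi x := by
    unfold PhiT
    rw [indicator_of_mem]
    simp only [Metric.mem_ball, dist_zero_right]
    linarith
  have e2 : cv volume (PhiT (M + 1)) (moll n) x = moPhi n x := by
    unfold moPhi cv
    refine integral_congr_ae (Eventually.of_forall fun t => ?_)
    simp only
    by_cases ht : t ∈ Metric.ball (0 : EuclideanSpace ℝ (Fin N)) (M + 1)
    · unfold PhiT
      rw [indicator_of_mem ht]
    · have h2 : M + 1 ≤ ‖t‖ := by simpa using ht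
      have h3 : 1 / ((n : ℝ) + 1) ≤ ‖x - t‖ := by
        have h4 := norm_sub_norm_le t x
        rw [norm_sub_rev] at h4
        have h5 : 1 / ((n : ℝ) + 1) ≤ 1 := by
          rw [div_le_one (by positivity)]
          linarith [(Nat.cast_nonneg n : (0:ℝ) ≤ n)]
        linarith
      rw [moll_eq_zero n h3]
      simp
  rw [e1, e2]

/-- smooth cutoff, equal to one on `ball 0 M` -/
lemma exists_cutoff (M : ℝ) : ∃ χ : EuclideanSpace ℝ (Fin N) → ℝ, ContDiff ℝ ∞ χ ∧ HasCompactSupport χ ∧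
    (∀ x, 0 ≤ χ x) ∧ (∀ x, χ x ≤ 1) ∧ ∀ x ∈ Metric.ball (0 : EuclideanSpace ℝ (Fin N)) M, χ x = 1 := by
  let f : ContDiffBump (0 : EuclideanSpace ℝ (Fin N)) :=
    ⟨max M 1, max M 1 + 1, by positivity, by linarith⟩
  refine ⟨f, f.contDiff, f.hasCompactSupport, fun x => f.nonneg, fun x => f.le_one, fun x hx => ?_⟩
  refine f.one_of_mem_closedBall ?_
  have : ‖x‖ < M := by simpa using hx
  simp only [f, Metric.mem_closedBall, dist_zero_right]
  exact this.le.trans (le_max_left _ _)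

/-- cutoff function -/
def chi (M : ℝ) : EuclideanSpace ℝ (Fin N) → ℝ := Classical.choose (exists_cutoff (N := N) M)

lemma chi_contDiff (M : ℝ) : ContDiff ℝ ∞ (chi M : EuclideanSpace ℝ (Fin N) → ℝ) :=
  (Classical.choose_spec (exists_cutoff (N := N) M)).1
lemma chi_cpt (M : ℝ) : HasCompactSupport (chi M : EuclideanSpace ℝ (Fin N) → ℝ) :=
  (Classical.choose_spec (exists_cutoff (N := N) M)).2.1
lemma chi_nonneg (M : ℝ) (x : EuclideanSpace ℝ (Fin N)) : 0 ≤ chi M x :=
  (Classical.choose_spec (exists_cutoff (N := N) M)).2.2.1 x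
lemma chi_le_one (M : ℝ) (x : EuclideanSpace ℝ (Fin N)) : chi M x ≤ 1 :=
  (Classical.choose_spec (exists_cutoff (N := N) M)).2.2.2.1 x
lemma chi_eq_one {M : ℝ} {x : EuclideanSpace ℝ (Fin N)} (hx : ‖x‖ < M) : chi M x = 1 :=
  (Classical.choose_spec (exists_cutoff (N := N) M)).2.2.2.2 x (by simpa using hx)

/-- smooth compactly supported version of the mollified kernel -/
def Kt (M : ℝ) (n : ℕ) (x : EuclideanSpace ℝ (Fin N)) : ℝ := chi M x * moPhi n x

lemma Kt_contDiff (hN : 3 ≤ N) (M : ℝ) (n : ℕ) :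
    ContDiff ℝ ∞ (Kt M n : EuclideanSpace ℝ (Fin N) → ℝ) :=
  (chi_contDiff M).mul (moPhi_contDiff hN n)

lemma Kt_cpt (M : ℝ) (n : ℕ) : HasCompactSupport (Kt M n : EuclideanSpace ℝ (Fin N) → ℝ) :=
  (chi_cpt M).mul_right

lemma Kt_nonneg (hN : 3 ≤ N) (M : ℝ) (n : ℕ) (x : EuclideanSpace ℝ (Fin N)) : 0 ≤ Kt M n x :=
  mul_nonneg (chi_nonneg M x) (moPhi_nonneg hN n x)

lemma Kt_eq {M : ℝ} {n : ℕ} {x : EuclideanSpace ℝ (Fin N)} (hx : ‖x‖ < M) : Kt M n x = moPhi n x := by
  unfold Kt; rw [chi_eq_one hx, one_mul]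

lemma laplacian_Kt (hN : 3 ≤ N) {M : ℝ} {n : ℕ} {x : EuclideanSpace ℝ (Fin N)} (hx : ‖x‖ < M) :
    Laplacian.laplacian (Kt M n) x = - moll n x := by
  rw [← laplacian_moPhi hN]
  refine InnerProductSpace.laplacian_congr_nhds ?_ |>.eq_of_nhds
  have : {y : EuclideanSpace ℝ (Fin N) | ‖y‖ < M} ∈ 𝓝 x :=
    (isOpen_lt continuous_norm continuous_const).mem_nhds hx
  filter_upwards [this] with y hy
  exact Kt_eq hy

/-- potentials with the smooth kernel -/
lemma laplacian_cv_Kt (hN : 3 ≤ N) {ν : Measure (EuclideanSpace ℝ (Fin N))}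
    {f : EuclideanSpace ℝ (Fin N) → ℝ} (hf : LocallyIntegrable f ν) {r : ℝ} {n : ℕ}
    (hfr : ∀ᵐ t ∂ν, r ≤ ‖t‖ → f t = 0) {x : EuclideanSpace ℝ (Fin N)} (hx : ‖x‖ < r) :
    Laplacian.laplacian (cv ν f (Kt (2 * r) n)) x = - cv ν f (moll n) x := by
  rw [laplacian_cv hf (Kt_contDiff hN _ n) (Kt_cpt _ n)]
  unfold cv
  rw [← integral_neg]
  refine integral_congr_ae ?_
  filter_upwards [hfr] with t ht
  by_cases h : r ≤ ‖t‖
  · rw [ht h]; simp
  · rw [laplacian_Kt hN]
    · ring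
    · have := norm_sub_le x t
      linarith

end

end Pool.Agent.H19.Good
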