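import Pool.Agent.H19.Good.Trunc

/-!
Potentials of bounded functions.
-/

open MeasureTheory Set Filter Topology
open scoped Real ENNReal NNReal ContDiff Laplacian Pointwise

namespace Pool.Agent.H19.Good

noncomputable section

variable {N : ℕ}

variable {Ω O : Set (EuclideanSpace ℝ (Fin N))}

/-- Newtonian potential of a function -/
def pot (s : EuclideanSpace ℝ (Fin N) → ℝ) (x : EuclideanSpace ℝ (Fin N)) : ℝ := ∫ y, s y * Phi (x - y)

lemma pot_eq_cv (s : EuclideanSpace ℝ (Fin N) → ℝ) : pot s = cv volume s Phi := rfl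

/-- bounded measurable functions supported in a ball -/
structure Bd (r C : ℝ) (s : EuclideanSpace ℝ (Fin N) → ℝ) : Prop where
  meas : Measurable s
  bdd : ∀ x, |s x| ≤ C
  supp : ∀ x, r ≤ ‖x‖ → s x = 0

variable {r C M : ℝ} {s : EuclideanSpace ℝ (Fin N) → ℝ}

lemma Bd.C_nonneg (h : Bd r C s) : 0 ≤ C := (abs_nonneg _).trans (h.bdd 0)

lemma Bd.integrable (h : Bd r C s) : Integrable s :=
  bdd_integrable (Ω := Metric.ball 0 r) measurableSet_ball Metric.isBounded_ball h.meas h.bdd
    (fun x hx => h.supp x (by simpa using hx))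

lemma Bd.memLp (h : Bd r C s) : MemLp s 2 := by
  have h1 : MemLp ((Metric.ball (0 : EuclideanSpace ℝ (Fin N)) r).indicator (fun _ => C)) 2 :=
    memLp_indicator_const 2 measurableSet_ball C (Or.inr measure_ball_lt_top.ne)
  refine h1.mono' h.meas.aestronglyMeasurable (Eventually.of_forall fun x => ?_)
  by_cases hx : x ∈ Metric.ball (0 : EuclideanSpace ℝ (Fin N)) r
  · rw [indicator_of_mem hx]; exact h.bdd x
  · rw [indicator_of_notMem hx, h.supp x (by simpa using hx)]; simp

lemma Bd.pot_integrand (h : Bd r C s) (hN : 3 ≤ N) (x : EuclideanSpace ℝ (Fin N)) :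
    Integrable (fun t => s t * Phi (x - t)) := by
  have h1 : Integrable (fun t => C * PhiT (‖x‖ + r) (x - t)) :=
    ((PhiT_integrable hN _).comp_sub_left x).const_mul C
  refine h1.mono' ?_ (Eventually.of_forall fun t => ?_)
  · exact (h.meas.mul (Phi_measurable.comp (measurable_const.sub measurable_id))).aestronglyMeasurable
  · by_cases ht : r ≤ ‖t‖
    · rw [h.supp t ht]
      simp only [zero_mul, norm_zero]
      have := h.C_nonneg
      exact mul_nonneg this (indicator_nonneg (fun _ _ => Phi_nonneg hN _) _)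
    · have h2 : ‖x - t‖ < ‖x‖ + r := by
        have := norm_sub_le x t
        linarith
      unfold PhiT
      rw [indicator_of_mem (by simpa using h2), norm_mul, Real.norm_of_nonneg (Phi_nonneg hN _)]
      exact mul_le_mul_of_nonneg_right (h.bdd t) (Phi_nonneg hN _)

lemma pot_nonneg (hN : 3 ≤ N) (hs : ∀ x, 0 ≤ s x) (x : EuclideanSpace ℝ (Fin N)) : 0 ≤ pot s x :=
  integral_nonneg fun t => mul_nonneg (hs t) (Phi_nonneg hN _)

/-- uniform approximation of potentials -/
lemma Bd.pot_unif (h : Bd r C s) (hN : 3 ≤ N) (hrM : r ≤ M) (n : ℕ) {x : EuclideanSpace ℝ (Fin N)}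
    (hx : ‖x‖ ≤ M) : |cv volume s (Kt (2 * M) n) x - pot s x| ≤ C * dk N (2 * M) n := by
  rw [pot_eq_cv]
  unfold cv
  rw [← integral_sub (cv_integrand_integrable h.integrable.locallyIntegrable
    (Kt_contDiff hN _ n).continuous (Kt_cpt _ n) x) (h.pot_integrand hN x)]
  set D : EuclideanSpace ℝ (Fin N) → ℝ := (Metric.ball 0 (2 * M)).indicator
    (fun x => |moPhi n x - Phi x|) with hD
  have hDi : Integrable D := by
    rw [hD, integrable_indicator_iff measurableSet_ball]
    exact ((moPhi_integrableOn hN _ n).sub (Phi_integrableOn_ball hN _)).abs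
  have e : dk N (2 * M) n = ∫ t, D (x - t) := by
    rw [integral_sub_left_eq_self D volume x, hD, integral_indicator measurableSet_ball]
    rfl
  rw [e, ← integral_const_mul]
  refine abs_integral_le_integral_abs.trans (integral_mono_of_nonneg
    (Eventually.of_forall fun t => abs_nonneg _) ((hDi.comp_sub_left x).const_mul C)
    (Eventually.of_forall fun t => ?_))
  simp only
  by_cases ht : r ≤ ‖t‖
  · rw [h.supp t ht]
    simp only [zero_mul, sub_zero, abs_zero]
    exact mul_nonneg h.C_nonneg (indicator_nonneg (fun _ _ => abs_nonneg _) _)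
  · have h2 : ‖x - t‖ < 2 * M := by
      have := norm_sub_le x t
      linarith
    rw [hD, indicator_of_mem (by simpa using h2), Kt_eq h2, ← mul_sub, abs_mul]
    exact mul_le_mul_of_nonneg_right (h.bdd t) (abs_nonneg _)

lemma Bd.pot_continuous (h : Bd r C s) (hN : 3 ≤ N) : Continuous (pot s) := by
  rw [continuous_iff_continuousAt]
  intro x0
  set M := max r (‖x0‖ + 1) with hM
  have h1 : TendstoUniformlyOn (fun n => cv volume s (Kt (2 * M) n)) (pot s) atTop
      (Metric.closedBall 0 M) := by
    rw [Metric.tendstoUniformlyOn_iff]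
    intro ε hε
    have h2 := (dk_lim (N := N) hN (2 * M)).const_mul C
    rw [mul_zero] at h2
    filter_upwards [h2.eventually (gt_mem_nhds hε)] with n hn x hx
    rw [dist_comm, Real.dist_eq]
    exact (h.pot_unif hN (le_max_left _ _) n (by
      rwa [Metric.mem_closedBall, dist_zero_right] at hx)).trans_lt hn
  have h3 : ContinuousOn (pot s) (Metric.closedBall 0 M) := by
    refine h1.continuousOn (Eventually.of_forall fun n => ?_).frequently
    exact (cv_contDiff h.integrable.locallyIntegrable (Kt_contDiff hN _ n) (Kt_cpt _ n)).continuous.continuousOn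
  refine h3.continuousAt ?_
  have h4 : Metric.ball (0 : EuclideanSpace ℝ (Fin N)) M ∈ 𝓝 x0 := by
    refine Metric.isOpen_ball.mem_nhds ?_
    simp only [Metric.mem_ball, dist_zero_right]
    have := le_max_right r (‖x0‖ + 1)
    linarith
  exact mem_of_superset h4 Metric.ball_subset_closedBall

/-- far field bound -/
lemma Bd.pot_far (h : Bd r C s) (hN : 3 ≤ N) (hs : ∀ x, 0 ≤ s x) {δ : ℝ} (hδ : 0 < δ)
    {x : EuclideanSpace ℝ (Fin N)} (hx : ∀ t, s t ≠ 0 → δ ≤ ‖x - t‖) :
    pot s x ≤ kap N / δ ^ (N - 2) * ∫ t, s t := by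
  unfold pot
  rw [← integral_const_mul]
  refine integral_mono (h.pot_integrand hN x) (h.integrable.const_mul _) fun t => ?_
  simp only
  by_cases ht : s t = 0
  · rw [ht]; simp
  · rw [mul_comm]
    exact mul_le_mul_of_nonneg_right (Phi_le_of_le hN hδ (hx t ht)) (hs t)

/-- small ball integral of the kernel -/
def AA (N : ℕ) (δ : ℝ) : ℝ := ∫ t : EuclideanSpace ℝ (Fin N), PhiT δ t

lemma AA_nonneg (hN : 3 ≤ N) (δ : ℝ) : 0 ≤ AA N δ :=
  integral_nonneg fun t => indicator_nonneg (fun _ _ => Phi_nonneg hN _) t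

lemma AA_lim (hN : 3 ≤ N) : Tendsto (fun n : ℕ => AA N (1 / ((n : ℝ) + 1))) atTop (𝓝 0) := by
  have h1 : Tendsto (fun n : ℕ => ∫ t in Metric.ball (0 : EuclideanSpace ℝ (Fin N)) (1 / ((n : ℝ) + 1)), Phi t)
      atTop (𝓝 (∫ t in ⋂ n : ℕ, Metric.ball (0 : EuclideanSpace ℝ (Fin N)) (1 / ((n : ℝ) + 1)), Phi t)) := by
    refine tendsto_setIntegral_of_antitone (fun i => measurableSet_ball) (fun i j hij => ?_)
      ⟨0, Phi_integrableOn_ball hN _⟩
    exact Metric.ball_subset_ball (one_div_le_one_div_of_le (by positivity) (by gcongr))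
  have h2 : ⋂ n : ℕ, Metric.ball (0 : EuclideanSpace ℝ (Fin N)) (1 / ((n : ℝ) + 1)) ⊆ {0} := by
    intro x hx
    rw [mem_iInter] at hx
    by_contra hne
    have h3 : 0 < ‖x‖ := norm_pos_iff.2 hne
    obtain ⟨n, hn⟩ := exists_nat_one_div_lt h3
    have := hx n
    simp only [Metric.mem_ball, dist_zero_right] at this
    linarith
  have h3 : ∫ t in ⋂ n : ℕ, Metric.ball (0 : EuclideanSpace ℝ (Fin N)) (1 / ((n : ℝ) + 1)), Phi t = 0 := by
    have : Nontrivial (EuclideanSpace ℝ (Fin N)) := nontrivial_E hN
    refine setIntegral_measure_zero _ (measure_mono_null h2 ?_)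
    exact measure_singleton 0
  rw [h3] at h1
  refine h1.congr fun n => ?_
  unfold AA PhiT
  rw [integral_indicator measurableSet_ball]

/-- near/far bound -/
lemma Bd.pot_bound (h : Bd r C s) (hN : 3 ≤ N) {δ : ℝ} (hδ : 0 < δ) (x : EuclideanSpace ℝ (Fin N)) :
    |pot s x| ≤ C * AA N δ + kap N / δ ^ (N - 2) * ∫ t, |s t| := by
  have i1 : Integrable (fun t => C * PhiT δ (x - t)) :=
    ((PhiT_integrable (N := N) hN δ).comp_sub_left x).const_mul C
  have i2 : Integrable (fun t => kap N / δ ^ (N - 2) * |s t|) := h.integrable.abs.const_mul _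
  have e : C * AA N δ = ∫ t, C * PhiT δ (x - t) := by
    rw [integral_const_mul, integral_sub_left_eq_self (PhiT δ) volume x]; rfl
  rw [e, ← integral_const_mul, ← integral_add i1 i2]
  unfold pot
  refine abs_integral_le_integral_abs.trans (integral_mono (h.pot_integrand hN x).abs (i1.add i2) fun t => ?_)
  simp only
  have hk := kap_pos hN
  have hC := h.C_nonneg
  by_cases ht : ‖x - t‖ < δ
  · unfold PhiT
    rw [indicator_of_mem (by simpa using ht), abs_mul, abs_of_nonneg (Phi_nonneg hN _)]
    have h1 := mul_le_mul_of_nonneg_right (h.bdd t) (Phi_nonneg hN (x - t))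
    have h2 : 0 ≤ kap N / δ ^ (N - 2) * |s t| := by positivity
    linarith
  · have ht' : δ ≤ ‖x - t‖ := not_lt.1 ht
    unfold PhiT
    rw [indicator_of_notMem (by simpa using ht'), mul_zero, zero_add, abs_mul,
      abs_of_nonneg (Phi_nonneg hN _), mul_comm]
    exact mul_le_mul_of_nonneg_right (Phi_le_of_le hN hδ ht') (abs_nonneg _)

/-- comparison, set-integral form -/
lemma comp_set (hN : 0 < N) (hΩo : IsOpen Ω) {R : ℝ} (hR : 0 < R) (hΩ : Ω ⊆ Metric.ball 0 R)
    {φ u W : EuclideanSpace ℝ (Fin N) → ℝ}
    (hu : Weak Ω φ u) (hW : ContDiff ℝ ∞ W) (hWf : ∀ x ∈ frontier Ω, 0 ≤ W x) {p : ℝ → ℝ} {L : ℝ}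
    (hp : PH p L) :
    ∫ x in Ω, p (u x - W x) ^ 2 ≤
      4 * R ^ 2 * L * ∫ x in Ω, (φ x + Laplacian.laplacian W x) * p (u x - W x) := by
  have h := comp hN hΩo hR hΩ hu hW hWf hp
  have hΩm := hΩo.measurableSet
  rw [← integral_indicator hΩm, ← integral_indicator hΩm]
  have e1 : ∫ x, Ω.indicator (fun x => p (u x - W x) ^ 2) x =
      ∫ x, (Ω.indicator (fun x => p (u x - W x)) x) ^ 2 := by
    refine integral_congr_ae (Eventually.of_forall fun x => ?_)
    by_cases hx : x ∈ Ω
    · simp only [indicator_of_mem hx]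
    · simp only [indicator_of_notMem hx]; simp
  have e2 : ∫ x, Ω.indicator (fun x => (φ x + Laplacian.laplacian W x) * p (u x - W x)) x =
      ∫ x, (φ x + Ω.indicator (Laplacian.laplacian W) x) * Ω.indicator (fun x => p (u x - W x)) x := by
    refine integral_congr_ae (Eventually.of_forall fun x => ?_)
    by_cases hx : x ∈ Ω
    · simp only [indicator_of_mem hx]
    · simp only [indicator_of_notMem hx]; simp
  rw [e1, e2]
  exact h

lemma moPhi_le (hN : 3 ≤ N) (n : ℕ) {z : EuclideanSpace ℝ (Fin N)} (hz : 2 ≤ ‖z‖) :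
    moPhi n z ≤ kap N := by
  unfold moPhi cv
  have h1 : ∫ t, Phi t * moll n (z - t) ≤ ∫ t, kap N * moll n (z - t) := by
    refine integral_mono (cv_integrand_integrable (Phi_locallyIntegrable hN) (moll_continuous n) (moll_cpt n) z)
      (((moll_integrable n).comp_sub_left z).const_mul _) fun t => ?_
    simp only
    by_cases ht : 1 ≤ ‖t‖
    · refine mul_le_mul_of_nonneg_right ?_ (moll_nonneg n _)
      simpa using Phi_le_of_le hN one_pos ht
    · rw [moll_eq_zero n, mul_zero, mul_zero]
      have h2 := norm_sub_norm_le z t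
      have h3 : 1 / ((n : ℝ) + 1) ≤ 1 := by
        rw [div_le_one (by positivity)]
        linarith [(Nat.cast_nonneg n : (0:ℝ) ≤ n)]
      linarith
  refine h1.trans (le_of_eq ?_)
  rw [integral_const_mul, integral_sub_left_eq_self (fun t => moll n t) volume z, moll_integral, mul_one]

/-- potential versus weak solution in the larger ball -/
lemma pot_le_weak (hN : 3 ≤ N) {R : ℝ} (hR : 0 < R) (h : Bd R C s) (hs : ∀ x, 0 ≤ s x)
    {ζ : EuclideanSpace ℝ (Fin N) → ℝ} (hζ : Weak (Metric.ball 0 (R + 2)) s ζ) :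
    ∀ᵐ x, x ∈ Metric.ball (0 : EuclideanSpace ℝ (Fin N)) (R + 2) →
      pot s x ≤ ζ x + kap N * ∫ t, s t := by
  obtain ⟨L, hL, hp⟩ := PH_st
  set RO := R + 2 with hRO
  have hRO0 : 0 < RO := by positivity
  set O := Metric.ball (0 : EuclideanSpace ℝ (Fin N)) RO with hO
  have hOo : IsOpen O := Metric.isOpen_ball
  have hOm : MeasurableSet O := measurableSet_ball
  have hN0 : 0 < N := by omega
  have hOfin : volume O ≠ ⊤ := measure_ball_lt_top.ne
  set c := kap N * ∫ t, s t with hc
  have hsm : ∀ n, ContDiff ℝ ∞ (cv volume s (Kt (2 * RO) n)) := fun n =>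
    cv_contDiff h.integrable.locallyIntegrable (Kt_contDiff hN _ n) (Kt_cpt _ n)
  set W : ℕ → EuclideanSpace ℝ (Fin N) → ℝ := fun n x => c - cv volume s (Kt (2 * RO) n) x with hW
  have hWs : ∀ n, ContDiff ℝ ∞ (W n) := fun n => contDiff_const.sub (hsm n)
  have hWlap : ∀ n, ∀ x ∈ O, Laplacian.laplacian (W n) x = cv volume s (moll n) x := by
    intro n x hx
    have hxR : ‖x‖ < RO := by simpa [hO] using hx
    have h2 : ContDiff ℝ 2 (cv volume s (Kt (2 * RO) n)) := (hsm n).of_le (by norm_cast)
    have e1 : Laplacian.laplacian (W n) x = - Laplacian.laplacian (cv volume s (Kt (2 * RO) n)) x := by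
      rw [← laplacian_comb_neg (hsm n), laplacian_eq_sum ((hWs n).of_le (by norm_cast)),
        laplacian_eq_sum h2.neg]
      refine Finset.sum_congr rfl fun i _ => ?_
      congr 1
      ext y
      unfold pd
      have : W n = fun y => c + (fun z => - cv volume s (Kt (2 * RO) n) z) y := by
        ext y; simp only [hW]; ring
      rw [this, fderiv_const_add]
    rw [e1, laplacian_cv_Kt hN h.integrable.locallyIntegrable
      (Eventually.of_forall fun t ht => h.supp t (by linarith)) hxR, neg_neg]
  have hWf : ∀ n, ∀ x ∈ frontier O, 0 ≤ W n x := by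
    intro n x hx
    have hx2 : ‖x‖ = RO := by
      have := Metric.frontier_ball_subset_sphere hx
      simpa using this
    simp only [hW, sub_nonneg, hc]
    unfold cv
    rw [← integral_const_mul]
    refine integral_mono (cv_integrand_integrable h.integrable.locallyIntegrable
      (Kt_contDiff hN _ n).continuous (Kt_cpt _ n) x) (h.integrable.const_mul _) fun t => ?_
    simp only
    by_cases ht : R ≤ ‖t‖
    · rw [h.supp t ht]; simp
    · have h3 := norm_sub_le x t
      have h4 := norm_sub_norm_le x t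
      rw [Kt_eq (by linarith), mul_comm]
      refine mul_le_mul_of_nonneg_right (moPhi_le hN n (by linarith)) (hs t)
  have hζi : Integrable ζ := weak_integrable hOm Metric.isBounded_ball hζ
  -- the comparison inequality
  have hn : ∀ n, ∫ x in O, Real.smoothTransition (-1 * ζ x + 0 * ζ x - W n x) ^ 2 ≤
      4 * RO ^ 2 * L * ∫ x, |cv volume s (moll n) x - s x| := by
    intro n
    have h1 := comp_set hN0 hOo hRO0 (by rw [hO]) (hζ.comb hζ (-1) 0) (hWs n) (hWf n) hp
    refine h1.trans (mul_le_mul_of_nonneg_left ?_ (by positivity))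
    have i1 : Integrable (fun x => |cv volume s (moll n) x - s x|) :=
      ((cv_integrable h.integrable (moll_integrable n)).sub h.integrable).abs
    refine le_trans ?_ (setIntegral_le_integral (s := O) i1 (Eventually.of_forall fun x => abs_nonneg _))
    refine (le_abs_self _).trans (abs_integral_le_integral_abs.trans ?_)
    refine integral_mono_of_nonneg (Eventually.of_forall fun t => abs_nonneg _) i1.integrableOn ?_
    rw [EventuallyLE, ae_restrict_iff' hOm]
    refine Eventually.of_forall fun x hx => ?_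
    rw [hWlap n x hx, abs_mul]
    have e : -1 * s x + 0 * s x + cv volume s (moll n) x = cv volume s (moll n) x - s x := by ring
    rw [e]
    refine mul_le_of_le_one_right (abs_nonneg _) ?_
    rw [abs_of_nonneg (Real.smoothTransition.nonneg _)]
    exact Real.smoothTransition.le_one _
  have l1 : Tendsto (fun n => 4 * RO ^ 2 * L * ∫ x, |cv volume s (moll n) x - s x|) atTop (𝓝 0) := by
    simpa using (cv_moll_L1 h.integrable).const_mul (4 * RO ^ 2 * L)
  -- limit of the left side
  have hcont : Continuous (pot s) := h.pot_continuous hN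
  have hpi : IntegrableOn (fun x => -1 * ζ x + 0 * ζ x - (c - pot s x)) O := by
    refine ((hζi.const_mul (-1)).add (hζi.const_mul 0)).integrableOn.sub ?_
    have : IntegrableOn (fun x => c - pot s x) (Metric.closedBall 0 RO) :=
      (continuous_const.sub hcont).continuousOn.integrableOn_compact (isCompact_closedBall _ _)
    exact this.mono_set Metric.ball_subset_closedBall
  have hni : ∀ n, IntegrableOn (fun x => -1 * ζ x + 0 * ζ x - W n x) O := by
    intro n
    refine ((hζi.const_mul (-1)).add (hζi.const_mul 0)).integrableOn.sub ?_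
    have : IntegrableOn (W n) (Metric.closedBall 0 RO) :=
      (hWs n).continuous.continuousOn.integrableOn_compact (isCompact_closedBall _ _)
    exact this.mono_set Metric.ball_subset_closedBall
  have l2 : Tendsto (fun n => ∫ x in O, |(-1 * ζ x + 0 * ζ x - W n x) -
      (-1 * ζ x + 0 * ζ x - (c - pot s x))|) atTop (𝓝 0) := by
    have h2 : Tendsto (fun n => C * dk N (2 * RO) n * volume.real O) atTop (𝓝 0) := by
      simpa using ((dk_lim (N := N) hN (2 * RO)).const_mul C).mul_const (volume.real O)
    refine squeeze_zero (fun n => integral_nonneg fun x => abs_nonneg _) (fun n => ?_) h2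
    have h3 : ‖∫ x in O, |(-1 * ζ x + 0 * ζ x - W n x) - (-1 * ζ x + 0 * ζ x - (c - pot s x))|‖ ≤
        C * dk N (2 * RO) n * volume.real O := by
      refine norm_setIntegral_le_of_norm_le_const measure_ball_lt_top fun x hx => ?_
      have hxR : ‖x‖ < RO := by simpa [hO] using hx
      have h4 := h.pot_unif hN (M := RO) (by linarith) n hxR.le
      rw [Real.norm_eq_abs, abs_abs]
      simp only [hW]
      have e : -1 * ζ x + 0 * ζ x - (c - cv volume s (Kt (2 * RO) n) x) -
        (-1 * ζ x + 0 * ζ x - (c - pot s x)) = cv volume s (Kt (2 * RO) n) x - pot s x := by ring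
      rw [e]; exact h4
    rwa [Real.norm_of_nonneg (integral_nonneg fun x => abs_nonneg _)] at h3
  have hbq : ∀ t : ℝ, |Real.smoothTransition t| ≤ 1 := fun t => by
    rw [abs_of_nonneg (Real.smoothTransition.nonneg _)]; exact Real.smoothTransition.le_one _
  have hfm : IsFiniteMeasure (volume.restrict O) := ⟨by
    rw [Measure.restrict_apply_univ]; exact measure_ball_lt_top⟩
  have l3 := tendsto_bl (μ := volume.restrict O) hni hpi (H := fun _ _ => (1:ℝ)) (H' := fun _ => (1:ℝ))
    (fun _ => integrable_const 1) (integrable_const 1) (C := 1) (Eventually.of_forall fun x => by simp)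
    (p := fun t => Real.smoothTransition t ^ 2) (Real.smoothTransition.continuous.pow 2)
    (B := 1) (fun t => by
      rw [abs_pow]; exact pow_le_one₀ (abs_nonneg _) (hbq t)) (L := 2 * L) (fun s t => by
      have e : Real.smoothTransition s ^ 2 - Real.smoothTransition t ^ 2 =
        (Real.smoothTransition s - Real.smoothTransition t) *
        (Real.smoothTransition s + Real.smoothTransition t) := by ring
      rw [e, abs_mul]
      have h5 : |Real.smoothTransition s + Real.smoothTransition t| ≤ 2 := by
        refine (abs_add_le _ _).trans ?_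
        linarith [hbq s, hbq t]
      calc _ ≤ (L * |s - t|) * 2 := by
            gcongr; exact hp.lip s t
        _ = _ := by ring) l2 (by simp)
  simp only [one_mul] at l3
  have h6 := le_of_tendsto_of_tendsto' l3 l1 hn
  have hnn : 0 ≤ᵐ[volume.restrict O] fun x => Real.smoothTransition (-1 * ζ x + 0 * ζ x - (c - pot s x)) ^ 2 :=
    Eventually.of_forall fun x => sq_nonneg _
  have hint : IntegrableOn (fun x => Real.smoothTransition (-1 * ζ x + 0 * ζ x - (c - pot s x)) ^ 2) O := by
    have := (integrable_const (μ := volume.restrict O) (1:ℝ)).bdd_mul (c := 1)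
      (f := fun x => Real.smoothTransition (-1 * ζ x + 0 * ζ x - (c - pot s x)) ^ 2)
      ((Real.smoothTransition.continuous.pow 2).comp_aestronglyMeasurable
        hpi.aestronglyMeasurable) (Eventually.of_forall fun x => by
        rw [Real.norm_eq_abs, abs_pow]; exact pow_le_one₀ (abs_nonneg _) (hbq _))
    refine this.congr (Eventually.of_forall fun x => ?_)
    simp only; ring
  have h9 := (integral_eq_zero_iff_of_nonneg_ae hnn hint).1 (le_antisymm h6
    (integral_nonneg fun x => sq_nonneg _))
  rw [EventuallyEq, ae_restrict_iff' hOm] at h9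
  filter_upwards [h9] with x hx hxO
  have h11 := pow_eq_zero_iff (two_ne_zero) |>.1 (hx hxO)
  rw [Real.smoothTransition.zero_iff_nonpos] at h11
  linarith

end

end Pool.Agent.H19.Good
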