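import Pool.Agent.H19.Good.LemV3

/-!
The truncated problem for positive measures.
-/

open MeasureTheory Set Filter Topology
open scoped Real ENNReal NNReal ContDiff Laplacian Pointwise

namespace Pool.Agent.H19.Good

noncomputable section

/-- bounded Lipschitz functions of `L¹`-convergent sequences -/
lemma tendsto_bl {α : Type*} [MeasurableSpace α] {μ : Measure α} {u H : ℕ → α → ℝ} {u' H' : α → ℝ}
    (hu : ∀ n, Integrable (u n) μ) (hu' : Integrable u' μ) (hH : ∀ n, Integrable (H n) μ)
    (hH' : Integrable H' μ) {C B L : ℝ} (hC : ∀ᵐ x ∂μ, |H' x| ≤ C) {p : ℝ → ℝ} (hpc : Continuous p)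
    (hB : ∀ t, |p t| ≤ B)
    (hL : ∀ s t, |p s - p t| ≤ L * |s - t|)
    (h1 : Tendsto (fun n => ∫ x, |u n x - u' x| ∂μ) atTop (𝓝 0))
    (h2 : Tendsto (fun n => ∫ x, |H n x - H' x| ∂μ) atTop (𝓝 0)) :
    Tendsto (fun n => ∫ x, H n x * p (u n x) ∂μ) atTop (𝓝 (∫ x, H' x * p (u' x) ∂μ)) := by
  rw [tendsto_iff_dist_tendsto_zero]
  have h3 : Tendsto (fun n => B * (∫ x, |H n x - H' x| ∂μ) + C * L * ∫ x, |u n x - u' x| ∂μ) atTop
      (𝓝 0) := by
    simpa using (h2.const_mul B).add (h1.const_mul (C * L))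
  have hm : ∀ {f : α → ℝ}, Integrable f μ → AEStronglyMeasurable (fun x => p (f x)) μ := fun hf =>
    hpc.comp_aestronglyMeasurable hf.aestronglyMeasurable
  have hi : ∀ {f g : α → ℝ}, Integrable f μ → Integrable g μ → Integrable (fun x => f x * p (g x)) μ := by
    intro f g hf hg
    have := hf.bdd_mul (c := B) (hm hg) (Eventually.of_forall fun x => by
      rw [Real.norm_eq_abs]; exact hB _)
    refine this.congr (Eventually.of_forall fun x => ?_)
    simp only; ring
  refine squeeze_zero (fun n => dist_nonneg) (fun n => ?_) h3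
  rw [Real.dist_eq, ← integral_sub (hi (hH n) (hu n)) (hi hH' hu')]
  have i1 : Integrable (fun x => B * |H n x - H' x|) μ := (((hH n).sub hH').abs).const_mul B
  have i2 : Integrable (fun x => C * L * |u n x - u' x|) μ := (((hu n).sub hu').abs).const_mul (C * L)
  calc |∫ x, (H n x * p (u n x) - H' x * p (u' x)) ∂μ| ≤
      ∫ x, |H n x * p (u n x) - H' x * p (u' x)| ∂μ := abs_integral_le_integral_abs
    _ ≤ ∫ x, (B * |H n x - H' x| + C * L * |u n x - u' x|) ∂μ := by
        refine integral_mono_ae ((hi (hH n) (hu n)).sub (hi hH' hu')).abs (i1.add i2) ?_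
        filter_upwards [hC] with x hx
        have e : H n x * p (u n x) - H' x * p (u' x) =
          (H n x - H' x) * p (u n x) + H' x * (p (u n x) - p (u' x)) := by ring
        rw [e]
        refine (abs_add_le _ _).trans ?_
        rw [abs_mul, abs_mul]
        have h4 := hB (u n x)
        have h5 := hL (u n x) (u' x)
        have hC0 : 0 ≤ C := (abs_nonneg _).trans hx
        calc |H n x - H' x| * |p (u n x)| + |H' x| * |p (u n x) - p (u' x)| ≤
            |H n x - H' x| * B + C * (L * |u n x - u' x|) := by gcongr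
          _ = _ := by ring
    _ = _ := by rw [integral_add i1 i2, integral_const_mul, integral_const_mul]

/-- truncated exponential -/
def gp (k : ℕ) (t : ℝ) : ℝ := Real.exp (min (max t 0) k) - 1

lemma gp_nonneg (k : ℕ) (t : ℝ) : 0 ≤ gp k t := by
  unfold gp
  have : 0 ≤ min (max t 0) (k : ℝ) := le_min (le_max_right _ _) (Nat.cast_nonneg k)
  linarith [Real.add_one_le_exp (min (max t 0) (k : ℝ))]

lemma gp_le (k : ℕ) (t : ℝ) : gp k t ≤ Real.exp k := by
  unfold gp
  have : Real.exp (min (max t 0) (k : ℝ)) ≤ Real.exp k := Real.exp_le_exp.2 (min_le_right _ _)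
  linarith

lemma gp_abs_le (k : ℕ) (t : ℝ) : |gp k t| ≤ Real.exp k := by
  rw [abs_of_nonneg (gp_nonneg k t)]; exact gp_le k t

lemma gp_mono (k : ℕ) : Monotone (gp k) := by
  intro s t hst
  unfold gp
  gcongr

lemma gp_mono_k {k l : ℕ} (hkl : k ≤ l) (t : ℝ) : gp k t ≤ gp l t := by
  unfold gp
  gcongr

lemma gp_zero (k : ℕ) {t : ℝ} (ht : t ≤ 0) : gp k t = 0 := by
  unfold gp
  rw [max_eq_right ht, min_eq_left (Nat.cast_nonneg k)]
  simp

lemma gp_le_exp (k : ℕ) {t : ℝ} (ht : 0 ≤ t) : gp k t ≤ Real.exp t := by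
  unfold gp
  rw [max_eq_left ht]
  have : Real.exp (min t (k : ℝ)) ≤ Real.exp t := Real.exp_le_exp.2 (min_le_left _ _)
  linarith

lemma exp_lip {c : ℝ} {a b : ℝ} (ha : a ≤ c) (hb : b ≤ c) :
    |Real.exp a - Real.exp b| ≤ Real.exp c * |a - b| := by
  have key : ∀ a b : ℝ, a ≤ c → b ≤ a → |Real.exp a - Real.exp b| ≤ Real.exp c * |a - b| := by
    intro a b ha hba
    have h1 : Real.exp b ≤ Real.exp a := Real.exp_le_exp.2 hba
    rw [abs_of_nonneg (by linarith), abs_of_nonneg (by linarith)]
    have h2 : Real.exp b = Real.exp a * Real.exp (b - a) := by rw [← Real.exp_add]; congr 1; ring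
    have h3 := Real.add_one_le_exp (b - a)
    have h4 : Real.exp a ≤ Real.exp c := Real.exp_le_exp.2 ha
    calc Real.exp a - Real.exp b = Real.exp a * (1 - Real.exp (b - a)) := by rw [h2]; ring
      _ ≤ Real.exp a * (a - b) := mul_le_mul_of_nonneg_left (by linarith) (Real.exp_pos a).le
      _ ≤ Real.exp c * (a - b) := mul_le_mul_of_nonneg_right h4 (by linarith)
  rcases le_total b a with h | h
  · exact key a b ha h
  · rw [abs_sub_comm, abs_sub_comm a]; exact key b a hb h

lemma gp_lip (k : ℕ) (s t : ℝ) : |gp k s - gp k t| ≤ Real.exp k * |s - t| := by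
  unfold gp
  have e : Real.exp (min (max s 0) (k : ℝ)) - 1 - (Real.exp (min (max t 0) (k : ℝ)) - 1) =
    Real.exp (min (max s 0) (k : ℝ)) - Real.exp (min (max t 0) (k : ℝ)) := by ring
  rw [e]
  refine (exp_lip (min_le_right _ _) (min_le_right _ _)).trans ?_
  refine mul_le_mul_of_nonneg_left ?_ (Real.exp_pos _).le
  refine (abs_min_sub_min_le_max (max s 0) (k:ℝ) (max t 0) (k:ℝ)).trans ?_
  rw [sub_self, abs_zero]
  refine max_le ?_ (abs_nonneg _)
  refine (abs_max_sub_max_le_max s 0 t 0).trans ?_
  rw [sub_self, abs_zero]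
  exact max_le le_rfl (abs_nonneg _)

lemma gp_continuous (k : ℕ) : Continuous (gp k) := by unfold gp; fun_prop

variable {N : ℕ}

variable {Ω O : Set (EuclideanSpace ℝ (Fin N))}

/-- `H = 1_Ω g_k(V + w)` -/
def HH (Ω : Set (EuclideanSpace ℝ (Fin N))) (k : ℕ) (V w : EuclideanSpace ℝ (Fin N) → ℝ)
    (x : EuclideanSpace ℝ (Fin N)) : ℝ :=
  Ω.indicator (fun _ => (1:ℝ)) x * gp k (V x + w x)

lemma ind_nonneg (x : EuclideanSpace ℝ (Fin N)) : 0 ≤ Ω.indicator (fun _ => (1:ℝ)) x :=
  indicator_nonneg (fun _ _ => zero_le_one) x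

lemma ind_le_one (x : EuclideanSpace ℝ (Fin N)) : Ω.indicator (fun _ => (1:ℝ)) x ≤ 1 := by
  by_cases hx : x ∈ Ω
  · rw [indicator_of_mem hx]
  · rw [indicator_of_notMem hx]; exact zero_le_one

lemma HH_nonneg (k : ℕ) (V w : EuclideanSpace ℝ (Fin N) → ℝ) (x : EuclideanSpace ℝ (Fin N)) :
    0 ≤ HH Ω k V w x := mul_nonneg (ind_nonneg x) (gp_nonneg _ _)

lemma HH_le (k : ℕ) (V w : EuclideanSpace ℝ (Fin N) → ℝ) (x : EuclideanSpace ℝ (Fin N)) :
    HH Ω k V w x ≤ Real.exp k := by
  unfold HH
  calc Ω.indicator (fun _ => (1:ℝ)) x * gp k (V x + w x) ≤ 1 * Real.exp k := by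
        gcongr
        · exact gp_nonneg _ _
        · exact ind_le_one x
        · exact gp_le _ _
    _ = _ := one_mul _

lemma HH_zero (k : ℕ) (V w : EuclideanSpace ℝ (Fin N) → ℝ) {x : EuclideanSpace ℝ (Fin N)} (hx : x ∉ Ω) :
    HH Ω k V w x = 0 := by
  unfold HH; rw [indicator_of_notMem hx, zero_mul]

lemma HH_measurable (hΩ : MeasurableSet Ω) (k : ℕ) {V w : EuclideanSpace ℝ (Fin N) → ℝ}
    (hV : Measurable V) (hw : Measurable w) : Measurable (HH Ω k V w) :=
  (measurable_const.indicator hΩ).mul ((gp_continuous k).measurable.comp (hV.add hw))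

lemma bdd_integrable {f : EuclideanSpace ℝ (Fin N) → ℝ} (hΩ : MeasurableSet Ω) (hΩb : Bornology.IsBounded Ω)
    (hf : Measurable f) {C : ℝ} (hC : ∀ x, |f x| ≤ C) (h0 : ∀ x, x ∉ Ω → f x = 0) : Integrable f := by
  have h1 : Integrable (Ω.indicator (fun _ : EuclideanSpace ℝ (Fin N) => C)) := by
    rw [integrable_indicator_iff hΩ]; exact integrableOn_const hΩb.measure_lt_top.ne
  refine h1.mono' hf.aestronglyMeasurable (Eventually.of_forall fun x => ?_)
  by_cases hx : x ∈ Ω
  · rw [indicator_of_mem hx]; exact hC x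
  · rw [indicator_of_notMem hx, h0 x hx]; simp

lemma HH_integrable (hΩ : MeasurableSet Ω) (hΩb : Bornology.IsBounded Ω) (k : ℕ)
    {V w : EuclideanSpace ℝ (Fin N) → ℝ} (hV : Measurable V) (hw : Measurable w) :
    Integrable (HH Ω k V w) :=
  bdd_integrable hΩ hΩb (HH_measurable hΩ k hV hw) (C := Real.exp k) (fun x => by
    rw [abs_of_nonneg (HH_nonneg k V w x)]; exact HH_le k V w x) (fun x hx => HH_zero k V w hx)

/-- existence for the truncated problem -/
lemma exists_trunc (hN : 0 < N) (hΩm : MeasurableSet Ω) {R : ℝ} (hR : 0 < R) (hO : O ⊆ Metric.ball 0 R)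
    (hΩO : Ω ⊆ O) {V : EuclideanSpace ℝ (Fin N) → ℝ} (hV : Measurable V) (k : ℕ) :
    ∃ w, Measurable w ∧ Weak O (fun x => - HH Ω k V w x) w := by
  have hγ : GHyp R (Real.exp k) (Real.exp k) (fun (x : EuclideanSpace ℝ (Fin N)) (t : ℝ) =>
      Ω.indicator (fun _ => (1:ℝ)) x * gp k (V x + t)) := by
    refine ⟨?_, ?_, ?_, ?_, ?_⟩
    · have h1 : Measurable (fun p : EuclideanSpace ℝ (Fin N) × ℝ => Ω.indicator (fun _ => (1:ℝ)) p.1) :=
        (measurable_const.indicator hΩm).comp measurable_fst
      have h2 : Measurable (fun p : EuclideanSpace ℝ (Fin N) × ℝ => gp k (V p.1 + p.2)) :=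
        (gp_continuous k).measurable.comp ((hV.comp measurable_fst).add measurable_snd)
      exact h1.mul h2
    · intro x t
      rw [abs_mul, abs_of_nonneg (ind_nonneg x)]
      calc _ ≤ 1 * Real.exp k := by
            gcongr
            · exact ind_le_one x
            · exact gp_abs_le _ _
        _ = _ := one_mul _
    · intro x s t hst
      simp only
      have h1 := gp_mono k (show V x + s ≤ V x + t by linarith)
      exact mul_le_mul_of_nonneg_left h1 (ind_nonneg x)
    · intro x s t
      rw [← mul_sub, abs_mul, abs_of_nonneg (ind_nonneg x)]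
      have h1 := gp_lip k (V x + s) (V x + t)
      have e : V x + s - (V x + t) = s - t := by ring
      rw [e] at h1
      calc _ ≤ 1 * (Real.exp k * |s - t|) := by
            gcongr
            exact ind_le_one x
        _ = _ := one_mul _
    · intro x hx t
      rw [indicator_of_notMem (fun h => hx (hO (hΩO h))), zero_mul]
  exact exists_weak hN hR hO hγ

section props

variable {m : Measure (EuclideanSpace ℝ (Fin N))} [IsFiniteMeasure m] {R : ℝ}
  {V : EuclideanSpace ℝ (Fin N) → ℝ} {v φ : ℕ → EuclideanSpace ℝ (Fin N) → ℝ} {n : ℕ → ℕ}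

/-- T2: monotonicity in `k` -/
lemma trunc_anti (hN : 0 < N) (hOo : IsOpen O) (hR : 0 < R) (hO : O ⊆ Metric.ball 0 R)
    {k l : ℕ} (hkl : k ≤ l) {w w' : EuclideanSpace ℝ (Fin N) → ℝ}
    (hw : Weak O (fun x => - HH Ω k V w x) w) (hw' : Weak O (fun x => - HH Ω l V w' x) w') :
    ∀ᵐ x, w' x ≤ w x := by
  have h := weak_nonpos hN hOo hR hO (hw'.sub hw) (by
    refine Eventually.of_forall fun x _ hx => ?_
    have h1 : gp k (V x + w x) ≤ gp l (V x + w' x) :=
      (gp_mono_k hkl _).trans (gp_mono l (by linarith))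
    have h2 : HH Ω k V w x ≤ HH Ω l V w' x := mul_le_mul_of_nonneg_left h1 (ind_nonneg x)
    linarith)
  filter_upwards [h] with x hx
  linarith

/-- T4 -/
lemma trunc_nonpos (hN : 0 < N) (hOo : IsOpen O) (hR : 0 < R) (hO : O ⊆ Metric.ball 0 R)
    {k : ℕ} {w : EuclideanSpace ℝ (Fin N) → ℝ}
    (hw : Weak O (fun x => - HH Ω k V w x) w) : ∀ᵐ x, w x ≤ 0 :=
  weak_nonpos hN hOo hR hO hw (Eventually.of_forall fun x _ _ => by
    have := HH_nonneg (Ω := Ω) k V w x
    linarith)

/-- `L¹` restriction of convergence -/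
lemma LV.lim_add (h : LV O m R V v φ n)
    (w : EuclideanSpace ℝ (Fin N) → ℝ) :
    Tendsto (fun j => ∫ x, |(v j x + w x) - (V x + w x)|) atTop (𝓝 0) := by
  refine h.lim.congr fun j => ?_
  refine integral_congr_ae (Eventually.of_forall fun x => ?_)
  simp only
  congr 1; ring

/-- T1: nonnegativity -/
lemma trunc_nonneg (hN : 0 < N) (hΩm : MeasurableSet Ω) (hΩO : Ω ⊆ O) (hOo : IsOpen O) (hR : 0 < R)
    (hO : O ⊆ Metric.ball 0 R) (h : LV O m R V v φ n) {k : ℕ} {w : EuclideanSpace ℝ (Fin N) → ℝ}
    (hwm : Measurable w) (hw : Weak O (fun x => - HH Ω k V w x) w) : ∀ᵐ x, 0 ≤ V x + w x := by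
  obtain ⟨L, hL, hp⟩ := PH_st
  have hOm := hOo.measurableSet
  have hOb : Bornology.IsBounded O := Metric.isBounded_ball.subset hO
  have hwi := weak_integrable hOm hOb hw
  have hvi : ∀ j, Integrable (v j) := fun j => weak_integrable hOm hOb (h.weak j)
  have hHi : Integrable (HH Ω k V w) := HH_integrable hΩm (hOb.subset hΩO) k h.measV hwm
  have hlapz : Laplacian.laplacian (fun _ : EuclideanSpace ℝ (Fin N) => (0:ℝ)) = fun _ => 0 := by
    ext x
    have e : ∀ i : Fin N, pd i (fun _ : EuclideanSpace ℝ (Fin N) => (0:ℝ)) = fun _ => 0 := by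
      intro i; ext y; simp [pd]
    rw [laplacian_eq_sum contDiff_const]
    simp_rw [e]
    simp
  -- inequality at level j
  have hj : ∀ j, ∫ x, O.indicator (fun _ => (1:ℝ)) x * (Real.smoothTransition (-(v j x + w x))) ^ 2 ≤
      4 * R ^ 2 * L * ∫ x, HH Ω k V w x * Real.smoothTransition (-(v j x + w x)) := by
    intro j
    have h1 := comp hN hOo hR hO (((h.weak j).comb hw (-1) (-1))) (W := fun _ => 0) contDiff_const
      (fun _ _ => le_rfl) hp
    have e1 : ∫ x, (O.indicator (fun x => Real.smoothTransition (-1 * v j x + -1 * w x - 0)) x) ^ 2 =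
        ∫ x, O.indicator (fun _ => (1:ℝ)) x * (Real.smoothTransition (-(v j x + w x))) ^ 2 := by
      refine integral_congr_ae (Eventually.of_forall fun x => ?_)
      simp only
      by_cases hx : x ∈ O
      · rw [indicator_of_mem hx, indicator_of_mem hx, one_mul]
        congr 2; ring
      · rw [indicator_of_notMem hx, indicator_of_notMem hx]; ring
    rw [e1] at h1
    refine h1.trans ?_
    refine mul_le_mul_of_nonneg_left ?_ (by positivity)
    have i1 : Integrable (fun x => HH Ω k V w x * Real.smoothTransition (-(v j x + w x))) := by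
      have := hHi.bdd_mul (c := 1) (f := fun x => Real.smoothTransition (-(v j x + w x)))
        (Real.smoothTransition.continuous.comp_aestronglyMeasurable
          ((h.measv j).add hwm).neg.aestronglyMeasurable) (Eventually.of_forall fun x => by
          rw [Real.norm_eq_abs, abs_of_nonneg (Real.smoothTransition.nonneg _)]
          exact Real.smoothTransition.le_one _)
      refine this.congr (Eventually.of_forall fun x => ?_)
      simp only; ring
    refine integral_mono_ae ?_ i1 (Eventually.of_forall fun x => ?_)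
    · have hW2 : MemLp (O.indicator (Laplacian.laplacian (fun _ : EuclideanSpace ℝ (Fin N) => (0:ℝ)))) 2 := by
        rw [hlapz]; exact indicator_cont_memLp continuous_const hOm hOb
      exact mul_integrable (((h.weak j).comb hw (-1) (-1)).memf.add hW2)
        (hp.ind_memLp ((h.weak j).comb hw (-1) (-1)).memu continuous_const hOm hOb)
    · simp only
      by_cases hx : x ∈ O
      · rw [indicator_of_mem hx, indicator_of_mem hx, hlapz]
        have e2 : (-1 * v j x + -1 * w x - 0) = -(v j x + w x) := by ring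
        rw [e2]
        have h3 := Real.smoothTransition.nonneg (-(v j x + w x))
        have h4 := h.φnn j x
        nlinarith
      · rw [indicator_of_notMem hx (fun x => Real.smoothTransition (-1 * v j x + -1 * w x - 0)), mul_zero]
        exact mul_nonneg (HH_nonneg k V w x) (Real.smoothTransition.nonneg _)
  have hu' : Integrable (fun x => -(V x + w x)) := (h.intV.add hwi).neg
  have hun : ∀ j, Integrable (fun x => -(v j x + w x)) := fun j => ((hvi j).add hwi).neg
  have hlim : Tendsto (fun j => ∫ x, |-(v j x + w x) - -(V x + w x)|) atTop (𝓝 0) := by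
    refine h.lim.congr fun j => ?_
    refine integral_congr_ae (Eventually.of_forall fun x => ?_)
    simp only
    rw [← abs_neg]; congr 1; ring
  have hlipq : ∀ s t : ℝ, |Real.smoothTransition s - Real.smoothTransition t| ≤ L * |s - t| := hp.lip
  have hbq : ∀ t : ℝ, |Real.smoothTransition t| ≤ 1 := fun t => by
    rw [abs_of_nonneg (Real.smoothTransition.nonneg _)]; exact Real.smoothTransition.le_one _
  have l1 := tendsto_bl hun hu' (H := fun _ => HH Ω k V w) (fun _ => hHi) hHi (C := Real.exp k)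
    (Eventually.of_forall fun x => by rw [abs_of_nonneg (HH_nonneg k V w x)]; exact HH_le k V w x)
    Real.smoothTransition.continuous hbq hlipq hlim (by simp)
  have hOi : Integrable (O.indicator (fun _ : EuclideanSpace ℝ (Fin N) => (1:ℝ))) := by
    rw [integrable_indicator_iff hOm]; exact integrableOn_const hOb.measure_lt_top.ne
  have l2 := tendsto_bl hun hu' (H := fun _ => O.indicator (fun _ : EuclideanSpace ℝ (Fin N) => (1:ℝ)))
    (fun _ => hOi) hOi (C := 1)
    (Eventually.of_forall fun x => by rw [abs_of_nonneg (ind_nonneg x)]; exact ind_le_one x)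
    (p := fun t => Real.smoothTransition t ^ 2) (Real.smoothTransition.continuous.pow 2)
    (B := 1) (fun t => by
      rw [abs_pow]; exact pow_le_one₀ (abs_nonneg _) (hbq t)) (L := 2 * L) (fun s t => by
      have e : Real.smoothTransition s ^ 2 - Real.smoothTransition t ^ 2 =
        (Real.smoothTransition s - Real.smoothTransition t) *
        (Real.smoothTransition s + Real.smoothTransition t) := by ring
      rw [e, abs_mul]
      have h5 : |Real.smoothTransition s + Real.smoothTransition t| ≤ 2 := by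
        refine (abs_add_le _ _).trans ?_
        linarith [hbq s, hbq t]
      calc _ ≤ (L * |s - t|) * 2 := by
            gcongr; exact hlipq s t
        _ = _ := by ring) hlim (by simp)
  have h6 := le_of_tendsto_of_tendsto' l2 (l1.const_mul (4 * R ^ 2 * L)) hj
  have h7 : ∫ x, HH Ω k V w x * Real.smoothTransition (-(V x + w x)) = 0 := by
    have : ∀ x, HH Ω k V w x * Real.smoothTransition (-(V x + w x)) = 0 := by
      intro x
      rcases le_total (V x + w x) 0 with h8 | h8
      · unfold HH
        rw [gp_zero k h8]; ring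
      · rw [Real.smoothTransition.zero_of_nonpos (by linarith), mul_zero]
    simp_rw [this]
    exact integral_zero _ _
  rw [h7, mul_zero] at h6
  have hint : Integrable (fun x => O.indicator (fun _ => (1:ℝ)) x * (Real.smoothTransition (-(V x + w x))) ^ 2) := by
    have := hOi.bdd_mul (c := 1) (f := fun x => Real.smoothTransition (-(V x + w x)) ^ 2)
      ((Real.smoothTransition.continuous.pow 2).comp_aestronglyMeasurable
        (h.measV.add hwm).neg.aestronglyMeasurable) (Eventually.of_forall fun x => by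
        rw [Real.norm_eq_abs, abs_pow]; exact pow_le_one₀ (abs_nonneg _) (hbq _))
    refine this.congr (Eventually.of_forall fun x => ?_)
    simp only; ring
  have hnn : ∀ x, 0 ≤ O.indicator (fun _ => (1:ℝ)) x * (Real.smoothTransition (-(V x + w x))) ^ 2 :=
    fun x => mul_nonneg (ind_nonneg x) (sq_nonneg _)
  have h9 := (integral_eq_zero_iff_of_nonneg hnn hint).1 (le_antisymm h6 (integral_nonneg hnn))
  filter_upwards [h9, h.zero, hw.ae_zero hOm] with x hx hx1 hx2
  by_cases hxO : x ∈ O
  · have h10 : O.indicator (fun _ => (1:ℝ)) x * (Real.smoothTransition (-(V x + w x))) ^ 2 = 0 := hx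
    rw [indicator_of_mem hxO, one_mul] at h10
    have h11 := pow_eq_zero_iff (two_ne_zero) |>.1 h10
    rw [Real.smoothTransition.zero_iff_nonpos] at h11
    linarith
  · rw [hx1 hxO, hx2 hxO, add_zero]

end props

end

end Pool.Agent.H19.Good
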